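import Pool.Agent.TH818.AP.DefsLi
import Pool.Agent.TH818.AR.Tr
import Pool.Agent.TH818.AR.Ind

/-!
# Algebraic independence of `t`, `log t`, `Li_1(t)`, …, `Li_w(t)`
-/

set_option autoImplicit false

open Set Polynomial Filter Topology

namespace Pool.Agent.TH818.AP.LiI

open Pool.Agent.TH818.AR Pool.Agent.TH818.AR.IndL

variable {w d : ℕ}

/-- the relation -/
noncomputable def FF (p : (Fin (w + 1) → Fin (d + 1)) → ℝ[X]) (t : ℝ) (y : Fin (w + 1) → ℝ) : ℝ :=
  ∑ e : Fin (w + 1) → Fin (d + 1), (p e).eval t * ∏ k, y k ^ (e k : ℕ)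

lemma anP_prod {ι : Type} (s : Finset ι) {P : ι → ℝ → ℝ[X]} (hP : ∀ i, AnP (P i)) :
    AnP (fun x => ∏ i ∈ s, P i x) := by
  classical
  induction s using Finset.induction_on with
  | empty => simpa using AnP.const 1
  | insert a s ha ih =>
    simp only [Finset.prod_insert ha]
    exact (hP a).mul ih

/-- the logarithm can be replaced by any number -/
lemma lemA {φ : ℝ → ℝ} (hφ : AnalyticAt ℝ φ 0) (p : (Fin (w + 1) → Fin (d + 1)) → ℝ[X])
    (Y : Fin (w + 1) → ℝ → ℝ[X]) (hY : ∀ k, AnP (Y k)) (D : ℕ)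
    (hD : ∀ k s, (Y k s).natDegree ≤ D)
    (h : ∀ᶠ s in 𝓝[>] (0 : ℝ), FF p (φ s) (fun k => (Y k s).eval (Real.log s)) = 0) :
    ∀ᶠ s in 𝓝 (0 : ℝ), ∀ M : ℝ, FF p (φ s) (fun k => (Y k s).eval M) = 0 := by
  have hev : ∀ s M : ℝ, (∑ e : Fin (w + 1) → Fin (d + 1),
      Polynomial.C ((p e).eval (φ s)) * ∏ k, (Y k s) ^ (e k : ℕ)).eval M =
      FF p (φ s) (fun k => (Y k s).eval M) := by
    intro s M
    rw [eval_finsetSum]
    unfold FF
    refine Finset.sum_congr rfl fun e _ => ?_
    rw [eval_mul, eval_C, eval_prod]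
    simp only [eval_pow]
  have key := tr' tr (κ := 1) (G := fun _ => 0) one_ne_zero analyticAt_const
    (P := fun s => ∑ e : Fin (w + 1) → Fin (d + 1),
      Polynomial.C ((p e).eval (φ s)) * ∏ k, (Y k s) ^ (e k : ℕ))
    (AnP.sum _ (fun e => (AnP.C (an_eval (p e) hφ)).mul
      (anP_prod _ (fun k => (hY k).pow _)))) (∑ _k : Fin (w + 1), d * D)
    (fun s => natDegree_sum_le_of_forall_le _ _ (fun e _ => by
      refine (natDegree_C_mul_le _ _).trans ((natDegree_prod_le _ _).trans ?_)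
      refine Finset.sum_le_sum fun k _ => ?_
      refine natDegree_pow_le.trans ?_
      exact Nat.mul_le_mul (Nat.lt_succ_iff.1 (e k).2) (hD k s)))
    (by
      filter_upwards [h] with s hs
      rw [one_mul, add_zero, hev]
      exact hs)
  filter_upwards [key] with s hs M
  rw [← hev, hs, eval_zero]

/-- the identity theorem on `(0, 1)` -/
lemma identO {f : ℝ → ℝ} (hf : AnalyticOnNhd ℝ f (Ioo 0 1)) {a b : ℝ} (hab : a < b) (ha : 0 ≤ a)
    (hb : b ≤ 1) (h : ∀ t ∈ Ioo a b, f t = 0) : ∀ t ∈ Ioo (0 : ℝ) 1, f t = 0 := by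
  have hx : (a + b) / 2 ∈ Ioo (0 : ℝ) 1 := ⟨by linarith, by linarith⟩
  have hev : ∀ᶠ s in 𝓝 ((a + b) / 2), f s = 0 := by
    filter_upwards [Ioo_mem_nhds (show a < (a + b) / 2 by linarith)
      (show (a + b) / 2 < b by linarith)] with s hs
    exact h s hs
  intro t ht
  exact hf.eqOn_zero_of_preconnected_of_eventuallyEq_zero isPreconnected_Ioo hx hev ht

lemma ident0 {f : ℝ → ℝ} (hf : AnalyticOnNhd ℝ f (Ioo 0 1)) (h : ∀ᶠ s in 𝓝[>] (0 : ℝ), f s = 0) :
    ∀ t ∈ Ioo (0 : ℝ) 1, f t = 0 := by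
  obtain ⟨ε, hε, hs⟩ := mem_nhdsGT_iff_exists_Ioo_subset.1 h
  have hε0 : (0 : ℝ) < ε := hε
  exact identO hf (a := 0) (b := min ε 1) (lt_min hε0 one_pos) le_rfl (min_le_right _ _)
    (fun t ht => hs ⟨ht.1, lt_of_lt_of_le ht.2 (min_le_left _ _)⟩)

lemma ident1 {f : ℝ → ℝ} (hf : AnalyticOnNhd ℝ f (Ioo 0 1))
    (h : ∀ᶠ s in 𝓝[>] (0 : ℝ), f (1 - s) = 0) : ∀ t ∈ Ioo (0 : ℝ) 1, f t = 0 := by
  obtain ⟨ε, hε, hs⟩ := mem_nhdsGT_iff_exists_Ioo_subset.1 h
  have hε0 : (0 : ℝ) < ε := hε
  have hm : (0 : ℝ) < min ε 1 := lt_min hε0 one_pos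
  refine identO hf (a := 1 - min ε 1) (b := 1) (by linarith)
    (by linarith [min_le_right ε 1]) le_rfl (fun t ht => ?_)
  have h2 : (1 - t) ∈ Ioo 0 ε := ⟨by linarith [ht.2], by linarith [ht.1, min_le_left ε 1]⟩
  have h3 : f (1 - (1 - t)) = 0 := hs h2
  rwa [sub_sub_cancel] at h3

/-- analyticity of the relation -/
lemma an_FF (p : (Fin (w + 1) → Fin (d + 1)) → ℝ[X]) {y : Fin (w + 1) → ℝ → ℝ} {t : ℝ}
    (hy : ∀ k, AnalyticAt ℝ (y k) t) : AnalyticAt ℝ (fun s => FF p s (fun k => y k s)) t := by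
  unfold FF
  refine Finset.analyticAt_fun_sum _ (fun e _ => ?_)
  refine (an_eval (p e) analyticAt_id).fun_mul ?_
  exact Finset.analyticAt_fun_prod _ (fun k _ => (hy k).fun_pow _)

/-- the argument -/
noncomputable def yv (L : ℝ) (c : ℕ → ℝ) (t : ℝ) (k : Fin (w + 1)) : ℝ :=
  if (k : ℕ) = 0 then L else Li k t - c k

/-- the vector `(M^(k-1)/(k-1)!)_k` -/
noncomputable def vM (M : ℝ) (k : ℕ) : ℝ := M ^ (k - 1) / ((k - 1).factorial : ℝ)

/-- the set of the translations -/
def VV (p : (Fin (w + 1) → Fin (d + 1)) → ℝ[X]) (c : ℕ → ℝ) : Prop :=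
  ∀ L : ℝ, ∀ t ∈ Ioo (0 : ℝ) 1, FF p t (yv L c t) = 0

lemma an_li (h1 : T_liAn) (k : ℕ) {t : ℝ} (h0 : 0 ≤ t) (ht : t < 1) : AnalyticAt ℝ (Li k) t :=
  h1 k t ⟨by linarith, ht⟩

lemma an_yv (h1 : T_liAn) (L : ℝ) (c : ℕ → ℝ) (k : Fin (w + 1)) {t : ℝ} (h0 : 0 ≤ t) (ht : t < 1) :
    AnalyticAt ℝ (fun s => yv L c s k) t := by
  unfold yv
  by_cases hk : (k : ℕ) = 0
  · simp only [hk, if_true]
    exact analyticAt_const
  · simp only [hk, if_false]
    exact (an_li h1 k h0 ht).fun_sub analyticAt_const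

lemma VV_zero (h1 : T_liAn) (p : (Fin (w + 1) → Fin (d + 1)) → ℝ[X])
    (h : ∀ t ∈ Ioo (0 : ℝ) 1, FF p t (fun k => pl k t) = 0) : VV p 0 := by
  have key := lemA (w := w) (d := d) analyticAt_id p
    (fun k s => if (k : ℕ) = 0 then X else Polynomial.C (Li k s))
    (fun k => by
      by_cases hk : (k : ℕ) = 0
      · simp only [hk, if_true]
        exact AnP.const X
      · simp only [hk, if_false]
        exact AnP.C (an_li h1 k le_rfl one_pos)) 1
    (fun k s => by
      split_ifs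
      · exact natDegree_X_le
      · simp)
    (by
      filter_upwards [Ioo_mem_nhdsGT (zero_lt_one' ℝ)] with s hs
      rw [← h s hs]
      congr 1
      funext k
      unfold pl
      split_ifs <;> simp)
  intro L
  refine ident0 (fun t ht => an_FF p (fun k => an_yv h1 L 0 k ht.1.le ht.2)) ?_
  filter_upwards [key.filter_mono nhdsWithin_le_nhds] with s hs
  have h2 := hs L
  rw [← h2]
  congr 1
  funext k
  unfold yv
  split_ifs <;> simp

lemma VV_step (h1 : T_liAn) (h2 : T_liLoc) (p : (Fin (w + 1) → Fin (d + 1)) → ℝ[X]) {c : ℕ → ℝ}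
    (h : VV p c) (μ M : ℝ) : VV p (fun k => c k + μ * vM M k) := by
  intro L
  -- the singularity at one
  have hloc : ∀ k : Fin (w + 1), ∃ H : ℝ → ℝ, AnalyticAt ℝ H 1 ∧ ((k : ℕ) ≠ 0 → ∀ᶠ t in 𝓝[<] (1 : ℝ),
      Li k t = H t - vM (Real.log t) k * Real.log (1 - t)) := by
    intro k
    by_cases hk : (k : ℕ) = 0
    · exact ⟨fun _ => 0, analyticAt_const, fun h => absurd hk h⟩
    · obtain ⟨H, hH, hev⟩ := h2 k (Nat.one_le_iff_ne_zero.2 hk)
      exact ⟨H, hH, fun _ => hev⟩
  choose H hH hev using hloc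
  have h1s : AnalyticAt ℝ (fun s : ℝ => 1 - s) 0 := analyticAt_const.fun_sub analyticAt_id
  have hHs : ∀ k, AnalyticAt ℝ (fun s : ℝ => H k (1 - s)) 0 := by
    intro k
    have h3 : AnalyticAt ℝ (H k) ((fun s : ℝ => 1 - s) 0) := by simpa using hH k
    exact h3.fun_comp h1s
  have hlog : AnalyticAt ℝ (fun s : ℝ => Real.log (1 - s)) 0 := by
    have h3 : AnalyticAt ℝ Real.log ((fun s : ℝ => 1 - s) 0) := by
      apply _root_.analyticAt_log
      norm_num
    exact h3.fun_comp h1s
  have hvM : ∀ k : ℕ, AnalyticAt ℝ (fun s : ℝ => vM (Real.log (1 - s)) k) 0 := by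
    intro k
    unfold vM
    exact (hlog.fun_pow _).fun_div analyticAt_const (by positivity)
  have htend : Tendsto (fun s : ℝ => 1 - s) (𝓝[>] 0) (𝓝[<] 1) := by
    rw [tendsto_nhdsWithin_iff]
    constructor
    · have h4 : Continuous fun x : ℝ => 1 - x := by fun_prop
      have h5 := h4.tendsto 0
      rw [sub_zero] at h5
      exact h5.mono_left nhdsWithin_le_nhds
    · filter_upwards [self_mem_nhdsWithin] with x hx
      have hx' : 0 < x := hx
      show 1 - x < 1
      linarith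
  have hev' : ∀ᶠ s in 𝓝[>] (0 : ℝ), ∀ k : Fin (w + 1), (k : ℕ) ≠ 0 →
      Li k (1 - s) = H k (1 - s) - vM (Real.log (1 - s)) k * Real.log s := by
    rw [eventually_all]
    intro k
    by_cases hk : (k : ℕ) = 0
    · exact Eventually.of_forall fun s h => absurd hk h
    · filter_upwards [htend.eventually (hev k hk)] with s hs _
      rw [hs, sub_sub_cancel]
  have key := lemA (w := w) (d := d) h1s p
    (fun k s => if (k : ℕ) = 0 then Polynomial.C L else
      Polynomial.C (H k (1 - s) - c k) + Polynomial.C (-vM (Real.log (1 - s)) k) * X)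
    (fun k => by
      by_cases hk : (k : ℕ) = 0
      · simp only [hk, if_true]
        exact AnP.const _
      · simp only [hk, if_false]
        exact (AnP.C ((hHs k).fun_sub analyticAt_const)).add
          ((AnP.C (hvM k).fun_neg).mul (AnP.const X))) 1
    (fun k s => by
      split_ifs
      · simp
      · exact deg2 _ _)
    (by
      filter_upwards [hev', Ioo_mem_nhdsGT (zero_lt_one' ℝ)] with s hs hs1
      rw [← h L (1 - s) ⟨by linarith [hs1.2], by linarith [hs1.1]⟩]
      congr 1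
      funext k
      unfold yv
      split_ifs with hk
      · simp
      · rw [hs k hk]
        simp
        ring)
  -- the relation with powers of the logarithm
  have hT : ∀ t ∈ Ioo (0 : ℝ) 1, FF p t (yv L (fun k => c k + μ * vM (Real.log t) k) t) = 0 := by
    have han : AnalyticOnNhd ℝ (fun t : ℝ => FF p t (yv (w := w) L
        (fun k => c k + μ * vM (Real.log t) k) t)) (Ioo 0 1) := by
      intro t ht
      refine an_FF p (y := fun k s => yv L (fun k => c k + μ * vM (Real.log s) k) s k) (fun k => ?_)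
      unfold yv
      by_cases hk : (k : ℕ) = 0
      · simp only [hk, if_true]
        exact analyticAt_const
      · simp only [hk, if_false]
        refine (an_li h1 k ht.1.le ht.2).fun_sub (analyticAt_const.fun_add
          (analyticAt_const.fun_mul ?_))
        unfold vM
        exact ((_root_.analyticAt_log ht.1).fun_pow _).fun_div analyticAt_const (by positivity)
    refine ident1 han ?_
    filter_upwards [key.filter_mono nhdsWithin_le_nhds, hev'] with s hs hs2
    have h3 := hs (Real.log s + μ)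
    rw [← h3]
    congr 1
    funext k
    unfold yv
    split_ifs with hk
    · simp
    · rw [hs2 k hk]
      simp
      ring
  have key2 := lemA (w := w) (d := d) analyticAt_id p
    (fun k s => if (k : ℕ) = 0 then Polynomial.C L else
      Polynomial.C (Li k s - c k) + Polynomial.C (-μ / (((k : ℕ) - 1).factorial : ℝ)) * X ^ ((k : ℕ) - 1))
    (fun k => by
      by_cases hk : (k : ℕ) = 0
      · simp only [hk, if_true]
        exact AnP.const _
      · simp only [hk, if_false]
        exact (AnP.C ((an_li h1 k le_rfl one_pos).fun_sub analyticAt_const)).add (AnP.const _)) w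
    (fun k s => by
      split_ifs
      · simp
      · refine (natDegree_add_le _ _).trans (max_le (by simp) ?_)
        refine (natDegree_C_mul_le _ _).trans ?_
        rw [natDegree_X_pow]
        have := k.2
        omega)
    (by
      filter_upwards [Ioo_mem_nhdsGT (zero_lt_one' ℝ)] with s hs1
      rw [← hT s hs1]
      congr 1
      funext k
      unfold yv vM
      split_ifs with hk
      · simp
      · simp
        ring)
  refine ident0 (fun t ht => an_FF p (fun k => an_yv h1 L _ k ht.1.le ht.2)) ?_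
  filter_upwards [key2.filter_mono nhdsWithin_le_nhds] with s hs
  have h3 := hs M
  rw [← h3]
  congr 1
  funext k
  unfold yv vM
  split_ifs
  · simp
  · simp
    ring

lemma VV_sum (h1 : T_liAn) (h2 : T_liLoc) (p : (Fin (w + 1) → Fin (d + 1)) → ℝ[X])
    (h : VV p 0) {ι : Type} (s : Finset ι) (μ M : ι → ℝ) :
    VV p (fun k => ∑ i ∈ s, μ i * vM (M i) k) := by
  classical
  induction s using Finset.induction_on with
  | empty =>
    have e : (fun k => ∑ i ∈ (∅ : Finset ι), μ i * vM (M i) k) = (0 : ℕ → ℝ) := by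
      funext k
      simp
    rw [e]
    exact h
  | insert a s ha ih =>
    have h3 := VV_step h1 h2 p ih (μ a) (M a)
    have e : (fun k => ∑ i ∈ insert a s, μ i * vM (M i) k) =
        fun k => ∑ i ∈ s, μ i * vM (M i) k + μ a * vM (M a) k := by
      funext k
      rw [Finset.sum_insert ha, add_comm]
    rw [e]
    exact h3

/-- Vandermonde -/
lemma vand (w : ℕ) (x : ℕ → ℝ) : ∃ μ : Fin w → ℝ, ∀ k : ℕ, 1 ≤ k → k ≤ w →
    ∑ i, μ i * vM ((i : ℕ) : ℝ) k = x k := by
  set A : Matrix (Fin w) (Fin w) ℝ := Matrix.vandermonde (fun i : Fin w => ((i : ℕ) : ℝ)) with hA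
  have hdet : A.det ≠ 0 := by
    rw [hA, Matrix.det_vandermonde_ne_zero_iff]
    intro i j hij
    have : ((i : ℕ) : ℝ) = ((j : ℕ) : ℝ) := hij
    exact Fin.ext (by exact_mod_cast this)
  have hu : IsUnit A := (Matrix.isUnit_iff_isUnit_det A).2 (isUnit_iff_ne_zero.2 hdet)
  obtain ⟨μ, hμ⟩ := Matrix.vecMul_surjective_iff_isUnit.2 hu
    (fun j : Fin w => x ((j : ℕ) + 1) * (((j : ℕ).factorial : ℕ) : ℝ))
  refine ⟨μ, fun k hk1 hkw => ?_⟩
  have h3 := congrFun hμ ⟨k - 1, by omega⟩
  simp only [Matrix.vecMul, dotProduct, hA, Matrix.vandermonde_apply] at h3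
  have hk : k - 1 + 1 = k := by omega
  rw [hk] at h3
  unfold vM
  have hf : (((k - 1).factorial : ℕ) : ℝ) ≠ 0 := by positivity
  have e : ∑ i, μ i * (((i : ℕ) : ℝ) ^ (k - 1) / ((k - 1).factorial : ℝ)) =
      (∑ i, μ i * ((i : ℕ) : ℝ) ^ (k - 1)) / ((k - 1).factorial : ℝ) := by
    rw [Finset.sum_div]
    refine Finset.sum_congr rfl fun i _ => ?_
    ring
  rw [e, h3]
  field_simp

/-- a polynomial that vanishes everywhere is zero -/
lemma coef_zero (q : (Fin (w + 1) → Fin (d + 1)) → ℝ)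
    (h : ∀ y : Fin (w + 1) → ℝ, ∑ e, q e * ∏ k, y k ^ (e k : ℕ) = 0) : ∀ e, q e = 0 := by
  classical
  set em : (Fin (w + 1) → Fin (d + 1)) → (Fin (w + 1) →₀ ℕ) := fun e =>
    Finsupp.equivFunOnFinite.symm (fun k => (e k : ℕ)) with hem
  have hinj : Function.Injective em := by
    intro e e' he
    funext k
    have := DFunLike.congr_fun he k
    simp only [hem, Finsupp.equivFunOnFinite_symm_apply_apply] at this
    exact Fin.ext this
  set Q : MvPolynomial (Fin (w + 1)) ℝ := ∑ e, MvPolynomial.monomial (em e) (q e) with hQ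
  have hQ0 : Q = 0 := by
    apply MvPolynomial.funext
    intro y
    rw [hQ, map_sum, map_zero, ← h y]
    refine Finset.sum_congr rfl fun e _ => ?_
    rw [MvPolynomial.eval_monomial, Finsupp.prod_fintype _ _ (fun i => pow_zero _)]
    simp [hem]
  intro e
  have h3 : MvPolynomial.coeff (em e) Q = q e := by
    rw [hQ, MvPolynomial.coeff_sum, Finset.sum_eq_single e]
    · rw [MvPolynomial.coeff_monomial, if_pos rfl]
    · intro e' _ hne
      rw [MvPolynomial.coeff_monomial, if_neg (fun h => hne (hinj h))]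
    · intro h
      exact absurd (Finset.mem_univ _) h
  rw [← h3, hQ0, MvPolynomial.coeff_zero]

end Pool.Agent.TH818.AP.LiI

namespace Pool.Agent.TH818.AP

open Pool.Agent.TH818.AR Pool.Agent.TH818.AR.IndL LiI

theorem liInd_of (h1 : T_liAn) (h2 : T_liLoc) : T_liInd := by
  intro w d a b ha hab hb p hp
  have h0 : ∀ t ∈ Ioo (0 : ℝ) 1, FF p t (fun k => pl k t) = 0 := by
    refine identO ?_ hab ha.le hb.le (fun t ht => ?_)
    · intro t ht
      refine an_FF p (y := fun k s => pl k s) (fun k => ?_)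
      unfold pl
      by_cases hk : (k : ℕ) = 0
      · simp only [hk, if_true]
        exact _root_.analyticAt_log ht.1
      · simp only [hk, if_false]
        exact an_li h1 k ht.1.le ht.2
    · exact hp t ⟨ht.1.le, ht.2.le⟩
  have hV := VV_zero h1 p h0
  have hall : ∀ t ∈ Ioo (0 : ℝ) 1, ∀ y : Fin (w + 1) → ℝ, FF p t y = 0 := by
    intro t ht y
    obtain ⟨μ, hμ⟩ := vand w (fun k => Li k t - (if h : k < w + 1 then y ⟨k, h⟩ else 0))
    have h3 := VV_sum h1 h2 p hV Finset.univ μ (fun i => ((i : ℕ) : ℝ)) (y 0) t ht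
    rw [← h3]
    congr 1
    funext k
    unfold yv
    split_ifs with hk
    · congr 1
      exact Fin.ext hk
    · have h4 := hμ k (Nat.one_le_iff_ne_zero.2 hk) (by have := k.2; omega)
      rw [dif_pos k.2] at h4
      show y k = Li (↑k) t - ∑ i, μ i * vM (((i : ℕ) : ℝ)) (k : ℕ)
      rw [h4, sub_sub_cancel]
  have hz : ∀ e, ∀ t ∈ Ioo (0 : ℝ) 1, (p e).eval t = 0 := by
    intro e t ht
    exact coef_zero (fun e => (p e).eval t) (fun y => hall t ht y) e
  funext e
  apply Polynomial.eq_zero_of_infinite_isRoot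
  exact Set.Infinite.mono (s := Set.Ioo 0 1) (fun t ht => hz e t ht) (Set.Ioo_infinite one_pos)

end Pool.Agent.TH818.AP
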