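import Pool.Agent.TH818.AP.DefsLi

/-!
# Polylogarithms: analyticity and the singularity at 1
(job AP-LILOC of helper818, written by helper541)
-/

set_option autoImplicit false

open Set Polynomial Filter Topology

namespace Pool.Agent.TH818.AP

open Pool.Agent.TH818.AR

namespace LiLoc

/-- a power series with bounded coefficients is analytic in the unit ball -/
theorem series_an (c : ℕ → ℝ) (C : ℝ) (hc : ∀ n, |c n| ≤ C) :
    AnalyticOnNhd ℝ (fun t => ∑' n : ℕ, c n * t ^ n) (Ioo (-1) 1) := by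
  set p := FormalMultilinearSeries.ofScalars ℝ c with hp
  have hrad : (1 : ENNReal) ≤ p.radius := by
    have := p.le_radius_of_bound (r := 1) C (fun n => by
      rw [hp, FormalMultilinearSeries.ofScalars_norm]
      simpa using hc n)
    simpa using this
  have hpos : 0 < p.radius := lt_of_lt_of_le one_pos hrad
  have h1 := p.hasFPowerSeriesOnBall hpos
  have h2 : p.sum = fun t => ∑' n : ℕ, c n * t ^ n := by
    funext t
    unfold FormalMultilinearSeries.sum
    refine tsum_congr fun n => ?_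
    rw [hp]
    simp
    ring
  rw [h2] at h1
  have h3 := h1.analyticOnNhd
  refine h3.mono fun t ht => ?_
  have : t ∈ Metric.eball (0 : ℝ) 1 := by
    rw [Metric.mem_eball, edist_dist, Real.dist_eq, sub_zero]
    have : |t| < 1 := abs_lt.2 ⟨ht.1, ht.2⟩
    rw [← ENNReal.ofReal_one]
    exact (ENNReal.ofReal_lt_ofReal_iff one_pos).2 this
  exact Metric.eball_subset_eball hrad this

theorem Li_eq (k : ℕ) (t : ℝ) : Li k t = t * ∑' n : ℕ, (1 / ((n : ℝ) + 1) ^ k) * t ^ n := by
  unfold Li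
  rw [← tsum_mul_left]
  refine tsum_congr fun n => ?_
  rw [pow_succ]
  ring

end LiLoc

open LiLoc in
theorem liAn : T_liAn := by
  intro k
  have h1 := series_an (fun n : ℕ => 1 / ((n : ℝ) + 1) ^ k) 1 (fun n => by
    have h0 : (1 : ℝ) ≤ (n : ℝ) + 1 := by linarith [Nat.cast_nonneg (α := ℝ) n]
    have h1 : (1 : ℝ) ≤ ((n : ℝ) + 1) ^ k := one_le_pow₀ h0
    rw [abs_of_nonneg (by positivity), div_le_one (by positivity)]
    exact h1)
  have h2 : Li k = fun t => t * ∑' n : ℕ, (1 / ((n : ℝ) + 1) ^ k) * t ^ n := funext (Li_eq k)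
  rw [h2]
  exact analyticOnNhd_id.mul h1

namespace LiLoc

/-- term by term differentiation -/
theorem hasDeriv_series (a : ℕ → ℝ) {r : ℝ} (hr : 0 < r) (ha : Summable fun n => |a n| * r ^ n)
    {y : ℝ} (hy : |y| < r) :
    HasDerivAt (fun z => ∑' n : ℕ, a n / ((n : ℝ) + 1) * z ^ (n + 1)) (∑' n : ℕ, a n * y ^ n) y := by
  have hmem : ∀ z : ℝ, z ∈ Ioo (-r) r ↔ |z| < r := fun z => abs_lt.symm
  refine hasDerivAt_tsum_of_isPreconnected (t := Ioo (-r) r) (y₀ := 0)
    (g := fun (n : ℕ) z => a n / ((n : ℝ) + 1) * z ^ (n + 1)) (g' := fun (n : ℕ) z => a n * z ^ n)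
    ha isOpen_Ioo isPreconnected_Ioo ?_ ?_ ?_ ?_ ((hmem y).2 hy)
  · intro n z _
    have h0 : (n : ℝ) + 1 ≠ 0 := by positivity
    have := (hasDerivAt_pow (n + 1) z).const_mul (a n / ((n : ℝ) + 1))
    refine this.congr_deriv ?_
    push_cast
    field_simp
  · intro n z hz
    rw [Real.norm_eq_abs, abs_mul, abs_pow]
    exact mul_le_mul_of_nonneg_left (pow_le_pow_left₀ (abs_nonneg _) ((hmem z).1 hz).le _)
      (abs_nonneg _)
  · rw [hmem, abs_zero]; exact hr
  · simp

theorem Li_deriv (k : ℕ) {t : ℝ} (h0 : 0 < t) (h1 : t < 1) :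
    HasDerivAt (Li (k + 1)) (Li k t / t) t := by
  obtain ⟨r, hr1, hr2⟩ := exists_between h1
  have hs : Summable fun n : ℕ => |1 / ((n : ℝ) + 1) ^ k| * r ^ n := by
    refine Summable.of_nonneg_of_le (fun n => mul_nonneg (abs_nonneg _) (pow_nonneg (by linarith) _))
      (fun n => ?_) (summable_geometric_of_lt_one (by linarith) hr2)
    have h0' : (1 : ℝ) ≤ (n : ℝ) + 1 := by linarith [Nat.cast_nonneg (α := ℝ) n]
    have h1' : (1 : ℝ) ≤ ((n : ℝ) + 1) ^ k := one_le_pow₀ h0'
    have : |1 / ((n : ℝ) + 1) ^ k| ≤ 1 := by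
      rw [abs_of_nonneg (by positivity), div_le_one (by positivity)]
      exact h1'
    calc _ ≤ 1 * r ^ n := mul_le_mul_of_nonneg_right this (pow_nonneg (by linarith) _)
      _ = r ^ n := one_mul _
  have h2 := hasDeriv_series (fun n : ℕ => 1 / ((n : ℝ) + 1) ^ k) (by linarith) hs
    (y := t) (by rw [abs_of_pos h0]; exact hr1)
  have h3 : (fun z => ∑' n : ℕ, 1 / ((n : ℝ) + 1) ^ k / ((n : ℝ) + 1) * z ^ (n + 1)) =
      Li (k + 1) := by
    funext z
    unfold Li
    refine tsum_congr fun n => ?_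
    rw [pow_succ ((n : ℝ) + 1) k]
    field_simp
  rw [h3] at h2
  refine h2.congr_deriv ?_
  rw [Li_eq k t]
  field_simp

theorem Li_one {t : ℝ} (h : |t| < 1) : Li 1 t = -Real.log (1 - t) := by
  have := (Real.hasSum_pow_div_log_of_abs_lt_one h).tsum_eq
  rw [← this]
  unfold Li
  refine tsum_congr fun n => ?_
  rw [pow_one]

/-- primitives of analytic functions -/
theorem primitive {G : ℝ → ℝ} {x : ℝ} (hG : AnalyticAt ℝ G x) :
    ∃ F : ℝ → ℝ, AnalyticAt ℝ F x ∧ ∀ᶠ t in 𝓝 x, HasDerivAt F (G t) t := by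
  obtain ⟨p, R, hp⟩ := hG
  obtain ⟨r, hr0, hrR⟩ : ∃ r : NNReal, 0 < r ∧ (r : ENNReal) < R := by
    obtain ⟨r, h1, h2⟩ := ENNReal.lt_iff_exists_nnreal_btwn.1 hp.r_pos
    exact ⟨r, by exact_mod_cast h1, h2⟩
  have hrr : (r : ENNReal) < p.radius := lt_of_lt_of_le hrR hp.r_le
  have hs : Summable fun n => |p.coeff n| * (r : ℝ) ^ n := by
    have := p.summable_norm_mul_pow hrr
    refine this.congr fun n => ?_
    rw [FormalMultilinearSeries.norm_apply_eq_norm_coef, Real.norm_eq_abs]
  have hr0' : (0 : ℝ) < r := by exact_mod_cast hr0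
  refine ⟨fun t => ∑' n : ℕ, p.coeff n / ((n : ℝ) + 1) * (t - x) ^ (n + 1), ?_, ?_⟩
  · -- analyticity
    set q : FormalMultilinearSeries ℝ ℝ ℝ := FormalMultilinearSeries.ofScalars ℝ
      (fun n : ℕ => p.coeff n / ((n : ℝ) + 1)) with hq
    have hrad : p.radius ≤ q.radius := by
      apply FormalMultilinearSeries.radius_le_of_le
      intro n
      rw [hq, FormalMultilinearSeries.ofScalars_norm,
        FormalMultilinearSeries.norm_apply_eq_norm_coef, norm_div]
      apply div_le_self (norm_nonneg _)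
      rw [Real.norm_of_nonneg (by positivity)]
      linarith [Nat.cast_nonneg (α := ℝ) n]
    have hpos : 0 < q.radius := lt_of_lt_of_le (lt_of_le_of_lt bot_le hrr) hrad
    have h1 := q.hasFPowerSeriesOnBall hpos
    have h2 : AnalyticAt ℝ q.sum 0 := h1.analyticAt
    have h3 : AnalyticAt ℝ (fun t : ℝ => t - x) x := analyticAt_id.sub analyticAt_const
    have h4 : AnalyticAt ℝ (fun t => q.sum (t - x)) x :=
      AnalyticAt.fun_comp_of_eq h2 h3 (sub_self x)
    have h5 := h3.mul h4
    refine h5.congr (Eventually.of_forall fun t => ?_)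
    simp only [Pi.mul_apply]
    unfold FormalMultilinearSeries.sum
    rw [← tsum_mul_left]
    refine tsum_congr fun n => ?_
    rw [hq]
    simp
    ring
  · have hball : ∀ᶠ t in 𝓝 x, |t - x| < r := by
      have := Metric.ball_mem_nhds x hr0'
      filter_upwards [this] with t ht
      rwa [Metric.mem_ball, Real.dist_eq] at ht
    filter_upwards [hball] with t ht
    have h1 := hasDeriv_series p.coeff hr0' hs ht
    have h2 : HasDerivAt (fun t : ℝ => t - x) 1 t := (hasDerivAt_id t).sub_const x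
    have h3 := HasDerivAt.comp t h1 h2
    rw [mul_one] at h3
    refine h3.congr_deriv ?_
    have h4 : x + (t - x) ∈ Metric.eball x R := by
      have : x + (t - x) = t := by ring
      rw [this, Metric.mem_eball, edist_dist, Real.dist_eq]
      refine lt_of_le_of_lt ?_ hrR
      rw [← ENNReal.ofReal_coe_nnreal]
      exact ENNReal.ofReal_le_ofReal ht.le
    have h5 := hp.hasSum (y := t - x) (by
      rw [Metric.mem_eball, edist_dist, Real.dist_eq, sub_zero]
      refine lt_of_le_of_lt ?_ hrR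
      rw [← ENNReal.ofReal_coe_nnreal]
      exact ENNReal.ofReal_le_ofReal ht.le)
    have h6 : x + (t - x) = t := by ring
    rw [h6] at h5
    rw [← h5.tsum_eq]
    refine tsum_congr fun n => ?_
    rw [FormalMultilinearSeries.apply_eq_pow_smul_coeff, smul_eq_mul, mul_comm]

theorem step (m : ℕ) (H : ℝ → ℝ) (hH : AnalyticAt ℝ H 1)
    (hev : ∀ᶠ t in 𝓝[<] (1 : ℝ),
      Li (m + 1) t = H t - (Real.log t) ^ m / (m.factorial : ℝ) * Real.log (1 - t)) :
    ∃ H' : ℝ → ℝ, AnalyticAt ℝ H' 1 ∧ ∀ᶠ t in 𝓝[<] (1 : ℝ),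
      Li (m + 2) t = H' t - (Real.log t) ^ (m + 1) / ((m + 1).factorial : ℝ) *
        Real.log (1 - t) := by
  have hlog : AnalyticAt ℝ Real.log 1 := analyticAt_log one_pos
  have hu : AnalyticAt ℝ (dslope Real.log 1) 1 := by
    obtain ⟨p, hp⟩ := hlog
    exact hp.has_fpower_series_dslope_fslope.analyticAt
  have hlu : ∀ t : ℝ, (t - 1) * dslope Real.log 1 t = Real.log t := by
    intro t
    have := sub_smul_dslope Real.log 1 t
    rwa [Real.log_one, sub_zero, smul_eq_mul] at this
  have hG : AnalyticAt ℝ (fun t => H t / t +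
      Real.log t ^ m * dslope Real.log 1 t / ((m + 1).factorial : ℝ)) 1 := by
    refine (hH.div analyticAt_id one_ne_zero).add (((hlog.pow m).mul hu).div analyticAt_const ?_)
    exact_mod_cast (m + 1).factorial_ne_zero
  obtain ⟨F, hF, hFd⟩ := primitive hG
  have hall : ∀ᶠ t in 𝓝[<] (1 : ℝ),
      (Li (m + 1) t = H t - (Real.log t) ^ m / (m.factorial : ℝ) * Real.log (1 - t)) ∧
      HasDerivAt F (H t / t + Real.log t ^ m * dslope Real.log 1 t / ((m + 1).factorial : ℝ)) t ∧
      0 < t ∧ t < 1 := by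
    filter_upwards [hev, hFd.filter_mono nhdsWithin_le_nhds, Ioo_mem_nhdsLT (zero_lt_one' ℝ)]
      with t h1 h2 h3
    exact ⟨h1, h2, h3.1, h3.2⟩
  obtain ⟨l, hl, hsub⟩ := (mem_nhdsLT_iff_exists_Ioo_subset (a := (1 : ℝ))).1 hall
  have hl1 : l < 1 := hl
  set D : ℝ → ℝ := fun t => Li (m + 2) t + Real.log t ^ (m + 1) / ((m + 1).factorial : ℝ) *
    Real.log (1 - t) - F t with hD
  have hder : ∀ t ∈ Ioo l 1, HasDerivAt D 0 t := by
    intro t ht
    obtain ⟨h1, h2, h3, h4⟩ := hsub ht
    have d1 := Li_deriv (m + 1) h3 h4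
    have d2 : HasDerivAt (fun t => Real.log t ^ (m + 1)) ((m + 1 : ℕ) * Real.log t ^ m * t⁻¹) t := by
      have := (Real.hasDerivAt_log h3.ne').fun_pow (m + 1)
      simpa using this
    have d3 : HasDerivAt (fun t : ℝ => Real.log (1 - t)) (-1 / (1 - t)) t := by
      have e1 : HasDerivAt (fun t : ℝ => 1 - t) (-1) t := by
        simpa using (hasDerivAt_id t).const_sub 1
      exact e1.log (by linarith)
    have d4 := (d1.add ((d2.div_const ((m + 1).factorial : ℝ)).mul d3)).sub h2
    refine d4.congr_deriv ?_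
    have hf : ((m + 1).factorial : ℝ) = ((m : ℝ) + 1) * m.factorial := by
      rw [Nat.factorial_succ]; push_cast; ring
    have hm : (m.factorial : ℝ) ≠ 0 := by exact_mod_cast m.factorial_ne_zero
    have hm1 : (m : ℝ) + 1 ≠ 0 := by positivity
    have ht1 : 1 - t ≠ 0 := by linarith
    have ht0 : t ≠ 0 := h3.ne'
    rw [h1, hf, pow_succ]
    have hx := hlu t
    generalize hL : Real.log t ^ m = L
    generalize hv : dslope Real.log 1 t = v at hx ⊢
    rw [← hx]
    push_cast
    field_simp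
    ring
  obtain ⟨C, hC⟩ := isOpen_Ioo.exists_is_const_of_deriv_eq_zero isPreconnected_Ioo
    (fun t ht => (hder t ht).differentiableAt.differentiableWithinAt)
    (fun t ht => (hder t ht).deriv)
  refine ⟨fun t => F t + C, hF.add analyticAt_const, ?_⟩
  filter_upwards [Ioo_mem_nhdsLT hl1] with t ht
  have := hC t ht
  simp only [hD] at this
  linarith

end LiLoc

open LiLoc in
theorem liLoc : T_liLoc := by
  intro k hk
  obtain ⟨m, rfl⟩ : ∃ m, k = m + 1 := ⟨k - 1, by omega⟩
  simp only [Nat.add_sub_cancel]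
  clear hk
  induction m with
  | zero =>
    refine ⟨fun _ => 0, analyticAt_const, ?_⟩
    filter_upwards [Ioo_mem_nhdsLT (zero_lt_one' ℝ)] with t ht
    have : |t| < 1 := by rw [abs_of_pos ht.1]; exact ht.2
    rw [zero_add, Li_one this]
    simp
  | succ m ih =>
    obtain ⟨H, h1, h2⟩ := ih
    exact step m H h1 h2

end Pool.Agent.TH818.AP
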