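import Pool.Agent.TH818.AP.Wp

/-!
# Elliptic logarithms: real functions
-/

set_option autoImplicit false

open Set Polynomial Filter Topology
open scoped PeriodPair

namespace Pool.Agent.TH818.AP

open H667R3

/-- the lattice is stable under complex conjugation -/
def ConjStable (L : PeriodPair) : Prop := ∀ l ∈ L.lattice, (starRingEnd ℂ) l ∈ L.lattice

theorem zeta_conj {L : PeriodPair} (hL : ConjStable L) (z : ℂ) :
    zeta L ((starRingEnd ℂ) z) = (starRingEnd ℂ) (zeta L z) := by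
  unfold zeta
  rw [Complex.conj_tsum]
  let e : L.lattice ≃ L.lattice :=
    { toFun := fun l => ⟨(starRingEnd ℂ) l, hL l l.2⟩
      invFun := fun l => ⟨(starRingEnd ℂ) l, hL l l.2⟩
      left_inv := fun l => Subtype.ext (Complex.conj_conj _)
      right_inv := fun l => Subtype.ext (Complex.conj_conj _) }
  rw [← e.tsum_eq]
  refine tsum_congr fun l => ?_
  have : ((e l : L.lattice) : ℂ) = (starRingEnd ℂ) l := rfl
  rw [this]
  simp only [map_add, map_div₀, map_sub, map_one, map_pow]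

theorem zeta_real {L : PeriodPair} (hL : ConjStable L) (x : ℝ) : ((zeta L x).re : ℂ) = zeta L x := by
  have h := zeta_conj hL (x : ℂ)
  rw [Complex.conj_ofReal] at h
  exact (Complex.conj_eq_iff_real.1 h.symm).elim fun r hr => by rw [hr, Complex.ofReal_re]

variable {L : PeriodPair} {a b : ℝ}

theorem an_zeta {p : ℝ → ℝ} (hp : AnalyticOnNhd ℝ p (Icc a b)) (hpL : ∀ t ∈ Icc a b, (p t : ℂ) ∉ L.lattice) :
    AnalyticOnNhd ℝ (fun t => (zeta L (p t)).re) (Icc a b) := by
  intro t ht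
  have h2 : AnalyticAt ℂ (zeta L) (p t : ℂ) :=
    ((differentiableOn_zeta L).analyticOnNhd (isOpen_compl L)) _ (hpL t ht)
  have h3 : AnalyticAt ℝ (zeta L) (p t : ℂ) := h2.restrictScalars
  have h4 : AnalyticAt ℝ (fun t : ℝ => (p t : ℂ)) t :=
    (Complex.ofRealCLM.analyticAt (p t)).comp (hp t ht)
  have h5 : AnalyticAt ℝ (fun t : ℝ => zeta L (p t : ℂ)) t :=
    AnalyticAt.comp (g := zeta L) (f := fun t : ℝ => (p t : ℂ)) h3 h4
  exact (Complex.reCLM.analyticAt _).comp h5

/-- transfer of a relation on `[a,b]` to the plane -/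
theorem freq_of {p : ℝ → ℝ} (hab : a < b) (hp : AnalyticOnNhd ℝ p (Icc a b)) (hinj : InjOn p (Icc a b))
    {F : ℂ → ℂ} (hF : ∀ t ∈ Icc a b, F (p t) = 0) : ∃ᶠ u in 𝓝[≠] ((p ((a + b) / 2) : ℝ) : ℂ), F u = 0 := by
  set t0 := (a + b) / 2 with ht0
  have hmem : Icc a b ∈ 𝓝 t0 := Icc_mem_nhds (by rw [ht0]; linarith) (by rw [ht0]; linarith)
  have ht0m : t0 ∈ Icc a b := mem_of_mem_nhds hmem
  have hcont : Tendsto (fun t : ℝ => (p t : ℂ)) (𝓝[≠] t0) (𝓝[≠] ((p t0 : ℝ) : ℂ)) := by
    refine tendsto_nhdsWithin_of_tendsto_nhds_of_eventually_within _ ?_ ?_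
    · exact ((Complex.continuous_ofReal.tendsto _).comp (hp t0 ht0m).continuousAt.tendsto).mono_left
        nhdsWithin_le_nhds
    · filter_upwards [self_mem_nhdsWithin, mem_nhdsWithin_of_mem_nhds hmem] with t ht ht'
      intro h
      have h' : p t = p t0 := by
        have h1 := Set.mem_singleton_iff.1 h
        exact_mod_cast h1
      exact ht (hinj ht' ht0m h')
  refine hcont.frequently (Eventually.frequently ?_)
  filter_upwards [mem_nhdsWithin_of_mem_nhds hmem] with t ht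
  exact hF t ht

theorem eval_map_real (P : ℝ[X]) (t : ℝ) : (P.map (algebraMap ℝ ℂ)).eval (t : ℂ) = ((P.eval t : ℝ) : ℂ) := by
  rw [eval_map, ← Complex.coe_algebraMap, Polynomial.eval₂_at_apply]

theorem map_real_zero {P : ℝ[X]} (h : P.map (algebraMap ℝ ℂ) = 0) : P = 0 :=
  (Polynomial.map_eq_zero_iff (algebraMap ℝ ℂ).injective).1 h

/-- `t`, `p(t)`, `ζ(p(t))` are algebraically independent, `p` a branch of the inverse of `℘` -/
theorem wp_indep2 (d : ℕ) (hL : ConjStable L) {p : ℝ → ℝ} (hab : a < b) (hp : AnalyticOnNhd ℝ p (Icc a b))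
    (hpL : ∀ t ∈ Icc a b, (p t : ℂ) ∉ L.lattice) (hpt : ∀ t ∈ Icc a b, ℘[L] (p t) = t) :
    RIndep (fun (e : Fin 2 → Fin (d + 1)) (t : ℝ) =>
      ∏ i, (![p, fun t => (zeta L (p t)).re] i) t ^ (e i : ℕ)) a b := by
  intro P hP
  have hinj : InjOn p (Icc a b) := by
    intro t ht t' ht' h
    have h1 := hpt t ht
    rw [h, hpt t' ht'] at h1
    exact_mod_cast h1.symm
  set A : Fin (d + 1) → Fin (d + 1) → ℂ[X] := fun i j => (P ![i, j]).map (algebraMap ℝ ℂ) with hA
  have hA0 : A = 0 := by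
    refine uz L d A _ (hpL ((a + b) / 2) ⟨by linarith, by linarith⟩) (freq_of hab hp hinj
      (F := fun u => ∑ i, ∑ j, (A i j).eval (℘[L] u) * u ^ (i : ℕ) * zeta L u ^ (j : ℕ)) fun t ht => ?_)
    have h1 := hP t ht
    have h2 : (((∑ e : Fin 2 → Fin (d + 1), (P e).eval t *
        ∏ i, (![p, fun t => (zeta L (p t)).re] i) t ^ (e i : ℕ) : ℝ)) : ℂ) = 0 := by
      rw [h1, Complex.ofReal_zero]
    rw [← h2]
    push_cast
    rw [← (finTwoArrowEquiv (Fin (d + 1))).symm.sum_comp, Fintype.sum_prod_type]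
    refine Finset.sum_congr rfl fun i _ => Finset.sum_congr rfl fun j _ => ?_
    simp only [hA, finTwoArrowEquiv_symm_apply, Fin.prod_univ_two, Matrix.cons_val_zero, Matrix.cons_val_one]
    rw [hpt t ht, eval_map_real, zeta_real hL]
    ring
  funext e
  have h1 : A (e 0) (e 1) = 0 := by rw [hA0]; rfl
  have h2 : (![e 0, e 1] : Fin 2 → Fin (d + 1)) = e := by
    funext i
    fin_cases i <;> rfl
  simp only [hA] at h1
  rw [h2] at h1
  exact map_real_zero h1

/-- a branch of the inverse of `℘` is transcendental over `ℝ(t)` -/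
theorem wp_indep (d : ℕ) {p : ℝ → ℝ} (hab : a < b) (hp : AnalyticOnNhd ℝ p (Icc a b))
    (hpL : ∀ t ∈ Icc a b, (p t : ℂ) ∉ L.lattice) (hpt : ∀ t ∈ Icc a b, ℘[L] (p t) = t) :
    RIndep (fun (l : Fin (d + 1)) (t : ℝ) => p t ^ (l : ℕ)) a b := by
  intro P hP
  have hinj : InjOn p (Icc a b) := by
    intro t ht t' ht' h
    have h1 := hpt t ht
    rw [h, hpt t' ht'] at h1
    exact_mod_cast h1.symm
  set A : Fin (d + 1) → Fin (d + 1) → ℂ[X] := fun i j =>
    if (j : ℕ) = 0 then (P i).map (algebraMap ℝ ℂ) else 0 with hA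
  have hA0 : A = 0 := by
    refine uz L d A _ (hpL ((a + b) / 2) ⟨by linarith, by linarith⟩) (freq_of hab hp hinj
      (F := fun u => ∑ i, ∑ j, (A i j).eval (℘[L] u) * u ^ (i : ℕ) * zeta L u ^ (j : ℕ)) fun t ht => ?_)
    have h1 := hP t ht
    have h2 : (((∑ l : Fin (d + 1), (P l).eval t * p t ^ (l : ℕ) : ℝ)) : ℂ) = 0 := by
      rw [h1, Complex.ofReal_zero]
    rw [← h2]
    push_cast
    refine Finset.sum_congr rfl fun i _ => ?_
    rw [Finset.sum_eq_single (0 : Fin (d + 1))]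
    · simp only [hA, Fin.val_zero, if_true, pow_zero, mul_one]
      rw [hpt t ht, eval_map_real]
    · intro j _ hj
      have : (j : ℕ) ≠ 0 := fun h => hj (Fin.ext h)
      simp only [hA, if_neg this, eval_zero, zero_mul]
    · intro h
      exact absurd (Finset.mem_univ _) h
  funext i
  have h1 : A i 0 = 0 := by rw [hA0]; rfl
  simp only [hA, Fin.val_zero, if_true] at h1
  exact map_real_zero h1

/-- a branch of the inverse of `ζ` is transcendental over `ℝ(t)` -/
theorem zt_indep (d : ℕ) {p : ℝ → ℝ} (hab : a < b) (hp : AnalyticOnNhd ℝ p (Icc a b))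
    (hpL : ∀ t ∈ Icc a b, (p t : ℂ) ∉ L.lattice) (hpt : ∀ t ∈ Icc a b, zeta L (p t) = t) :
    RIndep (fun (l : Fin (d + 1)) (t : ℝ) => p t ^ (l : ℕ)) a b := by
  intro P hP
  have hinj : InjOn p (Icc a b) := by
    intro t ht t' ht' h
    have h1 := hpt t ht
    rw [h, hpt t' ht'] at h1
    exact_mod_cast h1.symm
  set A : Fin (d + 1) → ℂ[X] := fun i => (P i).map (algebraMap ℝ ℂ) with hA
  have hA0 : A = 0 := by
    refine zz L d A _ (hpL ((a + b) / 2) ⟨by linarith, by linarith⟩) (freq_of hab hp hinj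
      (F := fun u => ∑ i, (A i).eval (zeta L u) * u ^ (i : ℕ)) fun t ht => ?_)
    have h1 := hP t ht
    have h2 : (((∑ l : Fin (d + 1), (P l).eval t * p t ^ (l : ℕ) : ℝ)) : ℂ) = 0 := by
      rw [h1, Complex.ofReal_zero]
    rw [← h2]
    push_cast
    refine Finset.sum_congr rfl fun i _ => ?_
    simp only [hA]
    rw [hpt t ht, eval_map_real]
  funext i
  have h1 : A i = 0 := by rw [hA0]; rfl
  exact map_real_zero h1

end Pool.Agent.TH818.AP
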