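import Pool.Agent.TH818.AP.Mv2

/-!
# Pull-back of independent functions by a local inverse of a polynomial
-/

set_option autoImplicit false

open Set Polynomial

namespace Pool.Agent.TH818.AP

/-- If `ψ(φ(t)) = t` on `[a,b]`, `φ` continuous with values in `(x,y)`, and the functions `g_l` are independent over `ℝ[s]` on all
intervals `[c,d] ⊂ (x,y)`, then the functions `g_l(φ(t))` are independent over `ℝ[t]` on `[a,b]`. -/
theorem rindep_pull {ι : Type} [Fintype ι] (g : ι → ℝ → ℝ) (x y : ℝ)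
    (hg : ∀ c d : ℝ, x < c → c < d → d < y → RIndep g c d)
    (a b : ℝ) (hab : a < b) (φ : ℝ → ℝ) (hφ : ContinuousOn φ (Icc a b)) (hxy : ∀ t ∈ Icc a b, x < φ t ∧ φ t < y)
    (ψ : ℝ[X]) (hψ : ∀ t ∈ Icc a b, ψ.eval (φ t) = t) :
    RIndep (fun l t => g l (φ t)) a b := by
  intro p hp
  have haI : a ∈ Icc a b := ⟨le_rfl, hab.le⟩
  have hbI : b ∈ Icc a b := ⟨hab.le, le_rfl⟩
  have hne : φ a ≠ φ b := by
    intro h
    have h1 := hψ a haI
    have h2 := hψ b hbI
    rw [h] at h1
    linarith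
  set c := min (φ a) (φ b) with hc
  set d := max (φ a) (φ b) with hd
  have hcd : c < d := min_lt_max.2 hne
  have hxc : x < c := lt_min (hxy a haI).1 (hxy b hbI).1
  have hdy : d < y := max_lt (hxy a haI).2 (hxy b hbI).2
  have hsurj : ∀ s ∈ Icc c d, ∃ t ∈ Icc a b, φ t = s := by
    intro s hs
    have h1 : s ∈ uIcc (φ a) (φ b) := hs
    have h2 := intermediate_value_uIcc (a := a) (b := b) (f := φ) (by rwa [uIcc_of_le hab.le]) h1
    obtain ⟨t, ht, hts⟩ := h2
    rw [uIcc_of_le hab.le] at ht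
    exact ⟨t, ht, hts⟩
  have h3 := hg c d hxc hcd hdy (fun l => (p l).comp ψ) (by
    intro s hs
    obtain ⟨t, ht, rfl⟩ := hsurj s hs
    rw [← hp t ht]
    refine Finset.sum_congr rfl fun l _ => ?_
    rw [eval_comp, hψ t ht])
  funext l
  have h4 : (p l).comp ψ = 0 := congrFun h3 l
  by_contra hpl
  -- `ψ` takes infinitely many values
  have h5 : ∀ t ∈ Icc a b, (p l).eval t = 0 := by
    intro t ht
    have := congrArg (fun q : ℝ[X] => q.eval (φ t)) h4
    simpa [eval_comp, hψ t ht] using this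
  apply hpl
  apply Polynomial.eq_zero_of_infinite_isRoot
  refine Set.Infinite.mono (s := Icc a b) (fun t ht => h5 t ht) (Set.Icc_infinite hab)

end Pool.Agent.TH818.AP
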