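import Pool.Agent.TH818.AP.Hyp2
import Pool.Agent.TH659.AQ.Gam

/-!
# `t`, `e^(α t)` and `ψ(t) = Γ'(t)/Γ(t)` are algebraically independent
-/

set_option autoImplicit false
set_option maxHeartbeats 400000

open Set Polynomial Filter Topology

namespace Pool.Agent.TH818.AP.Hyp

/-- the digamma function -/
noncomputable def psi (t : ℝ) : ℝ := deriv Real.Gamma t / Real.Gamma t

theorem psi_an {t : ℝ} (ht : 0 < t) : AnalyticAt ℝ psi t :=
  (TH659.AQ.gamma_an ht).deriv.div (TH659.AQ.gamma_an ht) (Real.Gamma_pos_of_pos ht).ne'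

theorem psi_add_one {t : ℝ} (ht : 0 < t) : psi (t + 1) = psi t + 1 / t := by
  have hG : 0 < Real.Gamma t := Real.Gamma_pos_of_pos ht
  have h1 : HasDerivAt Real.Gamma (deriv Real.Gamma (t + 1)) (t + 1) :=
    (TH659.AQ.gamma_an (by linarith)).differentiableAt.hasDerivAt
  have h2 : HasDerivAt (fun y : ℝ => Real.Gamma (y + 1)) (deriv Real.Gamma (t + 1)) t := by
    simpa using h1.comp_add_const t 1
  have h3 : HasDerivAt (fun y : ℝ => y * Real.Gamma y) (1 * Real.Gamma t + t * deriv Real.Gamma t) t :=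
    (hasDerivAt_id t).mul (TH659.AQ.gamma_an ht).differentiableAt.hasDerivAt
  have h4 : (fun y : ℝ => Real.Gamma (y + 1)) =ᶠ[𝓝 t] fun y => y * Real.Gamma y := by
    filter_upwards [Ioi_mem_nhds ht] with y hy
    exact Real.Gamma_add_one (ne_of_gt hy)
  have h5 := (h3.congr_of_eventuallyEq h4).unique h2
  unfold psi
  rw [← h5, Real.Gamma_add_one ht.ne']
  field_simp
  ring

/-- `∏_{l ≤ n} (t + l)` -/
noncomputable def RR (n : ℕ) (t : ℝ) : ℝ := ∏ l ∈ Finset.range (n + 1), (t + l)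

/-- `R_n ψ` near `-n` -/
noncomputable def PP (n : ℕ) (t : ℝ) : ℝ :=
  RR n t * psi (t + ((n : ℝ) + 1)) - ∑ l ∈ Finset.range (n + 1), ∏ l' ∈ (Finset.range (n + 1)).erase l, (t + (l' : ℝ))

theorem psi_shift (n : ℕ) {t : ℝ} (ht : 0 < t) : psi (t + ((n : ℝ) + 1)) =
    psi t + ∑ l ∈ Finset.range (n + 1), 1 / (t + l) := by
  induction n with
  | zero => simp [psi_add_one ht]
  | succ n ih =>
    rw [Finset.sum_range_succ]
    have h0 : (0 : ℝ) < t + ((n : ℝ) + 1) := by positivity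
    have h := psi_add_one h0
    push_cast
    rw [show t + ((n : ℝ) + 1 + 1) = t + ((n : ℝ) + 1) + 1 by ring, h, ih]
    ring

theorem PP_eq (n : ℕ) {t : ℝ} (ht : 0 < t) : PP n t = RR n t * psi t := by
  unfold PP
  rw [psi_shift n ht, mul_add, Finset.mul_sum]
  have : ∀ l ∈ Finset.range (n + 1), RR n t * (1 / (t + l)) =
      ∏ l' ∈ (Finset.range (n + 1)).erase l, (t + (l' : ℝ)) := by
    intro l hl
    unfold RR
    rw [← Finset.mul_prod_erase _ _ hl]
    have : t + (l : ℝ) ≠ 0 := by positivity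
    field_simp
  rw [Finset.sum_congr rfl this]
  ring

theorem RR_neg (n : ℕ) : RR n (-(n : ℝ)) = 0 := by
  unfold RR
  exact Finset.prod_eq_zero (Finset.self_mem_range_succ n) (by ring)

theorem PP_neg (n : ℕ) : PP n (-(n : ℝ)) ≠ 0 := by
  unfold PP
  rw [RR_neg, zero_mul, zero_sub, Finset.sum_eq_single n]
  · rw [neg_ne_zero, Finset.prod_ne_zero_iff]
    intro l hl h
    have h1 : (l : ℝ) = n := by linarith
    exact (Finset.ne_of_mem_erase hl) (by exact_mod_cast h1)
  · intro l hl hne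
    refine Finset.prod_eq_zero (i := n) (Finset.mem_erase.2 ⟨hne.symm, Finset.self_mem_range_succ n⟩) (by ring)
  · intro h
    exact absurd (Finset.self_mem_range_succ n) h

theorem RR_an (n : ℕ) (t : ℝ) : AnalyticAt ℝ (RR n) t := by
  have : RR n = fun t => ∏ l ∈ Finset.range (n + 1), (t + (l : ℝ)) := rfl
  rw [this]
  exact Finset.analyticAt_fun_prod _ fun l _ => analyticAt_id.add analyticAt_const

theorem PP_an (n : ℕ) {t : ℝ} (ht : -((n : ℝ) + 1) < t) : AnalyticAt ℝ (PP n) t := by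
  have h1 : AnalyticAt ℝ (fun t : ℝ => psi (t + ((n : ℝ) + 1))) t :=
    AnalyticAt.fun_comp (psi_an (by linarith)) (analyticAt_id.add analyticAt_const)
  have h2 : AnalyticAt ℝ (fun t : ℝ => ∑ l ∈ Finset.range (n + 1),
      ∏ l' ∈ (Finset.range (n + 1)).erase l, (t + (l' : ℝ))) t :=
    Finset.analyticAt_fun_sum _ fun l _ => Finset.analyticAt_fun_prod _ fun l _ => analyticAt_id.add analyticAt_const
  exact ((RR_an n t).mul h1).sub h2

theorem poly_exp_nat (p : ℝ[X]) (c : ℝ) (hc : 0 < c) :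
    Tendsto (fun n : ℕ => p.eval (-(n : ℝ)) * Real.exp (-(c * n))) atTop (𝓝 0) := by
  have h1 := Polynomial.tendsto_div_exp_atTop (p.comp (C (-(1 / c)) * X))
  have h2 : Tendsto (fun n : ℕ => c * (n : ℝ)) atTop atTop :=
    Tendsto.const_mul_atTop hc tendsto_natCast_atTop_atTop
  refine (h1.comp h2).congr fun n => ?_
  simp only [Function.comp_apply, eval_comp, eval_mul, eval_C, eval_X]
  rw [Real.exp_neg, div_eq_mul_inv]
  congr 2
  field_simp

theorem poly_zero_of_nat (p : ℝ[X]) (h : Tendsto (fun n : ℕ => p.eval (-(n : ℝ))) atTop (𝓝 0)) : p = 0 := by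
  by_contra hp
  set r : ℝ[X] := p.comp (-X) with hr
  have hre : ∀ x : ℝ, r.eval x = p.eval (-x) := fun x => by simp [hr]
  by_cases hdeg : 0 < r.degree
  · have h1 := (r.abs_tendsto_atTop hdeg).comp (tendsto_natCast_atTop_atTop (R := ℝ))
    have h2 : Tendsto (fun n : ℕ => |p.eval (-(n : ℝ))|) atTop (𝓝 0) := by simpa using h.abs
    refine not_tendsto_nhds_of_tendsto_atTop h1 0 (h2.congr fun n => ?_)
    simp [hre]
  · have h1 := eq_C_of_degree_le_zero (not_lt.1 hdeg)
    have h2 : ∀ n : ℕ, p.eval (-(n : ℝ)) = r.coeff 0 := by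
      intro n
      rw [← hre, h1]
      simp
    have h3 : r.coeff 0 = 0 := by
      have h4 : Tendsto (fun _ : ℕ => r.coeff 0) atTop (𝓝 0) := h.congr h2
      exact tendsto_nhds_unique tendsto_const_nhds h4
    rw [h3, C_0] at h1
    apply hp
    have h5 : p = r.comp (-X) := by
      rw [hr, comp_assoc]
      simp
    rw [h5, h1, zero_comp]

theorem expo {d : ℕ} {α : ℝ} (hα : 0 < α) (p : Fin (d + 1) → ℝ[X])
    (h : ∀ n : ℕ, ∑ i, (p i).eval (-(n : ℝ)) * Real.exp (α * (-(n : ℝ))) ^ (i : ℕ) = 0) : p = 0 := by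
  classical
  by_contra hp
  have hne : (Finset.univ.filter fun i => p i ≠ 0).Nonempty := by
    by_contra hcon
    apply hp
    funext i
    by_contra hi
    exact hcon ⟨i, by simpa using hi⟩
  obtain ⟨i0, hi0, hmin⟩ := (Finset.univ.filter fun i => p i ≠ 0).exists_min_image (fun i => i) hne
  have hi0' : p i0 ≠ 0 := by simpa using hi0
  apply hi0'
  refine poly_zero_of_nat _ ?_
  have key : ∀ n : ℕ, (p i0).eval (-(n : ℝ)) = -∑ i ∈ Finset.univ.erase i0,
      if i0 < i then (p i).eval (-(n : ℝ)) * Real.exp (-((α * ((i : ℕ) - (i0 : ℕ) : ℝ)) * n)) else 0 := by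
    intro n
    have h1 := h n
    rw [← Finset.add_sum_erase _ _ (Finset.mem_univ i0)] at h1
    have hE : Real.exp (α * (-(n : ℝ))) ^ (i0 : ℕ) ≠ 0 := pow_ne_zero _ (Real.exp_pos _).ne'
    have h2 : ∑ i ∈ Finset.univ.erase i0, (p i).eval (-(n : ℝ)) * Real.exp (α * (-(n : ℝ))) ^ (i : ℕ) =
        Real.exp (α * (-(n : ℝ))) ^ (i0 : ℕ) * ∑ i ∈ Finset.univ.erase i0,
          if i0 < i then (p i).eval (-(n : ℝ)) * Real.exp (-((α * ((i : ℕ) - (i0 : ℕ) : ℝ)) * n)) else 0 := by
      rw [Finset.mul_sum]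
      refine Finset.sum_congr rfl fun i hi => ?_
      by_cases hlt : i0 < i
      · have e : Real.exp (α * (-(n : ℝ))) ^ (i : ℕ) = Real.exp (α * (-(n : ℝ))) ^ (i0 : ℕ) *
            Real.exp (-((α * ((i : ℕ) - (i0 : ℕ) : ℝ)) * n)) := by
          rw [← Real.exp_nat_mul, ← Real.exp_nat_mul, ← Real.exp_add]
          congr 1
          ring
        rw [if_pos hlt, e]
        ring
      · rw [if_neg hlt]
        have : p i = 0 := by
          by_contra hpi
          have := hmin i (by simpa using hpi)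
          exact (Finset.ne_of_mem_erase hi) (le_antisymm (not_lt.1 hlt) this)
        rw [this]
        simp
    rw [h2] at h1
    have h3 : Real.exp (α * (-(n : ℝ))) ^ (i0 : ℕ) * ((p i0).eval (-(n : ℝ)) + ∑ i ∈ Finset.univ.erase i0,
          if i0 < i then (p i).eval (-(n : ℝ)) * Real.exp (-((α * ((i : ℕ) - (i0 : ℕ) : ℝ)) * n)) else 0) = 0 := by
      linear_combination h1
    have h4 := (mul_eq_zero.1 h3).resolve_left hE
    linarith
  have h5 : Tendsto (fun n : ℕ => -∑ i ∈ Finset.univ.erase i0,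
      if i0 < i then (p i).eval (-(n : ℝ)) * Real.exp (-((α * ((i : ℕ) - (i0 : ℕ) : ℝ)) * n)) else 0) atTop (𝓝 0) := by
    have h6 : Tendsto (fun n : ℕ => ∑ i ∈ Finset.univ.erase i0,
      if i0 < i then (p i).eval (-(n : ℝ)) * Real.exp (-((α * ((i : ℕ) - (i0 : ℕ) : ℝ)) * n)) else 0) atTop
        (𝓝 (∑ i ∈ Finset.univ.erase i0, (0 : ℝ))) := by
      refine tendsto_finsetSum _ fun i _ => ?_
      by_cases hlt : i0 < i
      · simp only [if_pos hlt]
        refine poly_exp_nat (p i) _ (mul_pos hα ?_)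
        rw [sub_pos]
        exact_mod_cast hlt
      · simp only [if_neg hlt]
        exact tendsto_const_nhds
    rw [Finset.sum_const_zero] at h6
    simpa using h6.neg
  exact h5.congr fun n => (key n).symm

/-- monomials in `e^(α t)` and `ψ(t)` -/
noncomputable def MM {d : ℕ} (α : ℝ) (e : Fin (d + 1) × Fin (d + 1)) (t : ℝ) : ℝ :=
  Real.exp (α * t) ^ (e.1 : ℕ) * psi t ^ (e.2 : ℕ)

theorem MM_indep {d : ℕ} {α : ℝ} (hα : 0 < α) {a b : ℝ} (ha : 0 < a) (hab : a < b) :
    RIndep (MM (d := d) α) a b := by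
  classical
  intro p hp
  by_contra hne0
  -- the largest exponent of `ψ`
  have hne : (Finset.univ.filter fun j => (fun i => p (i, j)) ≠ 0).Nonempty := by
    by_contra hcon
    apply hne0
    funext ⟨i, j⟩
    by_contra hi
    refine hcon ⟨j, ?_⟩
    rw [Finset.mem_filter]
    exact ⟨Finset.mem_univ _, fun h0 => hi (congrFun h0 i)⟩
  obtain ⟨j0, hj0, hmax⟩ := (Finset.univ.filter fun j => (fun i => p (i, j)) ≠ 0).exists_max_image (fun j => j) hne
  have hj0' : (fun i => p (i, j0)) ≠ 0 := (Finset.mem_filter.1 hj0).2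
  apply hj0'
  set A : Fin (d + 1) → ℝ → ℝ := fun j t => ∑ i, (p (i, j)).eval t * Real.exp (α * t) ^ (i : ℕ) with hA
  have hAan : ∀ j t, AnalyticAt ℝ (A j) t := by
    intro j t
    refine Finset.analyticAt_fun_sum _ fun i _ => ?_
    refine ((AnalyticOnNhd.eval_polynomial (𝕜 := ℝ) (p (i, j))) t (Set.mem_univ _)).mul ?_
    exact ((analyticAt_const.mul analyticAt_id).rexp).pow _
  have hAz : ∀ j, j0 < j → ∀ t, A j t = 0 := by
    intro j hj t
    have h1 : (fun i => p (i, j)) = 0 := by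
      by_contra hcon
      exact absurd (hmax j (Finset.mem_filter.2 ⟨Finset.mem_univ _, hcon⟩)) (not_le.2 hj)
    simp only [hA]
    refine Finset.sum_eq_zero fun i _ => ?_
    have : p (i, j) = 0 := congrFun h1 i
    rw [this, eval_zero, zero_mul]
  refine expo hα _ fun n => ?_
  change A j0 (-(n : ℝ)) = 0
  -- the relation near `-n`
  set F : ℝ → ℝ := fun t => ∑ j : Fin (d + 1), A j t * (RR n t ^ ((j0 : ℕ) - (j : ℕ)) * PP n t ^ (j : ℕ)) with hF
  have hFan : AnalyticOnNhd ℝ F (Ioi (-((n : ℝ) + 1))) := fun t ht =>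
    Finset.analyticAt_fun_sum _ fun j _ => (hAan j t).mul (((RR_an n t).pow _).mul ((PP_an n ht).pow _))
  have hm : (a + b) / 2 ∈ Ioi (-((n : ℝ) + 1)) := by
    have : (0 : ℝ) ≤ n := by positivity
    simp only [mem_Ioi]
    linarith
  have hz := ident isPreconnected_Ioi hFan hm (by
    filter_upwards [Ioo_mem_nhds (show a < (a + b) / 2 by linarith) (show (a + b) / 2 < b by linarith)] with t ht
    have ht0 : 0 < t := ha.trans ht.1
    have h1 := hp t ⟨ht.1.le, ht.2.le⟩
    rw [Fintype.sum_prod_type, Finset.sum_comm] at h1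
    have h2 : F t = RR n t ^ (j0 : ℕ) * ∑ j, ∑ i, (p (i, j)).eval t * MM α (i, j) t := by
      simp only [hF]
      rw [Finset.mul_sum]
      refine Finset.sum_congr rfl fun j _ => ?_
      by_cases hj : j0 < j
      · rw [hAz j hj t, zero_mul]
        have : ∑ i, (p (i, j)).eval t * MM α (i, j) t = A j t * psi t ^ (j : ℕ) := by
          simp only [hA, MM]
          rw [Finset.sum_mul]
          exact Finset.sum_congr rfl fun i _ => by ring
        rw [this, hAz j hj t]
        ring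
      · have hle : (j : ℕ) ≤ j0 := not_lt.1 hj
        have : ∑ i, (p (i, j)).eval t * MM α (i, j) t = A j t * psi t ^ (j : ℕ) := by
          simp only [hA, MM]
          rw [Finset.sum_mul]
          exact Finset.sum_congr rfl fun i _ => by ring
        rw [this, PP_eq n ht0, mul_pow]
        have h3 : RR n t ^ (j0 : ℕ) = RR n t ^ ((j0 : ℕ) - (j : ℕ)) * RR n t ^ (j : ℕ) := by
          rw [← pow_add, Nat.sub_add_cancel hle]
        rw [h3]
        ring
    rw [h2, h1, mul_zero]) (-(n : ℝ)) (by simp only [mem_Ioi]; linarith)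
  simp only [hF] at hz
  rw [Finset.sum_eq_single j0] at hz
  · rw [Nat.sub_self, pow_zero, one_mul] at hz
    exact (mul_eq_zero.1 hz).resolve_right (pow_ne_zero _ (PP_neg n))
  · intro j _ hj
    rcases lt_or_gt_of_ne hj with h | h
    · have h1 : (j0 : ℕ) - (j : ℕ) ≠ 0 := by
        have : (j : ℕ) < j0 := h
        omega
      rw [RR_neg, zero_pow h1, zero_mul, mul_zero]
    · rw [hAz j h, zero_mul]
  · intro h
    exact absurd (Finset.mem_univ j0) h

/-- `R_n(t)^d` times the monomials, on `(-n-1, ∞)` -/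
noncomputable def NN {d : ℕ} (n : ℕ) (α : ℝ) (e : Fin (d + 1) × Fin (d + 1)) (t : ℝ) : ℝ :=
  Real.exp (α * t) ^ (e.1 : ℕ) * (RR n t ^ (d - (e.2 : ℕ)) * PP n t ^ (e.2 : ℕ))

/-- `R_n` as a polynomial -/
noncomputable def RP (n : ℕ) : ℝ[X] := ∏ l ∈ Finset.range (n + 1), (X + C (l : ℝ))

theorem RP_eval (n : ℕ) (t : ℝ) : (RP n).eval t = RR n t := by
  unfold RP RR
  rw [eval_prod]
  simp

theorem RP_ne (n : ℕ) : RP n ≠ 0 := Finset.prod_ne_zero_iff.2 fun _ _ => X_add_C_ne_zero _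

theorem NN_an {d : ℕ} (n : ℕ) (α : ℝ) (e : Fin (d + 1) × Fin (d + 1)) :
    AnalyticOnNhd ℝ (NN (d := d) n α e) (Ioi (-((n : ℝ) + 1))) := by
  intro t ht
  exact (((analyticAt_const.mul analyticAt_id).rexp).pow _).mul
    (((RR_an n t).pow _).mul ((PP_an n ht).pow _))

theorem NN_eq {d : ℕ} (n : ℕ) (α : ℝ) (e : Fin (d + 1) × Fin (d + 1)) {t : ℝ} (ht : 0 < t) :
    (RP n ^ d).eval t * MM α e t = NN n α e t := by
  unfold MM NN
  have hle : (e.2 : ℕ) ≤ d := Nat.lt_succ_iff.1 e.2.2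
  rw [PP_eq n ht, eval_pow, RP_eval, mul_pow]
  have h3 : RR n t ^ d = RR n t ^ (d - (e.2 : ℕ)) * RR n t ^ (e.2 : ℕ) := by
    rw [← pow_add, Nat.sub_add_cancel hle]
  rw [h3]
  ring

theorem NN_indep {d : ℕ} (n : ℕ) {α : ℝ} (hα : 0 < α) {a b : ℝ} (ha : 0 < a) (hab : a < b) :
    RIndep (NN (d := d) n α) a b := by
  intro p hp
  have h1 := MM_indep (d := d) hα ha hab (fun e => p e * RP n ^ d) (fun t ht => by
    rw [← hp t ht]
    refine Finset.sum_congr rfl fun e _ => ?_
    rw [eval_mul, mul_assoc, NN_eq n α e (ha.trans_le ht.1)])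
  funext e
  have h2 : p e * RP n ^ d = 0 := congrFun h1 e
  rcases mul_eq_zero.1 h2 with h3 | h3
  · exact h3
  · exact absurd h3 (pow_ne_zero _ (RP_ne n))

/-- `t`, `e^(α t)`, `ψ(t)` and the coefficients of a solution of `G' = (∑ X_i / (z - s_i)) G` -/
theorem all_indep {m : ℕ} (s : Fin m → ℝ) (hinj : Function.Injective s) {u v a b : ℝ} (hu0 : 0 ≤ u) (hu : u < a)
    (hab : a < b) (hv : b < v) {g : List (Fin m) → ℝ → ℝ} (h : IsSol s u v g) (hs : ∀ x, s x ∉ Ioo u v) (k d : ℕ)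
    {α : ℝ} (hα : 0 < α) :
    RIndep (fun (y : (Fin (d + 1) × Fin (d + 1)) × Word m k) t => MM α y.1 t * g y.2.list t) a b := by
  obtain ⟨n, hn⟩ : ∃ n : ℕ, ∀ x, -((n : ℝ) + 1) < s x := by
    obtain ⟨n, hn⟩ := exists_nat_gt (∑ x, |s x|)
    refine ⟨n, fun x => ?_⟩
    have h1 : |s x| ≤ ∑ x, |s x| := Finset.single_le_sum (fun x _ => abs_nonneg (s x)) (Finset.mem_univ x)
    have h2 := neg_abs_le (s x)
    linarith
  refine hyp_indep2 s hinj hu hab hv (J := Ioi (-((n : ℝ) + 1))) isPreconnected_Ioi isOpen_Ioi ?_ hn h hs k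
    (MM α) (NN n α) (RP n ^ d) (NN_an n α) (fun e t ht => NN_eq n α e (by linarith [ht.1]))
    (NN_indep n hα (by linarith) hab)
  intro t ht
  have : (0 : ℝ) ≤ n := by positivity
  simp only [mem_Ioi]
  linarith [ht.1]

end Pool.Agent.TH818.AP.Hyp
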