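import Pool.Agent.TH818.AP.Api
import Pool.Agent.TH818.AP.LiLoc

/-!
# Solutions of `G' = (∑ X_i / (z - s_i)) G`: independence of the coefficients over `ℝ[z]`
-/

set_option autoImplicit false
set_option maxHeartbeats 400000

open Set Polynomial Filter Topology

namespace Pool.Agent.TH818.AP.Hyp

open Pool.Agent.TH818.AR

theorem coeff_X_mul_derivative (U : ℝ[X]) (n : ℕ) : (X * derivative U).coeff n = n * U.coeff n := by
  cases n with
  | zero => simp
  | succ n =>
    rw [coeff_X_mul, coeff_derivative]
    push_cast
    ring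

theorem natDegree_eq_of_wronskian {U R : ℝ[X]} (hU : U ≠ 0) (hR : R ≠ 0) (h : derivative U * R = U * derivative R) :
    U.natDegree = R.natDegree := by
  have hd : ∀ V : ℝ[X], (X * derivative V).natDegree ≤ V.natDegree := by
    intro V
    rw [natDegree_le_iff_coeff_eq_zero]
    intro N hN
    rw [coeff_X_mul_derivative, coeff_eq_zero_of_natDegree_lt hN, mul_zero]
  have h1 : (X * derivative U) * R = U * (X * derivative R) := by
    linear_combination X * h
  have h2 : ((X * derivative U) * R).coeff (U.natDegree + R.natDegree) =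
      (U * (X * derivative R)).coeff (U.natDegree + R.natDegree) := by rw [h1]
  rw [coeff_mul_add_eq_of_natDegree_le (hd U) le_rfl, coeff_mul_add_eq_of_natDegree_le le_rfl (hd R), coeff_X_mul_derivative,
    coeff_X_mul_derivative] at h2
  have hU1 : U.coeff U.natDegree ≠ 0 := leadingCoeff_ne_zero.2 hU
  have hR1 : R.coeff R.natDegree ≠ 0 := leadingCoeff_ne_zero.2 hR
  have h3 : ((U.natDegree : ℝ) - R.natDegree) * (U.coeff U.natDegree * R.coeff R.natDegree) = 0 := by
    linear_combination h2
  rcases mul_eq_zero.1 h3 with h4 | h4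
  · exact_mod_cast sub_eq_zero.1 h4
  · exact absurd h4 (mul_ne_zero hU1 hR1)

/-- proportional polynomials -/
theorem prop_of_wronskian {P R : ℝ[X]} (hR : R ≠ 0) (h : derivative P * R = P * derivative R) :
    ∃ c : ℝ, P = C c * R := by
  by_cases hP : P = 0
  · exact ⟨0, by simp [hP]⟩
  have hn := natDegree_eq_of_wronskian hP hR h
  have hR1 : R.coeff R.natDegree ≠ 0 := leadingCoeff_ne_zero.2 hR
  refine ⟨P.coeff R.natDegree / R.coeff R.natDegree, ?_⟩
  by_contra hcon
  set c := P.coeff R.natDegree / R.coeff R.natDegree with hc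
  have hU : P - C c * R ≠ 0 := sub_ne_zero.2 hcon
  have hW : derivative (P - C c * R) * R = (P - C c * R) * derivative R := by
    rw [derivative_sub, derivative_C_mul]
    linear_combination h
  have h2 := natDegree_eq_of_wronskian hU hR hW
  have h3 : (P - C c * R).coeff R.natDegree = 0 := by
    rw [coeff_sub, coeff_C_mul, hc]
    field_simp
    ring
  rw [← h2] at h3
  exact (leadingCoeff_ne_zero.2 hU) h3

variable {m : ℕ} (s : Fin m → ℝ)

/-- `∏ (z - s_x)` -/
noncomputable def Q : ℝ[X] := ∏ x, (X - C (s x))

/-- the product without the factor `x` -/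
noncomputable def Qx (x : Fin m) : ℝ[X] := ∏ y ∈ Finset.univ.erase x, (X - C (s y))

theorem Q_eq (x : Fin m) : Q s = (X - C (s x)) * Qx s x := by
  unfold Q Qx
  rw [Finset.mul_prod_erase Finset.univ (fun y => X - C (s y)) (Finset.mem_univ x)]

theorem Qx_self (hs : Function.Injective s) (x : Fin m) : (Qx s x).eval (s x) ≠ 0 := by
  unfold Qx
  rw [eval_prod, Finset.prod_ne_zero_iff]
  intro y hy
  rw [eval_sub, eval_X, eval_C, sub_ne_zero]
  intro h
  exact (Finset.ne_of_mem_erase hy) (hs h).symm

theorem Qx_other {x y : Fin m} (h : y ≠ x) : (Qx s y).eval (s x) = 0 := by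
  unfold Qx
  rw [eval_prod]
  refine Finset.prod_eq_zero (Finset.mem_erase.2 ⟨h.symm, Finset.mem_univ x⟩) ?_
  simp

theorem eval_sum_Qx (c : Fin m → ℝ) (x : Fin m) :
    (∑ y, C (c y) * Qx s y).eval (s x) = c x * (Qx s x).eval (s x) := by
  rw [eval_finsetSum, Finset.sum_eq_single x]
  · rw [eval_mul, eval_C]
  · intro y _ hy
    rw [eval_mul, Qx_other s hy, mul_zero]
  · intro h
    exact absurd (Finset.mem_univ x) h

theorem mul_derivative_pow (u : ℝ) (p : ℕ) (P1 : ℝ[X]) :
    (X - C u) * derivative ((X - C u) ^ p * P1) =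
      (X - C u) ^ p * (C (p : ℝ) * P1 + (X - C u) * derivative P1) := by
  rw [derivative_mul, derivative_X_sub_C_pow]
  cases p with
  | zero => simp
  | succ p =>
    simp only [Nat.add_sub_cancel, pow_succ]
    push_cast
    simp only [map_add, map_natCast, map_one]
    ring

/-- a derivative of a rational function has no simple poles -/
theorem no_log (hs : Function.Injective s) (P R : ℝ[X]) (hR : R ≠ 0) (c : Fin m → ℝ)
    (h : Q s * (R * derivative P - derivative R * P) = -(R ^ 2 * ∑ y, C (c y) * Qx s y)) (x : Fin m) : c x = 0 := by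
  classical
  by_contra hc
  set u : ℝ[X] := X - C (s x) with hu
  have hu0 : u ≠ 0 := X_sub_C_ne_zero _
  have hue : u.eval (s x) = 0 := by simp [hu]
  have hS : (∑ y, C (c y) * Qx s y).eval (s x) ≠ 0 := by
    rw [eval_sum_Qx]
    exact mul_ne_zero hc (Qx_self s hs x)
  have hS0 : (∑ y, C (c y) * Qx s y) ≠ 0 := by
    intro h0
    rw [h0] at hS
    simp at hS
  have hP : P ≠ 0 := by
    rintro rfl
    simp only [derivative_zero, mul_zero, sub_zero] at h
    have h1 : R ^ 2 * ∑ y, C (c y) * Qx s y = 0 := by
      linear_combination h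
    rcases mul_eq_zero.1 h1 with h2 | h2
    · exact hR (pow_eq_zero_iff two_ne_zero |>.1 h2)
    · exact hS0 h2
  obtain ⟨P1, hP1, hP1'⟩ := exists_eq_pow_rootMultiplicity_mul_and_not_dvd P hP (s x)
  obtain ⟨R1, hR1, hR1'⟩ := exists_eq_pow_rootMultiplicity_mul_and_not_dvd R hR (s x)
  set p := rootMultiplicity (s x) P with hp
  set r := rootMultiplicity (s x) R with hr
  have hPe : P1.eval (s x) ≠ 0 := fun h0 => hP1' (dvd_iff_isRoot.2 h0)
  have hRe : R1.eval (s x) ≠ 0 := fun h0 => hR1' (dvd_iff_isRoot.2 h0)
  have hdP := mul_derivative_pow (s x) p P1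
  have hdR := mul_derivative_pow (s x) r R1
  rw [← hP1] at hdP
  rw [← hR1] at hdR
  -- the identity with the powers of `u`
  have key : u ^ (r + p) * (Qx s x * (C ((p : ℝ) - r) * P1 * R1 + u * (R1 * derivative P1 - derivative R1 * P1))) =
      u ^ (r + r) * (-(R1 ^ 2 * ∑ y, C (c y) * Qx s y)) := by
    have e1 : Q s * (R * derivative P - derivative R * P) =
        Qx s x * (R * (u * derivative P) - (u * derivative R) * P) := by
      rw [Q_eq s x, ← hu]
      ring
    rw [e1, hdP, hdR] at h
    rw [C_sub]
    have e2 : R ^ 2 = u ^ (r + r) * R1 ^ 2 := by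
      rw [hR1, ← hu]
      ring
    rw [e2] at h
    have e3 : R = u ^ r * R1 := hR1
    have e4 : P = u ^ p * P1 := hP1
    rw [e3, e4] at h
    rw [← hu] at h
    linear_combination h
  rcases lt_trichotomy p r with hlt | heq | hgt
  · obtain ⟨k, hk⟩ := Nat.exists_eq_add_of_lt hlt
    have e1 : u ^ (r + r) = u ^ (r + p) * u ^ (k + 1) := by
      rw [← pow_add]
      congr 1
      omega
    rw [e1] at key
    have key := key.trans (mul_assoc _ _ _)
    have k2 := mul_left_cancel₀ (pow_ne_zero _ hu0) key
    have k3 := congrArg (Polynomial.eval (s x)) k2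
    simp only [eval_mul, eval_add, eval_C, hue, zero_mul, add_zero, eval_pow] at k3
    rw [pow_succ, mul_zero, zero_mul] at k3
    have h1 : ((p : ℝ) - r) ≠ 0 := by
      rw [sub_ne_zero]
      exact_mod_cast hlt.ne
    exact (mul_ne_zero (Qx_self s hs x) (mul_ne_zero (mul_ne_zero h1 hPe) hRe)) k3
  · rw [heq] at key
    have k2 := mul_left_cancel₀ (pow_ne_zero _ hu0) key
    have k3 := congrArg (Polynomial.eval (s x)) k2
    simp only [eval_mul, eval_add, eval_C, hue, zero_mul, add_zero, eval_pow, eval_neg, sub_self, mul_zero] at k3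
    exact (mul_ne_zero (pow_ne_zero 2 hRe) hS) (neg_eq_zero.1 k3.symm)
  · obtain ⟨k, hk⟩ := Nat.exists_eq_add_of_lt hgt
    have e1 : u ^ (r + p) = u ^ (r + r) * u ^ (k + 1) := by
      rw [← pow_add]
      congr 1
      omega
    rw [e1] at key
    have key := (mul_assoc _ _ _).symm.trans key
    have k2 := mul_left_cancel₀ (pow_ne_zero _ hu0) key
    have k3 := congrArg (Polynomial.eval (s x)) k2
    simp only [eval_mul, eval_add, eval_C, hue, zero_mul, add_zero, eval_pow, eval_neg] at k3
    rw [pow_succ, mul_zero, zero_mul] at k3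
    exact (mul_ne_zero (pow_ne_zero 2 hRe) hS) (neg_eq_zero.1 k3.symm)

/-! ## Relations -/

/-- the value of the relation `R` at `t` -/
noncomputable def EE (g : List (Fin m) → ℝ → ℝ) (t : ℝ) : (List (Fin m) →₀ ℝ[X]) →ₗ[ℝ] ℝ :=
  Finsupp.lsum ℝ fun w => (g w t) • (Polynomial.leval t : ℝ[X] →ₗ[ℝ] ℝ)

theorem EE_single (g : List (Fin m) → ℝ → ℝ) (t : ℝ) (w : List (Fin m)) (p : ℝ[X]) :
    EE g t (Finsupp.single w p) = g w t * p.eval t := by
  simp [EE]

/-- the part of the derived relation from the word -/
noncomputable def tl : List (Fin m) → ℝ[X] →ₗ[ℝ] (List (Fin m) →₀ ℝ[X])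
  | [] => 0
  | x :: v => (Finsupp.lsingle v : ℝ[X] →ₗ[ℝ] (List (Fin m) →₀ ℝ[X])) ∘ₗ (LinearMap.mulLeft ℝ (Qx s x))

/-- the derived relation -/
noncomputable def DD : (List (Fin m) →₀ ℝ[X]) →ₗ[ℝ] (List (Fin m) →₀ ℝ[X]) :=
  Finsupp.lsum ℝ fun w => (Finsupp.lsingle w : ℝ[X] →ₗ[ℝ] (List (Fin m) →₀ ℝ[X])) ∘ₗ
    (LinearMap.mulLeft ℝ (Q s)) ∘ₗ derivative + tl s w

theorem DD_single (w : List (Fin m)) (p : ℝ[X]) :
    DD s (Finsupp.single w p) = Finsupp.single w (Q s * derivative p) + tl s w p := by
  simp [DD]

theorem DD_apply (R : List (Fin m) →₀ ℝ[X]) (v : List (Fin m)) :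
    DD s R v = Q s * derivative (R v) + ∑ x, Qx s x * R (x :: v) := by
  induction R using Finsupp.induction_linear with
  | zero => simp
  | add f g hf hg =>
    rw [map_add, Finsupp.add_apply, hf, hg, Finsupp.add_apply, derivative_add]
    simp only [Finsupp.add_apply, mul_add, Finset.sum_add_distrib]
    ring
  | single w p =>
    rw [DD_single, Finsupp.add_apply]
    congr 1
    · by_cases h : w = v
      · subst h
        simp
      · rw [Finsupp.single_eq_of_ne' h, Finsupp.single_eq_of_ne' h]
        simp
    · match w with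
      | [] => simp [tl]
      | y :: u =>
        simp only [tl, LinearMap.comp_apply, LinearMap.mulLeft_apply, Finsupp.lsingle_apply]
        by_cases h : u = v
        · subst h
          rw [Finsupp.single_eq_same, Finset.sum_eq_single y]
          · rw [Finsupp.single_eq_same]
          · intro x _ hx
            rw [Finsupp.single_eq_of_ne' (by simpa using fun h => hx h.symm), mul_zero]
          · intro h
            exact absurd (Finset.mem_univ y) h
        · rw [Finsupp.single_eq_of_ne' h]
          symm
          refine Finset.sum_eq_zero fun x _ => ?_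
          rw [Finsupp.single_eq_of_ne' (by simp [h]), mul_zero]

/-- `G` is a solution of `G' = (∑ X_i / (z - s_i)) G` on `(u, v)` with constant term `1` -/
def IsSol (s : Fin m → ℝ) (u v : ℝ) (g : List (Fin m) → ℝ → ℝ) : Prop :=
  (∀ z ∈ Ioo u v, g [] z = 1) ∧
    ∀ (x : Fin m) (w : List (Fin m)), ∀ z ∈ Ioo u v, HasDerivAt (g (x :: w)) (g w z / (z - s x)) z

theorem IsSol.mono {s : Fin m → ℝ} {u v u' v' : ℝ} {g : List (Fin m) → ℝ → ℝ} (h : IsSol s u v g) (hu : u ≤ u')
    (hv : v' ≤ v) : IsSol s u' v' g :=
  ⟨fun z hz => h.1 z ⟨hu.trans_lt hz.1, hz.2.trans_le hv⟩,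
    fun x w z hz => h.2 x w z ⟨hu.trans_lt hz.1, hz.2.trans_le hv⟩⟩

theorem IsSol.an {s : Fin m → ℝ} {u v : ℝ} {g : List (Fin m) → ℝ → ℝ} (h : IsSol s u v g)
    (hs : ∀ x, s x ∉ Ioo u v) : ∀ w, AnalyticOnNhd ℝ (g w) (Ioo u v) := by
  intro w
  induction w with
  | nil =>
    intro z hz
    have h1 : g [] =ᶠ[𝓝 z] fun _ => (1 : ℝ) := by
      filter_upwards [Ioo_mem_nhds hz.1 hz.2] with t ht
      exact h.1 t ht
    exact (analyticAt_congr h1).2 analyticAt_const
  | cons x w ih =>
    intro z hz
    have hz0 : z - s x ≠ 0 := by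
      rw [sub_ne_zero]
      rintro rfl
      exact hs x hz
    have h1 : AnalyticAt ℝ (fun t => g w t / (t - s x)) z := (ih z hz).div (analyticAt_id.sub analyticAt_const) hz0
    obtain ⟨F, hF, hF'⟩ := LiLoc.primitive h1
    have h2 : ∀ᶠ t in 𝓝 z, HasDerivAt (fun t => g (x :: w) t - F t) 0 t := by
      filter_upwards [Ioo_mem_nhds hz.1 hz.2, hF'] with t ht htF
      have := (h.2 x w t ht).sub htF
      rwa [sub_self] at this
    obtain ⟨ε, hε, hball⟩ := Metric.eventually_nhds_iff_ball.1 h2
    have h3 : ∀ t ∈ Metric.ball z ε, g (x :: w) t - F t = g (x :: w) z - F z := by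
      intro t ht
      refine (convex_ball z ε).is_const_of_fderivWithin_eq_zero (𝕜 := ℝ)
        (fun y hy => (hball y hy).differentiableAt.differentiableWithinAt) ?_ ht (Metric.mem_ball_self hε)
      intro y hy
      rw [fderivWithin_of_isOpen Metric.isOpen_ball hy]
      have := (hball y hy).hasFDerivAt.fderiv
      rw [this]
      ext
      simp
    have h4 : g (x :: w) =ᶠ[𝓝 z] fun t => F t + (g (x :: w) z - F z) := by
      filter_upwards [Metric.ball_mem_nhds z hε] with t ht
      rw [← h3 t ht]
      ring
    exact (analyticAt_congr h4).2 (hF.add analyticAt_const)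

theorem EE_deriv {u v : ℝ} {g : List (Fin m) → ℝ → ℝ} (h : IsSol s u v g) (hs : ∀ x, s x ∉ Ioo u v)
    (R : List (Fin m) →₀ ℝ[X]) : ∀ t ∈ Ioo u v, HasDerivAt (fun t => EE g t R) (EE g t (DD s R) / (Q s).eval t) t := by
  intro t ht
  have hQ : ∀ x, t - s x ≠ 0 := by
    intro x
    rw [sub_ne_zero]
    rintro rfl
    exact hs x ht
  have hQ0 : (Q s).eval t ≠ 0 := by
    unfold Q
    rw [eval_prod, Finset.prod_ne_zero_iff]
    intro x _
    rw [eval_sub, eval_X, eval_C]
    exact hQ x
  induction R using Finsupp.induction_linear with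
  | zero => simpa using hasDerivAt_const t (0 : ℝ)
  | add f1 f2 hf1 hf2 =>
    have := hf1.add hf2
    simp only [map_add]
    rw [add_div]
    exact this
  | single w p =>
    have h1 : (fun t => EE g t (Finsupp.single w p)) = fun t => g w t * p.eval t := by
      funext t
      exact EE_single g t w p
    rw [h1, DD_single, map_add, EE_single, eval_mul]
    have hp := p.hasDerivAt t
    match w with
    | [] =>
      have hg : HasDerivAt (g []) 0 t := by
        refine (hasDerivAt_const t (1 : ℝ)).congr_of_eventuallyEq ?_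
        filter_upwards [Ioo_mem_nhds ht.1 ht.2] with t ht
        exact h.1 t ht
      have := hg.mul hp
      refine this.congr_deriv ?_
      simp only [tl, LinearMap.zero_apply, map_zero, zero_mul, zero_add, add_zero]
      field_simp
    | x :: w =>
      have := (h.2 x w t ht).mul hp
      refine this.congr_deriv ?_
      simp only [tl, LinearMap.comp_apply, LinearMap.mulLeft_apply, Finsupp.lsingle_apply]
      rw [EE_single, eval_mul]
      have hQe : (Q s).eval t = (t - s x) * (Qx s x).eval t := by
        rw [Q_eq s x, eval_mul, eval_sub, eval_X, eval_C]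
      have hQx0 : (Qx s x).eval t ≠ 0 := by
        intro h0
        rw [h0, mul_zero] at hQe
        exact hQ0 hQe
      have h3 := hQ x
      rw [hQe]
      field_simp
      ring

theorem EE_smul (g : List (Fin m) → ℝ → ℝ) (t : ℝ) (q : ℝ[X]) (R : List (Fin m) →₀ ℝ[X]) :
    EE g t (q • R) = q.eval t * EE g t R := by
  induction R using Finsupp.induction_linear with
  | zero => simp
  | add f1 f2 hf1 hf2 => rw [smul_add, map_add, map_add, hf1, hf2, mul_add]
  | single w p =>
    rw [Finsupp.smul_single, EE_single, EE_single, smul_eq_mul, eval_mul]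
    ring

theorem poly_zero {u v : ℝ} (huv : u < v) (p : ℝ[X]) (hp : ∀ t ∈ Ioo u v, p.eval t = 0) : p = 0 :=
  Polynomial.eq_zero_of_infinite_isRoot p ((Set.Ioo_infinite huv).mono fun t ht => hp t ht)

/-- no relation, by induction on the length `L` and the number `N` of words of length `L` -/
theorem no_rel (hinj : Function.Injective s) {u v : ℝ} (huv : u < v) {g : List (Fin m) → ℝ → ℝ} (h : IsSol s u v g)
    (hs : ∀ x, s x ∉ Ioo u v) (L : ℕ) : ∀ (N : ℕ) (R : List (Fin m) →₀ ℝ[X]), (∀ w, R w ≠ 0 → w.length ≤ L) →
    (R.support.filter fun w => w.length = L).card ≤ N → (∀ t ∈ Ioo u v, EE g t R = 0) → R = 0 := by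
  classical
  induction L with
  | zero =>
    intro N R hL _ hR
    have h1 : R = Finsupp.single [] (R []) := by
      ext1 w
      by_cases hw : w = []
      · subst hw
        rw [Finsupp.single_eq_same]
      · rw [Finsupp.single_eq_of_ne' (fun h => hw h.symm)]
        by_contra hne
        exact hw (List.eq_nil_of_length_eq_zero (Nat.le_zero.1 (hL w hne)))
    have h2 : R [] = 0 := by
      refine poly_zero huv _ fun t ht => ?_
      have := hR t ht
      rwa [h1, EE_single, h.1 t ht, one_mul] at this
    rw [h1, h2, Finsupp.single_zero]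
  | succ L ihL =>
    intro N
    induction N with
    | zero =>
      intro R hL hN hR
      refine ihL _ R ?_ le_rfl hR
      intro w hw
      have h1 := hL w hw
      by_contra hcon
      have h2 : w.length = L + 1 := by omega
      have h3 : w ∈ R.support.filter fun w => w.length = L + 1 :=
        Finset.mem_filter.2 ⟨Finsupp.mem_support_iff.2 hw, h2⟩
      rw [Finset.card_eq_zero.1 (Nat.le_zero.1 hN)] at h3
      simp at h3
    | succ N ihN =>
      intro R hL hN hR
      by_cases hne : (R.support.filter fun w => w.length = L + 1).Nonempty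
      swap
      · refine ihN R hL ?_ hR
        rw [Finset.not_nonempty_iff_eq_empty.1 hne, Finset.card_empty]
        omega
      exfalso
      obtain ⟨w0, hw0⟩ := hne
      rw [Finset.mem_filter, Finsupp.mem_support_iff] at hw0
      obtain ⟨hw0R, hw0L⟩ := hw0
      obtain ⟨x0, v0, rfl⟩ : ∃ x0 v0, w0 = x0 :: v0 := by
        cases w0 with
        | nil => simp at hw0L
        | cons x v => exact ⟨x, v, rfl⟩
      have hlong : ∀ w : List (Fin m), L + 1 < w.length → R w = 0 := by
        intro w hw
        by_contra hcon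
        have := hL w hcon
        omega
      have hDtop : ∀ w : List (Fin m), L + 1 ≤ w.length → DD s R w = Q s * derivative (R w) := by
        intro w hw
        rw [DD_apply, Finset.sum_eq_zero, add_zero]
        intro x _
        rw [hlong (x :: w) (by rw [List.length_cons]; omega), mul_zero]
      set P0 : ℝ[X] := R (x0 :: v0) with hP0
      set R2 : List (Fin m) →₀ ℝ[X] := P0 • DD s R - (DD s R (x0 :: v0)) • R with hR2
      have hR2a : ∀ w, R2 w = P0 * DD s R w - DD s R (x0 :: v0) * R w := by
        intro w
        rw [hR2, Finsupp.sub_apply, Finsupp.smul_apply, Finsupp.smul_apply, smul_eq_mul, smul_eq_mul]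
      have hz : R2 = 0 := by
        refine ihN R2 ?_ ?_ ?_
        · intro w hw
          by_contra hcon
          apply hw
          rw [hR2a, hlong w (by omega), hDtop w (by omega), hlong w (by omega)]
          simp
        · have hsub : (R2.support.filter fun w => w.length = L + 1) ⊆
              (R.support.filter fun w => w.length = L + 1).erase (x0 :: v0) := by
            intro w hw
            rw [Finset.mem_filter, Finsupp.mem_support_iff] at hw
            rw [Finset.mem_erase, Finset.mem_filter, Finsupp.mem_support_iff]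
            refine ⟨?_, ?_, hw.2⟩
            · rintro rfl
              apply hw.1
              rw [hR2a]
              ring
            · intro h0
              apply hw.1
              rw [hR2a, hDtop w (by omega), h0]
              simp
          have h1 := Finset.card_le_card hsub
          rw [Finset.card_erase_of_mem (Finset.mem_filter.2 ⟨Finsupp.mem_support_iff.2 hw0R, hw0L⟩)] at h1
          omega
        · intro t ht
          have hd := EE_deriv s h hs R t ht
          have hd0 : HasDerivAt (fun t => EE g t R) 0 t := by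
            refine (hasDerivAt_const t (0 : ℝ)).congr_of_eventuallyEq ?_
            filter_upwards [Ioo_mem_nhds ht.1 ht.2] with t ht
            exact hR t ht
          have h1 := hd.unique hd0
          have hQ0 : (Q s).eval t ≠ 0 := by
            unfold Q
            rw [eval_prod, Finset.prod_ne_zero_iff]
            intro x _
            rw [eval_sub, eval_X, eval_C, sub_ne_zero]
            rintro rfl
            exact hs x ht
          have h2 : EE g t (DD s R) = 0 := by
            rcases div_eq_zero_iff.1 h1 with h2 | h2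
            · exact h2
            · exact absurd h2 hQ0
          rw [hR2, map_sub, EE_smul, EE_smul, h2, hR t ht]
          ring
      have hrel : ∀ w, P0 * DD s R w = DD s R (x0 :: v0) * R w := by
        intro w
        have := hR2a w
        rw [hz, Finsupp.zero_apply] at this
        exact (sub_eq_zero.1 this.symm)
      have hQne : Q s ≠ 0 := by
        unfold Q
        exact Finset.prod_ne_zero_iff.2 fun x _ => X_sub_C_ne_zero _
      have htop0 : DD s R (x0 :: v0) = Q s * derivative P0 := hDtop _ (by omega)
      have hlen : v0.length = L := by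
        rw [List.length_cons] at hw0L
        omega
      have hprop : ∀ x, ∃ c : ℝ, R (x :: v0) = C c * P0 := by
        intro x
        refine prop_of_wronskian hw0R ?_
        have h1 := hrel (x :: v0)
        rw [htop0, hDtop (x :: v0) (by rw [List.length_cons]; omega)] at h1
        refine mul_left_cancel₀ hQne ?_
        linear_combination h1
      choose c hc using hprop
      have h1 := hrel v0
      rw [htop0, DD_apply] at h1
      have h2 : ∑ x, Qx s x * R (x :: v0) = P0 * ∑ x, C (c x) * Qx s x := by
        rw [Finset.mul_sum]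
        refine Finset.sum_congr rfl fun x _ => ?_
        rw [hc x]
        ring
      rw [h2] at h1
      have h3 := no_log s hinj (R v0) P0 hw0R c (by linear_combination h1) x0
      have h4 := hc x0
      rw [h3, C_0, zero_mul] at h4
      exact hw0R h4

/-! ## Words of bounded length -/

/-- words of length at most `k` -/
abbrev Word (m k : ℕ) := Σ l : Fin (k + 1), (Fin (l : ℕ) → Fin m)

/-- the list of letters -/
def Word.list {m k : ℕ} (w : Word m k) : List (Fin m) := List.ofFn w.2

theorem Word.list_inj {m k : ℕ} : Function.Injective (Word.list : Word m k → List (Fin m)) := by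
  rintro ⟨l, w⟩ ⟨l', w'⟩ h
  unfold Word.list at h
  have h1 := List.ofFn_inj'.1 h
  have hl : (l : ℕ) = l' := congrArg Sigma.fst h1
  have hl' : l = l' := Fin.ext hl
  subst hl'
  have := eq_of_heq (Sigma.mk.inj_iff.1 h1).2
  simp only at this
  rw [this]

theorem card_Word (m k : ℕ) : Fintype.card (Word m k) = ∑ l ∈ Finset.range (k + 1), m ^ l := by
  rw [Fintype.card_sigma, Finset.sum_range]
  simp

theorem hyp_indep (hinj : Function.Injective s) {u v a b : ℝ} (hu : u < a) (hab : a < b) (hv : b < v)
    {g : List (Fin m) → ℝ → ℝ} (h : IsSol s u v g) (hs : ∀ x, s x ∉ Ioo u v) (k : ℕ) :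
    RIndep (fun (w : Word m k) t => g w.list t) a b := by
  classical
  intro p hp
  set R : List (Fin m) →₀ ℝ[X] := ∑ w : Word m k, Finsupp.single w.list (p w) with hR
  have hRw : ∀ w : Word m k, R w.list = p w := by
    intro w
    rw [hR, Finsupp.finsetSum_apply, Finset.sum_eq_single w]
    · rw [Finsupp.single_eq_same]
    · intro w' _ hw
      exact Finsupp.single_eq_of_ne' fun h => hw (Word.list_inj h)
    · intro h
      exact absurd (Finset.mem_univ w) h
  have hsol : IsSol s a b g := h.mono hu.le hv.le
  have h0 : R = 0 := by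
    refine no_rel s hinj hab hsol (fun x hx => hs x ⟨hu.trans hx.1, hx.2.trans hv⟩) k _ R ?_ le_rfl ?_
    · intro w hw
      by_contra hcon
      apply hw
      rw [hR, Finsupp.finsetSum_apply]
      refine Finset.sum_eq_zero fun w' _ => ?_
      refine Finsupp.single_eq_of_ne' fun h => hcon ?_
      rw [← h]
      unfold Word.list
      rw [List.length_ofFn]
      have := w'.1.2
      omega
    · intro t ht
      rw [hR, map_sum]
      simp only [EE_single]
      rw [← hp t ⟨ht.1.le, ht.2.le⟩]
      exact Finset.sum_congr rfl fun w _ => mul_comm _ _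
  funext w
  rw [← hRw w, h0]
  rfl

end Pool.Agent.TH818.AP.Hyp
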