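import Pool.Agent.TH818.AP.All

/-!
# Approximate relations between values of analytic functions at almost all rational points: general statements

`almost_all`: one parameter, `multi_gen`: several parameters, `pi_scale'`: the powers of `π` as constants.
-/

set_option autoImplicit false

open Set Polynomial Filter Topology

namespace Pool.Agent.TH818.AP

open Pool.Agent.TH818.AR

variable {ι h : Type} [Fintype ι] [Fintype h]

/-- the constants `ξ` have a measure of linear independence of polynomial type -/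
def GoodConst (ξ : h → ℝ) : Prop := ∀ κ : ℝ, ∃ B T0 : ℝ, ∀ T : ℝ, T0 ≤ T → ScaleMeas ξ κ B T

/-- `1, π, …, π^d` -/
theorem goodConst_pi (d : ℕ) : GoodConst (fun e : Fin (d + 1) => Real.pi ^ (e : ℕ)) := fun κ => by
  obtain ⟨B, T0, -, hT⟩ := pi_scale d κ
  exact ⟨B, T0, hT⟩

/-- the constant `1` -/
theorem goodConst_one : GoodConst (fun _ : Unit => (1 : ℝ)) := fun κ => ⟨0, 1, fun T hT c hc _ => by
  have hc0 : c () ≠ 0 := by
    intro h0
    apply hc
    funext u
    exact h0
  have h1 : (1 : ℝ) ≤ |(c () : ℝ)| := by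
    have := Int.one_le_abs hc0
    exact_mod_cast this
  simpa using h1⟩

/-- `g_l` analytic on `[a,b]` and linearly independent over `ℝ[t]`, `ξ_e` constants with a measure of linear
independence: for all but `C T^β` rationals `q` of `[a,b]` with denominator `≤ T`, all combinations
`∑ c_{l,e} ξ_e g_l(q)` with integer coefficients not all zero, at most `T^A`, have absolute value `> T^(-B)`. -/
theorem almost_all (g : ι → ℝ → ℝ) (a b : ℝ) (hab : a < b) (han : ∀ l, AnalyticOnNhd ℝ (g l) (Icc a b))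
    (hg : RIndep g a b) (ξ : h → ℝ) (hξ : GoodConst ξ) (A β : ℝ) (hA : 0 ≤ A) (M : ℕ)
    (hM : Fintype.card ι * Fintype.card h = M) (hβ : 2 * (M : ℝ) / (M + 1) < β) :
    ∃ B C : ℝ, ∀ T : ℝ, 1 ≤ T → (ExcC g a b A B T ξ).Finite ∧ ((ExcC g a b A B T ξ).ncard : ℝ) ≤ C * T ^ β := by
  classical
  have hβ0 : 0 < β := lt_of_le_of_lt (by positivity) hβ
  obtain ⟨κ, C, hC, hU⟩ := uniform bd tlow AR.taylor det2 arith aux2 (h := h) g a b hab han hg A β hA M hM hβ
  obtain ⟨B1, T1, hs⟩ := hξ κ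
  obtain ⟨B, T2, hT2, hfin⟩ := hU B1
  set T0 := max T1 T2 with hT0
  set C0 : ℝ := ((RT a b T0).card : ℝ) with hC0
  have hC00 : 0 ≤ C0 := by positivity
  refine ⟨B, C + C0, ?_⟩
  intro T hT
  have hTβ : 1 ≤ T ^ β := Real.one_le_rpow hT hβ0.le
  rcases lt_or_ge T T0 with hlt' | hge
  · have h1 : ExcC g a b A B T ξ ⊆ (RT a b T0 : Finset ℚ) := by
      intro t ht
      rw [Finset.mem_coe]
      exact mem_RT.2 ⟨ht.1, ht.2.1.trans hlt'.le⟩
    have h2 := Set.ncard_le_ncard h1 (Finset.finite_toSet _)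
    rw [Set.ncard_coe_finset] at h2
    refine ⟨(Finset.finite_toSet _).subset h1, ?_⟩
    have h3 : ((ExcC g a b A B T ξ).ncard : ℝ) ≤ C0 := by rw [hC0]; exact_mod_cast h2
    nlinarith
  · obtain ⟨h1, h2⟩ := hfin T ((le_max_right _ _).trans hge) _ (hs T ((le_max_left _ _).trans hge))
    exact ⟨h1, by nlinarith⟩

/-! ## Several parameters -/

/-- products of functions of the separate variables and of constants -/
noncomputable def mono {n : ℕ} (g : Fin n → ι → ℝ → ℝ) (ξ : h → ℝ) (t : Fin n → ℚ) (e : (Fin n → ι) × h) : ℝ :=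
  (∏ j, g j (e.1 j) (t j : ℝ)) * ξ e.2

/-- the exceptional set -/
def ExcM {n : ℕ} (g : Fin n → ι → ℝ → ℝ) (ξ : h → ℝ) (a b : Fin n → ℝ) (A B T : ℝ) : Set (Fin n → ℚ) :=
  {t | (∀ j, (t j : ℝ) ∈ Icc (a j) (b j) ∧ ((t j).den : ℝ) ≤ T) ∧
    ∃ c : (Fin n → ι) × h → ℤ, c ≠ 0 ∧ (∀ e, |(c e : ℝ)| ≤ T ^ A) ∧ |∑ e, (c e : ℝ) * mono g ξ t e| ≤ T ^ (-B)}

theorem card_RT_gen (a b : ℝ) : ∃ K : ℝ, 0 < K ∧ ∀ T : ℝ, 1 ≤ T → ((RT a b T).card : ℝ) ≤ K * T ^ (2 : ℝ) := by
  classical
  set Mab : ℝ := max (max |a| |b|) 1 with hMab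
  have hMab1 : 1 ≤ Mab := le_max_right _ _
  refine ⟨(2 * Mab + 1) * 2, by positivity, ?_⟩
  intro T hT
  set N := ⌊T⌋₊ with hN
  set N' := ⌊Mab * T⌋₊ with hN'
  have hNT : (N : ℝ) ≤ T := Nat.floor_le (by linarith)
  have hNT' : (N' : ℝ) ≤ Mab * T := Nat.floor_le (by positivity)
  have hmap : ∀ q ∈ RT a b T, (fun q : ℚ => (q.num, q.den)) q ∈
      Finset.Icc (-(N' : ℤ)) N' ×ˢ Finset.range (N + 1) := by
    intro q hq
    obtain ⟨hq1, hq2⟩ := mem_RT.1 hq
    have hd : q.den ≤ N := Nat.le_floor hq2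
    have hn := (num_le hq1 hq2).1
    have hn' : q.num.natAbs ≤ N' := by
      apply Nat.le_floor
      have : ((q.num.natAbs : ℕ) : ℝ) = |(q.num : ℝ)| := by
        rw [← Int.cast_abs, Int.abs_eq_natAbs]
        simp
      rw [this]
      exact hn
    simp only [Finset.mem_product, Finset.mem_range, Finset.mem_Icc]
    omega
  have hinj : Set.InjOn (fun q : ℚ => (q.num, q.den)) (RT a b T) := by
    intro q _ q' _ heq
    simp only [Prod.mk.injEq] at heq
    exact Rat.ext heq.1 heq.2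
  have h1 := Finset.card_le_card_of_injOn _ hmap hinj
  rw [Finset.card_product, Finset.card_range, Int.card_Icc] at h1
  have h2 : ((RT a b T).card : ℝ) ≤ (2 * (N' : ℝ) + 1) * (N + 1) := by
    have h3 : ((N' : ℤ) + 1 - -(N' : ℤ)).toNat = 2 * N' + 1 := by omega
    rw [h3] at h1
    exact_mod_cast h1
  have h3 : T ^ (2 : ℝ) = T * T := by
    rw [show (2 : ℝ) = ((2 : ℕ) : ℝ) by norm_num, Real.rpow_natCast]
    ring
  rw [h3]
  have h4 : 2 * (N' : ℝ) + 1 ≤ (2 * Mab + 1) * T := by nlinarith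
  have h5 : (N : ℝ) + 1 ≤ 2 * T := by linarith
  calc ((RT a b T).card : ℝ) ≤ (2 * (N' : ℝ) + 1) * (N + 1) := h2
    _ ≤ ((2 * Mab + 1) * T) * (2 * T) := mul_le_mul h4 h5 (by positivity) (by positivity)
    _ = (2 * Mab + 1) * 2 * (T * T) := by ring

theorem ExcM_sub {n : ℕ} (g : Fin n → ι → ℝ → ℝ) (ξ : h → ℝ) (a b : Fin n → ℝ) (A B T : ℝ) :
    ExcM g ξ a b A B T ⊆ (Fintype.piFinset fun j : Fin n => RT (a j) (b j) T : Finset (Fin n → ℚ)) := by
  intro t ht
  rw [Finset.mem_coe, Fintype.mem_piFinset]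
  exact fun j => mem_RT.2 (ht.1 j)

theorem ExcM_fin {n : ℕ} (g : Fin n → ι → ℝ → ℝ) (ξ : h → ℝ) (a b : Fin n → ℝ) (A B T : ℝ) :
    (ExcM g ξ a b A B T).Finite :=
  (Finset.finite_toSet _).subset (ExcM_sub g ξ a b A B T)

/-- splitting off the first variable -/
def eqG (n : ℕ) (ι h : Type) : (Fin (n + 1) → ι) × h ≃ ι × ((Fin n → ι) × h) where
  toFun e := (e.1 0, (fun j => e.1 j.succ, e.2))
  invFun x := (Fin.cons x.1 x.2.1, x.2.2)
  left_inv e := by
    refine Prod.ext ?_ rfl
    funext j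
    refine Fin.cases ?_ (fun i => ?_) j <;> simp
  right_inv x := by
    refine Prod.ext ?_ (Prod.ext ?_ rfl)
    · simp
    · funext j
      simp

omit [Fintype ι] [Fintype h] in
theorem mono_succ {n : ℕ} (g : Fin (n + 1) → ι → ℝ → ℝ) (ξ : h → ℝ) (t : Fin (n + 1) → ℚ)
    (e : (Fin (n + 1) → ι) × h) :
    mono g ξ t e = mono (fun j : Fin n => g j.succ) ξ (fun j => t j.succ) (eqG n ι h e).2 *
      g 0 (eqG n ι h e).1 (t 0 : ℝ) := by
  simp only [mono, eqG, Equiv.coe_fn_mk, Fin.prod_univ_succ]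
  ring

/-- For every `j` the functions `g_j,l` are analytic on `[a_j,b_j]` and linearly independent over `ℝ[t]`, the constants
`ξ` have a measure of linear independence: for all but `C T^(2(n-1)+β)` of the `n`-tuples of rationals `t_j` of
`[a_j,b_j]` with denominators `≤ T`, all combinations of the products `ξ_e ∏ g_(j,l_j)(t_j)` with integer coefficients not
all zero, at most `T^A`, have absolute value `> T^(-B)`. Here `M = (card ι)^n * card h` and `β > 2M/(M+1)`. -/
theorem multi_gen0 (hι : 0 < Fintype.card ι) (ξ : h → ℝ) (hξ : GoodConst ξ) (n : ℕ) :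
    ∀ (g : Fin n → ι → ℝ → ℝ) (a b : Fin n → ℝ), (∀ j, a j < b j) →
    (∀ j l, AnalyticOnNhd ℝ (g j l) (Icc (a j) (b j))) → (∀ j, RIndep (g j) (a j) (b j)) →
    ∀ (A β : ℝ), 0 ≤ A → 2 * (((Fintype.card ι) ^ n * Fintype.card h : ℕ) : ℝ) /
      ((((Fintype.card ι) ^ n * Fintype.card h : ℕ) : ℝ) + 1) < β →
    ∃ B C T0 : ℝ, 0 < C ∧ 1 ≤ T0 ∧ ∀ T : ℝ, T0 ≤ T →
      ((ExcM g ξ a b A B T).ncard : ℝ) ≤ C * T ^ (2 * ((n : ℝ) - 1) + β) := by
  classical
  induction n with
  | zero =>
    intro g a b hab han hg A β hA hβ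
    obtain ⟨B, T1, hs⟩ := hξ A
    refine ⟨B + 1, 1, max T1 2, one_pos, le_max_of_le_right (by norm_num), ?_⟩
    intro T hT
    have hT2 : 2 ≤ T := (le_max_right _ _).trans hT
    have hTp : 0 < T := by linarith
    have hemp : ExcM g ξ a b A (B + 1) T = ∅ := by
      rw [Set.eq_empty_iff_forall_notMem]
      rintro t ⟨-, c, hc0, hc, hcs⟩
      have h1 := hs T ((le_max_left _ _).trans hT) (fun e => c (Fin.elim0, e)) (by
        intro hcon
        apply hc0
        funext e
        have := congrFun hcon e.2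
        simp only [Pi.zero_apply] at this
        rw [Pi.zero_apply, ← this]
        congr 1
        exact Prod.ext (Subsingleton.elim _ _) rfl) (fun e => hc _)
      have h2 : ∑ e : (Fin 0 → ι) × h, (c e : ℝ) * mono g ξ t e = ∑ e, (c (Fin.elim0, e) : ℝ) * ξ e := by
        rw [Fintype.sum_prod_type]
        rw [Fintype.sum_subsingleton _ (Fin.elim0 : Fin 0 → ι)]
        refine Finset.sum_congr rfl fun e _ => ?_
        simp [mono]
      rw [h2] at hcs
      have h3 := h1.trans hcs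
      have h4 : T ^ (-(B + 1)) < T ^ (-B) := Real.rpow_lt_rpow_of_exponent_lt (by linarith) (by linarith)
      linarith
    rw [hemp, Set.ncard_empty, Nat.cast_zero]
    positivity
  | succ n ih =>
    intro g a b hab han hg A β hA hβ
    have hMle : (((Fintype.card ι) ^ n * Fintype.card h : ℕ) : ℝ) ≤
        (((Fintype.card ι) ^ (n + 1) * Fintype.card h : ℕ) : ℝ) := by
      exact_mod_cast Nat.mul_le_mul_right _ (Nat.pow_le_pow_right hι (by omega))
    have hβ' : 2 * (((Fintype.card ι) ^ n * Fintype.card h : ℕ) : ℝ) /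
        ((((Fintype.card ι) ^ n * Fintype.card h : ℕ) : ℝ) + 1) < β := by
      refine lt_of_le_of_lt ?_ hβ
      rw [div_le_div_iff₀ (by positivity) (by positivity)]
      nlinarith
    have hcard : Fintype.card ι * Fintype.card ((Fin n → ι) × h) = (Fintype.card ι) ^ (n + 1) * Fintype.card h := by
      simp only [Fintype.card_prod, Fintype.card_pi, Finset.prod_const, Finset.card_univ, Fintype.card_fin]
      ring
    obtain ⟨κ, C1, hC1, hU⟩ := uniform bd tlow AR.taylor det2 arith aux2 (h := (Fin n → ι) × h)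
      (g 0) (a 0) (b 0) (hab 0) (han 0) (hg 0) A β hA _ hcard hβ
    obtain ⟨B', C', T1, hC', hT1, hih⟩ := ih (fun j => g j.succ) (fun j => a j.succ) (fun j => b j.succ)
      (fun j => hab _) (fun j => han _) (fun j => hg _) (max κ 0) β (le_max_right _ _) hβ'
    obtain ⟨B, T2, hT2, hU'⟩ := hU B'
    choose K hK0 hK using fun j => card_RT_gen (a j) (b j)
    have hKp : 0 < ∏ j : Fin n, K j.succ := Finset.prod_pos fun j _ => hK0 _
    refine ⟨B, K 0 * C' + C1 * ∏ j : Fin n, K j.succ, max T1 T2, by have := hK0 0; positivity,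
      le_max_of_le_left hT1, ?_⟩
    intro T hT
    have hTT1 : T1 ≤ T := (le_max_left _ _).trans hT
    have hTT2 : T2 ≤ T := (le_max_right _ _).trans hT
    have hTge : 1 ≤ T := hT1.trans hTT1
    have hTp : 0 < T := by linarith
    -- the key inclusion
    have hkey : ∀ t ∈ ExcM g ξ a b A B T, (fun j : Fin n => t j.succ) ∉
        ExcM (fun j : Fin n => g j.succ) ξ (fun j => a j.succ) (fun j => b j.succ) (max κ 0) B' T →
        ScaleMeas (mono (fun j : Fin n => g j.succ) ξ fun j : Fin n => t j.succ) κ B' T ∧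
        t 0 ∈ ExcC (g 0) (a 0) (b 0) A B T (mono (fun j : Fin n => g j.succ) ξ fun j : Fin n => t j.succ) := by
      rintro t ⟨ht, c, hc0, hc, hcs⟩ hnot
      constructor
      · intro c' hc'0 hc'
        by_contra hcon
        rw [not_le] at hcon
        apply hnot
        refine ⟨fun j => ht j.succ, c', hc'0, fun e => (hc' e).trans ?_, hcon.le⟩
        exact Real.rpow_le_rpow_of_exponent_le hTge (le_max_left _ _)
      · refine ⟨(ht 0).1, (ht 0).2, fun l => c ((eqG n ι h).symm l), ?_, fun l => hc _, ?_⟩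
        · intro hcon
          apply hc0
          funext e
          have := congrFun hcon (eqG n ι h e)
          simpa using this
        · rw [← Equiv.sum_comp (eqG n ι h)]
          refine le_trans (le_of_eq ?_) hcs
          congr 1
          refine Finset.sum_congr rfl fun e _ => ?_
          rw [mono_succ]
          simp only [Equiv.symm_apply_apply]
    set S := (ExcM_fin g ξ a b A B T).toFinset with hS
    set S0 := (ExcM_fin (fun j : Fin n => g j.succ) ξ (fun j => a j.succ) (fun j => b j.succ)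
      (max κ 0) B' T).toFinset with hS0
    have hSmem : ∀ t, t ∈ S ↔ t ∈ ExcM g ξ a b A B T := fun t => (ExcM_fin _ _ _ _ _ _ _).mem_toFinset
    have hS0mem : ∀ t, t ∈ S0 ↔ t ∈ ExcM (fun j : Fin n => g j.succ) ξ (fun j => a j.succ) (fun j => b j.succ)
      (max κ 0) B' T := fun t => (ExcM_fin _ _ _ _ _ _ _).mem_toFinset
    rw [Set.ncard_eq_toFinset_card _ (ExcM_fin g ξ a b A B T)]
    have hsplit := Finset.card_filter_add_card_filter_not (s := S)
      (p := fun t : Fin (n + 1) → ℚ => (fun j : Fin n => t j.succ) ∈ S0)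
    -- first part
    have hp1 : ((S.filter fun t : Fin (n + 1) → ℚ => (fun j : Fin n => t j.succ) ∈ S0).card : ℝ) ≤
        (K 0 * C') * T ^ (2 * (((n + 1 : ℕ) : ℝ) - 1) + β) := by
      have hle : (S.filter fun t : Fin (n + 1) → ℚ => (fun j : Fin n => t j.succ) ∈ S0).card ≤
          (RT (a 0) (b 0) T ×ˢ S0).card := by
        refine Finset.card_le_card_of_injOn (fun t => (t 0, fun j : Fin n => t j.succ)) ?_ ?_
        · intro t ht
          rw [Finset.mem_coe, Finset.mem_filter] at ht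
          rw [Finset.mem_coe, Finset.mem_product]
          exact ⟨mem_RT.2 (((hSmem t).1 ht.1).1 0), ht.2⟩
        · intro t _ t' _ heq
          simp only [Prod.mk.injEq] at heq
          funext j
          refine Fin.cases heq.1 (fun i => congrFun heq.2 i) j
      rw [Finset.card_product] at hle
      have h0 : (S0.card : ℝ) ≤ C' * T ^ (2 * ((n : ℝ) - 1) + β) := by
        have := hih T hTT1
        rwa [Set.ncard_eq_toFinset_card _ (ExcM_fin _ _ _ _ _ _ _)] at this
      calc ((S.filter fun t : Fin (n + 1) → ℚ => (fun j : Fin n => t j.succ) ∈ S0).card : ℝ)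
          ≤ ((RT (a 0) (b 0) T).card : ℝ) * (S0.card : ℝ) := by exact_mod_cast hle
        _ ≤ (K 0 * T ^ (2 : ℝ)) * (C' * T ^ (2 * ((n : ℝ) - 1) + β)) :=
            mul_le_mul (hK 0 T hTge) h0 (by positivity) (by have := hK0 0; positivity)
        _ = (K 0 * C') * (T ^ (2 : ℝ) * T ^ (2 * ((n : ℝ) - 1) + β)) := by ring
        _ = (K 0 * C') * T ^ (2 * (((n + 1 : ℕ) : ℝ) - 1) + β) := by
            rw [← Real.rpow_add hTp]
            congr 2
            push_cast
            ring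
    -- second part
    have hp2 : ((S.filter fun t : Fin (n + 1) → ℚ => ¬ (fun j : Fin n => t j.succ) ∈ S0).card : ℝ) ≤
        (C1 * ∏ j : Fin n, K j.succ) * T ^ (2 * (((n + 1 : ℕ) : ℝ) - 1) + β) := by
      set F := S.filter fun t : Fin (n + 1) → ℚ => ¬ (fun j : Fin n => t j.succ) ∈ S0 with hF
      have hmaps : ∀ t ∈ F, (fun t : Fin (n + 1) → ℚ => fun j : Fin n => t j.succ) t ∈
          Fintype.piFinset fun j : Fin n => RT (a j.succ) (b j.succ) T := by
        intro t ht
        rw [Fintype.mem_piFinset]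
        exact fun j => mem_RT.2 (((hSmem t).1 (Finset.mem_filter.1 ht).1).1 j.succ)
      have hfib : ∀ t' ∈ Fintype.piFinset fun j : Fin n => RT (a j.succ) (b j.succ) T,
          (F.filter fun t => (fun j : Fin n => t j.succ) = t').card ≤ ⌊C1 * T ^ β⌋₊ := by
        intro t' _
        rcases (F.filter fun t => (fun j : Fin n => t j.succ) = t').eq_empty_or_nonempty with hemp | ⟨t1, ht1⟩
        · rw [hemp]; simp
        rw [Finset.mem_filter] at ht1
        have hmemF : ∀ t ∈ F, t ∈ ExcM g ξ a b A B T ∧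
            (fun j : Fin n => t j.succ) ∉ ExcM (fun j : Fin n => g j.succ) ξ (fun j => a j.succ)
              (fun j => b j.succ) (max κ 0) B' T := by
          intro t ht
          rw [hF, Finset.mem_filter] at ht
          exact ⟨(hSmem t).1 ht.1, fun hcon => ht.2 ((hS0mem _).2 hcon)⟩
        have hsm := (hkey t1 (hmemF t1 ht1.1).1 (hmemF t1 ht1.1).2).1
        rw [ht1.2] at hsm
        obtain ⟨hfin, hnc⟩ := hU' T hTT2 _ hsm
        rw [Set.ncard_eq_toFinset_card _ hfin] at hnc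
        refine le_trans ?_ (Nat.le_floor hnc)
        refine Finset.card_le_card_of_injOn (fun t => t 0) ?_ ?_
        · intro t ht
          rw [Finset.mem_coe, Finset.mem_filter] at ht
          rw [Finset.mem_coe, Set.Finite.mem_toFinset]
          have := (hkey t (hmemF t ht.1).1 (hmemF t ht.1).2).2
          rwa [ht.2] at this
        · intro t ht t2 ht2 heq
          rw [Finset.mem_coe, Finset.mem_filter] at ht ht2
          funext j
          refine Fin.cases heq (fun i => ?_) j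
          exact congrFun (ht.2.trans ht2.2.symm) i
      have hcardF := Finset.card_le_mul_card_image_of_maps_to hmaps _ hfib
      rw [Fintype.card_piFinset] at hcardF
      have h1 : (F.card : ℝ) ≤ (⌊C1 * T ^ β⌋₊ : ℝ) * ∏ j : Fin n, ((RT (a j.succ) (b j.succ) T).card : ℝ) := by
        exact_mod_cast hcardF
      have h2 : (⌊C1 * T ^ β⌋₊ : ℝ) ≤ C1 * T ^ β := Nat.floor_le (by positivity)
      have h3 : ∏ j : Fin n, ((RT (a j.succ) (b j.succ) T).card : ℝ) ≤ ∏ j : Fin n, (K j.succ * T ^ (2 : ℝ)) :=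
        Finset.prod_le_prod (fun j _ => by positivity) (fun j _ => hK j.succ T hTge)
      calc (F.card : ℝ) ≤ (⌊C1 * T ^ β⌋₊ : ℝ) * ∏ j : Fin n, ((RT (a j.succ) (b j.succ) T).card : ℝ) := h1
        _ ≤ (C1 * T ^ β) * ∏ j : Fin n, (K j.succ * T ^ (2 : ℝ)) :=
            mul_le_mul h2 h3 (Finset.prod_nonneg fun j _ => by positivity) (by positivity)
        _ = (C1 * ∏ j : Fin n, K j.succ) * (T ^ β * (T ^ (2 : ℝ)) ^ n) := by
            rw [Finset.prod_mul_distrib, Finset.prod_const, Finset.card_univ, Fintype.card_fin]; ring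
        _ = (C1 * ∏ j : Fin n, K j.succ) * T ^ (2 * (((n + 1 : ℕ) : ℝ) - 1) + β) := by
            rw [← Real.rpow_natCast (T ^ (2 : ℝ)) n, ← Real.rpow_mul hTp.le, ← Real.rpow_add hTp]
            congr 2
            push_cast
            ring
    have hsum : (S.card : ℝ) = ((S.filter fun t : Fin (n + 1) → ℚ => (fun j : Fin n => t j.succ) ∈ S0).card : ℝ) +
        ((S.filter fun t : Fin (n + 1) → ℚ => ¬ (fun j : Fin n => t j.succ) ∈ S0).card : ℝ) := by
      exact_mod_cast hsplit.symm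
    rw [hsum, add_mul]
    exact add_le_add hp1 hp2

/-- the version for all `T ≥ 1`, with `n ≥ 1` -/
theorem multi_gen (hι : 0 < Fintype.card ι) (ξ : h → ℝ) (hξ : GoodConst ξ) (n : ℕ) (hn : 1 ≤ n)
    (g : Fin n → ι → ℝ → ℝ) (a b : Fin n → ℝ) (hab : ∀ j, a j < b j)
    (han : ∀ j l, AnalyticOnNhd ℝ (g j l) (Icc (a j) (b j))) (hg : ∀ j, RIndep (g j) (a j) (b j))
    (A β : ℝ) (hA : 0 ≤ A) (hβ : 2 * (((Fintype.card ι) ^ n * Fintype.card h : ℕ) : ℝ) /
      ((((Fintype.card ι) ^ n * Fintype.card h : ℕ) : ℝ) + 1) < β) :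
    ∃ B C : ℝ, ∀ T : ℝ, 1 ≤ T → (ExcM g ξ a b A B T).Finite ∧
      ((ExcM g ξ a b A B T).ncard : ℝ) ≤ C * T ^ (2 * ((n : ℝ) - 1) + β) := by
  classical
  have hβ0 : 0 < β := lt_of_le_of_lt (by positivity) hβ
  obtain ⟨B, C, T0, hC, hT0, h⟩ := multi_gen0 hι ξ hξ n g a b hab han hg A β hA hβ
  set C0 : ℝ := ((Fintype.piFinset fun j : Fin n => RT (a j) (b j) T0).card : ℝ) with hC0
  refine ⟨B, C + C0, ?_⟩
  intro T hT
  refine ⟨ExcM_fin g ξ a b A B T, ?_⟩
  have hn1 : (1 : ℝ) ≤ n := by exact_mod_cast hn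
  have hTβ : 1 ≤ T ^ (2 * ((n : ℝ) - 1) + β) := Real.one_le_rpow hT (by nlinarith)
  have hC00 : 0 ≤ C0 := by positivity
  rcases lt_or_ge T T0 with hlt | hge
  · have h1 : ExcM g ξ a b A B T ⊆ (Fintype.piFinset fun j : Fin n => RT (a j) (b j) T0 : Finset (Fin n → ℚ)) := by
      intro t ht
      rw [Finset.mem_coe, Fintype.mem_piFinset]
      exact fun j => mem_RT.2 ⟨(ht.1 j).1, (ht.1 j).2.trans hlt.le⟩
    have h2 := Set.ncard_le_ncard h1 (Finset.finite_toSet _)
    rw [Set.ncard_coe_finset] at h2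
    have h3 : ((ExcM g ξ a b A B T).ncard : ℝ) ≤ C0 := by rw [hC0]; exact_mod_cast h2
    nlinarith
  · have := h T hge
    nlinarith

end Pool.Agent.TH818.AP
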