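import Pool.Agent.TH818.AP.UnifZ
import Pool.Agent.TH818.AP.Api

/-!
# Subfamilies: linear forms with only some of the products `ξ_e g_l`
-/

set_option autoImplicit false

open Set Polynomial Filter Topology

namespace Pool.Agent.TH818.AP

open Pool.Agent.TH818.AR

variable {ι h : Type} [Fintype ι] [Fintype h]

/-- extension by zero along an injection -/
noncomputable def ext0 {m M : ℕ} {R : Type} [Zero R] (σ : Fin m ↪ Fin M) (p : Fin m → R) : Fin M → R :=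
  Function.extend σ p 0

theorem ext0_app {m M : ℕ} {R : Type} [Zero R] (σ : Fin m ↪ Fin M) (p : Fin m → R) (i : Fin m) :
    ext0 σ p (σ i) = p i := σ.injective.extend_apply _ _ _

theorem ext0_cases {m M : ℕ} {R : Type} [Zero R] (σ : Fin m ↪ Fin M) (p : Fin m → R) (k : Fin M) :
    (∃ i, k = σ i) ∨ ext0 σ p k = 0 := by
  classical
  by_cases hk : ∃ i, σ i = k
  · obtain ⟨i, rfl⟩ := hk
    exact Or.inl ⟨i, rfl⟩
  · right
    unfold ext0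
    rw [Function.extend_apply' _ _ _ hk]
    rfl

theorem sum_ext0 {m M : ℕ} (σ : Fin m ↪ Fin M) (p : Fin m → ℤ[X]) (v : Fin M → ℝ → ℝ) (t : ℝ) :
    ∑ i, aeval t (p i) * v (σ i) t = ∑ k, aeval t (ext0 σ p k) * v k t := by
  classical
  have h1 : ∑ i, aeval t (p i) * v (σ i) t = ∑ k ∈ Finset.univ.map σ, aeval t (ext0 σ p k) * v k t := by
    rw [Finset.sum_map]
    refine Finset.sum_congr rfl fun i _ => ?_
    rw [ext0_app]
  rw [h1]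
  refine Finset.sum_subset (Finset.subset_univ _) fun k _ hk => ?_
  rcases ext0_cases σ p k with ⟨i, rfl⟩ | h0
  · exact absurd (Finset.mem_map_of_mem σ (Finset.mem_univ i)) hk
  · rw [h0, map_zero, zero_mul]

theorem Fam.sub {m M : ℕ} {a b : ℝ} {V : Set (Fin M → ℝ → ℝ)} (hV : Fam a b V) (σ : Fin m ↪ Fin M) :
    Fam a b ((fun v : Fin M → ℝ → ℝ => fun i => v (σ i)) '' V) := by
  intro D
  obtain ⟨n, w, hw, hx⟩ := hV D
  refine ⟨n, w, hw, ?_⟩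
  rintro _ ⟨v, hv, rfl⟩ p hp
  obtain ⟨x, hx'⟩ := hx v hv (ext0 σ p) (by
    intro k
    rcases ext0_cases σ p k with ⟨i, rfl⟩ | h0
    · rw [ext0_app]
      exact hp i
    · rw [h0]
      simp)
  refine ⟨x, fun t ht => ?_⟩
  rw [← hx' t ht]
  exact sum_ext0 σ p v t

theorem MeasT.sub {m M : ℕ} {a b κ κ' T : ℝ} {D : ℕ} {v : Fin M → ℝ → ℝ} (hv : MeasT v a b D κ κ' T) (hT : 0 ≤ T)
    (σ : Fin m ↪ Fin M) : MeasT (fun i => v (σ i)) a b D κ κ' T := by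
  intro p hp hpD hpc
  obtain ⟨t, ht, h1⟩ := hv (ext0 σ p) (by
      intro hcon
      apply hp
      funext i
      have := congrFun hcon (σ i)
      rw [ext0_app] at this
      exact this) (by
      intro k
      rcases ext0_cases σ p k with ⟨i, rfl⟩ | h0
      · rw [ext0_app]
        exact hpD i
      · rw [h0]
        simp) (by
      intro k j
      rcases ext0_cases σ p k with ⟨i, rfl⟩ | h0
      · rw [ext0_app]
        exact hpc i j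
      · rw [h0]
        simp only [coeff_zero, Int.cast_zero, abs_zero]
        positivity)
  refine ⟨t, ht, ?_⟩
  rw [← sum_ext0 σ p v t] at h1
  exact h1

/-- the exceptional set for a subfamily, integral version -/
def ExcSZ {m : ℕ} (σ : Fin m → ι × h) (g : ι → ℝ → ℝ) (a b A B : ℝ) (N : ℕ) (T : ℝ) (τ : ι → ι → ℝ) (ξ : h → ℝ) :
    Set ℚ :=
  {q : ℚ | (q : ℝ) ∈ Icc a b ∧ Dn N q ∧ ∃ c : Fin m → ℤ, c ≠ 0 ∧ (∀ i, |(c i : ℝ)| ≤ T ^ A) ∧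
    |∑ i, (c i : ℝ) * (ξ (σ i).2 * ∑ l', τ (σ i).1 l' * g l' q)| ≤ T ^ (-B)}

theorem uniformSZ {m : ℕ} (σ : Fin m ↪ ι × h) (g : ι → ℝ → ℝ) (a b : ℝ) (hab : a < b)
    (han : ∀ l, AnalyticOnNhd ℝ (g l) (Icc a b)) (hg : RIndep g a b) (rk : ι → ℕ) (A β : ℝ) (hA : 0 ≤ A)
    (hβ : (m : ℝ) / (m + 1) < β) :
    ∃ κ C : ℝ, 0 < C ∧ ∀ B1 : ℝ, ∃ B T0 : ℝ, 1 ≤ T0 ∧ ∀ (N : ℕ) (T : ℝ), T = N → T0 ≤ T →
      ∀ τ : ι → ι → ℝ, Tri rk τ → ∀ ξ : h → ℝ, ScaleMeas ξ κ B1 T →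
      (ExcSZ σ g a b A B N T τ ξ).Finite ∧ ((ExcSZ σ g a b A B N T τ ξ).ncard : ℝ) ≤ C * T ^ β := by
  classical
  let eqv : Fin (Fintype.card (ι × h)) ≃ ι × h := (Fintype.equivFin (ι × h)).symm
  let s : Fin m ↪ Fin (Fintype.card (ι × h)) := σ.trans eqv.symm.toEmbedding
  obtain ⟨D', κ', C, hC, hU⟩ := theoremZ bd tlow AR.taylor det2 arithZ aux2 a b hab _
    ((fam_vt g a b hab han hg eqv).sub s) A β hA hβ
  obtain ⟨T1, hT1, hmeas⟩ := meas_vt tlow g a b hab han hg rk eqv D'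
  refine ⟨κ', C, hC, fun B1 => ?_⟩
  obtain ⟨B, T0, hT0, hfin⟩ := hU (B1 + 1)
  refine ⟨B, max T0 T1, le_max_of_le_left hT0, fun N T hTN hT τ hτ ξ hξ => ?_⟩
  have hTT1 : T1 ≤ T := (le_max_right _ _).trans hT
  have h1 := hfin N T hTN ((le_max_left _ _).trans hT) _ ⟨vt g eqv τ ξ, ⟨(τ, ξ), rfl⟩, rfl⟩
    ((hmeas κ' B1 T hTT1 τ hτ ξ hξ).sub (by linarith) s)
  have h2 : ExcSZ σ g a b A B N T τ ξ = ExcZ (fun i => vt g eqv τ ξ (s i)) a b A B N T := by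
    ext q
    simp only [ExcSZ, ExcZ, Set.mem_ofPred_eq]
    simp only [vt, s, Function.Embedding.trans_apply, Equiv.coe_toEmbedding, Equiv.apply_symm_apply]
  rw [h2]
  exact h1

/-- the exceptional set for a subfamily -/
def ExcS {m : ℕ} (σ : Fin m → ι × h) (g : ι → ℝ → ℝ) (a b A B T : ℝ) (ξ : h → ℝ) : Set ℚ :=
  {q : ℚ | (q : ℝ) ∈ Icc a b ∧ (q.den : ℝ) ≤ T ∧ ∃ c : Fin m → ℤ, c ≠ 0 ∧ (∀ i, |(c i : ℝ)| ≤ T ^ A) ∧
    |∑ i, (c i : ℝ) * (ξ (σ i).2 * g (σ i).1 q)| ≤ T ^ (-B)}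

theorem uniformS {m : ℕ} (σ : Fin m ↪ ι × h) (g : ι → ℝ → ℝ) (a b : ℝ) (hab : a < b)
    (han : ∀ l, AnalyticOnNhd ℝ (g l) (Icc a b)) (hg : RIndep g a b) (A β : ℝ) (hA : 0 ≤ A)
    (hβ : 2 * (m : ℝ) / (m + 1) < β) :
    ∃ κ C : ℝ, 0 < C ∧ ∀ B1 : ℝ, ∃ B T0 : ℝ, 1 ≤ T0 ∧ ∀ T : ℝ, T0 ≤ T →
      ∀ ξ : h → ℝ, ScaleMeas ξ κ B1 T →
      (ExcS σ g a b A B T ξ).Finite ∧ ((ExcS σ g a b A B T ξ).ncard : ℝ) ≤ C * T ^ β := by
  classical
  let eqv : Fin (Fintype.card (ι × h)) ≃ ι × h := (Fintype.equivFin (ι × h)).symm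
  let s : Fin m ↪ Fin (Fintype.card (ι × h)) := σ.trans eqv.symm.toEmbedding
  obtain ⟨D', κ', C, hC, hU⟩ := theoremU bd tlow AR.taylor det2 arith aux2 a b hab _
    ((fam_vx g a b hab han hg eqv).sub s) A β hA hβ
  obtain ⟨T1, hT1, hmeas⟩ := meas_vx tlow g a b hab han hg eqv D'
  refine ⟨κ', C, hC, fun B1 => ?_⟩
  obtain ⟨B, T0, hT0, hfin⟩ := hU (B1 + 1)
  refine ⟨B, max T0 T1, le_max_of_le_left hT0, fun T hT ξ hξ => ?_⟩
  have hTT1 : T1 ≤ T := (le_max_right _ _).trans hT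
  have h1 := hfin T ((le_max_left _ _).trans hT) _ ⟨vx g eqv ξ, ⟨ξ, rfl⟩, rfl⟩
    ((hmeas κ' B1 T hTT1 ξ hξ).sub (by linarith) s)
  have h2 : ExcS σ g a b A B T ξ = Exc (fun i => vx g eqv ξ (s i)) a b A B T := by
    ext q
    simp only [ExcS, Exc, Set.mem_ofPred_eq]
    simp only [vx, s, Function.Embedding.trans_apply, Equiv.coe_toEmbedding, Equiv.apply_symm_apply]
  rw [h2]
  exact h1

end Pool.Agent.TH818.AP
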