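import Pool.Agent.TH818.AP.LogZ
import Pool.Agent.TH818.AP.SubZ

/-!
# Logarithms of shifts
-/

set_option autoImplicit false

open Set Polynomial Filter Topology

namespace Pool.Agent.TH818.AP

open Pool.Agent.TH818.AR

/-- the functions `1`, `log (t + s_j)` -/
noncomputable def gS {m : ℕ} (s : Fin m → ℝ) (o : Option (Fin m)) (t : ℝ) : ℝ :=
  o.elim 1 fun j => Real.log (t + s j)

/-- `1, log (t + s_1), …, log (t + s_m)` are independent over `ℝ[t]` for distinct `s_j ≥ 0` -/
theorem shift_indep {m : ℕ} (s : Fin m → ℝ) (hs : Function.Injective s) (hs0 : ∀ j, 0 ≤ s j) (a b : ℝ) (ha : 0 < a)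
    (hab : a < b) : RIndep (gS s) a b := by
  classical
  intro p hp
  -- the coefficients of the logarithms vanish
  have hj : ∀ j, p (some j) = 0 := by
    by_contra hcon
    push Not at hcon
    obtain ⟨j1, hj1⟩ := hcon
    set S : Finset (Fin m) := Finset.univ.filter fun j => p (some j) ≠ 0 with hS
    have hSne : S.Nonempty := ⟨j1, by simp [hS, hj1]⟩
    obtain ⟨j0, hj0S, hj0min⟩ := S.exists_min_image s hSne
    have hj0 : p (some j0) ≠ 0 := by simpa [hS] using hj0S
    -- the relation holds on `(-s_j0, ∞)`
    have h1 : ∀ t : ℝ, -s j0 < t → ∑ o, (p o).eval t * gS s o t = 0 := by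
      have han : AnalyticOnNhd ℝ (fun t : ℝ => ∑ o, (p o).eval t * gS s o t) (Ioi (-s j0)) := by
        intro t ht
        refine Finset.analyticAt_fun_sum _ fun o _ => ?_
        match o with
        | none =>
          refine AnalyticAt.mul ?_ analyticAt_const
          exact (AnalyticOnNhd.eval_polynomial (𝕜 := ℝ) (p none)) t (Set.mem_univ _)
        | some j =>
          by_cases hpj : p (some j) = 0
          · rw [hpj]
            simp only [eval_zero, zero_mul]
            exact analyticAt_const
          · have hle : s j0 ≤ s j := hj0min j (by simp [hS, hpj])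
            have ht' : -s j0 < t := ht
            refine AnalyticAt.mul ?_ ?_
            · exact (AnalyticOnNhd.eval_polynomial (𝕜 := ℝ) (p (some j))) t (Set.mem_univ _)
            · have h2 : AnalyticAt ℝ (fun t : ℝ => t + s j) t := analyticAt_id.add analyticAt_const
              exact h2.log (by linarith)
      have hz : AnalyticOnNhd ℝ (fun _ : ℝ => (0 : ℝ)) (Ioi (-s j0)) := fun t _ => analyticAt_const
      have hm : (a + b) / 2 ∈ Ioi (-s j0) := by
        have := hs0 j0
        simp only [mem_Ioi]
        linarith
      have hev : (fun t : ℝ => ∑ o, (p o).eval t * gS s o t) =ᶠ[𝓝 ((a + b) / 2)] fun _ => 0 := by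
        have : Ioo a b ∈ 𝓝 ((a + b) / 2) := Ioo_mem_nhds (by linarith) (by linarith)
        filter_upwards [this] with t ht
        exact hp t ⟨ht.1.le, ht.2.le⟩
      have := han.eqOn_of_preconnected_of_eventuallyEq hz isPreconnected_Ioi hm hev
      exact fun t ht => this ht
    -- singularity at `-s_j0`
    set A0 : ℝ → ℝ := fun u => (p none).eval (u - s j0) +
      ∑ j ∈ Finset.univ.erase j0, (p (some j)).eval (u - s j0) * Real.log (u - s j0 + s j) with hA0
    set A1 : ℝ → ℝ := fun u => (p (some j0)).eval (u - s j0) with hA1
    have hpoly : ∀ (P : ℝ[X]) (u : ℝ), AnalyticAt ℝ (fun u : ℝ => P.eval (u - s j0)) u := by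
      intro P u
      have h2 : AnalyticAt ℝ (fun u : ℝ => u - s j0) u := analyticAt_id.sub analyticAt_const
      exact AnalyticAt.comp (g := fun t : ℝ => P.eval t) (f := fun u : ℝ => u - s j0)
        ((AnalyticOnNhd.eval_polynomial (𝕜 := ℝ) P) _ (Set.mem_univ _)) h2
    have hA0an : AnalyticAt ℝ A0 0 := by
      refine AnalyticAt.add (hpoly _ _) (Finset.analyticAt_fun_sum _ fun j hjm => ?_)
      by_cases hpj : p (some j) = 0
      · rw [hpj]
        simp only [eval_zero, zero_mul]
        exact analyticAt_const
      · have hle : s j0 ≤ s j := hj0min j (by simp [hS, hpj])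
        have hne : s j0 ≠ s j := fun h => (Finset.ne_of_mem_erase hjm) (hs h).symm
        refine (hpoly _ _).mul ?_
        have h2 : AnalyticAt ℝ (fun u : ℝ => u - s j0 + s j) 0 :=
          (analyticAt_id.sub analyticAt_const).add analyticAt_const
        exact h2.log (by
          have := lt_of_le_of_ne hle hne
          linarith)
    have h2 := tr 1 (fun i => if i = 0 then A0 else A1) 1 (fun _ => 0) one_ne_zero
      analyticAt_const (by
        intro i
        by_cases h : i = 0
        · simp only [h, if_true]
          exact hA0an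
        · simp only [h, if_false]
          exact hpoly _ _) (by
        filter_upwards [self_mem_nhdsWithin] with u hu
        have hu' : (0 : ℝ) < u := hu
        refine Eq.trans ?_ (h1 (u - s j0) (by linarith))
        rw [Finset.sum_range_succ, Finset.sum_range_one, Fintype.sum_option,
          ← Finset.add_sum_erase _ _ (Finset.mem_univ j0)]
        simp only [gS, Option.elim_none, Option.elim_some, if_true, one_ne_zero, if_false, pow_zero, mul_one,
          pow_one, one_mul, add_zero, sub_add_cancel, hA0, hA1]
        ring)
    have h3 := h2 1 le_rfl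
    simp only [one_ne_zero, if_false] at h3
    apply hj0
    have h4 : ((p (some j0)).comp (X - C (s j0))) = 0 := by
      refine IndL.poly_zero (Filter.Eventually.mono h3 fun u hu => ?_)
      simpa [hA1] using hu
    have h5 := congrArg (fun P : ℝ[X] => P.comp (X + C (s j0))) h4
    simpa [comp_assoc] using h5
  have h0 : p none = 0 := by
    refine Polynomial.eq_zero_of_infinite_isRoot _ (Set.Infinite.mono ?_ (Set.Ioo_infinite hab))
    intro t ht
    have := hp t ⟨ht.1.le, ht.2.le⟩
    rw [Fintype.sum_option] at this
    simpa [hj, gS] using this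
  funext o
  match o with
  | none => exact h0
  | some j => exact hj j

end Pool.Agent.TH818.AP
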