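import Pool.Agent.TH818.AP.UnifZ
import Pool.Agent.TH818.AP.Api

/-!
# Logarithms of integers
-/

set_option autoImplicit false

open Set Polynomial Filter Topology

namespace Pool.Agent.TH818.AP

open Pool.Agent.TH818.AR

/-- `1, log t, …, (log t)^d` are independent over `ℝ[t]` -/
theorem log_indep (d : ℕ) (a b : ℝ) (ha : 0 < a) (hab : a < b) :
    RIndep (fun (l : Fin (d + 1)) (t : ℝ) => Real.log t ^ (l : ℕ)) a b := by
  intro p hp
  -- the relation holds on `(0, ∞)`
  have h1 : ∀ t : ℝ, 0 < t → ∑ l : Fin (d + 1), (p l).eval t * Real.log t ^ (l : ℕ) = 0 := by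
    have han : AnalyticOnNhd ℝ (fun t : ℝ => ∑ l : Fin (d + 1), (p l).eval t * Real.log t ^ (l : ℕ)) (Ioi 0) := by
      intro t ht
      refine Finset.analyticAt_fun_sum _ fun l _ => ?_
      refine AnalyticAt.mul ?_ ((analyticAt_log ht).pow _)
      exact (AnalyticOnNhd.eval_polynomial (𝕜 := ℝ) (p l)) t (Set.mem_univ _)
    have hz : AnalyticOnNhd ℝ (fun _ : ℝ => (0 : ℝ)) (Ioi 0) := fun t _ => analyticAt_const
    have hm : (a + b) / 2 ∈ Ioi (0 : ℝ) := by simp only [mem_Ioi]; linarith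
    have hev : (fun t : ℝ => ∑ l : Fin (d + 1), (p l).eval t * Real.log t ^ (l : ℕ)) =ᶠ[𝓝 ((a + b) / 2)]
        fun _ => 0 := by
      have : Ioo a b ∈ 𝓝 ((a + b) / 2) := Ioo_mem_nhds (by linarith) (by linarith)
      filter_upwards [this] with t ht
      exact hp t ⟨ht.1.le, ht.2.le⟩
    have := han.eqOn_of_preconnected_of_eventuallyEq hz isPreconnected_Ioi hm hev
    exact fun t ht => this ht
  -- transcendence of the logarithm over germs at `0`
  have h2 := tr d (fun i t => if h : i < d + 1 then (p ⟨i, h⟩).eval t else 0) 1 (fun _ => 0) one_ne_zero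
    analyticAt_const (by
      intro i
      by_cases h : i < d + 1
      · simp only [h, dif_pos]
        exact (AnalyticOnNhd.eval_polynomial (𝕜 := ℝ) (p ⟨i, h⟩)) 0 (Set.mem_univ _)
      · simp only [h, dif_neg, not_false_eq_true]
        exact analyticAt_const) (by
      filter_upwards [self_mem_nhdsWithin] with t ht
      refine Eq.trans ?_ (h1 t ht)
      rw [← Fin.sum_univ_eq_sum_range
        (fun i => (if h : i < d + 1 then (p ⟨i, h⟩).eval t else 0) * (1 * Real.log t + 0) ^ i)]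
      refine Finset.sum_congr rfl fun l _ => ?_
      rw [dif_pos l.isLt]
      ring)
  funext l
  have h3 := h2 (l : ℕ) (Nat.lt_succ_iff.1 l.isLt)
  have h4 : ∀ᶠ s in 𝓝 (0 : ℝ), (p l).eval s = 0 := by
    filter_upwards [h3] with s hs
    rw [dif_pos l.isLt] at hs
    exact hs
  exact IndL.poly_zero h4

/-- the powers of `L + log t` -/
noncomputable def tauL (d : ℕ) (L : ℝ) (l l' : Fin (d + 1)) : ℝ :=
  ((l : ℕ).choose (l' : ℕ) : ℝ) * L ^ ((l : ℕ) - (l' : ℕ))

theorem tri_tauL (d : ℕ) (L : ℝ) : Tri (fun l : Fin (d + 1) => (l : ℕ)) (tauL d L) := by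
  constructor
  · intro l
    simp [tauL]
  · intro l l' hne hle
    have hlt : (l : ℕ) < l' := lt_of_le_of_ne hle (fun h => hne (Fin.ext h))
    simp [tauL, Nat.choose_eq_zero_of_lt hlt]

theorem sum_tauL (d : ℕ) (L y : ℝ) (l : Fin (d + 1)) : ∑ l', tauL d L l l' * y ^ (l' : ℕ) = (L + y) ^ (l : ℕ) := by
  rw [add_comm L y, add_pow]
  have h1 : ∑ l' : Fin (d + 1), tauL d L l l' * y ^ (l' : ℕ) =
      ∑ i ∈ Finset.range (d + 1), ((l : ℕ).choose i : ℝ) * L ^ ((l : ℕ) - i) * y ^ i := by
    rw [← Fin.sum_univ_eq_sum_range (fun i => ((l : ℕ).choose i : ℝ) * L ^ ((l : ℕ) - i) * y ^ i)]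
    rfl
  rw [h1]
  have h2 : Finset.range ((l : ℕ) + 1) ⊆ Finset.range (d + 1) := by
    intro i hi
    have := l.isLt
    simp only [Finset.mem_range] at hi ⊢
    omega
  rw [← Finset.sum_subset h2 (fun i _ hi => ?_)]
  · refine Finset.sum_congr rfl fun i _ => ?_
    ring
  · have : (l : ℕ) < i := by
      simp only [Finset.mem_range] at hi
      omega
    simp [Nat.choose_eq_zero_of_lt this]

/-- exponents -/
abbrev IdxL (n d : ℕ) := (Fin n → Fin (d + 1)) × Fin (d + 1)

/-- monomials in the logarithms and `π` -/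
noncomputable def xiL {n d : ℕ} (x : Fin n → ℕ) (e : IdxL n d) : ℝ :=
  (∏ j, Real.log (x j) ^ (e.1 j : ℕ)) * Real.pi ^ (e.2 : ℕ)

/-- the exceptional set -/
def ExcL (n d N : ℕ) (A B : ℝ) : Set (Fin n → ℕ) :=
  {x | (∀ j, N ≤ x j ∧ x j ≤ 2 * N) ∧
    ∃ c : IdxL n d → ℤ, c ≠ 0 ∧ (∀ e, |(c e : ℝ)| ≤ (N : ℝ) ^ A) ∧ |∑ e, (c e : ℝ) * xiL x e| ≤ (N : ℝ) ^ (-B)}

theorem ExcL_sub (n d N : ℕ) (A B : ℝ) :
    ExcL n d N A B ⊆ (Fintype.piFinset fun _ : Fin n => Finset.Icc N (2 * N) : Finset (Fin n → ℕ)) := by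
  intro t ht
  rw [Finset.mem_coe, Fintype.mem_piFinset]
  exact fun j => Finset.mem_Icc.2 (ht.1 j)

theorem ExcL_fin (n d N : ℕ) (A B : ℝ) : (ExcL n d N A B).Finite :=
  (Finset.finite_toSet _).subset (ExcL_sub n d N A B)

/-- splitting off the first variable -/
def eqL (n d : ℕ) : IdxL (n + 1) d ≃ Fin (d + 1) × IdxL n d where
  toFun e := (e.1 0, (fun j => e.1 j.succ, e.2))
  invFun x := (Fin.cons x.1 x.2.1, x.2.2)
  left_inv e := by
    refine Prod.ext ?_ rfl
    funext j
    refine Fin.cases ?_ (fun i => ?_) j <;> simp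
  right_inv x := by
    refine Prod.ext ?_ (Prod.ext ?_ rfl)
    · simp
    · funext j
      simp

theorem xiL_succ {n d : ℕ} (x : Fin (n + 1) → ℕ) (e : IdxL (n + 1) d) :
    xiL x e = xiL (fun j => x j.succ) (eqL n d e).2 * Real.log (x 0) ^ ((eqL n d e).1 : ℕ) := by
  simp only [xiL, eqL, Equiv.coe_fn_mk, Fin.prod_univ_succ]
  ring

theorem multiL (d : ℕ) (n : ℕ) :
    ∀ (A β : ℝ), 0 ≤ A → (((d + 1) ^ (n + 1) : ℕ) : ℝ) / ((((d + 1) ^ (n + 1) : ℕ) : ℝ) + 1) < β →
    ∃ B C : ℝ, ∃ T0 : ℝ, 0 < C ∧ 1 ≤ T0 ∧ ∀ N : ℕ, T0 ≤ (N : ℝ) →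
      ((ExcL n d N A B).ncard : ℝ) ≤ C * (N : ℝ) ^ ((n : ℝ) - 1 + β) := by
  classical
  induction n with
  | zero =>
    intro A β hA hβ
    obtain ⟨B, T1, -, hs⟩ := pi_scale d A
    refine ⟨B + 1, 1, max T1 2, one_pos, le_max_of_le_right (by norm_num), ?_⟩
    intro N hT
    have hT2 : (2 : ℝ) ≤ N := (le_max_right _ _).trans hT
    have hTp : (0 : ℝ) < N := by linarith
    have hemp : ExcL 0 d N A (B + 1) = ∅ := by
      rw [Set.eq_empty_iff_forall_notMem]
      rintro t ⟨-, c, hc0, hc, hcs⟩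
      have h1 := hs N ((le_max_left _ _).trans hT) (fun e => c (Fin.elim0, e)) (by
        intro hcon
        apply hc0
        funext e
        have := congrFun hcon e.2
        simp only [Pi.zero_apply] at this
        rw [Pi.zero_apply, ← this]
        congr 1
        exact Prod.ext (Subsingleton.elim _ _) rfl) (fun e => hc _)
      have h2 : ∑ e : IdxL 0 d, (c e : ℝ) * xiL t e =
          ∑ e : Fin (d + 1), (c (Fin.elim0, e) : ℝ) * Real.pi ^ (e : ℕ) := by
        rw [Fintype.sum_prod_type]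
        rw [Fintype.sum_subsingleton _ (Fin.elim0 : Fin 0 → Fin (d + 1))]
        refine Finset.sum_congr rfl fun e _ => ?_
        simp [xiL]
      rw [h2] at hcs
      have h3 := h1.trans hcs
      have h4 : (N : ℝ) ^ (-(B + 1)) < (N : ℝ) ^ (-B) :=
        Real.rpow_lt_rpow_of_exponent_lt (by linarith) (by linarith)
      linarith
    rw [hemp, Set.ncard_empty, Nat.cast_zero]
    positivity
  | succ n ih =>
    intro A β hA hβ
    have hMle : (((d + 1) ^ (n + 1) : ℕ) : ℝ) ≤ (((d + 1) ^ (n + 1 + 1) : ℕ) : ℝ) := by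
      exact_mod_cast Nat.pow_le_pow_right (Nat.succ_pos d) (by omega)
    have hβ' : (((d + 1) ^ (n + 1) : ℕ) : ℝ) / ((((d + 1) ^ (n + 1) : ℕ) : ℝ) + 1) < β := by
      refine lt_of_le_of_lt ?_ hβ
      rw [div_le_div_iff₀ (by positivity) (by positivity)]
      nlinarith
    have hcard : Fintype.card (Fin (d + 1)) * Fintype.card (IdxL n d) = (d + 1) ^ (n + 1 + 1) := by
      simp only [IdxL, Fintype.card_prod, Fintype.card_pi, Fintype.card_fin, Finset.prod_const, Finset.card_univ]
      ring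
    obtain ⟨κ, C1, hC1, hU⟩ := uniformZ bd tlow AR.taylor det2 aux2 (h := IdxL n d)
      (fun (l : Fin (d + 1)) (t : ℝ) => Real.log t ^ (l : ℕ)) 1 2 (by norm_num)
      (fun l t ht => (analyticAt_log (by linarith [ht.1])).pow _) (log_indep d 1 2 one_pos (by norm_num))
      (fun l : Fin (d + 1) => (l : ℕ)) A β hA _ hcard hβ
    obtain ⟨B', C', T1, hC', hT1, hih⟩ := ih (max κ 0) β (le_max_right _ _) hβ'
    obtain ⟨B, T2, hT2, hU'⟩ := hU B'
    refine ⟨B, 2 * C' + C1 * 2 ^ n, max T1 T2, by positivity, le_max_of_le_left hT1, ?_⟩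
    intro N hT
    have hTT1 : T1 ≤ (N : ℝ) := (le_max_left _ _).trans hT
    have hTT2 : T2 ≤ (N : ℝ) := (le_max_right _ _).trans hT
    have hTge : (1 : ℝ) ≤ N := hT1.trans hTT1
    have hTp : (0 : ℝ) < N := by linarith
    have hN1 : 1 ≤ N := by exact_mod_cast hTge
    -- the key inclusion
    have hkey : ∀ x ∈ ExcL (n + 1) d N A B, (fun j : Fin n => x j.succ) ∉ ExcL n d N (max κ 0) B' →
        ScaleMeas (xiL (d := d) fun j : Fin n => x j.succ) κ B' N ∧
        ((x 0 : ℚ) / N) ∈ ExcCZ (fun (l : Fin (d + 1)) (t : ℝ) => Real.log t ^ (l : ℕ)) 1 2 A B N N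
          (tauL d (Real.log N)) (xiL (d := d) fun j : Fin n => x j.succ) := by
      rintro x ⟨hx, c, hc0, hc, hcs⟩ hnot
      constructor
      · intro c' hc'0 hc'
        by_contra hcon
        rw [not_le] at hcon
        apply hnot
        refine ⟨fun j => hx j.succ, c', hc'0, fun e => (hc' e).trans ?_, hcon.le⟩
        exact Real.rpow_le_rpow_of_exponent_le hTge (le_max_left _ _)
      · have hx0 : (N : ℝ) ≤ x 0 := by exact_mod_cast (hx 0).1
        have hx0' : (x 0 : ℝ) ≤ 2 * N := by exact_mod_cast (hx 0).2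
        refine ⟨⟨?_, ?_⟩, ⟨x 0, by push_cast; rfl⟩, fun l => c ((eqL n d).symm l), ?_, fun l => hc _, ?_⟩
        · push_cast
          rw [le_div_iff₀ hTp]
          linarith
        · push_cast
          rw [div_le_iff₀ hTp]
          linarith
        · intro hcon
          apply hc0
          funext e
          have := congrFun hcon (eqL n d e)
          simpa using this
        · rw [← Equiv.sum_comp (eqL n d)]
          refine le_trans (le_of_eq ?_) hcs
          congr 1
          refine Finset.sum_congr rfl fun e _ => ?_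
          rw [xiL_succ, sum_tauL]
          have hlog : Real.log N + Real.log (((x 0 : ℚ) / N : ℚ) : ℝ) = Real.log (x 0) := by
            push_cast
            rw [Real.log_div (by linarith) hTp.ne']
            ring
          rw [hlog]
          simp only [Equiv.symm_apply_apply]
    set S := (ExcL_fin (n + 1) d N A B).toFinset with hS
    set S0 := (ExcL_fin n d N (max κ 0) B').toFinset with hS0
    have hSmem : ∀ t, t ∈ S ↔ t ∈ ExcL (n + 1) d N A B := fun t => (ExcL_fin _ _ _ _ _).mem_toFinset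
    have hS0mem : ∀ t, t ∈ S0 ↔ t ∈ ExcL n d N (max κ 0) B' := fun t => (ExcL_fin _ _ _ _ _).mem_toFinset
    have hcardI : ((Finset.Icc N (2 * N)).card : ℝ) ≤ 2 * N := by
      rw [Nat.card_Icc]
      have : 2 * N + 1 - N ≤ 2 * N := by omega
      exact_mod_cast this
    rw [Set.ncard_eq_toFinset_card _ (ExcL_fin (n + 1) d N A B)]
    have hsplit := Finset.card_filter_add_card_filter_not (s := S)
      (p := fun t : Fin (n + 1) → ℕ => (fun j : Fin n => t j.succ) ∈ S0)
    -- first part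
    have hp1 : ((S.filter fun t : Fin (n + 1) → ℕ => (fun j : Fin n => t j.succ) ∈ S0).card : ℝ) ≤
        (2 * C') * (N : ℝ) ^ (((n + 1 : ℕ) : ℝ) - 1 + β) := by
      have hle : (S.filter fun t : Fin (n + 1) → ℕ => (fun j : Fin n => t j.succ) ∈ S0).card ≤
          (Finset.Icc N (2 * N) ×ˢ S0).card := by
        refine Finset.card_le_card_of_injOn (fun t => (t 0, fun j : Fin n => t j.succ)) ?_ ?_
        · intro t ht
          rw [Finset.mem_coe, Finset.mem_filter] at ht
          rw [Finset.mem_coe, Finset.mem_product]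
          exact ⟨Finset.mem_Icc.2 (((hSmem t).1 ht.1).1 0), ht.2⟩
        · intro t _ t' _ heq
          simp only [Prod.mk.injEq] at heq
          funext j
          refine Fin.cases heq.1 (fun i => congrFun heq.2 i) j
      rw [Finset.card_product] at hle
      have h0 : (S0.card : ℝ) ≤ C' * (N : ℝ) ^ ((n : ℝ) - 1 + β) := by
        have := hih N hTT1
        rwa [Set.ncard_eq_toFinset_card _ (ExcL_fin _ _ _ _ _)] at this
      calc ((S.filter fun t : Fin (n + 1) → ℕ => (fun j : Fin n => t j.succ) ∈ S0).card : ℝ)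
          ≤ ((Finset.Icc N (2 * N)).card : ℝ) * (S0.card : ℝ) := by exact_mod_cast hle
        _ ≤ (2 * N) * (C' * (N : ℝ) ^ ((n : ℝ) - 1 + β)) :=
            mul_le_mul hcardI h0 (by positivity) (by positivity)
        _ = (2 * C') * ((N : ℝ) ^ (1 : ℝ) * (N : ℝ) ^ ((n : ℝ) - 1 + β)) := by rw [Real.rpow_one]; ring
        _ = (2 * C') * (N : ℝ) ^ (((n + 1 : ℕ) : ℝ) - 1 + β) := by
            rw [← Real.rpow_add hTp]
            congr 2
            push_cast
            ring
    -- second part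
    have hp2 : ((S.filter fun t : Fin (n + 1) → ℕ => ¬ (fun j : Fin n => t j.succ) ∈ S0).card : ℝ) ≤
        (C1 * 2 ^ n) * (N : ℝ) ^ (((n + 1 : ℕ) : ℝ) - 1 + β) := by
      set F := S.filter fun t : Fin (n + 1) → ℕ => ¬ (fun j : Fin n => t j.succ) ∈ S0 with hF
      have hmaps : ∀ t ∈ F, (fun t : Fin (n + 1) → ℕ => fun j : Fin n => t j.succ) t ∈
          Fintype.piFinset fun _ : Fin n => Finset.Icc N (2 * N) := by
        intro t ht
        rw [Fintype.mem_piFinset]
        exact fun j => Finset.mem_Icc.2 (((hSmem t).1 (Finset.mem_filter.1 ht).1).1 j.succ)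
      have hfib : ∀ t' ∈ Fintype.piFinset fun _ : Fin n => Finset.Icc N (2 * N),
          (F.filter fun t => (fun j : Fin n => t j.succ) = t').card ≤ ⌊C1 * (N : ℝ) ^ β⌋₊ := by
        intro t' _
        rcases (F.filter fun t => (fun j : Fin n => t j.succ) = t').eq_empty_or_nonempty with hemp | ⟨t1, ht1⟩
        · rw [hemp]; simp
        rw [Finset.mem_filter] at ht1
        have hmemF : ∀ t ∈ F, t ∈ ExcL (n + 1) d N A B ∧
            (fun j : Fin n => t j.succ) ∉ ExcL n d N (max κ 0) B' := by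
          intro t ht
          rw [hF, Finset.mem_filter] at ht
          exact ⟨(hSmem t).1 ht.1, fun hcon => ht.2 ((hS0mem _).2 hcon)⟩
        have hsm := (hkey t1 (hmemF t1 ht1.1).1 (hmemF t1 ht1.1).2).1
        rw [ht1.2] at hsm
        obtain ⟨hfin, hnc⟩ := hU' N N rfl hTT2 _ (tri_tauL d (Real.log N)) _ hsm
        rw [Set.ncard_eq_toFinset_card _ hfin] at hnc
        refine le_trans ?_ (Nat.le_floor hnc)
        refine Finset.card_le_card_of_injOn (fun t => (t 0 : ℚ) / N) ?_ ?_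
        · intro t ht
          rw [Finset.mem_coe, Finset.mem_filter] at ht
          rw [Finset.mem_coe, Set.Finite.mem_toFinset]
          have := (hkey t (hmemF t ht.1).1 (hmemF t ht.1).2).2
          rwa [ht.2] at this
        · intro t ht t2 ht2 heq
          rw [Finset.mem_coe, Finset.mem_filter] at ht ht2
          have hNq : (N : ℚ) ≠ 0 := by exact_mod_cast (by omega : N ≠ 0)
          have h00 : t 0 = t2 0 := by
            have : (t 0 : ℚ) / N = (t2 0 : ℚ) / N := heq
            rw [div_left_inj' hNq] at this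
            exact_mod_cast this
          funext j
          refine Fin.cases h00 (fun i => ?_) j
          exact congrFun (ht.2.trans ht2.2.symm) i
      have hcardF := Finset.card_le_mul_card_image_of_maps_to hmaps _ hfib
      rw [Fintype.card_piFinset, Finset.prod_const, Finset.card_univ, Fintype.card_fin] at hcardF
      have h1 : (F.card : ℝ) ≤ (⌊C1 * (N : ℝ) ^ β⌋₊ : ℝ) * ((Finset.Icc N (2 * N)).card : ℝ) ^ n := by
        exact_mod_cast hcardF
      have h2 : (⌊C1 * (N : ℝ) ^ β⌋₊ : ℝ) ≤ C1 * (N : ℝ) ^ β := Nat.floor_le (by positivity)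
      calc (F.card : ℝ) ≤ (⌊C1 * (N : ℝ) ^ β⌋₊ : ℝ) * ((Finset.Icc N (2 * N)).card : ℝ) ^ n := h1
        _ ≤ (C1 * (N : ℝ) ^ β) * (2 * N) ^ n :=
            mul_le_mul h2 (pow_le_pow_left₀ (by positivity) hcardI n) (by positivity) (by positivity)
        _ = (C1 * 2 ^ n) * ((N : ℝ) ^ β * (N : ℝ) ^ (n : ℝ)) := by rw [mul_pow, Real.rpow_natCast]; ring
        _ = (C1 * 2 ^ n) * (N : ℝ) ^ (((n + 1 : ℕ) : ℝ) - 1 + β) := by
            rw [← Real.rpow_add hTp]
            congr 2
            push_cast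
            ring
    have hsum : (S.card : ℝ) = ((S.filter fun t : Fin (n + 1) → ℕ => (fun j : Fin n => t j.succ) ∈ S0).card : ℝ) +
        ((S.filter fun t : Fin (n + 1) → ℕ => ¬ (fun j : Fin n => t j.succ) ∈ S0).card : ℝ) := by
      exact_mod_cast hsplit.symm
    rw [hsum, add_mul]
    exact add_le_add hp1 hp2

end Pool.Agent.TH818.AP
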