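import Pool.Agent.TH818.AP.DefsBeta

/-!
# Algebraic independence of `t`, `B(t, ρ_1)`, …, `B(t, ρ_s)`

A relation with the least number of monomials is compared with its translate by `1`; the numbers of
roots of the coefficients in the classes `-ρ_i + ℤ` give a contradiction.
-/

set_option autoImplicit false

open Set Polynomial Filter Topology

namespace Pool.Agent.TH818.AP.BetaI

/-- number of roots in the class `-ρ + ℤ` -/
noncomputable def NN (ρ : ℝ) (f : ℝ[X]) : ℕ :=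
  open Classical in Multiset.countP (fun x => ∃ z : ℤ, x = z - ρ) f.roots

lemma NN_mul (ρ : ℝ) {f g : ℝ[X]} (hf : f ≠ 0) (hg : g ≠ 0) : NN ρ (f * g) = NN ρ f + NN ρ g := by
  unfold NN
  rw [roots_mul (mul_ne_zero hf hg), Multiset.countP_add]

lemma NN_pow (ρ : ℝ) (f : ℝ[X]) (n : ℕ) : NN ρ (f ^ n) = n * NN ρ f := by
  unfold NN
  rw [roots_pow, Multiset.countP_nsmul]

lemma NN_prod (ρ : ℝ) {ι : Type} (s : Finset ι) {f : ι → ℝ[X]} (hf : ∀ i ∈ s, f i ≠ 0) :
    NN ρ (∏ i ∈ s, f i) = ∑ i ∈ s, NN ρ (f i) := by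
  classical
  induction s using Finset.induction_on with
  | empty => simp [NN]
  | insert a s ha ih =>
    rw [Finset.prod_insert ha, Finset.sum_insert ha, NN_mul, ih (fun i hi => hf i (by simp [hi]))]
    · exact hf a (by simp)
    · exact Finset.prod_ne_zero_iff.2 (fun i hi => hf i (by simp [hi]))

lemma NN_lin (ρ c : ℝ) [Decidable (∃ z : ℤ, ρ - c = z)] :
    NN ρ (X + C c) = if ∃ z : ℤ, ρ - c = z then 1 else 0 := by
  classical
  unfold NN
  have h : (X + C c : ℝ[X]) = X - C (-c) := by simp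
  rw [h, roots_X_sub_C, ← Multiset.cons_zero, Multiset.countP_cons, Multiset.countP_zero, zero_add]
  refine if_congr ⟨?_, ?_⟩ rfl rfl
  · rintro ⟨z, hz⟩
    exact ⟨z, by linarith⟩
  · rintro ⟨z, hz⟩
    exact ⟨z, by linarith⟩

lemma NN_X (ρ : ℝ) (hρ : ∀ z : ℤ, ρ ≠ z) : NN ρ X = 0 := by
  classical
  have h := NN_lin ρ 0
  simp only [map_zero, add_zero, sub_zero] at h
  rw [h, if_neg]
  rintro ⟨z, hz⟩
  exact hρ z hz

lemma NN_comp (ρ : ℝ) (f : ℝ[X]) : NN ρ (f.comp (X + C 1)) = NN ρ f := by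
  classical
  unfold NN
  conv_rhs => rw [← map_roots_comp_C_mul_X_add_C f 1 1 isUnit_one, Multiset.countP_map]
  rw [map_one, one_mul, Multiset.countP_eq_card_filter]
  congr 1
  refine Multiset.filter_congr ?_
  intro x _
  constructor
  · rintro ⟨z, hz⟩
    exact ⟨z + 1, by push_cast; linarith⟩
  · rintro ⟨z, hz⟩
    exact ⟨z - 1, by push_cast; linarith⟩

lemma Bt_pos {ρ t : ℝ} (hρ : 0 < ρ) (ht : 0 < t) : 0 < Bt ρ t := by
  unfold Bt
  exact div_pos (mul_pos (Real.Gamma_pos_of_pos ht) (Real.Gamma_pos_of_pos hρ))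
    (Real.Gamma_pos_of_pos (by linarith))

lemma Bt_succ {ρ t : ℝ} (hρ : 0 < ρ) (ht : 0 < t) : (t + ρ) * Bt ρ (t + 1) = t * Bt ρ t := by
  unfold Bt
  have h1 := Real.Gamma_add_one ht.ne'
  have h2 := Real.Gamma_add_one (show t + ρ ≠ 0 by linarith)
  have h3 : t + 1 + ρ = t + ρ + 1 := by ring
  rw [h3, h1, h2]
  have h4 := (Real.Gamma_pos_of_pos (show 0 < t + ρ by linarith)).ne'
  have h5 : t + ρ ≠ 0 := by linarith
  field_simp

variable {s d : ℕ}

/-- the monomial -/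
noncomputable def monB (ρ : Fin s → ℝ) (e : Fin s → Fin (d + 1)) (t : ℝ) : ℝ :=
  ∏ i, Bt (ρ i) t ^ (e i : ℕ)

lemma monB_pos {ρ : Fin s → ℝ} (hρ : ∀ i, 0 < ρ i) (e : Fin s → Fin (d + 1)) {t : ℝ} (ht : 0 < t) :
    0 < monB ρ e t :=
  Finset.prod_pos fun i _ => pow_pos (Bt_pos (hρ i) ht) _

/-- relations on the half line -/
def Rl (ρ : Fin s → ℝ) (p : (Fin s → Fin (d + 1)) → ℝ[X]) : Prop :=
  ∀ t : ℝ, 0 < t → ∑ e, (p e).eval t * monB ρ e t = 0

/-- the shifted relation -/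
noncomputable def sh (ρ : Fin s → ℝ) (p : (Fin s → Fin (d + 1)) → ℝ[X]) (e : Fin s → Fin (d + 1)) :
    ℝ[X] :=
  (p e).comp (X + C 1) * (∏ i, X ^ (e i : ℕ)) * ∏ i, (X + C (ρ i)) ^ (d - (e i : ℕ))

lemma monB_succ {ρ : Fin s → ℝ} (hρ : ∀ i, 0 < ρ i) (e : Fin s → Fin (d + 1)) {t : ℝ} (ht : 0 < t) :
    (∏ i, t ^ (e i : ℕ)) * (∏ i, (t + ρ i) ^ (d - (e i : ℕ))) * monB ρ e t =
      (∏ i, (t + ρ i) ^ d) * monB ρ e (t + 1) := by
  unfold monB
  rw [← Finset.prod_mul_distrib, ← Finset.prod_mul_distrib, ← Finset.prod_mul_distrib]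
  refine Finset.prod_congr rfl fun i _ => ?_
  have h1 := Bt_succ (hρ i) ht
  have h2 : (t + ρ i) ^ d = (t + ρ i) ^ (d - (e i : ℕ)) * (t + ρ i) ^ (e i : ℕ) := by
    rw [← pow_add, Nat.sub_add_cancel (Nat.lt_succ_iff.1 (e i).2)]
  calc t ^ (e i : ℕ) * (t + ρ i) ^ (d - (e i : ℕ)) * Bt (ρ i) t ^ (e i : ℕ)
      = (t + ρ i) ^ (d - (e i : ℕ)) * (t * Bt (ρ i) t) ^ (e i : ℕ) := by rw [mul_pow]; ring
    _ = (t + ρ i) ^ (d - (e i : ℕ)) * ((t + ρ i) * Bt (ρ i) (t + 1)) ^ (e i : ℕ) := by rw [h1]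
    _ = (t + ρ i) ^ d * Bt (ρ i) (t + 1) ^ (e i : ℕ) := by rw [mul_pow, h2]; ring

lemma Rl_sh {ρ : Fin s → ℝ} (hρ : ∀ i, 0 < ρ i) {p : (Fin s → Fin (d + 1)) → ℝ[X]} (h : Rl ρ p) :
    Rl ρ (sh ρ p) := by
  intro t ht
  have h1 : ∀ e, (sh ρ p e).eval t * monB ρ e t =
      (∏ i, (t + ρ i) ^ d) * ((p e).eval (t + 1) * monB ρ e (t + 1)) := by
    intro e
    have h2 := monB_succ hρ e ht
    unfold sh
    rw [eval_mul, eval_mul, eval_comp, eval_prod, eval_prod]
    simp only [eval_pow, eval_add, eval_X, eval_C]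
    rw [mul_assoc, mul_assoc, ← mul_assoc (∏ i, t ^ (e i : ℕ)), h2]
    ring
  rw [Finset.sum_congr rfl (fun e _ => h1 e), ← Finset.mul_sum, h (t + 1) (by linarith), mul_zero]

lemma Rl_comb {ρ : Fin s → ℝ} {p q : (Fin s → Fin (d + 1)) → ℝ[X]} (hp : Rl ρ p) (hq : Rl ρ q)
    (u v : ℝ[X]) : Rl ρ (fun e => u * p e - v * q e) := by
  intro t ht
  have : ∀ e, (u * p e - v * q e).eval t * monB ρ e t =
      u.eval t * ((p e).eval t * monB ρ e t) - v.eval t * ((q e).eval t * monB ρ e t) := by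
    intro e
    rw [eval_sub, eval_mul, eval_mul]
    ring
  rw [Finset.sum_congr rfl (fun e _ => this e), Finset.sum_sub_distrib, ← Finset.mul_sum,
    ← Finset.mul_sum, hp t ht, hq t ht]
  ring

lemma poly_zero {f : ℝ[X]} (h : ∀ t : ℝ, 0 < t → f.eval t = 0) : f = 0 := by
  refine Polynomial.eq_zero_of_infinite_isRoot f ?_
  refine (Set.Ioi_infinite (0 : ℝ)).mono ?_
  intro t ht
  exact h t ht

lemma comp_ne {f : ℝ[X]} (hf : f ≠ 0) : f.comp (X + C 1) ≠ 0 := by
  intro h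
  apply hf
  have h2 : (f.comp (X + C 1)).comp (X - C 1) = 0 := by rw [h, zero_comp]
  rw [comp_assoc] at h2
  simpa using h2

lemma lin_ne (c : ℝ) : (X + C c : ℝ[X]) ≠ 0 := (monic_X_add_C c).ne_zero

lemma sh_ne {ρ : Fin s → ℝ} {p : (Fin s → Fin (d + 1)) → ℝ[X]} {e : Fin s → Fin (d + 1)}
    (h : p e ≠ 0) : sh ρ p e ≠ 0 := by
  unfold sh
  refine mul_ne_zero (mul_ne_zero (comp_ne h) ?_) ?_
  · exact Finset.prod_ne_zero_iff.2 fun i _ => pow_ne_zero _ X_ne_zero
  · exact Finset.prod_ne_zero_iff.2 fun i _ => pow_ne_zero _ (lin_ne _)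

lemma NN_sh {ρ : Fin s → ℝ} (h1 : ∀ i, ∀ z : ℤ, ρ i ≠ z)
    (h2 : ∀ i j, i ≠ j → ∀ z : ℤ, ρ i - ρ j ≠ z) {p : (Fin s → Fin (d + 1)) → ℝ[X]}
    {e : Fin s → Fin (d + 1)} (h : p e ≠ 0) (i : Fin s) :
    NN (ρ i) (sh ρ p e) = NN (ρ i) (p e) + (d - (e i : ℕ)) := by
  classical
  unfold sh
  have hX : ∀ j ∈ (Finset.univ : Finset (Fin s)), (X : ℝ[X]) ^ (e j : ℕ) ≠ 0 :=
    fun j _ => pow_ne_zero _ X_ne_zero
  have hL : ∀ j ∈ (Finset.univ : Finset (Fin s)), (X + C (ρ j) : ℝ[X]) ^ (d - (e j : ℕ)) ≠ 0 :=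
    fun j _ => pow_ne_zero _ (lin_ne _)
  rw [NN_mul _ (mul_ne_zero (comp_ne h) (Finset.prod_ne_zero_iff.2 hX))
    (Finset.prod_ne_zero_iff.2 hL), NN_mul _ (comp_ne h) (Finset.prod_ne_zero_iff.2 hX), NN_comp,
    NN_prod _ _ hX, NN_prod _ _ hL]
  simp only [NN_pow, NN_X _ (h1 i), mul_zero, Finset.sum_const_zero, add_zero]
  congr 1
  rw [Finset.sum_eq_single i]
  · rw [NN_lin, if_pos ⟨0, by simp⟩, mul_one]
  · intro j _ hj
    rw [NN_lin, if_neg, mul_zero]
    rintro ⟨z, hz⟩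
    exact h2 i j hj.symm z hz
  · intro hi
    exact absurd (Finset.mem_univ i) hi

/-- the support -/
noncomputable def sp (p : (Fin s → Fin (d + 1)) → ℝ[X]) : Finset (Fin s → Fin (d + 1)) :=
  open Classical in Finset.univ.filter fun e => p e ≠ 0

lemma mem_sp {p : (Fin s → Fin (d + 1)) → ℝ[X]} {e : Fin s → Fin (d + 1)} :
    e ∈ sp p ↔ p e ≠ 0 := by
  simp [sp]

theorem no_rel {ρ : Fin s → ℝ} (hρ : ∀ i, 0 < ρ i) (h1 : ∀ i, ∀ z : ℤ, ρ i ≠ z)
    (h2 : ∀ i j, i ≠ j → ∀ z : ℤ, ρ i - ρ j ≠ z) :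
    ∀ (k : ℕ) (p : (Fin s → Fin (d + 1)) → ℝ[X]), (sp p).card = k → Rl ρ p → p = 0 := by
  intro k
  induction k using Nat.strong_induction_on with
  | _ k ih =>
    intro p hk hp
    by_contra hne
    obtain ⟨e0, he0⟩ : ∃ e, p e ≠ 0 := by
      by_contra hcon
      push Not at hcon
      exact hne (funext hcon)
    -- the combination vanishes
    have hcomb : ∀ e, sh ρ p e0 * p e - p e0 * sh ρ p e = 0 := by
      have hR := Rl_comb hp (Rl_sh hρ hp) (sh ρ p e0) (p e0)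
      have hlt : (sp (fun e => sh ρ p e0 * p e - p e0 * sh ρ p e)).card < k := by
        rw [← hk]
        refine Finset.card_lt_card ?_
        rw [Finset.ssubset_iff_of_subset]
        · refine ⟨e0, mem_sp.2 he0, ?_⟩
          rw [mem_sp]
          push Not
          ring
        · intro e he
          rw [mem_sp] at he ⊢
          intro hz
          apply he
          have : sh ρ p e = 0 := by
            unfold sh
            rw [hz]
            simp
          rw [hz, this]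
          ring
      have h3 := ih _ hlt _ rfl hR
      intro e
      exact congrFun h3 e
    -- there is a second monomial
    obtain ⟨e1, he1, hne1⟩ : ∃ e1, p e1 ≠ 0 ∧ e1 ≠ e0 := by
      by_contra hcon
      push Not at hcon
      apply he0
      refine poly_zero fun t ht => ?_
      have h3 := hp t ht
      rw [Finset.sum_eq_single e0] at h3
      · exact (mul_eq_zero.1 h3).resolve_right (monB_pos hρ e0 ht).ne'
      · intro e _ he
        have : p e = 0 := by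
          by_contra h4
          exact he (hcon e h4)
        rw [this]
        simp
      · intro h4
        exact absurd (Finset.mem_univ _) h4
    obtain ⟨i, hi⟩ := Function.ne_iff.1 hne1
    have h3 : sh ρ p e0 * p e1 = p e0 * sh ρ p e1 := sub_eq_zero.1 (hcomb e1)
    have h4 := congrArg (NN (ρ i)) h3
    rw [NN_mul _ (sh_ne he0) he1, NN_mul _ he0 (sh_ne he1), NN_sh h1 h2 he0, NN_sh h1 h2 he1] at h4
    apply hi
    have h5 := (e0 i).2
    have h6 := (e1 i).2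
    ext
    omega

end Pool.Agent.TH818.AP.BetaI

namespace Pool.Agent.TH818.AP

open BetaI

theorem betaAn : T_betaAn := by
  intro ρ t hρ ht
  have hG : ∀ x : ℝ, 0 < x → AnalyticAt ℝ Real.Gamma x := by
    intro x hx
    have hU : IsOpen {z : ℂ | 0 < z.re} := isOpen_lt continuous_const Complex.continuous_re
    have h1 : DifferentiableOn ℂ Complex.Gamma {z : ℂ | 0 < z.re} := by
      intro z hz
      refine (Complex.differentiableAt_Gamma z ?_).differentiableWithinAt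
      intro m hm
      have : z.re = -(m : ℝ) := by rw [hm]; simp
      have hz' : 0 < z.re := hz
      have h0 : (0 : ℝ) ≤ m := Nat.cast_nonneg m
      linarith
    have h2 : AnalyticAt ℂ Complex.Gamma (x : ℂ) :=
      h1.analyticAt (hU.mem_nhds (by simpa using hx))
    have h3 : AnalyticAt ℝ (fun y : ℝ => Complex.Gamma (y : ℂ)) x :=
      (h2.restrictScalars (𝕜 := ℝ)).comp_of_eq (Complex.ofRealCLM.analyticAt x) rfl
    have h4 : AnalyticAt ℝ (fun y : ℝ => (Complex.Gamma (y : ℂ)).re) x :=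
      (Complex.reCLM.analyticAt _).comp h3
    exact h4
  unfold Bt
  have h1 := hG t ht
  have h2 : AnalyticAt ℝ (fun y : ℝ => Real.Gamma (y + ρ)) t :=
    (hG (t + ρ) (by linarith)).comp_of_eq (analyticAt_id.add analyticAt_const) rfl
  exact (h1.mul analyticAt_const).div h2 (Real.Gamma_pos_of_pos (by linarith)).ne'

theorem betaInt : T_betaInt := by
  intro ρ t hρ ht
  have h1 := Complex.betaIntegral_eq_Gamma_mul_div (t : ℂ) (ρ : ℂ) (by simpa using ht)
    (by simpa using hρ)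
  have h2 : Complex.betaIntegral (t : ℂ) (ρ : ℂ) =
      ((∫ x in (0 : ℝ)..1, x ^ (t - 1) * (1 - x) ^ (ρ - 1) : ℝ) : ℂ) := by
    unfold Complex.betaIntegral
    rw [← intervalIntegral.integral_ofReal]
    refine intervalIntegral.integral_congr fun x hx => ?_
    rw [Set.uIcc_of_le zero_le_one] at hx
    push_cast
    rw [Complex.ofReal_cpow hx.1, Complex.ofReal_cpow (by linarith [hx.2])]
    push_cast
    rfl
  unfold Bt
  rw [h2] at h1
  have h3 : ((Real.Gamma t * Real.Gamma ρ / Real.Gamma (t + ρ) : ℝ) : ℂ) =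
      Complex.Gamma t * Complex.Gamma ρ / Complex.Gamma ((t : ℂ) + ρ) := by
    push_cast
    rw [← Complex.Gamma_ofReal, ← Complex.Gamma_ofReal, ← Complex.Gamma_ofReal]
    push_cast
    rfl
  rw [← h3] at h1
  exact_mod_cast h1

theorem beta : T_beta := by
  intro s d ρ a b hρ h1 h2 ha hab p hp
  refine no_rel hρ h1 h2 _ p rfl ?_
  have han : AnalyticOnNhd ℝ (fun t => ∑ e : Fin s → Fin (d + 1), (p e).eval t * monB ρ e t)
      (Ioi 0) := by
    intro t ht
    refine Finset.analyticAt_fun_sum _ (fun e _ => ?_)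
    refine AnalyticAt.fun_mul ?_ ?_
    · exact (AnalyticOnNhd.eval_polynomial (𝕜 := ℝ) (p e)) t (Set.mem_univ t)
    · unfold monB
      exact Finset.analyticAt_fun_prod _ (fun i _ => (betaAn (ρ i) t (hρ i) ht).fun_pow _)
  have hx : (a + b) / 2 ∈ Ioi (0 : ℝ) := by
    rw [Set.mem_Ioi]
    linarith
  have hev : (fun t => ∑ e : Fin s → Fin (d + 1), (p e).eval t * monB ρ e t) =ᶠ[𝓝 ((a + b) / 2)] 0 := by
    filter_upwards [Icc_mem_nhds (show a < (a + b) / 2 by linarith)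
      (show (a + b) / 2 < b by linarith)] with t ht
    exact hp t ht
  intro t ht
  exact han.eqOn_zero_of_preconnected_of_eventuallyEq_zero isPreconnected_Ioi hx hev ht

end Pool.Agent.TH818.AP
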