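import Pool.Agent.TH818.AP.Hz

/-!
# Linear independence of `1, ψ(t), ζ(2, t), …, ζ(K, t)`
-/

set_option autoImplicit false
set_option maxHeartbeats 400000

open Set Polynomial Filter Topology

namespace Pool.Agent.TH818.AP.Hyp

/-- `1, ψ, ζ(2, ·), …` -/
noncomputable def gz (i : ℕ) (t : ℝ) : ℝ := if i = 0 then 1 else if i = 1 then psi t else hz i t

/-- `R_n^i g_i` near `-n` -/
noncomputable def GZ (i n : ℕ) (t : ℝ) : ℝ := if i = 0 then 1 else if i = 1 then PP n t else HH i n t

theorem gz_an (i : ℕ) {t : ℝ} (ht : 0 < t) : AnalyticAt ℝ (gz i) t := by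
  by_cases h0 : i = 0
  · have : gz i = fun _ => 1 := by funext t; simp [gz, h0]
    rw [this]
    exact analyticAt_const
  by_cases h1 : i = 1
  · have : gz i = psi := by funext t; simp [gz, h1]
    rw [this]
    exact psi_an ht
  · have : gz i = hz i := by funext t; simp [gz, h0, h1]
    rw [this]
    exact hz_an (by omega) ht

theorem GZ_an (i n : ℕ) {t : ℝ} (ht : -((n : ℝ) + 1) < t) : AnalyticAt ℝ (GZ i n) t := by
  by_cases h0 : i = 0
  · have : GZ i n = fun _ => 1 := by funext t; simp [GZ, h0]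
    rw [this]
    exact analyticAt_const
  by_cases h1 : i = 1
  · have : GZ i n = PP n := by funext t; simp [GZ, h1]
    rw [this]
    exact PP_an n ht
  · have : GZ i n = HH i n := by funext t; simp [GZ, h0, h1]
    rw [this]
    exact HH_an (by omega) n ht

theorem GZ_eq (i n : ℕ) {t : ℝ} (ht : 0 < t) : GZ i n t = RR n t ^ i * gz i t := by
  by_cases h0 : i = 0
  · simp [GZ, gz, h0]
  by_cases h1 : i = 1
  · simp only [GZ, gz, h1, one_ne_zero, if_false, if_true, pow_one]
    exact PP_eq n ht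
  · simp only [GZ, gz, h0, h1, if_false]
    exact HH_eq (by omega) n ht

theorem GZ_neg (i n : ℕ) : GZ i n (-(n : ℝ)) ≠ 0 := by
  by_cases h0 : i = 0
  · simp [GZ, h0]
  by_cases h1 : i = 1
  · simp only [GZ, h1, one_ne_zero, if_false, if_true]
    exact PP_neg n
  · simp only [GZ, h0, h1, if_false]
    exact HH_neg (by omega) n

theorem gz_indep (K : ℕ) {a b : ℝ} (ha : 0 < a) (hab : a < b) :
    RIndep (fun (i : Fin (K + 1)) (t : ℝ) => gz i t) a b := by
  classical
  intro p hp
  by_contra hne0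
  have hne : (Finset.univ.filter fun j => p j ≠ 0).Nonempty := by
    by_contra hcon
    apply hne0
    funext j
    by_contra hi
    refine hcon ⟨j, ?_⟩
    rw [Finset.mem_filter]
    exact ⟨Finset.mem_univ _, hi⟩
  obtain ⟨j0, hj0, hmax⟩ := (Finset.univ.filter fun j => p j ≠ 0).exists_max_image (fun j => j) hne
  have hj0' : p j0 ≠ 0 := (Finset.mem_filter.1 hj0).2
  apply hj0'
  have hpz : ∀ j, j0 < j → p j = 0 := by
    intro j hj
    by_contra hcon
    exact absurd (hmax j (Finset.mem_filter.2 ⟨Finset.mem_univ _, hcon⟩)) (not_le.2 hj)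
  refine poly_zero_neg _ fun n => ?_
  set F : ℝ → ℝ := fun t => ∑ j : Fin (K + 1), (p j).eval t *
    (RR n t ^ ((j0 : ℕ) - (j : ℕ)) * GZ j n t) with hF
  have hFan : AnalyticOnNhd ℝ F (Ioi (-((n : ℝ) + 1))) := fun t ht =>
    Finset.analyticAt_fun_sum _ fun j _ => ((AnalyticOnNhd.eval_polynomial (𝕜 := ℝ) (p j)) t (Set.mem_univ _)).mul
      (((RR_an n t).pow _).mul (GZ_an j n ht))
  have hm : (a + b) / 2 ∈ Ioi (-((n : ℝ) + 1)) := by
    have : (0 : ℝ) ≤ n := by positivity
    simp only [mem_Ioi]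
    linarith
  have hz0 := ident isPreconnected_Ioi hFan hm (by
    filter_upwards [Ioo_mem_nhds (show a < (a + b) / 2 by linarith) (show (a + b) / 2 < b by linarith)] with t ht
    have ht0 : 0 < t := ha.trans ht.1
    have h1 := hp t ⟨ht.1.le, ht.2.le⟩
    have h2 : F t = RR n t ^ (j0 : ℕ) * ∑ j : Fin (K + 1), (p j).eval t * gz j t := by
      simp only [hF]
      rw [Finset.mul_sum]
      refine Finset.sum_congr rfl fun j _ => ?_
      by_cases hj : j0 < j
      · rw [hpz j hj]
        simp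
      · have hle : (j : ℕ) ≤ j0 := not_lt.1 hj
        rw [GZ_eq j n ht0]
        have h3 : RR n t ^ (j0 : ℕ) = RR n t ^ ((j0 : ℕ) - (j : ℕ)) * RR n t ^ (j : ℕ) := by
          rw [← pow_add, Nat.sub_add_cancel hle]
        rw [h3]
        ring
    rw [h2, h1, mul_zero]) (-(n : ℝ)) (by simp only [mem_Ioi]; linarith)
  simp only [hF] at hz0
  rw [Finset.sum_eq_single j0] at hz0
  · rw [Nat.sub_self, pow_zero, one_mul] at hz0
    exact (mul_eq_zero.1 hz0).resolve_right (GZ_neg j0 n)
  · intro j _ hj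
    rcases lt_or_gt_of_ne hj with h | h
    · have h1 : (j0 : ℕ) - (j : ℕ) ≠ 0 := by
        have : (j : ℕ) < j0 := h
        omega
      rw [RR_neg, zero_pow h1, zero_mul, mul_zero]
    · rw [hpz j h, eval_zero, zero_mul]
  · intro h
    exact absurd (Finset.mem_univ j0) h

end Pool.Agent.TH818.AP.Hyp
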