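import Pool.Agent.TH818.AP.Psi

/-!
# The Hurwitz zeta function `ζ(k, t)`, `k ≥ 2`: analyticity and independence
-/

set_option autoImplicit false
set_option maxHeartbeats 400000

open Set Polynomial Filter Topology

namespace Pool.Agent.TH818.AP.Hyp

/-- Hurwitz zeta function -/
noncomputable def hz (k : ℕ) (t : ℝ) : ℝ := ∑' n : ℕ, 1 / (t + n) ^ k

theorem hz_summable {k : ℕ} (hk : 2 ≤ k) {t : ℝ} (ht : 0 < t) : Summable fun n : ℕ => 1 / (t + (n : ℝ)) ^ k := by
  have h := (Real.summable_one_div_nat_add_rpow t k).2 (by exact_mod_cast (by omega : 1 < k))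
  refine h.congr fun n => ?_
  have : (0 : ℝ) < n + t := by positivity
  rw [abs_of_pos this, Real.rpow_natCast, add_comm]

theorem hz_an {k : ℕ} (hk : 2 ≤ k) {x : ℝ} (hx : 0 < x) : AnalyticAt ℝ (hz k) x := by
  have hopen : IsOpen {z : ℂ | x / 2 < z.re} := isOpen_lt continuous_const Complex.continuous_re
  have h1 : DifferentiableOn ℂ (fun z : ℂ => ∑' n : ℕ, 1 / (z + n) ^ k) {z : ℂ | x / 2 < z.re} := by
    refine Complex.differentiableOn_tsum_of_summable_norm (hz_summable hk (t := x / 2) (by linarith)) ?_ hopen ?_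
    · intro n z hz
      have hz' : x / 2 < z.re := hz
      have hne : z + n ≠ 0 := by
        intro h0
        have := congrArg Complex.re h0
        simp at this
        have h2 : (0 : ℝ) ≤ n := by positivity
        linarith
      refine DifferentiableAt.differentiableWithinAt ?_
      exact (differentiableAt_const _).div ((differentiableAt_id.add (differentiableAt_const _)).pow k) (pow_ne_zero _ hne)
    · intro n z hz
      have hz' : x / 2 < z.re := hz
      have h2 : (0 : ℝ) ≤ n := by positivity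
      rw [norm_div, norm_one, norm_pow]
      have h3 : x / 2 + n ≤ ‖z + n‖ := by
        refine le_trans ?_ (Complex.re_le_norm _)
        simp
        exact hz'.le
      gcongr
  have h2 : AnalyticAt ℂ (fun z : ℂ => ∑' n : ℕ, 1 / (z + n) ^ k) (x : ℂ) :=
    h1.analyticAt (hopen.mem_nhds (by simp; linarith))
  have h3 := h2.re_ofReal
  refine h3.congr ?_
  refine Eventually.of_forall fun y => ?_
  have h4 : (∑' n : ℕ, 1 / ((y : ℂ) + n) ^ k) = ((∑' n : ℕ, 1 / (y + (n : ℝ)) ^ k : ℝ) : ℂ) := by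
    rw [Complex.ofReal_tsum]
    refine tsum_congr fun n => ?_
    push_cast
    rfl
  simp only [h4, Complex.ofReal_re]
  rfl

theorem hz_add_one {k : ℕ} (hk : 2 ≤ k) {t : ℝ} (ht : 0 < t) : hz k t = 1 / t ^ k + hz k (t + 1) := by
  unfold hz
  rw [(hz_summable hk ht).tsum_eq_zero_add]
  congr 1
  · simp
  · refine tsum_congr fun n => ?_
    push_cast
    congr 2
    ring

theorem hz_shift {k : ℕ} (hk : 2 ≤ k) (n : ℕ) {t : ℝ} (ht : 0 < t) :
    hz k t = ∑ l ∈ Finset.range (n + 1), 1 / (t + l) ^ k + hz k (t + ((n : ℝ) + 1)) := by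
  induction n with
  | zero => simpa using hz_add_one hk ht
  | succ n ih =>
    rw [Finset.sum_range_succ]
    have h0 : (0 : ℝ) < t + ((n : ℝ) + 1) := by positivity
    have h := hz_add_one hk h0
    push_cast
    rw [show t + ((n : ℝ) + 1 + 1) = t + ((n : ℝ) + 1) + 1 by ring]
    rw [h] at ih
    linarith

/-- `R_n^k ζ(k, ·)` near `-n` -/
noncomputable def HH (k n : ℕ) (t : ℝ) : ℝ :=
  RR n t ^ k * hz k (t + ((n : ℝ) + 1)) +
    ∑ l ∈ Finset.range (n + 1), (∏ l' ∈ (Finset.range (n + 1)).erase l, (t + (l' : ℝ))) ^ k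

theorem HH_eq {k : ℕ} (hk : 2 ≤ k) (n : ℕ) {t : ℝ} (ht : 0 < t) : HH k n t = RR n t ^ k * hz k t := by
  unfold HH
  rw [hz_shift hk n ht, mul_add, Finset.mul_sum]
  have : ∀ l ∈ Finset.range (n + 1), RR n t ^ k * (1 / (t + l) ^ k) =
      (∏ l' ∈ (Finset.range (n + 1)).erase l, (t + (l' : ℝ))) ^ k := by
    intro l hl
    unfold RR
    rw [← Finset.mul_prod_erase _ _ hl, mul_pow]
    have : (t + (l : ℝ)) ^ k ≠ 0 := by positivity
    field_simp
  rw [Finset.sum_congr rfl this]
  ring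

theorem HH_neg {k : ℕ} (hk : 2 ≤ k) (n : ℕ) : HH k n (-(n : ℝ)) ≠ 0 := by
  unfold HH
  rw [RR_neg, zero_pow (by omega), zero_mul, zero_add, Finset.sum_eq_single n]
  · refine pow_ne_zero _ ?_
    rw [Finset.prod_ne_zero_iff]
    intro l hl h
    have h1 : (l : ℝ) = n := by linarith
    exact (Finset.ne_of_mem_erase hl) (by exact_mod_cast h1)
  · intro l hl hne
    have : ∏ l' ∈ (Finset.range (n + 1)).erase l, (-(n : ℝ) + (l' : ℝ)) = 0 :=
      Finset.prod_eq_zero (i := n) (Finset.mem_erase.2 ⟨hne.symm, Finset.self_mem_range_succ n⟩) (by ring)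
    rw [this, zero_pow (by omega)]
  · intro h
    exact absurd (Finset.self_mem_range_succ n) h

theorem HH_an {k : ℕ} (hk : 2 ≤ k) (n : ℕ) {t : ℝ} (ht : -((n : ℝ) + 1) < t) : AnalyticAt ℝ (HH k n) t := by
  have h1 : AnalyticAt ℝ (fun t : ℝ => hz k (t + ((n : ℝ) + 1))) t :=
    AnalyticAt.fun_comp (hz_an hk (by linarith)) (analyticAt_id.add analyticAt_const)
  have h2 : AnalyticAt ℝ (fun t : ℝ => ∑ l ∈ Finset.range (n + 1),
      (∏ l' ∈ (Finset.range (n + 1)).erase l, (t + (l' : ℝ))) ^ k) t :=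
    Finset.analyticAt_fun_sum _ fun l _ =>
      (Finset.analyticAt_fun_prod _ fun l _ => analyticAt_id.add analyticAt_const).pow _
  exact (((RR_an n t).pow _).mul h1).add h2

theorem poly_zero_neg (p : ℝ[X]) (h : ∀ n : ℕ, p.eval (-(n : ℝ)) = 0) : p = 0 := by
  refine Polynomial.eq_zero_of_infinite_isRoot p ?_
  refine (Set.infinite_range_of_injective (f := fun n : ℕ => -(n : ℝ)) ?_).mono ?_
  · intro n n' h
    simpa using h
  · rintro _ ⟨n, rfl⟩
    exact h n

theorem hz_indep {k : ℕ} (hk : 2 ≤ k) (d : ℕ) {a b : ℝ} (ha : 0 < a) (hab : a < b) :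
    RIndep (fun (l : Fin (d + 1)) (t : ℝ) => hz k t ^ (l : ℕ)) a b := by
  classical
  intro p hp
  by_contra hne0
  have hne : (Finset.univ.filter fun j => p j ≠ 0).Nonempty := by
    by_contra hcon
    apply hne0
    funext j
    by_contra hi
    refine hcon ⟨j, ?_⟩
    rw [Finset.mem_filter]
    exact ⟨Finset.mem_univ _, hi⟩
  obtain ⟨j0, hj0, hmax⟩ := (Finset.univ.filter fun j => p j ≠ 0).exists_max_image (fun j => j) hne
  have hj0' : p j0 ≠ 0 := (Finset.mem_filter.1 hj0).2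
  apply hj0'
  have hpz : ∀ j, j0 < j → p j = 0 := by
    intro j hj
    by_contra hcon
    exact absurd (hmax j (Finset.mem_filter.2 ⟨Finset.mem_univ _, hcon⟩)) (not_le.2 hj)
  refine poly_zero_neg _ fun n => ?_
  set F : ℝ → ℝ := fun t => ∑ j : Fin (d + 1), (p j).eval t *
    ((RR n t ^ k) ^ ((j0 : ℕ) - (j : ℕ)) * HH k n t ^ (j : ℕ)) with hF
  have hFan : AnalyticOnNhd ℝ F (Ioi (-((n : ℝ) + 1))) := fun t ht =>
    Finset.analyticAt_fun_sum _ fun j _ => ((AnalyticOnNhd.eval_polynomial (𝕜 := ℝ) (p j)) t (Set.mem_univ _)).mul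
      ((((RR_an n t).pow _).pow _).mul ((HH_an hk n ht).pow _))
  have hm : (a + b) / 2 ∈ Ioi (-((n : ℝ) + 1)) := by
    have : (0 : ℝ) ≤ n := by positivity
    simp only [mem_Ioi]
    linarith
  have hz0 := ident isPreconnected_Ioi hFan hm (by
    filter_upwards [Ioo_mem_nhds (show a < (a + b) / 2 by linarith) (show (a + b) / 2 < b by linarith)] with t ht
    have ht0 : 0 < t := ha.trans ht.1
    have h1 := hp t ⟨ht.1.le, ht.2.le⟩
    have h2 : F t = (RR n t ^ k) ^ (j0 : ℕ) * ∑ j, (p j).eval t * hz k t ^ (j : ℕ) := by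
      simp only [hF]
      rw [Finset.mul_sum]
      refine Finset.sum_congr rfl fun j _ => ?_
      by_cases hj : j0 < j
      · rw [hpz j hj]
        simp
      · have hle : (j : ℕ) ≤ j0 := not_lt.1 hj
        rw [HH_eq hk n ht0, mul_pow]
        have h3 : (RR n t ^ k) ^ (j0 : ℕ) = (RR n t ^ k) ^ ((j0 : ℕ) - (j : ℕ)) * (RR n t ^ k) ^ (j : ℕ) := by
          rw [← pow_add, Nat.sub_add_cancel hle]
        rw [h3]
        ring
    rw [h2, h1, mul_zero]) (-(n : ℝ)) (by simp only [mem_Ioi]; linarith)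
  simp only [hF] at hz0
  rw [Finset.sum_eq_single j0] at hz0
  · rw [Nat.sub_self, pow_zero, one_mul] at hz0
    exact (mul_eq_zero.1 hz0).resolve_right (pow_ne_zero _ (HH_neg hk n))
  · intro j _ hj
    rcases lt_or_gt_of_ne hj with h | h
    · have h1 : (j0 : ℕ) - (j : ℕ) ≠ 0 := by
        have : (j : ℕ) < j0 := h
        omega
      rw [RR_neg, zero_pow (by omega : k ≠ 0), zero_pow h1, zero_mul, mul_zero]
    · rw [hpz j h, eval_zero, zero_mul]
  · intro h
    exact absurd (Finset.mem_univ j0) h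

end Pool.Agent.TH818.AP.Hyp
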