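import Pool.Agent.TH818.AP.Api

/-!
# From linear forms in monomials to polynomials, several groups of variables
-/

set_option autoImplicit false

namespace Pool.Agent.TH818.AP

/-- the exponent vector -/
noncomputable def sOf2 {n s d : ℕ} (e : (Fin n → Fin s → Fin (d + 1)) × Fin (d + 1)) : Option (Fin n × Fin s) →₀ ℕ :=
  Finsupp.equivFunOnFinite.symm fun x => match x with
    | none => (e.2 : ℕ)
    | some y => (e.1 y.1 y.2 : ℕ)

theorem sOf2_inj {n s d : ℕ} : Function.Injective (sOf2 (n := n) (s := s) (d := d)) := by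
  intro e e' h
  refine Prod.ext ?_ ?_
  · funext j i
    have := DFunLike.congr_fun h (some (j, i))
    exact Fin.ext (by simpa [sOf2] using this)
  · have := DFunLike.congr_fun h none
    exact Fin.ext (by simpa [sOf2] using this)

theorem aeval_eq2 {n s d : ℕ} (f : Option (Fin n × Fin s) → ℝ) (P : MvPolynomial (Option (Fin n × Fin s)) ℤ)
    (hP : ∀ x, P.degreeOf x ≤ d) : MvPolynomial.aeval f P =
      ∑ e : (Fin n → Fin s → Fin (d + 1)) × Fin (d + 1), ((P.coeff (sOf2 e) : ℤ) : ℝ) *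
        ((∏ j, ∏ i, f (some (j, i)) ^ (e.1 j i : ℕ)) * f none ^ (e.2 : ℕ)) := by
  classical
  have h1 : ∀ e : (Fin n → Fin s → Fin (d + 1)) × Fin (d + 1),
      (∏ j, ∏ i, f (some (j, i)) ^ (e.1 j i : ℕ)) * f none ^ (e.2 : ℕ) = ∏ x, f x ^ (sOf2 e x) := by
    intro e
    rw [Fintype.prod_option, Fintype.prod_prod_type, mul_comm]
    simp [sOf2]
  simp only [h1]
  rw [MvPolynomial.aeval_def, MvPolynomial.eval₂_eq']
  rw [← Finset.sum_image (f := fun u : Option (Fin n × Fin s) →₀ ℕ => ((P.coeff u : ℤ) : ℝ) * ∏ x, f x ^ (u x))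
    (fun a _ b _ hab => sOf2_inj hab)]
  refine Finset.sum_subset_zero_on_sdiff ?_ ?_ ?_
  · intro u hu
    rw [Finset.mem_image]
    have hle : ∀ x, u x < d + 1 := fun x =>
      Nat.lt_succ_of_le ((MvPolynomial.monomial_le_degreeOf x hu).trans (hP x))
    refine ⟨(fun j i => ⟨u (some (j, i)), hle _⟩, ⟨u none, hle _⟩), Finset.mem_univ _, ?_⟩
    ext x
    cases x <;> simp [sOf2]
  · intro u hu
    rw [Finset.mem_sdiff, MvPolynomial.notMem_support_iff] at hu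
    rw [hu.2]
    simp
  · intro u _
    simp

theorem coeff_ne2 {n s d : ℕ} (P : MvPolynomial (Option (Fin n × Fin s)) ℤ) (hP0 : P ≠ 0)
    (hP : ∀ x, P.degreeOf x ≤ d) :
    (fun e : (Fin n → Fin s → Fin (d + 1)) × Fin (d + 1) => P.coeff (sOf2 e)) ≠ 0 := by
  intro h
  apply hP0
  ext u
  rw [MvPolynomial.coeff_zero]
  by_contra hs
  have hs' : u ∈ P.support := MvPolynomial.mem_support_iff.2 hs
  have hle : ∀ x, u x < d + 1 := fun x =>
    Nat.lt_succ_of_le ((MvPolynomial.monomial_le_degreeOf x hs').trans (hP x))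
  have := congrFun h (fun j i => ⟨u (some (j, i)), hle _⟩, ⟨u none, hle _⟩)
  apply hs
  have he : sOf2 ((fun j i => ⟨u (some (j, i)), hle _⟩, ⟨u none, hle _⟩) :
      (Fin n → Fin s → Fin (d + 1)) × Fin (d + 1)) = u := by
    ext x
    cases x <;> simp [sOf2]
  simp only [he, Pi.zero_apply] at this
  exact this

/-- The ready-to-use statement: functions `f_i` (`i < s`) of one variable, the same for all `n` parameters, whose monomials
are independent over `ℝ[t]` on `[a,b]`; for almost all `n`-tuples of rationals no polynomial of degree `≤ d` in each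
variable and coefficients `≤ T^A` is small at `(π, f_i(t_j))`. -/
theorem polys {s d : ℕ} (f : Fin s → ℝ → ℝ) (a b : ℝ) (hab : a < b)
    (han : ∀ i, AnalyticOnNhd ℝ (f i) (Set.Icc a b))
    (hg : RIndep (fun (e : Fin s → Fin (d + 1)) (t : ℝ) => ∏ i, f i t ^ (e i : ℕ)) a b)
    (n : ℕ) (hn : 1 ≤ n) (A β : ℝ) (hA : 0 ≤ A) (hβ : 2 - 2 / (((d : ℝ) + 1) ^ (s * n + 1) + 1) < β) :
    ∃ B C : ℝ, ∀ T : ℝ, 1 ≤ T →
      {t : Fin n → ℚ | (∀ j, a ≤ t j ∧ t j ≤ b ∧ ((t j).den : ℝ) ≤ T) ∧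
        ∃ P : MvPolynomial (Option (Fin n × Fin s)) ℤ, P ≠ 0 ∧ (∀ x, P.degreeOf x ≤ d) ∧
          (∀ u, |((P.coeff u : ℤ) : ℝ)| ≤ T ^ A) ∧
          |MvPolynomial.aeval (fun x : Option (Fin n × Fin s) =>
            x.elim Real.pi fun y => f y.2 (t y.1)) P| ≤ T ^ (-B)}.Finite ∧
      (({t : Fin n → ℚ | (∀ j, a ≤ t j ∧ t j ≤ b ∧ ((t j).den : ℝ) ≤ T) ∧
        ∃ P : MvPolynomial (Option (Fin n × Fin s)) ℤ, P ≠ 0 ∧ (∀ x, P.degreeOf x ≤ d) ∧
          (∀ u, |((P.coeff u : ℤ) : ℝ)| ≤ T ^ A) ∧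
          |MvPolynomial.aeval (fun x : Option (Fin n × Fin s) =>
            x.elim Real.pi fun y => f y.2 (t y.1)) P| ≤ T ^ (-B)}.ncard : ℕ) : ℝ) ≤
        C * T ^ (2 * ((n : ℝ) - 1) + β) := by
  classical
  have hι : 0 < Fintype.card (Fin s → Fin (d + 1)) := Fintype.card_pos
  have hcard : (Fintype.card (Fin s → Fin (d + 1))) ^ n * Fintype.card (Fin (d + 1)) = (d + 1) ^ (s * n + 1) := by
    simp only [Fintype.card_pi, Fintype.card_fin, Finset.prod_const, Finset.card_univ]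
    rw [← pow_mul, ← pow_succ]
  have hβ' : 2 * (((Fintype.card (Fin s → Fin (d + 1))) ^ n * Fintype.card (Fin (d + 1)) : ℕ) : ℝ) /
      ((((Fintype.card (Fin s → Fin (d + 1))) ^ n * Fintype.card (Fin (d + 1)) : ℕ) : ℝ) + 1) < β := by
    rw [hcard]
    refine lt_of_le_of_lt (le_of_eq ?_) hβ
    have hM0 : (0 : ℝ) < ((d : ℝ) + 1) ^ (s * n + 1) := by positivity
    push_cast
    field_simp
    ring
  obtain ⟨B, C, h⟩ := multi_gen hι _ (goodConst_pi d) n hn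
    (fun _ => fun (e : Fin s → Fin (d + 1)) (t : ℝ) => ∏ i, f i t ^ (e i : ℕ)) (fun _ => a) (fun _ => b)
    (fun _ => hab) (fun _ e t ht => Finset.analyticAt_fun_prod _ fun i _ => (han i t ht).pow _) (fun _ => hg)
    A β hA hβ'
  refine ⟨B, C, fun T hT => ?_⟩
  obtain ⟨hfin, hle⟩ := h T hT
  have hsub : {t : Fin n → ℚ | (∀ j, a ≤ t j ∧ t j ≤ b ∧ ((t j).den : ℝ) ≤ T) ∧
        ∃ P : MvPolynomial (Option (Fin n × Fin s)) ℤ, P ≠ 0 ∧ (∀ x, P.degreeOf x ≤ d) ∧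
          (∀ u, |((P.coeff u : ℤ) : ℝ)| ≤ T ^ A) ∧
          |MvPolynomial.aeval (fun x : Option (Fin n × Fin s) =>
            x.elim Real.pi fun y => f y.2 (t y.1)) P| ≤ T ^ (-B)} ⊆
      ExcM (fun _ => fun (e : Fin s → Fin (d + 1)) (t : ℝ) => ∏ i, f i t ^ (e i : ℕ))
        (fun e : Fin (d + 1) => Real.pi ^ (e : ℕ)) (fun _ : Fin n => a) (fun _ => b) A B T := by
    rintro t ⟨ht, P, hP0, hPd, hPc, hPs⟩
    refine ⟨fun j => ⟨⟨(ht j).1, (ht j).2.1⟩, (ht j).2.2⟩, fun e => P.coeff (sOf2 e),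
      coeff_ne2 P hP0 hPd, fun e => hPc _, ?_⟩
    rw [aeval_eq2 _ P hPd] at hPs
    refine le_trans (le_of_eq ?_) hPs
    congr 1
  refine ⟨hfin.subset hsub, le_trans ?_ hle⟩
  exact_mod_cast Set.ncard_le_ncard hsub hfin

end Pool.Agent.TH818.AP
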