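import Pool.Agent.TH818.AP.Defs

set_option autoImplicit false

open Set Polynomial Filter Topology

namespace Pool.Agent.TH818.AP

namespace ApprF

/-- the approximating polynomials -/
noncomputable def BB {m : ℕ} (n : ℕ) (a : Fin (m + 1) → ℕ → ℤ) : ℤ[X] :=
  ∑ k : Fin (m + 1), ∑ s ∈ Finset.range (n + 1), C ((-1) ^ (k : ℕ) * a k s) * X ^ s

theorem BB_deg {m : ℕ} (n : ℕ) (a : Fin (m + 1) → ℕ → ℤ) : (BB n a).natDegree ≤ n := by
  refine natDegree_sum_le_of_forall_le _ _ fun k _ => ?_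
  refine natDegree_sum_le_of_forall_le _ _ fun s hs => ?_
  refine (natDegree_C_mul_X_pow_le _ _).trans ?_
  have := Finset.mem_range.1 hs
  omega

theorem BB_coeff {m : ℕ} (n : ℕ) (a : Fin (m + 1) → ℕ → ℤ) (i : ℕ) :
    (BB n a).coeff i = ∑ k : Fin (m + 1), if i < n + 1 then (-1) ^ (k : ℕ) * a k i else 0 := by
  unfold BB
  rw [finsetSum_coeff]
  refine Finset.sum_congr rfl fun k _ => ?_
  rw [finsetSum_coeff]
  simp only [coeff_C_mul_X_pow]
  rw [Finset.sum_ite_eq]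
  simp only [Finset.mem_range]

theorem BB_bound {m : ℕ} (n : ℕ) (a : Fin (m + 1) → ℕ → ℤ) (K : ℝ)
    (ha : ∀ k s, |(a k s : ℝ)| ≤ K) (i : ℕ) : |((BB n a).coeff i : ℝ)| ≤ (m + 1) * K := by
  have hK : 0 ≤ K := (abs_nonneg _).trans (ha 0 0)
  rw [BB_coeff]
  push_cast
  refine (Finset.abs_sum_le_sum_abs _ _).trans ?_
  have h1 : ∀ k ∈ (Finset.univ : Finset (Fin (m + 1))),
      |(if i < n + 1 then (-1 : ℝ) ^ (k : ℕ) * (a k i : ℝ) else 0)| ≤ K := by
    intro k _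
    split_ifs
    · rw [abs_mul, abs_pow, abs_neg, abs_one, one_pow, one_mul]
      exact ha k i
    · rw [abs_zero]; exact hK
  have h2 := Finset.sum_le_card_nsmul _ _ K h1
  simpa using h2

theorem BB_aeval {m : ℕ} (n : ℕ) (a : Fin (m + 1) → ℕ → ℤ) (z : ℂ) :
    aeval z (BB n a) = ∑ k : Fin (m + 1),
      (∑ s ∈ Finset.range (n + 1), (a k s : ℂ) * z ^ s) * (-1) ^ (k : ℕ) := by
  unfold BB
  rw [map_sum]
  refine Finset.sum_congr rfl fun k _ => ?_
  rw [map_sum, Finset.sum_mul]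
  refine Finset.sum_congr rfl fun s _ => ?_
  rw [map_mul, map_pow, aeval_X, aeval_C]
  simp only [algebraMap_int_eq, eq_intCast, Int.cast_mul, Int.cast_pow, Int.cast_neg, Int.cast_one]
  ring

theorem BB_pi {m : ℕ} (n : ℕ) (a : Fin (m + 1) → ℕ → ℤ) :
    aeval ((Real.pi : ℂ) * Complex.I) (BB n a) = RR n a ((Real.pi : ℂ) * Complex.I) := by
  rw [BB_aeval]
  unfold RR
  refine Finset.sum_congr rfl fun k _ => ?_
  congr 1
  rw [Complex.exp_nat_mul, Complex.exp_pi_mul_I]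

theorem size (m n : ℕ) (hm : 1 ≤ m) (hn : 1 ≤ n) (C0 D : ℝ) (hC : 1 ≤ C0)
    (hD : D ≤ (n.factorial : ℝ) * (m.factorial : ℝ) ^ n * C0 ^ (m * n)) :
    D * Real.pi ^ ((m + 1) * n) / (((m + 1) * n).factorial : ℝ) * Real.exp (m * Real.pi) ≤
      (n.factorial : ℝ) *
        (C0 * Real.exp 1 * Real.pi ^ 2 * Real.exp Real.pi / n) ^ (m * n) := by
  have hpi := Real.pi_gt_three
  have hm' : (1 : ℝ) ≤ m := by exact_mod_cast hm
  have hn' : (1 : ℝ) ≤ n := by exact_mod_cast hn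
  set N : ℕ := m * n with hN
  have hN1 : 1 ≤ N := Nat.mul_pos hm hn
  have hNle : N ≤ (m + 1) * n := Nat.mul_le_mul_right _ (Nat.le_succ m)
  have hN2 : (m + 1) * n ≤ 2 * N := by
    rw [hN]; nlinarith
  have e1 : (m.factorial : ℝ) ^ n ≤ (m : ℝ) ^ N := by
    rw [hN, pow_mul]
    refine pow_le_pow_left₀ (Nat.cast_nonneg _) ?_ n
    exact_mod_cast Nat.factorial_le_pow m
  have e2 : Real.pi ^ ((m + 1) * n) ≤ Real.pi ^ (2 * N) :=
    pow_le_pow_right₀ (by linarith) hN2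
  have e3 : Real.exp (m * Real.pi) ≤ Real.exp Real.pi ^ N := by
    rw [← Real.exp_nat_mul, Real.exp_le_exp]
    have : (m : ℝ) ≤ (N : ℝ) := by exact_mod_cast Nat.le_mul_of_pos_right m hn
    nlinarith
  have e4 : 1 / (((m + 1) * n).factorial : ℝ) ≤ Real.exp 1 ^ N / (N : ℝ) ^ N := by
    have h1 := Real.pow_div_factorial_le_exp (N : ℝ) (Nat.cast_nonneg _) N
    have h2 : (0 : ℝ) < (N : ℝ) ^ N := by positivity
    have h3 : (0 : ℝ) < (N.factorial : ℝ) := by positivity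
    have h4 : (N.factorial : ℝ) ≤ (((m + 1) * n).factorial : ℝ) := by
      exact_mod_cast Nat.factorial_le hNle
    have h5 : Real.exp 1 ^ N = Real.exp N := by
      rw [← Real.exp_nat_mul, mul_one]
    refine (one_div_le_one_div_of_le h3 h4).trans ?_
    rw [h5, div_le_div_iff₀ h3 h2, one_mul]
    rw [div_le_iff₀ h3] at h1
    exact h1
  have hNN : (N : ℝ) ^ N = (m : ℝ) ^ N * (n : ℝ) ^ N := by
    rw [← mul_pow]
    congr 1
    rw [hN]; push_cast; rfl
  calc D * Real.pi ^ ((m + 1) * n) / (((m + 1) * n).factorial : ℝ) * Real.exp (m * Real.pi)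
      = D * Real.pi ^ ((m + 1) * n) * (1 / (((m + 1) * n).factorial : ℝ)) *
          Real.exp (m * Real.pi) := by ring
    _ ≤ ((n.factorial : ℝ) * (m : ℝ) ^ N * C0 ^ N) * Real.pi ^ (2 * N) *
          (Real.exp 1 ^ N / (N : ℝ) ^ N) * Real.exp Real.pi ^ N := by
        have hD' : D ≤ (n.factorial : ℝ) * (m : ℝ) ^ N * C0 ^ N :=
          hD.trans (mul_le_mul_of_nonneg_right (mul_le_mul_of_nonneg_left e1 (by positivity))
            (by positivity))
        gcongr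
    _ = (n.factorial : ℝ) *
        (C0 * Real.exp 1 * Real.pi ^ 2 * Real.exp Real.pi / n) ^ N := by
        rw [hNN, div_pow, mul_pow, mul_pow, mul_pow, ← pow_mul]
        have h1 : (m : ℝ) ^ N ≠ 0 := by positivity
        have h2 : (n : ℝ) ^ N ≠ 0 := by positivity
        field_simp

end ApprF

open ApprF

theorem appr_of (h1 : T_pf) (h2 : T_pfb) (h3 : T_pfd) : T_appr := by
  obtain ⟨C0, hC, h⟩ := h1
  have hpi := Real.pi_gt_three
  have he : (1 : ℝ) ≤ Real.exp 1 := Real.one_le_exp (by norm_num)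
  have he2 : (2 : ℝ) ≤ Real.exp 1 := by
    have := Real.add_one_le_exp (1 : ℝ)
    linarith
  have hep : (1 : ℝ) ≤ Real.exp Real.pi := Real.one_le_exp (by linarith)
  have hp2 : (1 : ℝ) ≤ Real.pi ^ 2 := one_le_pow₀ (by linarith)
  have hbig : 2 * C0 ≤ C0 * Real.exp 1 * Real.pi ^ 2 * Real.exp Real.pi := by
    calc 2 * C0 = C0 * 2 * 1 * 1 := by ring
      _ ≤ C0 * Real.exp 1 * Real.pi ^ 2 * Real.exp Real.pi := by gcongr
  refine ⟨C0 * Real.exp 1 * Real.pi ^ 2 * Real.exp Real.pi, by linarith, ?_⟩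
  intro m n hm hn
  obtain ⟨D, hD0, hD, hj⟩ := h m n hm hn
  choose a ha1 ha2 ha3 using hj
  refine ⟨fun j => BB n (a j), fun j => BB_deg n (a j), ?_, ?_, ?_⟩
  · intro j i
    refine (BB_bound n (a j) _ (ha3 j) i).trans ?_
    have h4 : ((m : ℝ) + 1) ≤ 2 ^ (m * n) := by
      have h5 : m + 1 ≤ 2 ^ m := Nat.lt_two_pow_self
      have h6 : 2 ^ m ≤ 2 ^ (m * n) :=
        Nat.pow_le_pow_right (by omega) (Nat.le_mul_of_pos_right m hn)
      exact_mod_cast h5.trans h6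
    calc ((m : ℝ) + 1) * ((n.factorial : ℝ) * C0 ^ (m * n))
        ≤ 2 ^ (m * n) * ((n.factorial : ℝ) * C0 ^ (m * n)) := by gcongr
      _ = (n.factorial : ℝ) * (2 * C0) ^ (m * n) := by rw [mul_pow]; ring
      _ ≤ _ := by gcongr
  · intro j
    rw [BB_pi]
    have h4 := h2 m n j D (a j) hn (ha1 j) (ha2 j) ((Real.pi : ℂ) * Complex.I)
    have h5 : ‖(Real.pi : ℂ) * Complex.I‖ = Real.pi := by
      rw [norm_mul, Complex.norm_I, mul_one, Complex.norm_real, Real.norm_eq_abs,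
        abs_of_pos Real.pi_pos]
    rw [h5] at h4
    exact h4.trans (size m n hm hn C0 D hC hD)
  · intro z hz
    by_contra hcon
    push Not at hcon
    have hdet := h3 m n D a hn hD0 ha1 ha2 z hz
    have hv := Matrix.eq_zero_of_mulVec_eq_zero hdet (v := fun k : Fin (m + 1) => (-1) ^ (k : ℕ))
      (by
        funext j
        have := hcon j
        rw [BB_aeval] at this
        simpa [Matrix.mulVec, dotProduct] using this)
    have h0 := congrFun hv 0
    simp at h0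

end Pool.Agent.TH818.AP
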