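import Pool.Agent.TH818.AP.Defs

/-!
# Integral auxiliary vector with bounded coefficients (Siegel)
(job AP-AUX2 of helper818, written by helper541)
-/

set_option autoImplicit false

open Set Polynomial Filter Topology

namespace Pool.Agent.TH818.AP

open Pool.Agent.TH818.AR

namespace Aux2

/-- the vector of monomials times relation coefficients -/
def uv (r k : ℕ) (s : ℚ × (Fin r → ℤ)) : Fin (k + 1) × Fin r → ℚ :=
  fun y => s.1 ^ (y.1 : ℕ) * (s.2 y.2 : ℚ)

/-- its integral version -/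
def iv (r k : ℕ) (s : ℚ × (Fin r → ℤ)) : Fin (k + 1) × Fin r → ℤ :=
  fun y => s.1.num ^ (y.1 : ℕ) * (s.1.den : ℤ) ^ (k - (y.1 : ℕ)) * s.2 y.2

theorem iv_eq (r k : ℕ) (s : ℚ × (Fin r → ℤ)) (y : Fin (k + 1) × Fin r) :
    ((iv r k s y : ℤ) : ℚ) = (s.1.den : ℚ) ^ k * uv r k s y := by
  have hy : (y.1 : ℕ) ≤ k := by have := y.1.2; omega
  have hd : (s.1.den : ℚ) ≠ 0 := by exact_mod_cast s.1.den_ne_zero
  have h1 : (s.1.num : ℚ) = s.1 * s.1.den := (Rat.mul_den_eq_num s.1).symm
  have h2 : (s.1.den : ℚ) ^ k = (s.1.den : ℚ) ^ (y.1 : ℕ) * (s.1.den : ℚ) ^ (k - (y.1 : ℕ)) := by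
    rw [← pow_add]; congr 1; omega
  unfold iv uv
  push_cast
  rw [h1, h2, mul_pow]
  ring

/-- a set of vectors none of whose square matrices is invertible spans a proper subspace -/
theorem card_lt (r k : ℕ) (S : Set (ℚ × (Fin r → ℤ)))
    (h : ∀ e : Fin (k + 1) × Fin r → ℚ × (Fin r → ℤ), (∀ x, e x ∈ S) →
      (Matrix.of fun x y : Fin (k + 1) × Fin r =>
        (e x).1 ^ (y.1 : ℕ) * ((e x).2 y.2 : ℚ)).det = 0)
    (b : Set (Fin (k + 1) × Fin r → ℚ)) [Fintype b] (hb1 : b ⊆ uv r k '' S)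
    (hb3 : LinearIndependent ℚ (Subtype.val : b → _)) :
    Fintype.card b < (k + 1) * r := by
  classical
  by_contra hlt
  push Not at hlt
  have hc : Fintype.card (Fin (k + 1) × Fin r) ≤ Fintype.card b := by
    simpa using hlt
  obtain ⟨e'⟩ := Function.Embedding.nonempty_of_card_le hc
  have hch : ∀ x, ∃ s ∈ S, uv r k s = (e' x : Fin (k + 1) × Fin r → ℚ) := by
    intro x
    obtain ⟨s, hs, he⟩ := hb1 (e' x).2
    exact ⟨s, hs, he⟩
  choose e he1 he2 using hch
  have hdet := h e he1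
  set Mx : Matrix (Fin (k + 1) × Fin r) (Fin (k + 1) × Fin r) ℚ :=
    Matrix.of fun x y => (e x).1 ^ (y.1 : ℕ) * ((e x).2 y.2 : ℚ) with hM
  have hrow : Mx.row = (Subtype.val : b → _) ∘ e' := by
    funext x
    rw [Function.comp_apply, ← he2]
    rfl
  have hLI : LinearIndependent ℚ Mx.row := by
    rw [hrow]
    exact hb3.comp e' e'.injective
  have hu := Matrix.linearIndependent_rows_iff_isUnit.1 hLI
  rw [Matrix.isUnit_iff_isUnit_det, hdet] at hu
  exact not_isUnit_zero hu

attribute [local instance] Matrix.seminormedAddCommGroup in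
/-- Siegel's lemma with a simpler bound -/
theorem siegel {α β : Type} [Fintype α] [Fintype β] (A : Matrix α β ℤ) (R : ℝ) (hR : 1 ≤ R)
    (hA : ∀ x y, |(A x y : ℝ)| ≤ R) (hc : Fintype.card α < Fintype.card β)
    (h0 : 0 < Fintype.card α) :
    ∃ t : β → ℤ, t ≠ 0 ∧ (∀ x, ∑ y, A x y * t y = 0) ∧
      ∀ y, |(t y : ℝ)| ≤ ((Fintype.card β : ℝ) * R) ^ Fintype.card β := by
  obtain ⟨t, ht0, ht1, ht2⟩ := Int.Matrix.exists_ne_zero_int_vec_norm_le A hc h0
  refine ⟨t, ht0, fun x => ?_, fun y => ?_⟩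
  · have := congrFun ht1 x
    simpa [Matrix.mulVec, dotProduct] using this
  · have hn1 : (1 : ℝ) ≤ (Fintype.card β : ℝ) := by exact_mod_cast (by omega : 1 ≤ Fintype.card β)
    have h1 : |(t y : ℝ)| ≤ ‖t‖ := by
      have := norm_le_pi_norm t y
      rwa [Int.norm_eq_abs] at this
    have hAn : ‖A‖ ≤ R := by
      rw [Matrix.norm_le_iff (by linarith)]
      intro i j
      rw [Int.norm_eq_abs]
      exact hA i j
    have hmax : max 1 ‖A‖ ≤ R := max_le hR hAn
    have hb1 : (1 : ℝ) ≤ (Fintype.card β : ℝ) * max 1 ‖A‖ := by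
      have := le_max_left (1 : ℝ) ‖A‖
      nlinarith
    have hd : (1 : ℝ) ≤ (Fintype.card β : ℝ) - Fintype.card α := by
      have : ((Fintype.card α : ℝ)) + 1 ≤ Fintype.card β := by exact_mod_cast hc
      linarith
    have hexp : ((Fintype.card α : ℝ) / ((Fintype.card β : ℝ) - Fintype.card α)) ≤
        (Fintype.card β : ℝ) := by
      rw [div_le_iff₀ (by linarith)]
      have hα : (Fintype.card α : ℝ) ≤ Fintype.card β := by exact_mod_cast hc.le
      nlinarith
    calc |(t y : ℝ)| ≤ ‖t‖ := h1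
      _ ≤ _ := ht2
      _ ≤ ((Fintype.card β : ℝ) * max 1 ‖A‖) ^ ((Fintype.card β : ℝ)) :=
          Real.rpow_le_rpow_of_exponent_le hb1 hexp
      _ = ((Fintype.card β : ℝ) * max 1 ‖A‖) ^ Fintype.card β := Real.rpow_natCast _ _
      _ ≤ ((Fintype.card β : ℝ) * R) ^ Fintype.card β := by
          apply pow_le_pow_left₀ (by linarith)
          exact mul_le_mul_of_nonneg_left hmax (by linarith)

end Aux2

open Aux2 in
theorem aux2 : T_aux2 := by
  classical
  intro r k M H S hr hM hH hS h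
  set μ : ℕ := (k + 1) * r with hμ
  have hμ0 : 0 < μ := Nat.mul_pos (Nat.succ_pos k) hr
  have hMk : 1 ≤ M ^ k := one_le_pow₀ hM
  have hMH : 1 ≤ M ^ k * H := by nlinarith
  have hμ1 : (1 : ℝ) ≤ (μ : ℝ) := by exact_mod_cast hμ0
  have hbase : (1 : ℝ) ≤ (μ : ℝ) * M ^ k * H := by
    rw [mul_assoc]; nlinarith
  -- the maximal independent family
  obtain ⟨b, hb1, hb2, hb3⟩ := exists_linearIndependent ℚ (uv r k '' S)
  have hfin : Finite b := hb3.finite
  have : Fintype b := Fintype.ofFinite b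
  have hcard := card_lt r k S h b hb1 hb3
  have hch : ∀ x : b, ∃ s ∈ S, uv r k s = (x : Fin (k + 1) × Fin r → ℚ) := by
    intro x
    obtain ⟨s, hs, he⟩ := hb1 x.2
    exact ⟨s, hs, he⟩
  choose e he1 he2 using hch
  -- the bounded integer vector orthogonal to the family
  have key : ∃ a : Fin (k + 1) × Fin r → ℤ, a ≠ 0 ∧ (∀ x : b, ∑ y, iv r k (e x) y * a y = 0) ∧
      ∀ y, |(a y : ℝ)| ≤ ((μ : ℝ) * M ^ k * H) ^ μ := by
    rcases Nat.eq_zero_or_pos (Fintype.card b) with hb0 | hb0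
    · have hempty : IsEmpty b := Fintype.card_eq_zero_iff.1 hb0
      refine ⟨fun _ => 1, ?_, fun x => (hempty.false x).elim, ?_⟩
      · intro h0
        have := congrFun h0 (⟨0, Nat.succ_pos k⟩, ⟨0, hr⟩)
        simp at this
      · intro y
        simp only [Int.cast_one, abs_one]
        exact one_le_pow₀ hbase
    · set A : Matrix b (Fin (k + 1) × Fin r) ℤ := Matrix.of fun x y => iv r k (e x) y with hA
      have hcard' : Fintype.card b < Fintype.card (Fin (k + 1) × Fin r) := by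
        simpa using hcard
      have hcb : Fintype.card (Fin (k + 1) × Fin r) = μ := by simp [hμ]
      have hAR : ∀ x y, |(A x y : ℝ)| ≤ M ^ k * H := by
        intro x y
        have hy : (y.1 : ℕ) ≤ k := by have := y.1.2; omega
        obtain ⟨hs1, hs2, hs3⟩ := hS (e x) (he1 x)
        simp only [hA, Matrix.of_apply, iv]
        push_cast
        rw [abs_mul, abs_mul, abs_pow, abs_pow]
        have hd : |((e x).1.den : ℝ)| ≤ M := by rw [abs_of_nonneg (by positivity)]; exact hs2
        have hM0 : 0 ≤ M := by linarith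
        have e1 : M ^ k = M ^ (y.1 : ℕ) * M ^ (k - (y.1 : ℕ)) := by
          rw [← pow_add]; congr 1; omega
        rw [e1]
        apply mul_le_mul _ (hs3 _) (abs_nonneg _) (by positivity)
        exact mul_le_mul (pow_le_pow_left₀ (abs_nonneg _) hs1 _)
          (pow_le_pow_left₀ (abs_nonneg _) hd _) (by positivity) (by positivity)
      obtain ⟨t, ht0, ht1, ht2⟩ := siegel A (M ^ k * H) hMH hAR hcard' hb0
      refine ⟨t, ht0, fun x => ht1 x, fun y => ?_⟩
      have := ht2 y
      rw [hcb] at this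
      rw [mul_assoc]
      exact this
  obtain ⟨a, ha0, ha1, ha2⟩ := key
  -- orthogonality to all of `S`
  have horth : ∀ s ∈ S, ∑ y, uv r k s y * (a y : ℚ) = 0 := by
    intro s hs
    have hmem : uv r k s ∈ Submodule.span ℚ b := by
      rw [hb2]
      exact Submodule.subset_span ⟨s, hs, rfl⟩
    refine Submodule.span_induction (p := fun v _ => ∑ y, v y * (a y : ℚ) = 0) ?_ ?_ ?_ ?_ hmem
    · intro v hv
      have h1 := ha1 ⟨v, hv⟩
      have h2 := he2 ⟨v, hv⟩
      have h3 : ((∑ y, iv r k (e ⟨v, hv⟩) y * a y : ℤ) : ℚ) = 0 := by rw [h1]; simp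
      push_cast at h3
      simp only [iv_eq] at h3
      rw [h2] at h3
      have hd : ((e ⟨v, hv⟩).1.den : ℚ) ^ k ≠ 0 := by
        apply pow_ne_zero
        exact_mod_cast (e ⟨v, hv⟩).1.den_ne_zero
      have h4 : ((e ⟨v, hv⟩).1.den : ℚ) ^ k * ∑ y, v y * (a y : ℚ) = 0 := by
        rw [← h3, Finset.mul_sum]
        exact Finset.sum_congr rfl fun y _ => by ring
      exact (mul_eq_zero.1 h4).resolve_left hd
    · simp
    · intro x y _ _ hx hy
      simp only [Pi.add_apply, add_mul, Finset.sum_add_distrib, hx, hy, add_zero]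
    · intro c x _ hx
      simp only [Pi.smul_apply, smul_eq_mul, mul_assoc, ← Finset.mul_sum, hx, mul_zero]
  have hcoef : ∀ (l : Fin r) (i : Fin (k + 1)),
      (∑ i' : Fin (k + 1), C (a (i', l)) * X ^ (i' : ℕ)).coeff (i : ℕ) = a (i, l) := by
    intro l i
    rw [finsetSum_coeff, Finset.sum_eq_single i]
    · simp
    · intro i' _ hne
      rw [coeff_C_mul, coeff_X_pow, if_neg, mul_zero]
      intro h0
      exact hne (Fin.ext h0.symm)
    · intro h0
      exact absurd (Finset.mem_univ i) h0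
  have hdeg : ∀ l : Fin r, (∑ i : Fin (k + 1), C (a (i, l)) * X ^ (i : ℕ)).natDegree ≤ k := by
    intro l
    refine natDegree_sum_le_of_forall_le _ _ fun i _ => ?_
    refine (natDegree_C_mul_X_pow_le _ _).trans ?_
    have := i.2
    omega
  refine ⟨fun l => ∑ i : Fin (k + 1), C (a (i, l)) * X ^ (i : ℕ), ?_, hdeg, ?_, ?_⟩
  · intro h0
    apply ha0
    funext y
    obtain ⟨i, l⟩ := y
    have h1 := congrFun h0 l
    simp only [Pi.zero_apply] at h1
    rw [Pi.zero_apply, ← hcoef l i, h1, coeff_zero]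
  · intro l i
    rcases Nat.lt_or_ge k i with hi | hi
    · have : (∑ i : Fin (k + 1), C (a (i, l)) * X ^ (i : ℕ)).coeff i = 0 :=
        coeff_eq_zero_of_natDegree_lt (lt_of_le_of_lt (hdeg l) hi)
      rw [this]
      simp only [Int.cast_zero, abs_zero]
      positivity
    · have := hcoef l ⟨i, by omega⟩
      simp only at this
      rw [this]
      exact ha2 _
  · intro s hs
    have h1 := horth s hs
    rw [Fintype.sum_prod_type, Finset.sum_comm] at h1
    rw [← h1]
    refine Finset.sum_congr rfl fun l _ => ?_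
    rw [map_sum, Finset.sum_mul]
    refine Finset.sum_congr rfl fun i _ => ?_
    simp only [map_mul, map_pow, aeval_X, uv, eq_intCast, map_intCast]
    ring

end Pool.Agent.TH818.AP
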