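import Pool.Agent.TH818.AP.Defs
import Pool.Agent.TH818.AR.Det

/-!
# AP-DET2: upper bound for the determinant, approximate relations
-/

set_option autoImplicit false

open Finset

namespace Pool.Agent.TH818.AP

open Pool.Agent.TH818.AR

namespace Det2Aux

variable {r k : ℕ}

theorem prod_beta (l0 : Fin r) (ρ η H B : ℝ) :
    ∏ y : Fin (k + 1) × Fin r, (if y.2 = l0 then ρ * H * B * η ^ (k + 1) else η ^ (y.1 : ℕ) * H) =
      H ^ ((k + 1) * r) * (ρ * B) ^ (k + 1) * η ^ ex r k := by
  have hr : 1 ≤ r := l0.pos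
  rw [Fintype.prod_prod_type]
  have h1 : ∀ i : Fin (k + 1), ∏ l : Fin r, (if l = l0 then ρ * H * B * η ^ (k + 1)
      else η ^ (i : ℕ) * H) = (ρ * H * B * η ^ (k + 1)) * (η ^ (i : ℕ) * H) ^ (r - 1) := by
    intro i
    rw [← Finset.mul_prod_erase univ _ (Finset.mem_univ l0)]
    congr 1
    · rw [if_pos rfl]
    · rw [Finset.prod_congr rfl fun l hl => if_neg (Finset.ne_of_mem_erase hl),
        Finset.prod_const, Finset.card_erase_of_mem (Finset.mem_univ _), Finset.card_univ,
        Fintype.card_fin]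
  simp only [h1]
  rw [Finset.prod_mul_distrib, Finset.prod_const, Finset.card_univ, Fintype.card_fin,
    Finset.prod_pow, Finset.prod_mul_distrib, Finset.prod_const, Finset.card_univ,
    Fintype.card_fin, Finset.prod_pow_eq_pow_sum]
  have h2 : ∑ i : Fin (k + 1), (i : ℕ) = k * (k + 1) / 2 := by
    rw [← Finset.sum_range (f := fun i => i), Finset.sum_range_id, Nat.add_sub_cancel, mul_comm]
  rw [h2]
  unfold ex
  obtain ⟨q, rfl⟩ : ∃ q, r = q + 1 := ⟨r - 1, by omega⟩
  simp only [Nat.add_sub_cancel]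
  generalize k * (k + 1) / 2 = m
  ring

end Det2Aux

theorem det2 : T_det2 := by
  intro r k l0 t0 η H B t c F τ hη hη1 hH hB ht hc hF hT
  have hdet : (Matrix.of fun x y : Fin (k + 1) × Fin r => if y.2 = l0 then
      (t x - t0) ^ (y.1 : ℕ) * ∑ l, c x l * ∑ j ∈ range (k - (y.1 : ℕ) + 1), τ l j * (t x - t0) ^ j
        else (t x - t0) ^ (y.1 : ℕ) * c x y.2).det =
      (Matrix.of fun x y : Fin (k + 1) × Fin r => t x ^ (y.1 : ℕ) * c x y.2).det *
        τ l0 0 ^ (k + 1) := by
    rw [← DetAux.mul_P l0 τ (fun x => t x - t0) c, Matrix.det_mul, DetAux.det_P,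
      ← DetAux.mul_A t0 t c, Matrix.det_mul, DetAux.det_A, mul_one]
  rw [← abs_pow, ← abs_mul, ← hdet]
  refine (DetAux.abs_det_le _ (fun y => if y.2 = l0 then ((r : ℝ) + 1) * H * B * η ^ (k + 1)
    else η ^ (y.1 : ℕ) * H) ?_).trans (le_of_eq ?_)
  · rintro x ⟨i, l⟩
    simp only [Matrix.of_apply]
    have hi : (i : ℕ) ≤ k := Nat.lt_succ_iff.1 i.isLt
    have hu : |(t x - t0) ^ (i : ℕ)| ≤ η ^ (i : ℕ) := by
      rw [abs_pow]
      exact pow_le_pow_left₀ (abs_nonneg _) (ht x) _
    split_ifs with hl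
    · have h1 : ∑ l, c x l * ∑ j ∈ range (k - (i : ℕ) + 1), τ l j * (t x - t0) ^ j =
          ∑ l, c x l * (∑ j ∈ range (k - (i : ℕ) + 1), τ l j * (t x - t0) ^ j - F x l) +
            ∑ l, c x l * F x l := by
        simp only [mul_sub, Finset.sum_sub_distrib]
        ring
      have h2 : |∑ l, c x l * (∑ j ∈ range (k - (i : ℕ) + 1), τ l j * (t x - t0) ^ j - F x l)| ≤
          r * (H * (B * η ^ (k - (i : ℕ) + 1))) := by
        calc |∑ l, c x l * (∑ j ∈ range (k - (i : ℕ) + 1), τ l j * (t x - t0) ^ j - F x l)|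
            ≤ ∑ l : Fin r,
                |c x l * (∑ j ∈ range (k - (i : ℕ) + 1), τ l j * (t x - t0) ^ j - F x l)| :=
              Finset.abs_sum_le_sum_abs _ _
          _ ≤ ∑ _l : Fin r, H * (B * η ^ (k - (i : ℕ) + 1)) := by
              refine Finset.sum_le_sum fun l _ => ?_
              rw [abs_mul]
              refine mul_le_mul (hc x l) ?_ (abs_nonneg _) hH
              rw [abs_sub_comm]
              exact hT x l (k - (i : ℕ)) (Nat.sub_le _ _)
          _ = r * (H * (B * η ^ (k - (i : ℕ) + 1))) := by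
              rw [Finset.sum_const, Finset.card_univ, Fintype.card_fin, nsmul_eq_mul]
      have h3 : |∑ l, c x l * (∑ j ∈ range (k - (i : ℕ) + 1), τ l j * (t x - t0) ^ j - F x l) +
          ∑ l, c x l * F x l| ≤ r * (H * (B * η ^ (k - (i : ℕ) + 1))) + H * B * η ^ (k + 1) :=
        (abs_add_le _ _).trans (add_le_add h2 (hF x))
      have h4 : η ^ (i : ℕ) ≤ 1 := pow_le_one₀ hη hη1
      rw [h1, abs_mul]
      calc |(t x - t0) ^ (i : ℕ)| * _ ≤ η ^ (i : ℕ) *
            (r * (H * (B * η ^ (k - (i : ℕ) + 1))) + H * B * η ^ (k + 1)) :=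
            mul_le_mul hu h3 (abs_nonneg _) (by positivity)
        _ = r * H * B * η ^ (k + 1) + η ^ (i : ℕ) * (H * B * η ^ (k + 1)) := by
            have e : η ^ (k + 1) = η ^ (i : ℕ) * η ^ (k - (i : ℕ) + 1) := by
              rw [← pow_add]
              congr 1
              omega
            rw [e]
            ring
        _ ≤ r * H * B * η ^ (k + 1) + 1 * (H * B * η ^ (k + 1)) :=
            add_le_add le_rfl (mul_le_mul_of_nonneg_right h4 (by positivity))
        _ = ((r : ℝ) + 1) * H * B * η ^ (k + 1) := by ring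
    · rw [abs_mul]
      exact mul_le_mul hu (hc x l) (abs_nonneg _) (by positivity)
  · rw [Det2Aux.prod_beta]
    rw [Fintype.card_prod, Fintype.card_fin, Fintype.card_fin]
    ring

end Pool.Agent.TH818.AP
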