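import Pool.Agent.TH818.AP.Defs2
import Pool.Agent.TH818.AR.Ind

/-!
# Algebraic independence of `K(t)`, `E(t)`, `K(1-t)` over functions analytic near `[0,1]`
-/

set_option autoImplicit false

open Set Polynomial Filter Topology

namespace Pool.Agent.TH818.AP.Ind3rL

open Pool.Agent.TH818.AR Pool.Agent.TH818.AR.IndL

/-- the identity theorem on an interval around zero -/
lemma identI {a b : ℝ} (ha : a < 0) (hb : 0 < b) {f : ℝ → ℝ} (hf : AnalyticOnNhd ℝ f (Ioo a b))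
    (h : ∀ᶠ s in 𝓝 (0 : ℝ), f s = 0) : ∀ s ∈ Ioo a b, f s = 0 := by
  intro s hs
  exact hf.eqOn_zero_of_preconnected_of_eventuallyEq_zero isPreconnected_Ioo
    (show (0 : ℝ) ∈ Ioo a b from ⟨ha, hb⟩) h hs

/-- reflection -/
lemma an_refl {ε : ℝ} {f : ℝ → ℝ} (hf : AnalyticOnNhd ℝ f (Ioo (-ε) (1 + ε))) {s : ℝ}
    (h0 : -ε < s) (h1 : s < 1 + ε) : AnalyticAt ℝ (fun s => f (1 - s)) s := by
  have h2 : AnalyticAt ℝ (fun s : ℝ => 1 - s) s := analyticAt_const.fun_sub analyticAt_id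
  exact (hf (1 - s) ⟨by linarith, by linarith⟩).fun_comp h2

variable {ε : ℝ}

/-- first step: the relation between `K(s)` and `K(s) - E(s)` -/
lemma step1 (hε : 0 < ε) (h1 : T_an) (h3 : T_pos) (h4 : T_leg) (h5 : T_sing) (h6 : T_tr) (n : ℕ)
    (q : ℕ → ℕ → ℝ → ℝ) (hq : ∀ d i, AnalyticOnNhd ℝ (q d i) (Ioo (-ε) (1 + ε)))
    (h : ∀ t : ℝ, 0 < t → t < 1 → ∑ d ∈ Finset.range (n + 1), ∑ i ∈ Finset.range (d + 1),
      q d i t * KK t ^ i * EE t ^ (d - i) = 0) :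
    ∀ᶠ s in 𝓝 (0 : ℝ), ∑ i ∈ Finset.range (n + 1),
      q n i (1 - s) * (KK s ^ i * (KK s - EE s) ^ (n - i)) = 0 := by
  obtain ⟨W, κ, G, hW, hκ, hG, hnear⟩ := sing_leg h3 h4 h5
  have hK : AnalyticAt ℝ KK 0 := h1.1 0 (by simp)
  have hE : AnalyticAt ℝ EE 0 := h1.2 0 (by simp)
  have hK0 : KK 0 ≠ 0 := (h3.1 0 (by norm_num)).ne'
  have hWK : AnalyticAt ℝ (fun s => W / KK s) 0 := analyticAt_const.fun_div hK hK0
  have hKE : AnalyticAt ℝ (fun s => KK s - EE s) 0 := hK.fun_sub hE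
  have hq' : ∀ d i, AnalyticAt ℝ (fun s => q d i (1 - s)) 0 := fun d i =>
    an_refl (hq d i) (by linarith) (by linarith)
  have key := tr' h6 hκ hG
    (P := fun s => ∑ d ∈ Finset.range (n + 1), ∑ i ∈ Finset.range (d + 1),
      Φ (q d i (1 - s)) (KK s) (W / KK s) (KK s - EE s) d i)
    (AnP.sum _ (fun d => AnP.sum _ (fun i => Φ_an (hq' d i) hK hWK hKE d i))) n
    (fun s => natDegree_sum_le_of_forall_le _ _ (fun d hd =>
      natDegree_sum_le_of_forall_le _ _ (fun i hi =>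
        (Φ_deg _ _ _ _ (Nat.lt_succ_iff.1 (Finset.mem_range.1 hi))).trans
          (Nat.lt_succ_iff.1 (Finset.mem_range.1 hd)))))
    (by
      filter_upwards [hnear] with s hs
      obtain ⟨⟨hs0, hs1⟩, hsK, hsE⟩ := hs
      have h7 := h (1 - s) (by linarith) (by linarith)
      rw [hsK, hsE] at h7
      rw [← h7, eval_finsetSum]
      refine Finset.sum_congr rfl (fun d _ => ?_)
      rw [eval_finsetSum]
      refine Finset.sum_congr rfl (fun i _ => ?_)
      rw [Φ_eval, mul_assoc])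
  filter_upwards [key] with s hs
  have h8 := congrArg (fun P : ℝ[X] => P.coeff n) hs
  simp only [coeff_zero, finsetSum_coeff] at h8
  rw [Finset.sum_eq_single n] at h8
  · rw [← h8]
    refine Finset.sum_congr rfl (fun i hi => ?_)
    rw [Φ_coeff _ _ _ _ (Nat.lt_succ_iff.1 (Finset.mem_range.1 hi))]
  · intro d hd hdn
    refine Finset.sum_eq_zero (fun i hi => ?_)
    apply coeff_eq_zero_of_natDegree_lt
    refine lt_of_le_of_lt (Φ_deg _ _ _ _ (Nat.lt_succ_iff.1 (Finset.mem_range.1 hi))) ?_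
    have := Finset.mem_range.1 hd
    omega
  · intro h9
    exact absurd (Finset.mem_range.2 (Nat.lt_succ_self n)) h9

lemma an_f (hε : 0 < ε) (h1 : T_an) (n : ℕ) (q : ℕ → ℝ → ℝ)
    (hq : ∀ i, AnalyticOnNhd ℝ (q i) (Ioo (-ε) (1 + ε))) :
    AnalyticOnNhd ℝ (fun s => ∑ i ∈ Finset.range (n + 1),
      q i (1 - s) * (KK s ^ i * (KK s - EE s) ^ (n - i))) (Ioo (-ε) 1) := by
  intro s hs
  refine Finset.analyticAt_fun_sum _ (fun i _ => ?_)
  have hs1 : s ∈ Iio (1 : ℝ) := hs.2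
  exact (an_refl (hq i) hs.1 (by linarith [hs.2])).fun_mul
    (((h1.1 s hs1).fun_pow i).fun_mul (((h1.1 s hs1).fun_sub (h1.2 s hs1)).fun_pow (n - i)))

/-- the coefficients of top degree vanish -/
lemma top (hε : 0 < ε) (h1 : T_an) (h3 : T_pos) (h4 : T_leg) (h5 : T_sing) (h6 : T_tr) (n : ℕ)
    (q : ℕ → ℕ → ℝ → ℝ) (hq : ∀ d i, AnalyticOnNhd ℝ (q d i) (Ioo (-ε) (1 + ε)))
    (h : ∀ t : ℝ, 0 < t → t < 1 → ∑ d ∈ Finset.range (n + 1), ∑ i ∈ Finset.range (d + 1),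
      q d i t * KK t ^ i * EE t ^ (d - i) = 0) :
    ∀ i ≤ n, ∀ t ∈ Ioo (-ε) (1 + ε), q n i t = 0 := by
  have hf := identI (by linarith) one_pos (an_f hε h1 n (q n) (hq n))
    (step1 hε h1 h3 h4 h5 h6 n q hq h)
  obtain ⟨W, κ, G, hW, hκ, hG, hnear⟩ := sing_leg h3 h4 h5
  have hK : AnalyticAt ℝ KK 0 := h1.1 0 (by simp)
  have hE : AnalyticAt ℝ EE 0 := h1.2 0 (by simp)
  have hK0 : KK 0 ≠ 0 := (h3.1 0 (by norm_num)).ne'
  have hWK : AnalyticAt ℝ (fun s => -(W / KK s)) 0 := (analyticAt_const.fun_div hK hK0).fun_neg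
  have hq' : ∀ i, AnalyticAt ℝ (fun s => q n i s) 0 := fun i =>
    hq n i 0 ⟨by linarith, by linarith⟩
  have key := tr' h6 hκ hG
    (P := fun s => ∑ i ∈ Finset.range (n + 1),
      Φ (q n i s) (KK s) (-(W / KK s)) (EE s) n i)
    (AnP.sum _ (fun i => Φ_an (hq' i) hK hWK hE n i)) n
    (fun s => natDegree_sum_le_of_forall_le _ _ (fun i hi =>
        (Φ_deg _ _ _ _ (Nat.lt_succ_iff.1 (Finset.mem_range.1 hi)))))
    (by
      filter_upwards [hnear] with s hs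
      obtain ⟨⟨hs0, hs1⟩, hsK, hsE⟩ := hs
      have h7 := hf (1 - s) ⟨by linarith, by linarith⟩
      rw [hsK, hsE] at h7
      rw [← h7, eval_finsetSum]
      refine Finset.sum_congr rfl (fun i _ => ?_)
      rw [Φ_eval, sub_sub_cancel]
      congr 3
      ring)
  have h8 : ∀ᶠ s in 𝓝 (0 : ℝ), ∀ i ≤ n, q n i s = 0 := by
    filter_upwards [key, lt_one] with s hs hs1
    have hKs : 0 < KK s := h3.1 s hs1
    refine lin_indep (K := KK s) (E := EE s) (c := W / KK s) (a := fun i => q n i s)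
      hKs.ne' (div_pos hW hKs).ne' (fun Z => ?_)
    have h9 := congrArg (fun P : ℝ[X] => P.eval Z) hs
    simp only [eval_finsetSum, eval_zero, Φ_eval] at h9
    rw [← h9]
    refine Finset.sum_congr rfl (fun i _ => ?_)
    rw [show EE s * Z - W / KK s = -(W / KK s) + EE s * Z by ring]
  intro i hi
  exact identI (by linarith) (by linarith) (hq n i) (h8.mono (fun s hs => hs i hi))

/-- independence of `K(t)` and `E(t)` -/
lemma ind2r (hε : 0 < ε) (h1 : T_an) (h3 : T_pos) (h4 : T_leg) (h5 : T_sing) (h6 : T_tr) :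
    ∀ (n : ℕ) (q : ℕ → ℕ → ℝ → ℝ), (∀ d i, AnalyticOnNhd ℝ (q d i) (Ioo (-ε) (1 + ε))) →
    (∀ t : ℝ, 0 < t → t < 1 → ∑ d ∈ Finset.range (n + 1), ∑ i ∈ Finset.range (d + 1),
      q d i t * KK t ^ i * EE t ^ (d - i) = 0) →
    ∀ d ≤ n, ∀ i ≤ d, ∀ t ∈ Ioo (-ε) (1 + ε), q d i t = 0 := by
  intro n
  induction n with
  | zero =>
    intro q hq h d hd i hi
    obtain rfl : d = 0 := Nat.le_zero.1 hd
    exact top hε h1 h3 h4 h5 h6 0 q hq h i hi
  | succ n ih =>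
    intro q hq h d hd i hi
    have htop := top hε h1 h3 h4 h5 h6 (n + 1) q hq h
    rcases Nat.lt_or_ge n d with hnd | hnd
    · obtain rfl : d = n + 1 := le_antisymm hd hnd
      exact htop i hi
    · refine ih q hq (fun t ht0 ht1 => ?_) d hnd i hi
      have h7 := h t ht0 ht1
      rw [Finset.sum_range_succ, Finset.sum_eq_zero (s := Finset.range (n + 1 + 1)), add_zero] at h7
      · exact h7
      · intro j hj
        rw [htop j (Nat.lt_succ_iff.1 (Finset.mem_range.1 hj)) t ⟨by linarith, by linarith⟩]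
        simp

end Pool.Agent.TH818.AP.Ind3rL

namespace Pool.Agent.TH818.AP

open Pool.Agent.TH818.AR Pool.Agent.TH818.AR.IndL Ind3rL

theorem ind3r_of (h1 : T_an) (h2 : T_pos) (h3 : T_leg) (h4 : T_sing) (h5 : T_tr) : T_ind3r := by
  intro ε hε m n p hp h j hj
  obtain ⟨W, κ, G, hW, hκ, hG, hnear⟩ := sing_leg h2 h3 h4
  have hK : AnalyticAt ℝ KK 0 := h1.1 0 (by simp)
  have han : ∀ j, AnalyticOnNhd ℝ (fun t => ∑ d ∈ Finset.range (n + 1), ∑ i ∈ Finset.range (d + 1),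
      p j d i t * KK t ^ i * EE t ^ (d - i)) (Ioo (-ε) 1) := by
    intro j t ht
    have ht1 : t ∈ Iio (1 : ℝ) := ht.2
    refine Finset.analyticAt_fun_sum _ (fun d _ => Finset.analyticAt_fun_sum _ (fun i _ => ?_))
    exact ((hp j d i t ⟨ht.1, by linarith [ht.2]⟩).fun_mul ((h1.1 t ht1).fun_pow i)).fun_mul
      ((h1.2 t ht1).fun_pow (d - i))
  have key := h5 m (fun j t => (∑ d ∈ Finset.range (n + 1), ∑ i ∈ Finset.range (d + 1),
      p j d i t * KK t ^ i * EE t ^ (d - i)) * KK t ^ j) κ G hκ hG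
    (fun j => (han j 0 ⟨by linarith, one_pos⟩).fun_mul (hK.fun_pow j))
    (by
      filter_upwards [hnear] with s hs
      obtain ⟨⟨hs0, hs1⟩, hsK, hsE⟩ := hs
      have h7 := h s hs0 hs1
      rw [hsK] at h7
      rw [← h7]
      refine Finset.sum_congr rfl (fun j _ => ?_)
      rw [mul_assoc, ← mul_pow, Finset.sum_mul]
      refine Finset.sum_congr rfl (fun d _ => ?_)
      rw [Finset.sum_mul])
    j hj
  have h8 : ∀ᶠ t in 𝓝 (0 : ℝ), (∑ d ∈ Finset.range (n + 1), ∑ i ∈ Finset.range (d + 1),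
      p j d i t * KK t ^ i * EE t ^ (d - i)) = 0 := by
    filter_upwards [key, lt_one] with t ht ht1
    exact (mul_eq_zero.1 ht).resolve_right (pow_ne_zero _ (h2.1 t ht1).ne')
  have h9 := identI (by linarith) one_pos (han j) h8
  exact ind2r hε h1 h2 h3 h4 h5 n (p j) (hp j) (fun t ht0 ht1 => h9 t ⟨by linarith, ht1⟩)

end Pool.Agent.TH818.AP
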