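import Pool.Agent.TH818.AP.Defs

/-!
# A measure of transcendence of `iπ`: irreducible polynomials
-/

set_option autoImplicit false

open Polynomial

namespace Pool.Agent.TH818.AP

namespace IrrX

theorem eval_le {B : ℤ[X]} {n : ℕ} {h : ℝ} (hn : B.natDegree ≤ n)
    (hB : ∀ i, |(B.coeff i : ℝ)| ≤ h) (z : ℂ) :
    ‖aeval z B‖ ≤ ((n + 1) * h) * max 1 ‖z‖ ^ n := by
  rw [aeval_eq_sum_range' (Nat.lt_succ_of_le hn)]
  refine (norm_sum_le _ _).trans ?_
  have h0 : 0 ≤ h := (abs_nonneg _).trans (hB 0)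
  have key : ∀ i ∈ Finset.range (n + 1), ‖B.coeff i • z ^ i‖ ≤ h * max 1 ‖z‖ ^ n := by
    intro i hi
    rw [zsmul_eq_mul, norm_mul, norm_pow, Complex.norm_intCast]
    have h1 : ‖z‖ ^ i ≤ max 1 ‖z‖ ^ n := by
      calc ‖z‖ ^ i ≤ (max 1 ‖z‖) ^ i := pow_le_pow_left₀ (norm_nonneg _) (le_max_right _ _) i
        _ ≤ _ := pow_le_pow_right₀ (le_max_left _ _)
          (Nat.lt_succ_iff.mp (Finset.mem_range.mp hi))
    exact mul_le_mul (hB i) h1 (by positivity) h0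
  calc ∑ i ∈ Finset.range (n + 1), ‖B.coeff i • z ^ i‖
      ≤ ∑ _i ∈ Finset.range (n + 1), h * max 1 ‖z‖ ^ n := Finset.sum_le_sum key
    _ = _ := by rw [Finset.sum_const, Finset.card_range, nsmul_eq_mul]; push_cast; ring

theorem pow_sub_le (z w : ℂ) (hz : ‖z‖ ≤ 5) (hw : ‖w‖ ≤ 5) (i : ℕ) :
    ‖z ^ i - w ^ i‖ ≤ i * 5 ^ i * ‖z - w‖ := by
  induction i with
  | zero => simp
  | succ i ih =>
    have e : z ^ (i + 1) - w ^ (i + 1) = z * (z ^ i - w ^ i) + (z - w) * w ^ i := by ring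
    rw [e]
    refine (norm_add_le _ _).trans ?_
    rw [norm_mul, norm_mul, norm_pow]
    have h1 : ‖z‖ * ‖z ^ i - w ^ i‖ ≤ 5 * (i * 5 ^ i * ‖z - w‖) :=
      mul_le_mul hz ih (norm_nonneg _) (by norm_num)
    have h2 : ‖z - w‖ * ‖w‖ ^ i ≤ ‖z - w‖ * 5 ^ i :=
      mul_le_mul_of_nonneg_left (pow_le_pow_left₀ (norm_nonneg _) hw i) (norm_nonneg _)
    have h3 : (0 : ℝ) ≤ ‖z - w‖ * 5 ^ i := by positivity
    push_cast
    rw [pow_succ]
    nlinarith

theorem diff_le {B : ℤ[X]} {n : ℕ} {h : ℝ} (hn : B.natDegree ≤ n)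
    (hB : ∀ i, |(B.coeff i : ℝ)| ≤ h) (z w : ℂ) (hz : ‖z‖ ≤ 5) (hw : ‖w‖ ≤ 5) :
    ‖aeval z B - aeval w B‖ ≤ (n + 1) ^ 2 * h * 5 ^ n * ‖z - w‖ := by
  rw [aeval_eq_sum_range' (Nat.lt_succ_of_le hn), aeval_eq_sum_range' (Nat.lt_succ_of_le hn),
    ← Finset.sum_sub_distrib]
  refine (norm_sum_le _ _).trans ?_
  have h0 : 0 ≤ h := (abs_nonneg _).trans (hB 0)
  have key : ∀ i ∈ Finset.range (n + 1), ‖B.coeff i • z ^ i - B.coeff i • w ^ i‖ ≤
      (n + 1) * h * 5 ^ n * ‖z - w‖ := by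
    intro i hi
    have hi' : i ≤ n := Nat.lt_succ_iff.mp (Finset.mem_range.mp hi)
    rw [← smul_sub, zsmul_eq_mul, norm_mul, Complex.norm_intCast]
    have h1 := pow_sub_le z w hz hw i
    have h2 : (i : ℝ) * 5 ^ i * ‖z - w‖ ≤ (n + 1) * 5 ^ n * ‖z - w‖ := by
      have h3 : (i : ℝ) ≤ n + 1 := by
        have : (i : ℝ) ≤ n := by exact_mod_cast hi'
        linarith
      have h4 : (5 : ℝ) ^ i ≤ 5 ^ n := pow_le_pow_right₀ (by norm_num) hi'
      refine mul_le_mul_of_nonneg_right ?_ (norm_nonneg _)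
      exact mul_le_mul h3 h4 (by positivity) (by positivity)
    calc |(B.coeff i : ℝ)| * ‖z ^ i - w ^ i‖ ≤ h * ((n + 1) * 5 ^ n * ‖z - w‖) :=
          mul_le_mul (hB i) (h1.trans h2) (norm_nonneg _) h0
      _ = _ := by ring
  calc ∑ i ∈ Finset.range (n + 1), ‖B.coeff i • z ^ i - B.coeff i • w ^ i‖
      ≤ ∑ _i ∈ Finset.range (n + 1), (n + 1) * h * 5 ^ n * ‖z - w‖ := Finset.sum_le_sum key
    _ = _ := by rw [Finset.sum_const, Finset.card_range, nsmul_eq_mul]; push_cast; ring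

/-- an integer polynomial which does not vanish at a root of an irreducible `P` does not vanish at
any other root -/
theorem nonvan {P B : ℤ[X]} (hP : Irreducible P) (hd : P.natDegree ≠ 0) {ξ ξ' : ℂ}
    (h : aeval ξ P = 0) (h' : aeval ξ' P = 0) (hB : aeval ξ B ≠ 0) : aeval ξ' B ≠ 0 := by
  have hprim := hP.isPrimitive hd
  have hQ : Irreducible (P.map (algebraMap ℤ ℚ)) :=
    (hprim.irreducible_iff_irreducible_map_fraction_map).mp hP
  have e : ∀ (F : ℤ[X]) (z : ℂ), aeval z (F.map (algebraMap ℤ ℚ)) = aeval z F :=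
    fun F z => aeval_map_algebraMap ℚ z F
  intro h0
  by_cases hdv : P.map (algebraMap ℤ ℚ) ∣ B.map (algebraMap ℤ ℚ)
  · obtain ⟨R, hR⟩ := hdv
    apply hB
    rw [← e B ξ, hR, map_mul, e, h, zero_mul]
  · rw [← hQ.coprime_iff_not_dvd] at hdv
    obtain ⟨a, b, hab⟩ := hdv
    have h1 := congrArg (aeval ξ') hab
    rw [map_add, map_mul, map_mul, e, e, h', h0, mul_zero, mul_zero, add_zero, map_one] at h1
    exact zero_ne_one h1

theorem prod_ge (S : Multiset ℂ) (g : ℂ → ℝ) (δ : ℝ) (hδ : 0 ≤ δ) (h : ∀ z ∈ S, δ ≤ g z) :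
    δ ^ Multiset.card S ≤ (S.map g).prod := by
  induction S using Multiset.induction_on with
  | empty => simp
  | cons a S ih =>
    rw [Multiset.card_cons, Multiset.map_cons, Multiset.prod_cons, pow_succ, mul_comm]
    refine mul_le_mul (h a (Multiset.mem_cons_self a S))
      (ih fun z hz => h z (Multiset.mem_cons_of_mem hz)) (pow_nonneg hδ _) ?_
    exact hδ.trans (h a (Multiset.mem_cons_self a S))

theorem prod_nn (S : Multiset ℂ) (g : ℂ → ℝ) (h : ∀ z, 0 ≤ g z) : 0 ≤ (S.map g).prod := by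
  induction S using Multiset.induction_on with
  | empty => simp
  | cons a S ih =>
    rw [Multiset.map_cons, Multiset.prod_cons]
    exact mul_nonneg (h a) ih

theorem prod_le (S : Multiset ℂ) (g M : ℂ → ℝ) (K : ℝ) (n : ℕ) (hK : 0 ≤ K) (hg : ∀ z, 0 ≤ g z)
    (hM : ∀ z, 0 ≤ M z) (h : ∀ z, g z ≤ K * M z ^ n) :
    (S.map g).prod ≤ K ^ Multiset.card S * (S.map M).prod ^ n := by
  induction S using Multiset.induction_on with
  | empty => simp
  | cons a S ih =>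
    rw [Multiset.card_cons, Multiset.map_cons, Multiset.prod_cons, Multiset.map_cons,
      Multiset.prod_cons]
    calc g a * (S.map g).prod ≤ (K * M a ^ n) * (K ^ Multiset.card S * (S.map M).prod ^ n) :=
          mul_le_mul (h a) ih (prod_nn S g hg) (mul_nonneg hK (pow_nonneg (hM a) _))
      _ = _ := by ring

theorem norm_prod (S : Multiset ℂ) (g : ℂ → ℂ) :
    ‖(S.map g).prod‖ = (S.map fun z => ‖g z‖).prod := by
  induction S using Multiset.induction_on with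
  | empty => simp
  | cons a S ih =>
    rw [Multiset.map_cons, Multiset.prod_cons, Multiset.map_cons, Multiset.prod_cons, norm_mul, ih]

theorem inj_cast : Function.Injective (algebraMap ℤ ℂ) := by
  intro a b h
  have h1 : ((a : ℤ) : ℂ) = ((b : ℤ) : ℂ) := h
  exact_mod_cast h1

theorem aeval_eq (F : ℤ[X]) (z : ℂ) : (F.map (algebraMap ℤ ℂ)).eval z = aeval z F := by
  rw [aeval_def, eval₂_eq_eval_map]

theorem mahler_le {d : ℕ} {H : ℝ} {P : ℤ[X]} (hPd : P.natDegree ≤ d)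
    (hPH : ∀ i, |(P.coeff i : ℝ)| ≤ H) :
    (P.map (algebraMap ℤ ℂ)).mahlerMeasure ≤ (d + 1) * H := by
  refine (mahlerMeasure_le_sum_norm_coeff _).trans ?_
  rw [sum_over_range' _ (fun n => norm_zero) (d + 1)
    (lt_of_le_of_lt natDegree_map_le (Nat.lt_succ_of_le hPd))]
  have key : ∀ i ∈ Finset.range (d + 1), ‖(P.map (algebraMap ℤ ℂ)).coeff i‖ ≤ H := by
    intro i _
    rw [coeff_map]
    have : ‖(algebraMap ℤ ℂ) (P.coeff i)‖ = |(P.coeff i : ℝ)| := Complex.norm_intCast _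
    rw [this]
    exact hPH i
  refine (Finset.sum_le_sum key).trans (le_of_eq ?_)
  rw [Finset.sum_const, Finset.card_range, nsmul_eq_mul]
  push_cast
  ring

/-- the main inequality -/
theorem key {d n : ℕ} {h H : ℝ} (hh : 1 ≤ h) {P B : ℤ[X]} (hP : Irreducible P)
    (hd : P.natDegree ≠ 0) (hPd : P.natDegree ≤ d) (hPH : ∀ i, |(P.coeff i : ℝ)| ≤ H)
    (hBn : B.natDegree ≤ n) (hBh : ∀ i, |(B.coeff i : ℝ)| ≤ h) {ξ : ℂ} (hξ : aeval ξ P = 0)
    (hBξ : aeval ξ B ≠ 0) :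
    1 ≤ ((d + 1) * H) ^ n * ((n + 1) * h) ^ (d - 1) * ‖aeval ξ B‖ := by
  set Pc := P.map (algebraMap ℤ ℂ) with hPc
  set Bc := B.map (algebraMap ℤ ℂ) with hBc
  have hP0 : P ≠ 0 := hP.ne_zero
  have hPc0 : Pc ≠ 0 := (Polynomial.map_ne_zero_iff inj_cast).mpr hP0
  have hsp : Pc.Splits := IsAlgClosed.splits Pc
  have hdeg : Pc.natDegree = P.natDegree := natDegree_map_eq_of_injective inj_cast P
  have hres := resultant_eq_prod_eval Pc Bc n (natDegree_map_le.trans hBn) hsp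
  rw [hdeg, hPc, hBc, resultant_map_map, ← hPc, ← hBc] at hres
  have hroot : ∀ z ∈ Pc.roots, aeval z P = 0 := by
    intro z hz
    rw [mem_roots hPc0, IsRoot.def, hPc, aeval_eq] at hz
    exact hz
  have hne : Pc.leadingCoeff ^ n * (Pc.roots.map Bc.eval).prod ≠ 0 := by
    refine mul_ne_zero (pow_ne_zero _ (leadingCoeff_ne_zero.mpr hPc0)) ?_
    apply Multiset.prod_ne_zero
    intro h0
    obtain ⟨z, hz, hz0⟩ := Multiset.mem_map.mp h0
    rw [hBc, aeval_eq] at hz0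
    exact nonvan hP hd hξ (hroot z hz) hBξ hz0
  have hone : 1 ≤ ‖Pc.leadingCoeff ^ n * (Pc.roots.map Bc.eval).prod‖ := by
    rw [← hres] at hne ⊢
    have h1 : ‖(algebraMap ℤ ℂ) (P.resultant B P.natDegree n)‖ =
      |((P.resultant B P.natDegree n : ℤ) : ℝ)| := Complex.norm_intCast _
    have h2 : P.resultant B P.natDegree n ≠ 0 := by
      intro h0
      rw [h0, map_zero] at hne
      exact hne rfl
    rw [h1]
    exact_mod_cast Int.one_le_abs h2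
  set M : ℂ → ℝ := fun z => max 1 ‖z‖ with hM
  set g : ℂ → ℝ := fun z => ‖Bc.eval z‖ with hg
  have hM1 : ∀ z, 1 ≤ M z := fun z => le_max_left _ _
  have hM0 : ∀ z, 0 ≤ M z := fun z => zero_le_one.trans (hM1 z)
  have hg0 : ∀ z, 0 ≤ g z := fun z => norm_nonneg _
  have hξr : ξ ∈ Pc.roots := by
    rw [mem_roots hPc0, IsRoot.def, hPc, aeval_eq]
    exact hξ
  set S := Pc.roots.erase ξ with hS
  have hcons : ξ ::ₘ S = Pc.roots := Multiset.cons_erase hξr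
  have hcard : Multiset.card S + 1 = P.natDegree := by
    rw [← hdeg, hsp.natDegree_eq_card_roots, ← hcons, Multiset.card_cons]
  set K : ℝ := (n + 1) * h with hK
  have hK1 : 1 ≤ K := by
    rw [hK]
    have : (0 : ℝ) ≤ n := Nat.cast_nonneg _
    nlinarith
  have hgle : ∀ z, g z ≤ K * M z ^ n := by
    intro z
    simp only [hg, hBc, aeval_eq]
    exact eval_le hBn hBh z
  have hprodM : (Pc.roots.map M).prod = M ξ * (S.map M).prod := by
    rw [← hcons, Multiset.map_cons, Multiset.prod_cons]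
  have hprodg : (Pc.roots.map g).prod = g ξ * (S.map g).prod := by
    rw [← hcons, Multiset.map_cons, Multiset.prod_cons]
  have hMle : (S.map M).prod ≤ (Pc.roots.map M).prod := by
    rw [hprodM]
    exact le_mul_of_one_le_left (prod_nn S M hM0) (hM1 ξ)
  have hmah : ‖Pc.leadingCoeff‖ * (Pc.roots.map M).prod ≤ (d + 1) * H := by
    have := mahlerMeasure_eq_leadingCoeff_mul_prod_roots Pc
    rw [← this]
    exact mahler_le hPd hPH
  rw [norm_mul, norm_pow, norm_prod] at hone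
  have hgξ : g ξ = ‖aeval ξ B‖ := by simp only [hg, hBc, aeval_eq]
  have hlc0 : 0 ≤ ‖Pc.leadingCoeff‖ := norm_nonneg _
  calc (1 : ℝ) ≤ ‖Pc.leadingCoeff‖ ^ n * (Pc.roots.map g).prod := hone
    _ = ‖Pc.leadingCoeff‖ ^ n * (g ξ * (S.map g).prod) := by rw [hprodg]
    _ ≤ ‖Pc.leadingCoeff‖ ^ n * (g ξ * (K ^ Multiset.card S * (S.map M).prod ^ n)) := by
        refine mul_le_mul_of_nonneg_left ?_ (pow_nonneg hlc0 _)
        exact mul_le_mul_of_nonneg_left (prod_le S g M K n (zero_le_one.trans hK1) hg0 hM0 hgle)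
          (hg0 ξ)
    _ ≤ ‖Pc.leadingCoeff‖ ^ n * (g ξ * (K ^ (d - 1) * (Pc.roots.map M).prod ^ n)) := by
        refine mul_le_mul_of_nonneg_left ?_ (pow_nonneg hlc0 _)
        refine mul_le_mul_of_nonneg_left ?_ (hg0 ξ)
        refine mul_le_mul (pow_le_pow_right₀ hK1 (by omega))
          (pow_le_pow_left₀ (prod_nn S M hM0) hMle n) (pow_nonneg (prod_nn S M hM0) _)
          (pow_nonneg (zero_le_one.trans hK1) _)
    _ = (‖Pc.leadingCoeff‖ * (Pc.roots.map M).prod) ^ n * K ^ (d - 1) * g ξ := by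
        rw [mul_pow]; ring
    _ ≤ ((d + 1) * H) ^ n * K ^ (d - 1) * g ξ := by
        refine mul_le_mul_of_nonneg_right ?_ (hg0 ξ)
        refine mul_le_mul_of_nonneg_right ?_ (pow_nonneg (zero_le_one.trans hK1) _)
        exact pow_le_pow_left₀ (mul_nonneg hlc0 (prod_nn _ M hM0)) hmah n
    _ = _ := by rw [hgξ]

/-- the root closest to `θ` -/
theorem exists_root {P : ℤ[X]} {d : ℕ} (hd : P.natDegree ≠ 0) (hPd : P.natDegree ≤ d) (θ : ℂ)
    (hε : ‖aeval θ P‖ < 1) :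
    ∃ ξ : ℂ, aeval ξ P = 0 ∧ ‖ξ - θ‖ ≤ 1 ∧ ‖ξ - θ‖ ^ d ≤ ‖aeval θ P‖ := by
  set Pc := P.map (algebraMap ℤ ℂ) with hPc
  have hP0 : P ≠ 0 := by
    intro h
    rw [h, natDegree_zero] at hd
    exact hd rfl
  have hPc0 : Pc ≠ 0 := (Polynomial.map_ne_zero_iff inj_cast).mpr hP0
  have hsp : Pc.Splits := IsAlgClosed.splits Pc
  have hdeg : Pc.natDegree = P.natDegree := natDegree_map_eq_of_injective inj_cast P
  have hcard : Multiset.card Pc.roots = P.natDegree := by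
    rw [← hdeg, hsp.natDegree_eq_card_roots]
  have hne : Pc.roots.toFinset.Nonempty := by
    rw [Multiset.toFinset_nonempty]
    intro h0
    rw [h0, Multiset.card_zero] at hcard
    exact hd hcard.symm
  obtain ⟨ξ, hξ, hmin⟩ := Finset.exists_min_image _ (fun z => ‖z - θ‖) hne
  rw [Multiset.mem_toFinset] at hξ
  have hroot : aeval ξ P = 0 := by
    rw [mem_roots hPc0, IsRoot.def, hPc, aeval_eq] at hξ
    exact hξ
  have hlc : 1 ≤ ‖Pc.leadingCoeff‖ := by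
    have h1 : Pc.leadingCoeff = algebraMap ℤ ℂ P.leadingCoeff :=
      leadingCoeff_map_of_injective inj_cast P
    rw [h1]
    have h2 : ‖(algebraMap ℤ ℂ) P.leadingCoeff‖ = |((P.leadingCoeff : ℤ) : ℝ)| :=
      Complex.norm_intCast _
    rw [h2]
    exact_mod_cast Int.one_le_abs (leadingCoeff_ne_zero.mpr hP0)
  have hprod := prod_ge Pc.roots (fun z => ‖z - θ‖) ‖ξ - θ‖ (norm_nonneg _) (fun z hz =>
    hmin z (Multiset.mem_toFinset.mpr hz))
  have hev := hsp.eval_eq_prod_roots θ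
  rw [hPc, aeval_eq, ← hPc] at hev
  have hle : ‖ξ - θ‖ ^ P.natDegree ≤ ‖aeval θ P‖ := by
    rw [hev, norm_mul, norm_prod, ← hcard]
    have e : (Pc.roots.map fun z => ‖θ - z‖) = Pc.roots.map fun z => ‖z - θ‖ := by
      apply Multiset.map_congr rfl
      intro z _
      exact norm_sub_rev _ _
    rw [e]
    have h3 := prod_nn Pc.roots (fun z => ‖z - θ‖) (fun z => norm_nonneg _)
    nlinarith
  have hle1 : ‖ξ - θ‖ ≤ 1 := by
    by_contra hcon
    push Not at hcon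
    have : 1 ≤ ‖ξ - θ‖ ^ P.natDegree := one_le_pow₀ hcon.le
    linarith
  exact ⟨ξ, hroot, hle1, (pow_le_pow_of_le_one (norm_nonneg _) hle1 hPd).trans hle⟩

/-- the first term -/
theorem term1 {C0 A1 H N D F G : ℝ} {e m n : ℕ} (hC0 : 1 ≤ C0) (hN : 2 * C0 ^ (e + 1) ≤ N)
    (hA1 : 1 ≤ A1) (hH : 1 ≤ H) (hn : 1 ≤ n) (hm : 2 * A1 * H ≤ 2 ^ m)
    (hA : A1 = D ^ n * G ^ e * F ^ (e + 1)) :
    (D * H) ^ n * (G * (F * C0 ^ (m * n))) ^ e * (F * (C0 / N) ^ (m * n)) ≤ 1 / 2 := by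
  have hN0 : 0 < N := by
    have : 0 < C0 ^ (e + 1) := by positivity
    linarith
  have e1 : (D * H) ^ n * (G * (F * C0 ^ (m * n))) ^ e * (F * (C0 / N) ^ (m * n)) =
      A1 * H ^ n * (C0 ^ (e + 1) / N) ^ (m * n) := by
    rw [hA]
    have e2 : (C0 ^ (e + 1) / N) ^ (m * n) = (C0 ^ (m * n)) ^ e * (C0 / N) ^ (m * n) := by
      rw [pow_succ, mul_div_assoc, mul_pow]
      congr 1
      rw [← pow_mul, ← pow_mul, mul_comm]
    rw [e2]
    ring
  rw [e1]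
  have h1 : C0 ^ (e + 1) / N ≤ 1 / 2 := by
    rw [div_le_iff₀ hN0]; linarith
  have h0 : 0 ≤ C0 ^ (e + 1) / N := by positivity
  have h2 : (C0 ^ (e + 1) / N) ^ (m * n) ≤ (1 / (2 * A1 * H)) ^ n := by
    rw [pow_mul]
    refine pow_le_pow_left₀ (by positivity) ?_ n
    refine (pow_le_pow_left₀ h0 h1 m).trans ?_
    rw [div_pow, one_pow]
    exact one_div_le_one_div_of_le (by positivity) hm
  have h3 : H ^ n * (1 / (2 * A1 * H)) ^ n ≤ 1 / (2 * A1) := by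
    have e3 : H ^ n * (1 / (2 * A1 * H)) ^ n = (1 / (2 * A1)) ^ n := by
      rw [← mul_pow]
      congr 1
      field_simp
    rw [e3]
    have h4 : 1 / (2 * A1) ≤ 1 := by
      rw [div_le_one (by linarith)]; linarith
    calc (1 / (2 * A1)) ^ n ≤ (1 / (2 * A1)) ^ 1 :=
          pow_le_pow_of_le_one (by positivity) h4 hn
      _ = _ := pow_one _
  calc A1 * H ^ n * (C0 ^ (e + 1) / N) ^ (m * n) ≤ A1 * H ^ n * (1 / (2 * A1 * H)) ^ n :=
        mul_le_mul_of_nonneg_left h2 (by positivity)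
    _ = A1 * (H ^ n * (1 / (2 * A1 * H)) ^ n) := by ring
    _ ≤ A1 * (1 / (2 * A1)) := mul_le_mul_of_nonneg_left h3 (by linarith)
    _ = 1 / 2 := by field_simp

/-- the second term -/
theorem term2 {C0 A1 H D F G L δ : ℝ} {e m n q : ℕ} (hC0 : 1 ≤ C0) (hq : C0 ≤ 2 ^ q)
    (hA1 : 1 ≤ A1) (hH : 1 ≤ H) (hm : (2 : ℝ) ^ m ≤ 4 * A1 * H) (hL : 0 ≤ L) (hδ : 0 ≤ δ)
    (hA : A1 = D ^ n * G ^ e * F ^ (e + 1)) :
    (D * H) ^ n * (G * (F * C0 ^ (m * n))) ^ e * (L * (F * C0 ^ (m * n)) * δ) ≤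
      (A1 * L * (4 * A1) ^ (q * n * (e + 1))) * H ^ (n + q * n * (e + 1)) * δ := by
  have e1 : (D * H) ^ n * (G * (F * C0 ^ (m * n))) ^ e * (L * (F * C0 ^ (m * n)) * δ) =
      (A1 * L * H ^ n * δ) * (C0 ^ (m * n)) ^ (e + 1) := by
    rw [hA]; ring
  have h1 : (C0 ^ (m * n)) ^ (e + 1) ≤ (4 * A1 * H) ^ (q * n * (e + 1)) := by
    calc (C0 ^ (m * n)) ^ (e + 1) ≤ (((2 : ℝ) ^ q) ^ (m * n)) ^ (e + 1) :=
          pow_le_pow_left₀ (by positivity) (pow_le_pow_left₀ (by linarith) hq _) _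
      _ = ((2 : ℝ) ^ m) ^ (q * n * (e + 1)) := by
          rw [← pow_mul, ← pow_mul, ← pow_mul]
          congr 1
          ring
      _ ≤ _ := pow_le_pow_left₀ (by positivity) hm _
  rw [e1]
  calc (A1 * L * H ^ n * δ) * (C0 ^ (m * n)) ^ (e + 1)
      ≤ (A1 * L * H ^ n * δ) * (4 * A1 * H) ^ (q * n * (e + 1)) :=
        mul_le_mul_of_nonneg_left h1 (by positivity)
    _ = _ := by rw [mul_pow, pow_add]; ring

/-- the conclusion from the inequality for `δ` -/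
theorem concl {A3 H δ ε : ℝ} {d E : ℕ} (hA3 : 1 ≤ A3) (hH : 1 ≤ H)
    (h : 1 / 2 ≤ A3 * H ^ E * δ) (hε : δ ^ d ≤ ε) :
    ((2 * A3) ^ d)⁻¹ * (H ^ (d * E + 1))⁻¹ ≤ ε := by
  refine le_trans ?_ hε
  have hx : 0 < 2 * A3 * H ^ E := by positivity
  have h1 : (2 * A3 * H ^ E)⁻¹ ≤ δ := by
    rw [inv_le_iff_one_le_mul₀ hx]
    nlinarith
  have h2 : ((2 * A3 * H ^ E)⁻¹) ^ d ≤ δ ^ d := pow_le_pow_left₀ (by positivity) h1 d
  refine le_trans ?_ h2
  have e4 : ((2 * A3 * H ^ E)⁻¹) ^ d = ((2 * A3) ^ d * (H ^ E) ^ d)⁻¹ := by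
    rw [inv_pow, mul_pow (2 * A3) (H ^ E)]
  rw [e4, ← mul_inv]
  have h5 : (H ^ E) ^ d ≤ H ^ (d * E + 1) := by
    rw [← pow_mul, mul_comm E d]
    exact pow_le_pow_right₀ hH (Nat.le_succ _)
  have h6 : 0 ≤ (2 * A3) ^ d := by positivity
  have h7 : 0 < (2 * A3) ^ d * (H ^ E) ^ d := by positivity
  exact inv_anti₀ h7 (mul_le_mul_of_nonneg_left h5 h6)

end IrrX

open IrrX in
theorem irr_of (h : T_appr) : T_irr := by
  obtain ⟨C0, hC0, happ⟩ := h
  intro d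
  obtain ⟨n, hn⟩ := exists_nat_ge (max 1 (2 * C0 ^ d))
  have hn1 : 1 ≤ n := by exact_mod_cast (le_max_left _ _).trans hn
  have hn2 : 2 * C0 ^ d ≤ n := (le_max_right _ _).trans hn
  obtain ⟨q, hq⟩ := pow_unbounded_of_one_lt C0 (one_lt_two (α := ℝ))
  set e : ℕ := d - 1 with he
  set A1 : ℝ := ((d : ℝ) + 1) ^ n * ((n : ℝ) + 1) ^ e * (n.factorial : ℝ) ^ (e + 1) with hA1
  have hfac : (1 : ℝ) ≤ (n.factorial : ℝ) := by exact_mod_cast Nat.factorial_pos n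
  have hd0 : (0 : ℝ) ≤ d := Nat.cast_nonneg _
  have hn0 : (0 : ℝ) ≤ n := Nat.cast_nonneg _
  have hA11 : 1 ≤ A1 := by
    rw [hA1]
    refine one_le_mul_of_one_le_of_one_le (one_le_mul_of_one_le_of_one_le ?_ ?_) ?_
    · exact one_le_pow₀ (by linarith)
    · exact one_le_pow₀ (by linarith)
    · exact one_le_pow₀ hfac
  set L : ℝ := ((n : ℝ) + 1) ^ 2 * 5 ^ n with hL
  have hL1 : 1 ≤ L := by
    rw [hL]
    exact one_le_mul_of_one_le_of_one_le (one_le_pow₀ (by linarith)) (one_le_pow₀ (by norm_num))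
  set A3 : ℝ := A1 * L * (4 * A1) ^ (q * n * (e + 1)) with hA3
  have hA31 : 1 ≤ A3 := by
    rw [hA3]
    exact one_le_mul_of_one_le_of_one_le (one_le_mul_of_one_le_of_one_le hA11 hL1)
      (one_le_pow₀ (by linarith))
  refine ⟨((d * (n + q * n * (e + 1)) + 1 : ℕ) : ℝ), ((2 * A3) ^ d)⁻¹, by positivity,
    by positivity, ?_⟩
  intro H P hH hP hPd hPH
  rw [Real.rpow_neg (by linarith), Real.rpow_natCast]
  set θ : ℂ := (Real.pi : ℂ) * Complex.I with hθ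
  by_cases hε : 1 ≤ ‖aeval θ P‖
  · refine le_trans ?_ hε
    refine mul_le_one₀ ?_ (by positivity) ?_
    · exact inv_le_one_of_one_le₀ (one_le_pow₀ (by linarith))
    · exact inv_le_one_of_one_le₀ (one_le_pow₀ hH)
  push Not at hε
  by_cases hdeg : P.natDegree = 0
  · exfalso
    rw [eq_C_of_natDegree_eq_zero hdeg, aeval_C] at hε
    have h2 : ‖(algebraMap ℤ ℂ) (P.coeff 0)‖ = |((P.coeff 0 : ℤ) : ℝ)| := Complex.norm_intCast _
    rw [h2] at hε
    have h3 : P.coeff 0 ≠ 0 := by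
      intro h4
      apply hP.ne_zero
      rw [eq_C_of_natDegree_eq_zero hdeg, h4, C_0]
    have h5 : (1 : ℝ) ≤ |((P.coeff 0 : ℤ) : ℝ)| := by exact_mod_cast Int.one_le_abs h3
    linarith
  have hd1 : 1 ≤ d := by omega
  have hde : e + 1 = d := by omega
  obtain ⟨ξ, hξ, hξ1, hξd⟩ := exists_root hdeg hPd θ hε
  have hx1 : 1 ≤ 2 * A1 * H := by nlinarith
  obtain ⟨m0, hm1, hm2⟩ := exists_nat_pow_near hx1 (one_lt_two (α := ℝ))
  obtain ⟨B, hB1, hB2, hB3, hB4⟩ := happ (m0 + 1) n (by omega) hn1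
  have hθn : ‖θ‖ = Real.pi := by
    rw [hθ, norm_mul, Complex.norm_I, mul_one, Complex.norm_real, Real.norm_eq_abs,
      abs_of_pos Real.pi_pos]
  have hξ0 : ξ ≠ 0 := by
    intro h0
    rw [h0, zero_sub, norm_neg, hθn] at hξ1
    linarith [Real.pi_gt_three]
  obtain ⟨j, hj⟩ := hB4 ξ hξ0
  set hh : ℝ := (n.factorial : ℝ) * C0 ^ ((m0 + 1) * n) with hhh
  have hh1 : 1 ≤ hh := one_le_mul_of_one_le_of_one_le hfac (one_le_pow₀ hC0)
  have hkey := key hh1 hP hdeg hPd hPH (hB1 j) (hB2 j) hξ hj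
  have hθ5 : ‖θ‖ ≤ 5 := by rw [hθn]; linarith [Real.pi_lt_four]
  have hξ5 : ‖ξ‖ ≤ 5 := by
    have h1 : ‖ξ‖ ≤ ‖ξ - θ‖ + ‖θ‖ := by
      have := norm_add_le (ξ - θ) θ
      rwa [sub_add_cancel] at this
    rw [hθn] at h1
    linarith [Real.pi_lt_four]
  have hval : ‖aeval ξ (B j)‖ ≤ (n.factorial : ℝ) * (C0 / n) ^ ((m0 + 1) * n) +
      L * hh * ‖ξ - θ‖ := by
    have h1 := norm_add_le (aeval θ (B j)) (aeval ξ (B j) - aeval θ (B j))
    rw [add_sub_cancel] at h1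
    have h2 := diff_le (hB1 j) (hB2 j) ξ θ hξ5 hθ5
    have h3 := hB3 j
    have h4 : ((n : ℝ) + 1) ^ 2 * hh * 5 ^ n * ‖ξ - θ‖ = L * hh * ‖ξ - θ‖ := by
      rw [hL]; ring
    rw [h4] at h2
    linarith
  set X : ℝ := (((d : ℝ) + 1) * H) ^ n * (((n : ℝ) + 1) * hh) ^ e with hX
  have hX0 : 0 ≤ X := by positivity
  have hδ0 : 0 ≤ ‖ξ - θ‖ := norm_nonneg _
  have hone : 1 ≤ X * ((n.factorial : ℝ) * (C0 / n) ^ ((m0 + 1) * n)) +
      X * (L * hh * ‖ξ - θ‖) := by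
    rw [← mul_add]
    exact hkey.trans (mul_le_mul_of_nonneg_left hval hX0)
  have ht1 : X * ((n.factorial : ℝ) * (C0 / n) ^ ((m0 + 1) * n)) ≤ 1 / 2 := by
    rw [hX, hhh]
    exact term1 (e := e) hC0 (by rw [hde]; exact hn2) hA11 hH hn1 hm2.le hA1
  have ht2 : X * (L * hh * ‖ξ - θ‖) ≤ A3 * H ^ (n + q * n * (e + 1)) * ‖ξ - θ‖ := by
    rw [hX, hhh, hA3]
    refine term2 (e := e) hC0 hq.le hA11 hH ?_ (by positivity) hδ0 hA1
    rw [pow_succ]
    linarith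
  exact concl hA31 hH (by linarith) hξd

end Pool.Agent.TH818.AP
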