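import Pool.Agent.TH818.AP.Defs2

/-!
# Algebraic independence of elliptic integrals for nested intervals
-/

set_option autoImplicit false

open Set Polynomial Filter Topology

namespace Pool.Agent.TH818.AP.NestL

open Pool.Agent.TH818.AR

/-- the identity theorem on an interval -/
lemma ident {f : ℝ → ℝ} {x y u v : ℝ} (hf : AnalyticOnNhd ℝ f (Ioo x y)) (huv : u < v)
    (hxu : x ≤ u) (hvy : v ≤ y) (h : ∀ t ∈ Ioo u v, f t = 0) : ∀ t ∈ Ioo x y, f t = 0 := by
  have h1 : u < (u + v) / 2 := by linarith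
  have h2 : (u + v) / 2 < v := by linarith
  intro t ht
  refine hf.eqOn_zero_of_preconnected_of_eventuallyEq_zero isPreconnected_Ioo
    (show (u + v) / 2 ∈ Ioo x y from ⟨by linarith, by linarith⟩) ?_ ht
  filter_upwards [Ioo_mem_nhds h1 h2] with s hs
  exact h s hs

lemma KC_an (h1 : T_an) {α γ : ℝ} (i : Fin 3) {t : ℝ} (ht : t ∈ Ioo α γ) :
    AnalyticAt ℝ (KC α γ i) t := by
  have hαγ : 0 < γ - α := by linarith [ht.1, ht.2]
  have e1 : AnalyticAt ℝ (fun t : ℝ => (t - α) / (γ - α)) t :=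
    (analyticAt_id.fun_sub analyticAt_const).fun_div analyticAt_const hαγ.ne'
  have e2 : AnalyticAt ℝ (fun t : ℝ => (γ - t) / (γ - α)) t :=
    (analyticAt_const.fun_sub analyticAt_id).fun_div analyticAt_const hαγ.ne'
  have l1 : (t - α) / (γ - α) < 1 := by rw [div_lt_one hαγ]; linarith [ht.2]
  have l2 : (γ - t) / (γ - α) < 1 := by rw [div_lt_one hαγ]; linarith [ht.1]
  by_cases h0 : i = 0
  · have e : KC α γ i = fun t => KK ((t - α) / (γ - α)) := by
      funext t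
      unfold KC
      rw [if_pos h0]
    rw [e]
    exact AnalyticAt.fun_comp (g := KK) (f := fun t : ℝ => (t - α) / (γ - α)) (h1.1 _ l1) e1
  · by_cases h2 : i = 1
    · have e : KC α γ i = fun t => EE ((t - α) / (γ - α)) := by
        funext t
        unfold KC
        rw [if_neg h0, if_pos h2]
      rw [e]
      exact AnalyticAt.fun_comp (g := EE) (f := fun t : ℝ => (t - α) / (γ - α)) (h1.2 _ l1) e1
    · have e : KC α γ i = fun t => KK ((γ - t) / (γ - α)) := by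
        funext t
        unfold KC
        rw [if_neg h0, if_neg h2]
      rw [e]
      exact AnalyticAt.fun_comp (g := KK) (f := fun t : ℝ => (γ - t) / (γ - α)) (h1.1 _ l2) e2

lemma mon_an (h1 : T_an) {n d : ℕ} {α γ : Fin n → ℝ} (e : Fin n → Fin 3 → Fin (d + 1)) {t : ℝ}
    (ht : ∀ j, t ∈ Ioo (α j) (γ j)) : AnalyticAt ℝ (mon α γ e) t := by
  unfold mon
  exact Finset.analyticAt_fun_prod _ (fun j _ => Finset.analyticAt_fun_prod _ (fun i _ =>
    (KC_an h1 i (ht j)).fun_pow _))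

/-- the substitution of the three functions -/
lemma mon_cons {n d : ℕ} (α γ : Fin (n + 1) → ℝ) (e0 : Fin 3 → Fin (d + 1))
    (e' : Fin n → Fin 3 → Fin (d + 1)) (t : ℝ) :
    mon α γ (Fin.cons e0 e' : Fin (n + 1) → Fin 3 → Fin (d + 1)) t =
      (∏ i, KC (α 0) (γ 0) i t ^ (e0 i : ℕ)) *
        mon (fun j => α j.succ) (fun j => γ j.succ) e' t := by
  unfold mon
  rw [Fin.prod_univ_succ]
  simp only [Fin.cons_zero, Fin.cons_succ]

/-- the sum over the exponents -/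
lemma sum_exp {d : ℕ} (c : (Fin 3 → Fin (d + 1)) → ℝ) (A B C : ℝ) :
    ∑ j ∈ Finset.range (d + 1), ∑ D ∈ Finset.range (2 * d + 1), ∑ i ∈ Finset.range (D + 1),
      (∑ e0 : Fin 3 → Fin (d + 1),
        if ((e0 0 : ℕ) = i ∧ (e0 0 : ℕ) + (e0 1 : ℕ) = D ∧ (e0 2 : ℕ) = j) then c e0 else 0) *
        A ^ i * B ^ (D - i) * C ^ j =
      ∑ e0 : Fin 3 → Fin (d + 1), c e0 * A ^ (e0 0 : ℕ) * B ^ (e0 1 : ℕ) * C ^ (e0 2 : ℕ) := by
  have h1 : ∀ j D i : ℕ, (∑ e0 : Fin 3 → Fin (d + 1),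
        if ((e0 0 : ℕ) = i ∧ (e0 0 : ℕ) + (e0 1 : ℕ) = D ∧ (e0 2 : ℕ) = j) then c e0 else 0) *
        A ^ i * B ^ (D - i) * C ^ j = ∑ e0 : Fin 3 → Fin (d + 1),
        if ((e0 0 : ℕ) = i ∧ (e0 0 : ℕ) + (e0 1 : ℕ) = D ∧ (e0 2 : ℕ) = j) then
          c e0 * A ^ (e0 0 : ℕ) * B ^ (e0 1 : ℕ) * C ^ (e0 2 : ℕ) else 0 := by
    intro j D i
    rw [Finset.sum_mul, Finset.sum_mul, Finset.sum_mul]
    refine Finset.sum_congr rfl (fun e0 _ => ?_)
    split_ifs with h
    · obtain ⟨rfl, rfl, rfl⟩ := h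
      rw [Nat.add_sub_cancel_left]
    · simp
  simp_rw [h1]
  have h2 : ∀ j ∈ Finset.range (d + 1), ∑ D ∈ Finset.range (2 * d + 1),
      ∑ i ∈ Finset.range (D + 1), (∑ e0 : Fin 3 → Fin (d + 1),
        if ((e0 0 : ℕ) = i ∧ (e0 0 : ℕ) + (e0 1 : ℕ) = D ∧ (e0 2 : ℕ) = j) then
          c e0 * A ^ (e0 0 : ℕ) * B ^ (e0 1 : ℕ) * C ^ (e0 2 : ℕ) else 0) =
      ∑ e0 : Fin 3 → Fin (d + 1), ∑ D ∈ Finset.range (2 * d + 1), ∑ i ∈ Finset.range (D + 1),
        if ((e0 0 : ℕ) = i ∧ (e0 0 : ℕ) + (e0 1 : ℕ) = D ∧ (e0 2 : ℕ) = j) then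
          c e0 * A ^ (e0 0 : ℕ) * B ^ (e0 1 : ℕ) * C ^ (e0 2 : ℕ) else 0 := by
    intro j _
    rw [Finset.sum_comm]
    refine Finset.sum_congr rfl (fun D _ => ?_)
    rw [Finset.sum_comm]
  rw [Finset.sum_congr rfl h2, Finset.sum_comm]
  refine Finset.sum_congr rfl (fun e0 _ => ?_)
  have b0 := (e0 0).isLt
  have b1 := (e0 1).isLt
  have b2 := (e0 2).isLt
  rw [Finset.sum_eq_single (e0 2 : ℕ), Finset.sum_eq_single ((e0 0 : ℕ) + (e0 1 : ℕ)),
    Finset.sum_eq_single (e0 0 : ℕ)]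
  · rw [if_pos ⟨rfl, rfl, rfl⟩]
  · intro i _ hi
    rw [if_neg]
    rintro ⟨h, -, -⟩
    exact hi h.symm
  · intro h
    exact absurd (Finset.mem_range.2 (by omega)) h
  · intro D _ hD
    refine Finset.sum_eq_zero (fun i _ => ?_)
    rw [if_neg]
    rintro ⟨-, h, -⟩
    exact hD h.symm
  · intro h
    exact absurd (Finset.mem_range.2 (by omega)) h
  · intro j _ hj
    refine Finset.sum_eq_zero (fun D _ => Finset.sum_eq_zero (fun i _ => ?_))
    rw [if_neg]
    rintro ⟨-, -, h⟩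
    exact hj h.symm
  · intro h
    exact absurd (Finset.mem_range.2 b2) h

/-- the coefficient is recovered -/
lemma single_exp {d : ℕ} (c : (Fin 3 → Fin (d + 1)) → ℝ) (e : Fin 3 → Fin (d + 1)) :
    (∑ e0 : Fin 3 → Fin (d + 1), if ((e0 0 : ℕ) = (e 0 : ℕ) ∧
      (e0 0 : ℕ) + (e0 1 : ℕ) = (e 0 : ℕ) + (e 1 : ℕ) ∧ (e0 2 : ℕ) = (e 2 : ℕ)) then c e0 else 0) =
      c e := by
  rw [Finset.sum_eq_single e]
  · rw [if_pos ⟨rfl, rfl, rfl⟩]
  · intro e0 _ he
    rw [if_neg]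
    rintro ⟨h0, h1, h2⟩
    apply he
    funext i
    fin_cases i
    · exact Fin.ext h0
    · exact Fin.ext (show (e0 1 : ℕ) = (e 1 : ℕ) by omega)
    · exact Fin.ext h2
  · intro h
    exact absurd (Finset.mem_univ e) h

/-- the independence of the three functions over the functions analytic near `[α, γ]` -/
lemma one_curve (h2 : T_ind3r) {d : ℕ} {α γ x y : ℝ} (hαγ : α < γ) (hx : x < α) (hy : γ < y)
    (c : (Fin 3 → Fin (d + 1)) → ℝ → ℝ) (hc : ∀ e, AnalyticOnNhd ℝ (c e) (Ioo x y))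
    (h : ∀ t ∈ Ioo α γ, ∑ e, c e t * ∏ i, KC α γ i t ^ (e i : ℕ) = 0) :
    ∀ e, ∀ t ∈ Ioo α γ, c e t = 0 := by
  set L : ℝ := γ - α with hL
  have hL0 : 0 < L := by rw [hL]; linarith
  set ε : ℝ := min (α - x) (y - γ) / L with hε
  have hm0 : 0 < min (α - x) (y - γ) := lt_min (by linarith) (by linarith)
  have hε0 : 0 < ε := div_pos hm0 hL0
  have hεL : ε * L = min (α - x) (y - γ) := by rw [hε]; field_simp
  have hεx : ε * L ≤ α - x := hεL ▸ min_le_left _ _
  have hεy : ε * L ≤ y - γ := hεL ▸ min_le_right _ _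
  have hmem : ∀ s ∈ Ioo (-ε) (1 + ε), α + s * L ∈ Ioo x y := by
    intro s hs
    have e1 : -ε * L < s * L := mul_lt_mul_of_pos_right hs.1 hL0
    have e2 : s * L < (1 + ε) * L := mul_lt_mul_of_pos_right hs.2 hL0
    exact ⟨by linarith, by linarith⟩
  have key := h2 ε hε0 d (2 * d) (fun j D i s => ∑ e0 : Fin 3 → Fin (d + 1),
    if ((e0 0 : ℕ) = i ∧ (e0 0 : ℕ) + (e0 1 : ℕ) = D ∧ (e0 2 : ℕ) = j) then c e0 (α + s * L) else 0)
    (by
      intro j D i s hs
      refine Finset.analyticAt_fun_sum _ (fun e0 _ => ?_)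
      split_ifs
      · exact AnalyticAt.fun_comp (g := c e0) (f := fun s : ℝ => α + s * L) (hc e0 _ (hmem s hs))
          (analyticAt_const.fun_add (analyticAt_id.fun_mul analyticAt_const))
      · exact analyticAt_const)
    (by
      intro s hs0 hs1
      rw [sum_exp]
      have e1 : 0 < s * L := mul_pos hs0 hL0
      have e2 : s * L < 1 * L := mul_lt_mul_of_pos_right hs1 hL0
      rw [← h (α + s * L) ⟨by linarith, by linarith⟩]
      refine Finset.sum_congr rfl (fun e0 _ => ?_)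
      have a0 : (α + s * L - α) / (γ - α) = s := by
        rw [← hL]
        field_simp
        ring
      have a1 : (γ - (α + s * L)) / (γ - α) = 1 - s := by
        rw [← hL, show γ = α + L by rw [hL]; ring]
        field_simp
        ring
      rw [Fin.prod_univ_three]
      have k0 : KC α γ 0 (α + s * L) = KK s := by
        unfold KC
        rw [if_pos rfl, a0]
      have k1 : KC α γ 1 (α + s * L) = EE s := by
        unfold KC
        rw [if_neg (by decide), if_pos rfl, a0]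
      have k2 : KC α γ 2 (α + s * L) = KK (1 - s) := by
        unfold KC
        rw [if_neg (by decide), if_neg (by decide), a1]
      rw [k0, k1, k2]
      ring)
  intro e t ht
  have b0 := (e 0).isLt
  have b1 := (e 1).isLt
  have b2 := (e 2).isLt
  have h3 := key (e 2 : ℕ) (by omega) ((e 0 : ℕ) + (e 1 : ℕ)) (by omega) (e 0 : ℕ) (by omega)
    ((t - α) / L) ⟨lt_trans (by linarith) (div_pos (by linarith [ht.1]) hL0),
      lt_trans ((div_lt_one hL0).2 (by rw [hL]; linarith [ht.2])) (by linarith)⟩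
  have h4 : α + (t - α) / L * L = t := by field_simp; ring
  simp only [h4] at h3
  rw [single_exp (fun e0 => c e0 t) e] at h3
  exact h3

/-- the general statement -/
lemma main (h1 : T_an) (h2 : T_ind3r) (d N : ℕ) : ∀ (α γ : Fin N → ℝ) (x y u v : ℝ)
    (p : (Fin N → Fin 3 → Fin (d + 1)) → ℝ → ℝ),
    StrictAnti α → StrictMono γ → (∀ j, α j < γ j) → (∀ j, x < α j ∧ γ j < y) →
    (∀ e, AnalyticOnNhd ℝ (p e) (Ioo x y)) → u < v → x ≤ u → v ≤ y →
    (∀ j, α j ≤ u ∧ v ≤ γ j) → (∀ t ∈ Ioo u v, ∑ e, p e t * mon α γ e t = 0) →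
    ∀ e, ∀ t ∈ Ioo x y, p e t = 0 := by
  induction N with
  | zero =>
    intro α γ x y u v p _ _ _ _ hp huv hxu hvy _ h e
    refine ident (hp e) huv hxu hvy (fun t ht => ?_)
    have h3 := h t ht
    rw [Fintype.sum_subsingleton _ e] at h3
    unfold mon at h3
    rwa [Fin.prod_univ_zero, mul_one] at h3
  | succ N ih =>
    intro α γ x y u v p hα hγ hαγ hxy hp huv hxu hvy huj h
    -- the smaller interval
    obtain ⟨x', y', hx1, hx2, hy1, hy2, hα', hγ'⟩ : ∃ x' y' : ℝ, x ≤ x' ∧ x' < α 0 ∧ y' ≤ y ∧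
        γ 0 < y' ∧ (∀ j : Fin N, α j.succ ≤ x') ∧ (∀ j : Fin N, y' ≤ γ j.succ) := by
      rcases N with _ | M
      · exact ⟨x, y, le_rfl, (hxy 0).1, le_rfl, (hxy 0).2, fun j => j.elim0, fun j => j.elim0⟩
      · refine ⟨α 1, γ 1, (hxy 1).1.le, hα (by simp), (hxy 1).2.le, hγ (by simp), fun j => ?_,
          fun j => ?_⟩
        · exact hα.antitone (Fin.succ_le_succ_iff.2 (Fin.zero_le j))
        · exact hγ.monotone (Fin.succ_le_succ_iff.2 (Fin.zero_le j))
    have hsub : Ioo x' y' ⊆ Ioo x y := Ioo_subset_Ioo hx1 hy1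
    have hsub0 : Ioo (α 0) (γ 0) ⊆ Ioo x' y' := Ioo_subset_Ioo hx2.le hy2.le
    have hin : ∀ t ∈ Ioo x' y', ∀ j : Fin N, t ∈ Ioo (α j.succ) (γ j.succ) := fun t ht j =>
      ⟨(hα' j).trans_lt ht.1, ht.2.trans_le (hγ' j)⟩
    set c : (Fin 3 → Fin (d + 1)) → ℝ → ℝ := fun e0 t => ∑ e' : Fin N → Fin 3 → Fin (d + 1),
      p (Fin.cons e0 e' : Fin (N + 1) → Fin 3 → Fin (d + 1)) t *
        mon (fun j => α j.succ) (fun j => γ j.succ) e' t with hc
    have hcan : ∀ e0, AnalyticOnNhd ℝ (c e0) (Ioo x' y') := by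
      intro e0 t ht
      exact Finset.analyticAt_fun_sum _ (fun e' _ =>
        (hp _ t (hsub ht)).fun_mul (mon_an h1 e' (fun j => hin t ht j)))
    have hsplit : ∀ t, ∑ e, p e t * mon α γ e t =
        ∑ e0, c e0 t * ∏ i, KC (α 0) (γ 0) i t ^ (e0 i : ℕ) := by
      intro t
      rw [← (Fin.consEquiv (fun _ : Fin (N + 1) => Fin 3 → Fin (d + 1))).sum_comp,
        Fintype.sum_prod_type]
      refine Finset.sum_congr rfl (fun e0 _ => ?_)
      rw [hc]
      simp only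
      rw [Finset.sum_mul]
      refine Finset.sum_congr rfl (fun e' _ => ?_)
      have e1 : (Fin.consEquiv (fun _ : Fin (N + 1) => Fin 3 → Fin (d + 1))) (e0, e') =
          (Fin.cons e0 e' : Fin (N + 1) → Fin 3 → Fin (d + 1)) := rfl
      rw [e1, mon_cons]
      ring
    have han0 : AnalyticOnNhd ℝ (fun t => ∑ e0, c e0 t * ∏ i, KC (α 0) (γ 0) i t ^ (e0 i : ℕ))
        (Ioo (α 0) (γ 0)) := by
      intro t ht
      exact Finset.analyticAt_fun_sum _ (fun e0 _ => (hcan e0 t (hsub0 ht)).fun_mul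
        (Finset.analyticAt_fun_prod _ (fun i _ => (KC_an h1 i ht).fun_pow _)))
    have hF := ident han0 huv (huj 0).1 (huj 0).2 (fun t ht => by
      rw [← hsplit]
      exact h t ht)
    have hc0 := one_curve h2 (hαγ 0) hx2 hy2 c hcan hF
    intro e t ht
    have h5 := ih (fun j => α j.succ) (fun j => γ j.succ) x y (α 0) (γ 0)
      (fun e' => p (Fin.cons (e 0) e' : Fin (N + 1) → Fin 3 → Fin (d + 1)))
      (fun i j hij => hα (Fin.succ_lt_succ_iff.2 hij))
      (fun i j hij => hγ (Fin.succ_lt_succ_iff.2 hij)) (fun j => hαγ _) (fun j => hxy _)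
      (fun e' => hp _) (hαγ 0) (hxy 0).1.le (hxy 0).2.le
      (fun j => ⟨(hα (Fin.succ_pos j)).le, (hγ (Fin.succ_pos j)).le⟩)
      (fun t ht => hc0 (e 0) t ht) (fun j => e j.succ) t ht
    have e1 : (Fin.cons (e 0) (fun j => e j.succ) : Fin (N + 1) → Fin 3 → Fin (d + 1)) = e :=
      Fin.cons_self_tail e
    simp only [e1] at h5
    exact h5

end Pool.Agent.TH818.AP.NestL

namespace Pool.Agent.TH818.AP

open Pool.Agent.TH818.AR NestL

theorem nest_of (h1 : T_an) (h2 : T_ind3r) : T_nest := by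
  intro n d α γ hα hγ h0 a b ha hab hb p h
  have hlastα : ∀ j, α (Fin.last n) ≤ α j := fun j => hα.antitone (Fin.le_last j)
  have hlastγ : ∀ j, γ j ≤ γ (Fin.last n) := fun j => hγ.monotone (Fin.le_last j)
  have hα0 : ∀ j, α j ≤ α 0 := fun j => hα.antitone (Fin.zero_le j)
  have hγ0 : ∀ j, γ 0 ≤ γ j := fun j => hγ.monotone (Fin.zero_le j)
  have key := main h1 h2 d (n + 1) α γ (α (Fin.last n) - 1) (γ (Fin.last n) + 1) a b
    (fun e t => (p e).eval t) hα hγ (fun j => lt_of_le_of_lt (hα0 j) (lt_of_lt_of_le h0 (hγ0 j)))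
    (fun j => ⟨by linarith [hlastα j], by linarith [hlastγ j]⟩)
    (fun e => (AnalyticOnNhd.eval_polynomial (𝕜 := ℝ) (p e)).mono (subset_univ _)) hab
    (by linarith [hlastα 0]) (by linarith [hlastγ 0])
    (fun j => ⟨by linarith [hα0 j], by linarith [hγ0 j]⟩)
    (fun t ht => h t (Ioo_subset_Icc_self ht))
  funext e
  apply Polynomial.eq_zero_of_infinite_isRoot
  refine Set.Infinite.mono (s := Ioo a b) ?_ (Set.Ioo_infinite hab)
  intro t ht
  exact key e t ⟨by linarith [hlastα 0, ht.1], by linarith [hlastγ 0, ht.2]⟩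

end Pool.Agent.TH818.AP
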