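import Pool.Agent.TH818.AP.Defs

/-!
# AP-PFB: size of the Hermite-Pade approximant (job 3742)
-/

set_option autoImplicit false

open Set Polynomial Filter Topology

namespace Pool.Agent.TH818.AP

open Pool.Agent.TH818.AR

namespace PfbAux

/-- the power series of `x^s e^(kx)` -/
theorem hs {𝕂 : Type} [RCLike 𝕂] (k s : ℕ) (x E : 𝕂)
    (h : HasSum (fun t : ℕ => ((k : 𝕂) * x) ^ t / (t.factorial : 𝕂)) E) :
    HasSum (fun t : ℕ => (s.factorial : 𝕂) * (t.choose s : 𝕂) * (k : 𝕂) ^ (t - s) * x ^ t /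
      (t.factorial : 𝕂)) (x ^ s * E) := by
  rw [← hasSum_nat_add_iff' s]
  have h0 : ∑ i ∈ Finset.range s, (s.factorial : 𝕂) * (i.choose s : 𝕂) * (k : 𝕂) ^ (i - s) * x ^ i /
      (i.factorial : 𝕂) = 0 := by
    apply Finset.sum_eq_zero
    intro i hi
    rw [Nat.choose_eq_zero_of_lt (Finset.mem_range.1 hi)]
    simp
  rw [h0, sub_zero]
  have h1 := h.mul_left (x ^ s)
  have h2 : (fun t : ℕ => (s.factorial : 𝕂) * ((t + s).choose s : 𝕂) * (k : 𝕂) ^ (t + s - s) * x ^ (t + s) /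
      ((t + s).factorial : 𝕂)) = fun t : ℕ => x ^ s * (((k : 𝕂) * x) ^ t / (t.factorial : 𝕂)) := by
    ext t
    have hf : ((t + s).choose s : 𝕂) * (t.factorial : 𝕂) * (s.factorial : 𝕂) = ((t + s).factorial : 𝕂) := by
      have := Nat.add_choose_mul_factorial_mul_factorial t s
      exact_mod_cast this
    have h3 : ((t + s).factorial : 𝕂) ≠ 0 := by exact_mod_cast Nat.factorial_ne_zero _
    have h4 : (t.factorial : 𝕂) ≠ 0 := by exact_mod_cast Nat.factorial_ne_zero _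
    rw [Nat.add_sub_cancel, div_eq_iff h3, ← hf, mul_pow, pow_add]
    field_simp
  rw [h2]
  exact h1

/-- the geometric series `1 / (1 - k Y)` -/
noncomputable def f (k : ℕ) : PowerSeries ℝ := PowerSeries.rescale (k : ℝ) (PowerSeries.mk 1)

theorem coeff_f (k i : ℕ) : PowerSeries.coeff i (f k) = (k : ℝ) ^ i := by
  rw [f, PowerSeries.coeff_rescale, PowerSeries.coeff_mk]
  simp

theorem coeff_f_pow (k s t : ℕ) :
    PowerSeries.coeff t (f k ^ (s + 1)) = (k : ℝ) ^ t * ((s + t).choose s : ℝ) := by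
  rw [f, ← map_pow, PowerSeries.mk_one_pow_eq_mk_choose_add, PowerSeries.coeff_rescale,
    PowerSeries.coeff_mk]

theorem f_mul (k : ℕ) : f k * (1 - PowerSeries.C (k : ℝ) * PowerSeries.X) = 1 := by
  have h := congrArg (PowerSeries.rescale (k : ℝ)) (PowerSeries.mk_one_mul_one_sub_eq_one ℝ)
  rw [map_mul, map_sub, map_one, PowerSeries.rescale_X] at h
  exact h

/-- coefficientwise domination -/
def Dom (p q : PowerSeries ℝ) : Prop := ∀ i, 0 ≤ PowerSeries.coeff i p ∧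
  PowerSeries.coeff i p ≤ PowerSeries.coeff i q

theorem Dom.one : Dom 1 1 := by
  intro i
  refine ⟨?_, le_rfl⟩
  rw [PowerSeries.coeff_one]
  split_ifs <;> norm_num

theorem Dom.mul {p q p' q' : PowerSeries ℝ} (h : Dom p q) (h' : Dom p' q') : Dom (p * p') (q * q') := by
  intro i
  rw [PowerSeries.coeff_mul, PowerSeries.coeff_mul]
  refine ⟨Finset.sum_nonneg fun x _ => mul_nonneg (h _).1 (h' _).1, Finset.sum_le_sum fun x _ =>
    mul_le_mul (h _).2 (h' _).2 (h' _).1 ((h _).1.trans (h _).2)⟩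

theorem Dom.pow {p q : PowerSeries ℝ} (h : Dom p q) (n : ℕ) : Dom (p ^ n) (q ^ n) := by
  induction n with
  | zero => rw [pow_zero, pow_zero]; exact Dom.one
  | succ n ih => rw [pow_succ, pow_succ]; exact ih.mul h

theorem Dom.prod {ι : Type} (s : Finset ι) (p q : ι → PowerSeries ℝ) (h : ∀ i ∈ s, Dom (p i) (q i)) :
    Dom (∏ i ∈ s, p i) (∏ i ∈ s, q i) := by
  classical
  induction s using Finset.induction_on with
  | empty => rw [Finset.prod_empty, Finset.prod_empty]; exact Dom.one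
  | insert a s ha ih =>
    rw [Finset.prod_insert ha, Finset.prod_insert ha]
    exact (h a (Finset.mem_insert_self a s)).mul (ih fun i hi => h i (Finset.mem_insert_of_mem hi))

theorem dom_f {l m : ℕ} (h : l ≤ m) : Dom (f l) (f m) := by
  intro i
  rw [coeff_f, coeff_f]
  refine ⟨by positivity, ?_⟩
  have : (l : ℝ) ≤ m := by exact_mod_cast h
  exact pow_le_pow_left₀ (Nat.cast_nonneg l) this i

theorem sum_mu {m : ℕ} (n : ℕ) (j : Fin (m + 1)) : ∑ k : Fin (m + 1), mu n j k = (m + 1) * n + 1 := by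
  simp [mu, Finset.sum_add_distrib]

/-- the homogeneous form of the partial fractions, at a point -/
theorem hom_eval {m n D : ℕ} {j : Fin (m + 1)} {a : Fin (m + 1) → ℕ → ℤ} (h : PF n j D a)
    (y : ℝ) (hy : y ≠ 0) :
    ∑ k : Fin (m + 1), ∑ s ∈ Finset.range (mu n j k),
      ((s.factorial : ℝ) * (a k s : ℝ)) * y ^ s * (1 - ((k : ℕ) : ℝ) * y) ^ (mu n j k - 1 - s) *
        ∏ l ∈ Finset.univ.erase k, (1 - ((l : ℕ) : ℝ) * y) ^ (mu n j l) = (D : ℝ) * y ^ ((m + 1) * n) := by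
  have h1 := congrArg (fun P : ℤ[X] => aeval (1 / y : ℝ) P) h
  simp only [map_sum, map_mul, map_prod, map_pow, map_sub, aeval_X, aeval_C] at h1
  simp only [algebraMap_int_eq, eq_intCast, Int.cast_natCast] at h1
  rw [← h1, Finset.sum_mul]
  refine Finset.sum_congr rfl fun k _ => ?_
  rw [Finset.sum_mul]
  refine Finset.sum_congr rfl fun s hs => ?_
  rw [Finset.mem_range] at hs
  have h2 : ∀ l : ℕ, (1 / y - (l : ℝ)) * y = 1 - (l : ℝ) * y := by
    intro l
    field_simp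
  have h3 : (m + 1) * n = s + (mu n j k - 1 - s) + ∑ l ∈ Finset.univ.erase k, mu n j l := by
    have h4 := sum_mu n j
    rw [← Finset.add_sum_erase _ _ (Finset.mem_univ k)] at h4
    omega
  rw [h3, pow_add, pow_add, ← Finset.prod_pow_eq_pow_sum]
  have h5 : ∏ l ∈ Finset.univ.erase k, (1 - ((l : ℕ) : ℝ) * y) ^ (mu n j l) =
      (∏ l ∈ Finset.univ.erase k, (1 / y - ((l : ℕ) : ℝ)) ^ (mu n j l)) *
        ∏ l ∈ Finset.univ.erase k, y ^ (mu n j l) := by
    rw [← Finset.prod_mul_distrib]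
    refine Finset.prod_congr rfl fun l _ => ?_
    rw [← mul_pow, h2]
  rw [h5, ← h2 k, mul_pow]
  ring

/-- the homogeneous form of the partial fractions -/
theorem hom {m n D : ℕ} {j : Fin (m + 1)} {a : Fin (m + 1) → ℕ → ℤ} (h : PF n j D a) :
    ∑ k : Fin (m + 1), ∑ s ∈ Finset.range (mu n j k),
      C ((s.factorial : ℝ) * (a k s : ℝ)) * X ^ s * (1 - C ((k : ℕ) : ℝ) * X) ^ (mu n j k - 1 - s) *
        ∏ l ∈ Finset.univ.erase k, (1 - C ((l : ℕ) : ℝ) * X) ^ (mu n j l) =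
      (C (D : ℝ) * X ^ ((m + 1) * n) : ℝ[X]) := by
  apply Polynomial.eq_of_infinite_eval_eq
  refine Set.Infinite.mono ?_ (Set.Ioi_infinite (0 : ℝ))
  intro y hy
  rw [Set.mem_Ioi] at hy
  change eval y _ = eval y _
  simp only [eval_finsetSum, eval_mul, eval_prod, eval_pow, eval_sub, eval_X, eval_C, eval_one]
  exact hom_eval h y hy.ne'

theorem hom_ps {m n D : ℕ} {j : Fin (m + 1)} {a : Fin (m + 1) → ℕ → ℤ} (h : PF n j D a) :
    ∑ k : Fin (m + 1), ∑ s ∈ Finset.range (mu n j k),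
      PowerSeries.C ((s.factorial : ℝ) * (a k s : ℝ)) * (PowerSeries.X ^ s * f k ^ (s + 1)) =
      PowerSeries.C (D : ℝ) * (PowerSeries.X ^ ((m + 1) * n) * ∏ l : Fin (m + 1), f l ^ (mu n j l)) := by
  have h1 := congrArg (fun P : ℝ[X] => (Polynomial.coeToPowerSeries.ringHom P)) (hom h)
  simp only [map_sum, map_mul, map_prod, map_pow, map_sub, map_one] at h1
  simp only [Polynomial.coeToPowerSeries.ringHom_apply, Polynomial.coe_C, Polynomial.coe_X] at h1
  rw [← mul_assoc, ← h1, Finset.sum_mul]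
  refine Finset.sum_congr rfl fun k _ => ?_
  rw [Finset.sum_mul]
  refine Finset.sum_congr rfl fun s hs => ?_
  rw [Finset.mem_range] at hs
  rw [← Finset.mul_prod_erase _ _ (Finset.mem_univ k)]
  have h2 : mu n j k = (mu n j k - 1 - s) + (s + 1) := by omega
  have h3 : ∀ (l i : ℕ), (1 - PowerSeries.C (l : ℝ) * PowerSeries.X) ^ i * f l ^ i = 1 := by
    intro l i
    rw [← mul_pow, mul_comm, f_mul, one_pow]
  have h4 : (∏ l ∈ Finset.univ.erase k, (1 - PowerSeries.C ((l : ℕ) : ℝ) * PowerSeries.X) ^ (mu n j l)) *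
      ∏ l ∈ Finset.univ.erase k, f (l : ℕ) ^ (mu n j l) = 1 := by
    rw [← Finset.prod_mul_distrib]
    exact Finset.prod_eq_one fun l _ => h3 l _
  have h5 := h3 k (mu n j k - 1 - s)
  have h6 : f (k : ℕ) ^ (mu n j k) = f (k : ℕ) ^ (mu n j k - 1 - s) * f (k : ℕ) ^ (s + 1) := by
    rw [← pow_add, ← h2]
  rw [h6]
  calc PowerSeries.C ((s.factorial : ℝ) * (a k s : ℝ)) * (PowerSeries.X ^ s * f k ^ (s + 1))
      = PowerSeries.C ((s.factorial : ℝ) * (a k s : ℝ)) * (PowerSeries.X ^ s * f k ^ (s + 1)) * 1 * 1 := by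
        rw [mul_one, mul_one]
    _ = PowerSeries.C ((s.factorial : ℝ) * (a k s : ℝ)) * (PowerSeries.X ^ s * f k ^ (s + 1)) *
        ((1 - PowerSeries.C ((k : ℕ) : ℝ) * PowerSeries.X) ^ (mu n j k - 1 - s) *
          f (k : ℕ) ^ (mu n j k - 1 - s)) *
        ((∏ l ∈ Finset.univ.erase k, (1 - PowerSeries.C ((l : ℕ) : ℝ) * PowerSeries.X) ^ (mu n j l)) *
          ∏ l ∈ Finset.univ.erase k, f (l : ℕ) ^ (mu n j l)) := by rw [h4, h5]
    _ = _ := by
        rw [map_mul]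
        ring

/-- the derivatives of the approximant at zero -/
noncomputable def c {m : ℕ} (n : ℕ) (j : Fin (m + 1)) (a : Fin (m + 1) → ℕ → ℤ) (t : ℕ) : ℝ :=
  ∑ k : Fin (m + 1), ∑ s ∈ Finset.range (mu n j k),
    ((s.factorial : ℝ) * (a k s : ℝ)) * ((t.choose s : ℝ) * ((k : ℕ) : ℝ) ^ (t - s))

theorem c_bound {m n D : ℕ} {j : Fin (m + 1)} {a : Fin (m + 1) → ℕ → ℤ} (h : PF n j D a) (t : ℕ) :
    |c n j a t| ≤ D * ((t.choose ((m + 1) * n) : ℝ) * (m : ℝ) ^ (t - (m + 1) * n)) := by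
  have h1 := congrArg (PowerSeries.coeff t) (hom_ps h)
  have h2 : ∀ k s : ℕ, PowerSeries.coeff t (PowerSeries.X ^ s * f k ^ (s + 1)) =
      (t.choose s : ℝ) * (k : ℝ) ^ (t - s) := by
    intro k s
    rw [PowerSeries.coeff_X_pow_mul']
    split_ifs with hst
    · rw [coeff_f_pow, Nat.add_sub_cancel' hst, mul_comm]
    · rw [Nat.choose_eq_zero_of_lt (not_le.1 hst)]
      simp
  simp only [map_sum, PowerSeries.coeff_C_mul, h2] at h1
  have h3 : c n j a t = D * PowerSeries.coeff t (PowerSeries.X ^ ((m + 1) * n) *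
      ∏ l : Fin (m + 1), f l ^ (mu n j l)) := h1
  rw [h3, abs_mul, Nat.abs_cast]
  refine mul_le_mul_of_nonneg_left ?_ (Nat.cast_nonneg D)
  have h4 : Dom (∏ l : Fin (m + 1), f l ^ (mu n j l)) (f m ^ ((m + 1) * n + 1)) := by
    have h5 := Dom.prod Finset.univ (fun l : Fin (m + 1) => f l ^ (mu n j l)) (fun l => f m ^ (mu n j l))
      (fun l _ => (dom_f (Nat.lt_succ_iff.1 l.2)).pow _)
    rw [Finset.prod_pow_eq_pow_sum, sum_mu] at h5
    exact h5
  rw [← h2 m, PowerSeries.coeff_X_pow_mul', PowerSeries.coeff_X_pow_mul']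
  split_ifs with hst
  · rw [abs_of_nonneg (h4 _).1]
    exact (h4 _).2
  · rw [abs_zero]

theorem c_hasSum {m n : ℕ} (j : Fin (m + 1)) (a : Fin (m + 1) → ℕ → ℤ)
    (ha : ∀ k s, mu n j k ≤ s → a k s = 0) (z : ℂ) :
    HasSum (fun t : ℕ => ((c n j a t : ℝ) : ℂ) * z ^ t / (t.factorial : ℂ)) (RR n a z) := by
  have h1 : RR n a z = ∑ k : Fin (m + 1), ∑ s ∈ Finset.range (mu n j k),
      (a k s : ℂ) * (z ^ s * Complex.exp (((k : ℕ) : ℂ) * z)) := by
    rw [RR]
    refine Finset.sum_congr rfl fun k _ => ?_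
    rw [Finset.sum_mul]
    symm
    have h2 : Finset.range (mu n j k) ⊆ Finset.range (n + 1) := by
      apply Finset.range_mono
      rw [mu]
      split_ifs <;> omega
    rw [← Finset.sum_subset h2]
    · exact Finset.sum_congr rfl fun s _ => by ring
    · intro s _ hs
      rw [Finset.mem_range, not_lt] at hs
      rw [ha k s hs]
      simp
  rw [h1]
  have h3 : ∀ k : Fin (m + 1), ∀ s : ℕ, HasSum (fun t : ℕ => (a k s : ℂ) * ((s.factorial : ℂ) * (t.choose s : ℂ) *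
      ((k : ℕ) : ℂ) ^ (t - s) * z ^ t / (t.factorial : ℂ)))
      ((a k s : ℂ) * (z ^ s * Complex.exp (((k : ℕ) : ℂ) * z))) := by
    intro k s
    apply HasSum.mul_left
    apply hs
    have h4 := NormedSpace.expSeries_div_hasSum_exp (𝔸 := ℂ) (((k : ℕ) : ℂ) * z)
    rw [← Complex.exp_eq_exp_ℂ] at h4
    exact h4
  have h5 := hasSum_sum (s := Finset.univ) fun (k : Fin (m + 1)) _ =>
    hasSum_sum (s := Finset.range (mu n j k)) fun s _ => h3 k s
  have h6 : (fun t : ℕ => ((c n j a t : ℝ) : ℂ) * z ^ t / (t.factorial : ℂ)) =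
      fun t : ℕ => ∑ k : Fin (m + 1), ∑ s ∈ Finset.range (mu n j k),
        (a k s : ℂ) * ((s.factorial : ℂ) * (t.choose s : ℂ) *
      ((k : ℕ) : ℂ) ^ (t - s) * z ^ t / (t.factorial : ℂ)) := by
    ext t
    rw [c]
    push_cast
    rw [Finset.sum_mul, Finset.sum_div]
    refine Finset.sum_congr rfl fun k _ => ?_
    rw [Finset.sum_mul, Finset.sum_div]
    refine Finset.sum_congr rfl fun s _ => ?_
    ring
  rw [h6]
  exact h5

end PfbAux

open PfbAux in
theorem pfb : T_pfb := by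
  intro m n j D a hn h ha z
  have h1 := c_hasSum j a ha z
  have h2 : HasSum (fun t : ℕ => (((m + 1) * n).factorial : ℝ) * (t.choose ((m + 1) * n) : ℝ) *
      (m : ℝ) ^ (t - (m + 1) * n) * ‖z‖ ^ t / (t.factorial : ℝ)) (‖z‖ ^ ((m + 1) * n) * Real.exp (m * ‖z‖)) := by
    apply hs
    have h4 := NormedSpace.expSeries_div_hasSum_exp (𝔸 := ℝ) ((m : ℝ) * ‖z‖)
    rw [← Real.exp_eq_exp_ℝ] at h4
    exact h4
  have h3 := h2.mul_left ((D : ℝ) / (((m + 1) * n).factorial : ℝ))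
  have h4 : (D : ℝ) / (((m + 1) * n).factorial : ℝ) * (‖z‖ ^ ((m + 1) * n) * Real.exp (m * ‖z‖)) =
      D * ‖z‖ ^ ((m + 1) * n) / (((m + 1) * n).factorial : ℝ) * Real.exp (m * ‖z‖) := by ring
  rw [← h4]
  refine h1.norm_le_of_bounded h3 fun t => ?_
  have hN : (((m + 1) * n).factorial : ℝ) ≠ 0 := by exact_mod_cast Nat.factorial_ne_zero _
  rw [norm_div, norm_mul, norm_pow, Complex.norm_real, Complex.norm_natCast, Real.norm_eq_abs]
  calc |c n j a t| * ‖z‖ ^ t / (t.factorial : ℝ)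
      ≤ (D * ((t.choose ((m + 1) * n) : ℝ) * (m : ℝ) ^ (t - (m + 1) * n))) * ‖z‖ ^ t / (t.factorial : ℝ) := by
        apply div_le_div_of_nonneg_right _ (Nat.cast_nonneg _)
        exact mul_le_mul_of_nonneg_right (c_bound h t) (by positivity)
    _ = _ := by
        field_simp

end Pool.Agent.TH818.AP
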