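import Pool.Agent.TH818.AP.Defs

/-!
# AP-PFD: the Hermite-Pade determinant does not vanish (job 3743)
-/

set_option autoImplicit false

open Set Polynomial Filter Topology

namespace Pool.Agent.TH818.AP

open Pool.Agent.TH818.AR

namespace PfdAux

/-- a polynomial which is `O(|w|^N)` at zero is divisible by `X^N` -/
theorem dvd_of_bound (N : ℕ) : ∀ (P : ℂ[X]) (K : ℝ),
    (∀ w : ℂ, w ≠ 0 → ‖w‖ ≤ 1 → ‖P.eval w‖ ≤ K * ‖w‖ ^ N) → (X : ℂ[X]) ^ N ∣ P := by
  induction N with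
  | zero => intro P K _; rw [pow_zero]; exact one_dvd _
  | succ N ih =>
    intro P K h
    have h0 : P.eval 0 = 0 := by
      have h1 : Tendsto (fun w : ℂ => ‖P.eval w‖) (𝓝[≠] 0) (𝓝 ‖P.eval 0‖) :=
        (P.continuous.norm.tendsto 0).mono_left nhdsWithin_le_nhds
      have h2 : Tendsto (fun w : ℂ => |K| * ‖w‖) (𝓝[≠] 0) (𝓝 0) := by
        have h3 : Tendsto (fun w : ℂ => |K| * ‖w‖) (𝓝 0) (𝓝 (|K| * ‖(0 : ℂ)‖)) :=
          (continuous_const.mul continuous_norm).tendsto 0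
        rw [norm_zero, mul_zero] at h3
        exact h3.mono_left nhdsWithin_le_nhds
      have h4 : ‖P.eval 0‖ ≤ 0 := by
        refine le_of_tendsto_of_tendsto h1 h2 ?_
        have h5 : ∀ᶠ w : ℂ in 𝓝[≠] 0, ‖w‖ < 1 := by
          apply mem_nhdsWithin_of_mem_nhds
          have := (continuous_norm (E := ℂ)).tendsto 0
          rw [norm_zero] at this
          exact this.eventually (gt_mem_nhds one_pos)
        filter_upwards [h5, self_mem_nhdsWithin] with w hw hw0
        refine (h w hw0 hw.le).trans ?_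
        have h6 : ‖w‖ ^ (N + 1) ≤ ‖w‖ := by
          rw [pow_succ]
          exact mul_le_of_le_one_left (norm_nonneg _) (pow_le_one₀ (norm_nonneg _) hw.le)
        calc K * ‖w‖ ^ (N + 1) ≤ |K| * ‖w‖ ^ (N + 1) :=
              mul_le_mul_of_nonneg_right (le_abs_self K) (by positivity)
          _ ≤ |K| * ‖w‖ := mul_le_mul_of_nonneg_left h6 (abs_nonneg K)
      exact norm_le_zero_iff.1 h4
    obtain ⟨Q, rfl⟩ := X_dvd_iff.2 (by rw [coeff_zero_eq_eval_zero]; exact h0 : P.coeff 0 = 0)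
    rw [pow_succ']
    refine mul_dvd_mul_left _ (ih Q K fun w hw hw1 => ?_)
    have h1 := h w hw hw1
    rw [eval_mul, eval_X, norm_mul, pow_succ'] at h1
    have h2 : 0 < ‖w‖ := norm_pos_iff.2 hw
    refine le_of_mul_le_mul_left ?_ h2
    calc ‖w‖ * ‖Q.eval w‖ ≤ K * (‖w‖ * ‖w‖ ^ N) := h1
      _ = ‖w‖ * (K * ‖w‖ ^ N) := by ring

theorem mu_self {m : ℕ} (n : ℕ) (j : Fin (m + 1)) : mu n j j = n + 1 := by simp [mu]

theorem mu_ne {m : ℕ} (n : ℕ) {j k : Fin (m + 1)} (h : k ≠ j) : mu n j k = n := by simp [mu, h]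

/-- the diagonal coefficients do not vanish -/
theorem diag_ne {m n D : ℕ} (hD : 0 < D) {j : Fin (m + 1)} {a : Fin (m + 1) → ℕ → ℤ}
    (h : PF n j D a) : a j n ≠ 0 := by
  intro h0
  have h1 := congrArg (fun P : ℤ[X] => P.eval ((j : ℕ) : ℤ)) h
  simp only [eval_finsetSum, eval_mul, eval_prod, eval_pow, eval_sub, eval_X, eval_C] at h1
  rw [Finset.sum_eq_zero] at h1
  · have : (D : ℤ) ≠ 0 := by exact_mod_cast hD.ne'
    exact this h1.symm
  · intro k _
    apply Finset.sum_eq_zero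
    intro s hs
    rw [Finset.mem_range] at hs
    by_cases hk : k = j
    · subst hk
      rw [mu_self] at hs
      rcases Nat.lt_or_ge s n with hsn | hsn
      · rw [sub_self, zero_pow (by rw [mu_self]; omega), mul_zero, zero_mul]
      · have : s = n := by omega
        subst this
        rw [h0, mul_zero, zero_mul, zero_mul]
    · rw [Finset.prod_eq_zero (i := j)]
      · rw [mul_zero]
      · exact Finset.mem_erase.2 ⟨fun h => hk h.symm, Finset.mem_univ _⟩
      · rw [sub_self, mu_self, zero_pow (by omega)]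

/-- the matrix of polynomials -/
noncomputable def PM {m : ℕ} (n : ℕ) (a : Fin (m + 1) → Fin (m + 1) → ℕ → ℤ) :
    Matrix (Fin (m + 1)) (Fin (m + 1)) ℂ[X] :=
  Matrix.of fun j k => ∑ s ∈ Finset.range (n + 1), C (a j k s : ℂ) * X ^ s

theorem PM_deg {m : ℕ} (n : ℕ) (a : Fin (m + 1) → Fin (m + 1) → ℕ → ℤ) (j k : Fin (m + 1)) :
    (PM n a j k).natDegree ≤ n := by
  rw [PM, Matrix.of_apply]
  apply natDegree_sum_le_of_forall_le
  intro s hs
  rw [Finset.mem_range] at hs
  exact (natDegree_C_mul_X_pow_le _ _).trans (by omega)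

theorem PM_coeff {m : ℕ} (n : ℕ) (a : Fin (m + 1) → Fin (m + 1) → ℕ → ℤ) (j k : Fin (m + 1)) :
    (PM n a j k).coeff n = (a j k n : ℂ) := by
  rw [PM, Matrix.of_apply, finsetSum_coeff, Finset.sum_eq_single n]
  · rw [coeff_C_mul, coeff_X_pow, if_pos rfl, mul_one]
  · intro s _ hs
    rw [coeff_C_mul, coeff_X_pow, if_neg (fun h => hs h.symm), mul_zero]
  · intro h
    exact absurd (Finset.mem_range.2 (Nat.lt_succ_self n)) h

theorem PM_eval {m : ℕ} (n : ℕ) (a : Fin (m + 1) → Fin (m + 1) → ℕ → ℤ) (w : ℂ) :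
    (PM n a).det.eval w =
      (Matrix.of fun j k : Fin (m + 1) => ∑ s ∈ Finset.range (n + 1), (a j k s : ℂ) * w ^ s).det := by
  have h := (evalRingHom w).map_det (PM n a)
  rw [coe_evalRingHom] at h
  rw [h]
  congr 1
  ext j k
  simp [PM, eval_finsetSum]

theorem PM_det_deg {m : ℕ} (n : ℕ) (a : Fin (m + 1) → Fin (m + 1) → ℕ → ℤ) :
    (PM n a).det.natDegree ≤ (m + 1) * n := by
  rw [Matrix.det_apply]
  apply natDegree_sum_le_of_forall_le
  intro σ _
  refine (natDegree_smul_le _ _).trans ((natDegree_prod_le _ _).trans ?_)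
  refine (Finset.sum_le_sum fun i _ => PM_deg n a (σ i) i).trans ?_
  simp

theorem PM_det_coeff {m : ℕ} (n : ℕ) (a : Fin (m + 1) → Fin (m + 1) → ℕ → ℤ) :
    (PM n a).det.coeff ((m + 1) * n) =
      (Matrix.of fun j k : Fin (m + 1) => (a j k n : ℂ)).det := by
  rw [Matrix.det_apply, Matrix.det_apply, finsetSum_coeff]
  refine Finset.sum_congr rfl fun σ _ => ?_
  rw [coeff_smul]
  congr 1
  have h := coeff_prod_of_natDegree_le (Finset.univ : Finset (Fin (m + 1)))
    (fun i => PM n a (σ i) i) n (fun i _ => PM_deg n a (σ i) i)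
  rw [Finset.card_univ, Fintype.card_fin] at h
  rw [h]
  exact Finset.prod_congr rfl fun i _ => PM_coeff n a (σ i) i

/-- the value of the determinant near zero -/
theorem PM_bound (hb : T_pfb) {m n D : ℕ} (a : Fin (m + 1) → Fin (m + 1) → ℕ → ℤ) (hn : 1 ≤ n)
    (h : ∀ j, PF n j D (a j)) (ha : ∀ j k s, mu n j k ≤ s → a j k s = 0) :
    ∃ K : ℝ, ∀ w : ℂ, w ≠ 0 → ‖w‖ ≤ 1 → ‖(PM n a).det.eval w‖ ≤ K * ‖w‖ ^ ((m + 1) * n) := by
  set S : ℝ := ∑ j, ∑ k, ∑ s ∈ Finset.range (n + 1), |(a j k s : ℝ)| with hS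
  set K1 : ℝ := D * Real.exp m with hK1
  have hS0 : 0 ≤ S := Finset.sum_nonneg fun j _ => Finset.sum_nonneg fun k _ =>
    Finset.sum_nonneg fun s _ => abs_nonneg _
  have hK10 : 0 ≤ K1 := by positivity
  refine ⟨((m + 1).factorial : ℝ) * (S + K1) ^ (m + 1), fun w hw hw1 => ?_⟩
  have hw0 : 0 < ‖w‖ := norm_pos_iff.2 hw
  rw [PM_eval]
  set A : Matrix (Fin (m + 1)) (Fin (m + 1)) ℂ :=
    Matrix.of fun j k : Fin (m + 1) => ∑ s ∈ Finset.range (n + 1), (a j k s : ℂ) * w ^ s with hA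
  have hent : ∀ j k, ‖A j k‖ ≤ S := by
    intro j k
    rw [hA, Matrix.of_apply]
    refine (norm_sum_le _ _).trans ?_
    have h1 : ∑ s ∈ Finset.range (n + 1), ‖(a j k s : ℂ) * w ^ s‖ ≤
        ∑ s ∈ Finset.range (n + 1), |(a j k s : ℝ)| := by
      refine Finset.sum_le_sum fun s _ => ?_
      rw [norm_mul, norm_pow, Complex.norm_intCast]
      exact mul_le_of_le_one_right (abs_nonneg _) (pow_le_one₀ (norm_nonneg _) hw1)
    refine h1.trans ?_
    refine le_trans ?_ (Finset.single_le_sum (f := fun j => ∑ k, ∑ s ∈ Finset.range (n + 1), |(a j k s : ℝ)|)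
      (fun j _ => Finset.sum_nonneg fun k _ => Finset.sum_nonneg fun s _ => abs_nonneg _)
      (Finset.mem_univ j))
    exact Finset.single_le_sum (f := fun k => ∑ s ∈ Finset.range (n + 1), |(a j k s : ℝ)|)
      (fun k _ => Finset.sum_nonneg fun s _ => abs_nonneg _) (Finset.mem_univ k)
  set v : Fin (m + 1) → ℂ := fun j => RR n (a j) w / w ^ ((m + 1) * n) with hv
  have hvb : ∀ j, ‖v j‖ ≤ K1 := by
    intro j
    rw [hv]
    simp only
    rw [norm_div, norm_pow, div_le_iff₀ (by positivity)]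
    refine (hb m n j D (a j) hn (h j) (ha j) w).trans ?_
    rw [hK1]
    have h1 : Real.exp (m * ‖w‖) ≤ Real.exp m := by
      apply Real.exp_le_exp.2
      exact mul_le_of_le_one_right (Nat.cast_nonneg m) hw1
    have h2 : (D : ℝ) * ‖w‖ ^ ((m + 1) * n) / (((m + 1) * n).factorial : ℝ) ≤ D * ‖w‖ ^ ((m + 1) * n) := by
      apply div_le_self (by positivity)
      exact_mod_cast Nat.succ_le_of_lt (Nat.factorial_pos _)
    calc (D : ℝ) * ‖w‖ ^ ((m + 1) * n) / (((m + 1) * n).factorial : ℝ) * Real.exp (m * ‖w‖)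
        ≤ (D * ‖w‖ ^ ((m + 1) * n)) * Real.exp m :=
          mul_le_mul h2 h1 (Real.exp_pos _).le (by positivity)
      _ = D * Real.exp m * ‖w‖ ^ ((m + 1) * n) := by ring
  have hdet : A.det = w ^ ((m + 1) * n) * (A.updateCol 0 v).det := by
    have h1 := Matrix.det_updateCol_sum A 0 (fun k : Fin (m + 1) => Complex.exp (((k : ℕ) : ℂ) * w))
    have h2 : Complex.exp ((((0 : Fin (m + 1)) : ℕ) : ℂ) * w) = 1 := by simp
    simp only [h2, one_smul] at h1
    rw [← h1, ← Matrix.det_updateCol_smul]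
    congr 2
    ext j
    have hwp : w ^ ((m + 1) * n) ≠ 0 := pow_ne_zero _ hw
    simp only [hv, Pi.smul_apply, smul_eq_mul]
    rw [mul_div_cancel₀ _ hwp, RR]
    refine Finset.sum_congr rfl fun k _ => ?_
    rw [mul_comm]
    rfl
  rw [hdet, norm_mul, norm_pow]
  have h3 : ‖(A.updateCol 0 v).det‖ ≤ ((m + 1).factorial : ℝ) * (S + K1) ^ (m + 1) := by
    have h4 := Matrix.det_le (A := A.updateCol 0 v) (abv := (NormedField.toAbsoluteValue ℂ))
      (x := S + K1) (by
        intro i j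
        change ‖A.updateCol 0 v i j‖ ≤ S + K1
        by_cases hj : j = 0
        · subst hj
          rw [Matrix.updateCol_self]
          linarith [hvb i]
        · rw [Matrix.updateCol_ne hj]
          linarith [hent i j])
    rw [Fintype.card_fin, nsmul_eq_mul] at h4
    exact h4
  calc ‖w‖ ^ ((m + 1) * n) * ‖(A.updateCol 0 v).det‖
      ≤ ‖w‖ ^ ((m + 1) * n) * (((m + 1).factorial : ℝ) * (S + K1) ^ (m + 1)) :=
        mul_le_mul_of_nonneg_left h3 (by positivity)
    _ = _ := by ring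

end PfdAux

open PfdAux in
theorem pfd_of (h : T_pfb) : T_pfd := by
  intro m n D a hn hD hPF ha z hz
  rw [← PM_eval]
  obtain ⟨K, hK⟩ := PM_bound h a hn hPF ha
  obtain ⟨Q, hQ⟩ := dvd_of_bound ((m + 1) * n) _ K hK
  have hc : (PM n a).det.coeff ((m + 1) * n) ≠ 0 := by
    rw [PM_det_coeff]
    have h1 : (Matrix.of fun j k : Fin (m + 1) => (a j k n : ℂ)) =
        Matrix.diagonal fun j => (a j j n : ℂ) := by
      ext j k
      rw [Matrix.of_apply, Matrix.diagonal_apply]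
      split_ifs with hjk
      · rw [hjk]
      · rw [ha j k n (by rw [mu_ne n (fun h => hjk h.symm)]), Int.cast_zero]
    rw [h1, Matrix.det_diagonal, Finset.prod_ne_zero_iff]
    intro j _
    exact_mod_cast diag_ne hD (hPF j)
  have hne : (PM n a).det ≠ 0 := fun h0 => hc (by rw [h0, coeff_zero])
  have hQ0 : Q ≠ 0 := by
    intro h0
    rw [h0, mul_zero] at hQ
    exact hne hQ
  have hdeg : Q.natDegree = 0 := by
    have h1 := PM_det_deg n a
    rw [hQ, natDegree_mul (pow_ne_zero _ X_ne_zero) hQ0, natDegree_X_pow] at h1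
    omega
  rw [hQ, eval_mul, eval_pow, eval_X]
  refine mul_ne_zero (pow_ne_zero _ hz) ?_
  rw [eq_C_of_natDegree_eq_zero hdeg, eval_C]
  intro h0
  apply hQ0
  rw [eq_C_of_natDegree_eq_zero hdeg, h0, C_0]

end Pool.Agent.TH818.AP
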