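import Pool.Agent.TH818.AP.Defs

/-!
# From irreducible polynomials at `iπ` to all polynomials at `π`
-/

set_option autoImplicit false

open Polynomial

namespace Pool.Agent.TH818.AP

namespace PiM

/-- lower bound at a point for products: from irreducible factors to all nonzero polynomials -/
theorem prod_bound {z : ℂ} {β M : ℝ} (hβ : 0 < β) (hβ1 : β ≤ 1) (D : ℕ)
    (h : ∀ f : ℤ[X], Irreducible f → f.natDegree ≤ D →
      (f.map (Int.castRingHom ℂ)).mahlerMeasure ≤ M → 1 ≤ f.natDegree → β ≤ ‖aeval z f‖)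
    (F : ℤ[X]) : F ≠ 0 → F.natDegree ≤ D → (F.map (Int.castRingHom ℂ)).mahlerMeasure ≤ M →
      β ^ F.natDegree ≤ ‖aeval z F‖ := by
  induction F using WfDvdMonoid.induction_on_irreducible with
  | zero => intro h0; exact absurd rfl h0
  | unit u hu =>
    intro _ _ _
    obtain ⟨r, hr, rfl⟩ := Polynomial.isUnit_iff.mp hu
    rcases Int.isUnit_iff.mp hr with rfl | rfl <;> simp
  | mul a i ha hi ih =>
    intro _ hD hM
    have hi0 : i ≠ 0 := hi.ne_zero
    have hdeg : (i * a).natDegree = i.natDegree + a.natDegree := natDegree_mul hi0 ha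
    have hMi : 1 ≤ (i.map (Int.castRingHom ℂ)).mahlerMeasure := one_le_mahlerMeasure_of_ne_zero hi0
    have hMa : 1 ≤ (a.map (Int.castRingHom ℂ)).mahlerMeasure := one_le_mahlerMeasure_of_ne_zero ha
    rw [Polynomial.map_mul, mahlerMeasure_mul] at hM
    have hMi' : (i.map (Int.castRingHom ℂ)).mahlerMeasure ≤ M := by nlinarith
    have hMa' : (a.map (Int.castRingHom ℂ)).mahlerMeasure ≤ M := by nlinarith
    have h2 := ih ha (by omega) hMa'
    have h1 : β ^ i.natDegree ≤ ‖aeval z i‖ := by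
      rcases Nat.eq_zero_or_pos i.natDegree with h0 | h0
      · rw [h0, pow_zero]
        rw [eq_C_of_natDegree_eq_zero h0] at hi0 ⊢
        have hc : i.coeff 0 ≠ 0 := by
          intro hc
          rw [hc] at hi0
          simp at hi0
        rw [aeval_C, algebraMap_int_eq, eq_intCast, Complex.norm_intCast]
        have := Int.one_le_abs hc
        exact_mod_cast this
      · calc β ^ i.natDegree ≤ β ^ 1 := pow_le_pow_of_le_one hβ.le hβ1 h0
          _ = β := pow_one β
          _ ≤ _ := h i hi (by omega) hMi' h0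
    rw [hdeg, pow_add, map_mul, norm_mul]
    exact mul_le_mul h1 h2 (by positivity) (norm_nonneg _)

/-- the even part -/
noncomputable def ev (P : ℤ[X]) : ℤ[X] := contract 2 P
/-- the odd part -/
noncomputable def od (P : ℤ[X]) : ℤ[X] := contract 2 (divX P)

theorem decomp (P : ℤ[X]) : P = (ev P).comp (X ^ 2) + X * (od P).comp (X ^ 2) := by
  rw [← expand_eq_comp_X_pow, ← expand_eq_comp_X_pow]
  ext n
  unfold ev od
  rcases n with _ | n
  · simp [coeff_expand, coeff_contract]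
  · rw [coeff_add, coeff_X_mul, coeff_expand two_pos, coeff_expand two_pos]
    rcases Nat.even_or_odd n with hn | hn
    · have h1 : 2 ∣ n := hn.two_dvd
      have h2 : ¬ 2 ∣ (n + 1) := by omega
      rw [if_neg h2, if_pos h1, coeff_contract two_ne_zero, Nat.div_mul_cancel h1, coeff_divX]
      simp
    · have h1 : ¬ 2 ∣ n := by
        obtain ⟨k, hk⟩ := hn
        omega
      have h2 : 2 ∣ (n + 1) := by omega
      rw [if_pos h2, if_neg h1, coeff_contract two_ne_zero, Nat.div_mul_cancel h2]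
      simp

/-- `P(iX)P(-iX)` -/
noncomputable def QQ (P : ℤ[X]) : ℤ[X] :=
  ((ev P).comp (-X ^ 2)) ^ 2 + X ^ 2 * ((od P).comp (-X ^ 2)) ^ 2

theorem QQ_map (P : ℤ[X]) : (QQ P).map (Int.castRingHom ℂ) =
    ((P.map (Int.castRingHom ℂ)).comp (C Complex.I * X)) *
      ((P.map (Int.castRingHom ℂ)).comp (C (-Complex.I) * X)) := by
  have hI : (C Complex.I * X : ℂ[X]) ^ 2 = -X ^ 2 := by
    rw [mul_pow, ← C_pow, Complex.I_sq]
    simp
  have hI' : (C (-Complex.I) * X : ℂ[X]) ^ 2 = -X ^ 2 := by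
    rw [mul_pow, ← C_pow, neg_sq, Complex.I_sq]
    simp
  have hd := congrArg (Polynomial.map (Int.castRingHom ℂ)) (decomp P)
  rw [hd]
  simp only [QQ, Polynomial.map_add, Polynomial.map_mul, Polynomial.map_pow, Polynomial.map_comp,
    Polynomial.map_neg, Polynomial.map_X, add_comp, mul_comp, X_comp, comp_assoc, pow_comp, hI, hI']
  have h3 : (C Complex.I : ℂ[X]) * C Complex.I = -1 := by
    rw [← C_mul, Complex.I_mul_I]
    simp
  simp only [map_neg]
  linear_combination ((X : ℂ[X]) ^ 2 *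
    (((od P).map (Int.castRingHom ℂ)).comp (-X ^ 2)) ^ 2) * h3

theorem QQ_eval (P : ℤ[X]) : ‖aeval ((Real.pi : ℂ) * Complex.I) (QQ P)‖ =
    |aeval (-Real.pi) P| * |aeval Real.pi P| := by
  have h1 : aeval ((Real.pi : ℂ) * Complex.I) (QQ P) =
      eval ((Real.pi : ℂ) * Complex.I) ((QQ P).map (Int.castRingHom ℂ)) := by
    rw [eval_map, aeval_def]
    rfl
  have h2 : ∀ x : ℝ, eval (x : ℂ) (P.map (Int.castRingHom ℂ)) = ((aeval x P : ℝ) : ℂ) := by
    intro x
    rw [eval_map]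
    have : ((aeval x P : ℝ) : ℂ) = aeval (x : ℂ) P := by
      have := aeval_algebraMap_apply ℂ x P
      simpa using this.symm
    rw [this, aeval_def]
    rfl
  rw [h1, QQ_map, eval_mul, eval_comp, eval_comp]
  have h3 : eval ((Real.pi : ℂ) * Complex.I) (C Complex.I * X) = ((-Real.pi : ℝ) : ℂ) := by
    simp only [eval_mul, eval_C, eval_X]
    push_cast
    linear_combination (Real.pi : ℂ) * Complex.I_mul_I
  have h4 : eval ((Real.pi : ℂ) * Complex.I) (C (-Complex.I) * X) = ((Real.pi : ℝ) : ℂ) := by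
    simp only [eval_mul, eval_C, eval_X]
    linear_combination (-(Real.pi : ℂ)) * Complex.I_mul_I
  rw [h3, h4, h2, h2, norm_mul, Complex.norm_real, Complex.norm_real, Real.norm_eq_abs,
    Real.norm_eq_abs]

theorem sum_norm_le {F : ℂ[X]} {d : ℕ} {H : ℝ} (hd : F.natDegree ≤ d)
    (hH : ∀ i, ‖F.coeff i‖ ≤ H) : (F.sum fun _ a => ‖a‖) ≤ (d + 1) * H := by
  rw [sum_over_range' F (by simp) (d + 1) (by omega)]
  calc ∑ i ∈ Finset.range (d + 1), ‖F.coeff i‖ ≤ ∑ i ∈ Finset.range (d + 1), H :=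
        Finset.sum_le_sum fun i _ => hH i
    _ = (d + 1) * H := by simp

theorem mahler_comp {P : ℤ[X]} {d : ℕ} {H : ℝ} (hd : P.natDegree ≤ d)
    (hH : ∀ i, |(P.coeff i : ℝ)| ≤ H) {u : ℂ} (hu : ‖u‖ = 1) :
    ((P.map (Int.castRingHom ℂ)).comp (C u * X)).mahlerMeasure ≤ (d + 1) * H := by
  refine (mahlerMeasure_le_sum_norm_coeff _).trans (sum_norm_le ?_ ?_)
  · refine natDegree_comp_le.trans ?_
    have h1 : (C u * X : ℂ[X]).natDegree ≤ 1 := (natDegree_C_mul_le u X).trans natDegree_X_le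
    have h2 : (P.map (Int.castRingHom ℂ)).natDegree ≤ P.natDegree := natDegree_map_le
    calc _ ≤ P.natDegree * 1 := Nat.mul_le_mul h2 h1
      _ ≤ d := by omega
  · intro i
    rw [comp_C_mul_X_coeff, norm_mul, norm_pow, hu, one_pow, mul_one, coeff_map]
    simpa using hH i

theorem QQ_natDegree {P : ℤ[X]} {d : ℕ} (hd : P.natDegree ≤ d) : (QQ P).natDegree ≤ 2 * d := by
  have h0 : ((QQ P).map (Int.castRingHom ℂ)).natDegree = (QQ P).natDegree :=
    natDegree_map_eq_of_injective (RingHom.injective_int _) _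
  rw [← h0, QQ_map]
  refine natDegree_mul_le.trans ?_
  have h1 : ∀ u : ℂ, ((P.map (Int.castRingHom ℂ)).comp (C u * X)).natDegree ≤ d := by
    intro u
    refine natDegree_comp_le.trans ?_
    have h1 : (C u * X : ℂ[X]).natDegree ≤ 1 := (natDegree_C_mul_le u X).trans natDegree_X_le
    have h2 : (P.map (Int.castRingHom ℂ)).natDegree ≤ P.natDegree := natDegree_map_le
    calc _ ≤ P.natDegree * 1 := Nat.mul_le_mul h2 h1
      _ ≤ d := by omega
  have h2 := h1 Complex.I
  have h3 := h1 (-Complex.I)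
  omega

theorem QQ_mahler {P : ℤ[X]} {d : ℕ} {H : ℝ} (hd : P.natDegree ≤ d)
    (hH : ∀ i, |(P.coeff i : ℝ)| ≤ H) :
    ((QQ P).map (Int.castRingHom ℂ)).mahlerMeasure ≤ ((d + 1) * H) ^ 2 := by
  rw [QQ_map, mahlerMeasure_mul, sq]
  have h1 := mahler_comp hd hH (u := Complex.I) (by simp)
  have h2 := mahler_comp hd hH (u := -Complex.I) (by simp)
  exact mul_le_mul h1 h2 (mahlerMeasure_nonneg _) ((mahlerMeasure_nonneg _).trans h1)

theorem QQ_ne_zero {P : ℤ[X]} (hP : P ≠ 0) : QQ P ≠ 0 := by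
  intro h
  have h1 := QQ_map P
  rw [h, Polynomial.map_zero] at h1
  have hP' : P.map (Int.castRingHom ℂ) ≠ 0 :=
    (Polynomial.map_ne_zero_iff (RingHom.injective_int _)).mpr hP
  have h2 : ∀ u : ℂ, u ≠ 0 → (P.map (Int.castRingHom ℂ)).comp (C u * X) ≠ 0 := by
    intro u hu h0
    apply hP'
    ext i
    have := congrArg (fun F => coeff F i) h0
    rw [comp_C_mul_X_coeff, coeff_zero, mul_eq_zero] at this
    rcases this with h | h
    · simpa using h
    · exact (pow_ne_zero i hu h).elim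
  exact mul_ne_zero (h2 _ Complex.I_ne_zero) (h2 _ (neg_ne_zero.mpr Complex.I_ne_zero)) h1.symm

theorem eval_neg_pi_le {P : ℤ[X]} {d : ℕ} {H : ℝ} (hd : P.natDegree ≤ d)
    (hH : ∀ i, |(P.coeff i : ℝ)| ≤ H) : |aeval (-Real.pi) P| ≤ (d + 1) * 4 ^ d * H := by
  rw [aeval_eq_sum_range' (n := d + 1) (by omega)]
  refine (Finset.abs_sum_le_sum_abs _ _).trans ?_
  have hH0 : 0 ≤ H := (abs_nonneg _).trans (hH 0)
  calc ∑ i ∈ Finset.range (d + 1), |P.coeff i • (-Real.pi) ^ i|
      ≤ ∑ i ∈ Finset.range (d + 1), 4 ^ d * H := by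
        refine Finset.sum_le_sum fun i hi => ?_
        rw [zsmul_eq_mul, abs_mul, abs_pow, abs_neg, abs_of_pos Real.pi_pos, mul_comm]
        have h1 : Real.pi ^ i ≤ 4 ^ d := by
          calc Real.pi ^ i ≤ 4 ^ i := pow_le_pow_left₀ Real.pi_pos.le Real.pi_lt_four.le i
            _ ≤ 4 ^ d := pow_le_pow_right₀ (by norm_num) (by
              have := Finset.mem_range.mp hi
              omega)
        exact mul_le_mul h1 (hH i) (abs_nonneg _) (by positivity)
    _ = (d + 1) * 4 ^ d * H := by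
        simp
        ring

end PiM

open PiM in
theorem pi_of (h : T_irr) : T_pi := by
  intro d
  obtain ⟨κ, c, hκ, hc, hirr⟩ := h (2 * d)
  have hd1 : (0 : ℝ) < d + 1 := by positivity
  set A : ℝ := (2 : ℝ) ^ (2 * d) * (d + 1) ^ 2 with hA
  have hA0 : 0 < A := by positivity
  have hA1 : 1 ≤ A := by
    have h1 : (1 : ℝ) ≤ 2 ^ (2 * d) := one_le_pow₀ (by norm_num)
    have h2 : (1 : ℝ) ≤ ((d : ℝ) + 1) ^ 2 := one_le_pow₀ (by
      have : (0 : ℝ) ≤ d := by positivity
      linarith)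
    nlinarith
  set c1 : ℝ := min 1 c with hc1
  have hc10 : 0 < c1 := lt_min one_pos hc
  set γ : ℝ := (c1 * A ^ (-κ)) ^ (2 * d) with hγ
  have hγ0 : 0 < γ := by positivity
  refine ⟨4 * d * κ + 1, γ / ((d + 1) * 4 ^ d), by positivity, by positivity, ?_⟩
  intro H P hH hP hd hcoef
  have hH0 : 0 < H := by linarith
  set M : ℝ := ((d + 1) * H) ^ 2 with hM
  have hAM : A * H ^ 2 = (2 : ℝ) ^ (2 * d) * M := by rw [hA, hM]; ring
  set β : ℝ := c1 * (A * H ^ 2) ^ (-κ) with hβ
  have hAH : 1 ≤ A * H ^ 2 := by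
    have : 1 ≤ H ^ 2 := one_le_pow₀ hH
    nlinarith
  have hβ0 : 0 < β := by positivity
  have hβ1 : β ≤ 1 := by
    have h1 : (A * H ^ 2) ^ (-κ) ≤ 1 := Real.rpow_le_one_of_one_le_of_nonpos hAH (by linarith)
    have h2 : c1 ≤ 1 := min_le_left _ _
    have h3 : 0 < (A * H ^ 2) ^ (-κ) := by positivity
    calc β = c1 * (A * H ^ 2) ^ (-κ) := rfl
      _ ≤ 1 * 1 := mul_le_mul h2 h1 h3.le zero_le_one
      _ = 1 := one_mul 1
  have hQ := prod_bound (z := (Real.pi : ℂ) * Complex.I) hβ0 hβ1 (2 * d) (M := M) (by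
    intro f hf hfd hfM hf1
    have hc' : ∀ i, |(f.coeff i : ℝ)| ≤ A * H ^ 2 := by
      intro i
      have h1 := norm_coeff_le_choose_mul_mahlerMeasure i (f.map (Int.castRingHom ℂ))
      have h2 : ‖(f.map (Int.castRingHom ℂ)).coeff i‖ = |(f.coeff i : ℝ)| := by
        rw [coeff_map]
        simp
      rw [h2] at h1
      have h3 : (((f.map (Int.castRingHom ℂ)).natDegree.choose i : ℕ) : ℝ) ≤ 2 ^ (2 * d) := by
        have h4 : (f.map (Int.castRingHom ℂ)).natDegree ≤ 2 * d := natDegree_map_le.trans hfd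
        have h5 := Nat.choose_le_two_pow (f.map (Int.castRingHom ℂ)).natDegree i
        have h6 : 2 ^ (f.map (Int.castRingHom ℂ)).natDegree ≤ 2 ^ (2 * d) :=
          Nat.pow_le_pow_right (by norm_num) h4
        exact_mod_cast h5.trans h6
      rw [hAM]
      exact h1.trans (mul_le_mul h3 hfM (mahlerMeasure_nonneg _) (by positivity))
    have h7 := hirr (A * H ^ 2) f hAH hf hfd hc'
    refine le_trans ?_ h7
    exact mul_le_mul_of_nonneg_right (min_le_right _ _) (by positivity))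
    (QQ P) (QQ_ne_zero hP) (QQ_natDegree hd) (QQ_mahler hd hcoef)
  rw [QQ_eval] at hQ
  have h8 : β ^ (2 * d) ≤ β ^ (QQ P).natDegree :=
    pow_le_pow_of_le_one hβ0.le hβ1 (QQ_natDegree hd)
  have h9 : β ^ (2 * d) ≤ ((d + 1) * 4 ^ d * H) * |aeval Real.pi P| :=
    h8.trans (hQ.trans (mul_le_mul_of_nonneg_right (eval_neg_pi_le hd hcoef) (abs_nonneg _)))
  have h10 : β ^ (2 * d) = γ * H ^ (-(4 * d * κ)) := by
    rw [hβ, hγ, Real.mul_rpow hA0.le (by positivity), ← mul_assoc, mul_pow]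
    congr 1
    rw [← Real.rpow_natCast H 2, ← Real.rpow_mul hH0.le, ← Real.rpow_natCast, ← Real.rpow_mul hH0.le]
    congr 1
    push_cast
    ring
  have h11 : H ^ (-(4 * d * κ + 1)) = H ^ (-(4 * d * κ)) / H := by
    rw [neg_add, Real.rpow_add hH0, Real.rpow_neg_one]
    rfl
  rw [h11]
  rw [h10] at h9
  have hK : (0 : ℝ) < (d + 1) * 4 ^ d := by positivity
  rw [div_mul_div_comm, div_le_iff₀ (by positivity)]
  linarith

end Pool.Agent.TH818.AP
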