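import Pool.Agent.TH818.AP.Multi
import Pool.Agent.TH818.AR.Ord
import Pool.Agent.TH818.AR.Taylor
import Pool.Agent.TH818.AR.Low
import Pool.Agent.TH818.AR.Arith
import Pool.Agent.TH818.AR.Ell
import Pool.Agent.TH818.AR.Sing
import Pool.Agent.TH818.AR.Tr
import Pool.Agent.TH818.AP.Appr
import Pool.Agent.TH818.AP.Aux2
import Pool.Agent.TH818.AP.Det2
import Pool.Agent.TH818.AP.Ind3r
import Pool.Agent.TH818.AP.Irr
import Pool.Agent.TH818.AP.Nest
import Pool.Agent.TH818.AP.Pf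
import Pool.Agent.TH818.AP.Pfb
import Pool.Agent.TH818.AP.Pfd
import Pool.Agent.TH818.AP.PiM

/-!
# Everything together
-/

set_option autoImplicit false

open Set Polynomial Filter Topology

namespace Pool.Agent.TH818.AP

open Pool.Agent.TH818.AR

/-- a measure of transcendence of π -/
theorem tpi : T_pi := pi_of (irr_of (appr_of pf pfb (pfd_of pfb)))

theorem tlow : T_low := low_of ord bd

theorem tnest : T_nest := nest_of an (ind3r_of an pos leg sing tr)


theorem kc_an (α γ : ℝ) (hαγ : α < γ) (i : Fin 3) (t : ℝ) (h1 : α < t) (h2 : t < γ) :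
    AnalyticAt ℝ (KC α γ i) t := by
  have hpos : 0 < γ - α := by linarith
  have e1 : (t - α) / (γ - α) < 1 := by rw [div_lt_one hpos]; linarith
  have e2 : (γ - t) / (γ - α) < 1 := by rw [div_lt_one hpos]; linarith
  have a1 : AnalyticAt ℝ (fun t : ℝ => (t - α) / (γ - α)) t :=
    (analyticAt_id.sub analyticAt_const).div analyticAt_const hpos.ne'
  have a2 : AnalyticAt ℝ (fun t : ℝ => (γ - t) / (γ - α)) t :=
    (analyticAt_const.sub analyticAt_id).div analyticAt_const hpos.ne'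
  fin_cases i
  · have : AnalyticAt ℝ (fun t => KK ((t - α) / (γ - α))) t :=
      AnalyticAt.fun_comp (f := fun t : ℝ => (t - α) / (γ - α)) (an.1 _ e1) a1
    have h : KC α γ 0 = fun t => KK ((t - α) / (γ - α)) := by funext t; simp [KC]
    rw [← h] at this
    exact this
  · have : AnalyticAt ℝ (fun t => EE ((t - α) / (γ - α))) t :=
      AnalyticAt.fun_comp (f := fun t : ℝ => (t - α) / (γ - α)) (an.2 _ e1) a1
    have h : KC α γ 1 = fun t => EE ((t - α) / (γ - α)) := by funext t; simp [KC]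
    rw [← h] at this
    exact this
  · have : AnalyticAt ℝ (fun t => KK ((γ - t) / (γ - α))) t :=
      AnalyticAt.fun_comp (f := fun t : ℝ => (γ - t) / (γ - α)) (an.1 _ e2) a2
    have h : KC α γ 2 = fun t => KK ((γ - t) / (γ - α)) := by funext t; simp [KC]
    rw [← h] at this
    exact this

theorem mon_an {n d : ℕ} (α γ : Fin n → ℝ) (t : ℝ) (h : ∀ j, α j < t ∧ t < γ j) (e : Fin n → Fin 3 → Fin (d + 1)) :
    AnalyticAt ℝ (mon α γ e) t := by
  unfold mon
  refine Finset.analyticAt_fun_prod _ fun j _ => Finset.analyticAt_fun_prod _ fun i _ => ?_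
  exact (kc_an _ _ ((h j).1.trans (h j).2) i t (h j).1 (h j).2).pow _

theorem g1_an {d : ℕ} (l : Fin 3 → Fin (d + 1)) (t : ℝ) (h1 : 0 < t) (h2 : t < 1) : AnalyticAt ℝ (g1 l) t := by
  unfold g1
  refine Finset.analyticAt_fun_prod _ fun i _ => ?_
  exact (kc_an _ _ one_pos i t h1 h2).pow _

theorem g1_indep (d : ℕ) (a b : ℝ) (ha : 0 < a) (hab : a < b) (hb : b < 1) :
    RIndep (fun l : Fin 3 → Fin (d + 1) => g1 l) a b := by
  intro p hp
  have hanti : StrictAnti (fun _ : Fin (0 + 1) => (0 : ℝ)) := by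
    intro i j hij
    omega
  have hmono : StrictMono (fun _ : Fin (0 + 1) => (1 : ℝ)) := by
    intro i j hij
    omega
  have h := tnest 0 d (fun _ => 0) (fun _ => 1) hanti hmono one_pos a b ha hab hb (fun e => p (e 0)) (by
    intro t ht
    refine Eq.trans ?_ (hp t ht)
    rw [← Equiv.sum_comp (Equiv.funUnique (Fin 1) (Fin 3 → Fin (d + 1)))]
    refine Finset.sum_congr rfl fun e _ => ?_
    simp [mon, g1])
  funext l
  exact congrFun h (fun _ => l)

/-- approximate relations between the periods of products of `n` curves -/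
theorem multi_final (n d : ℕ) (hn : 1 ≤ n) (a b : ℝ) (ha : 0 < a) (hab : a < b) (hb : b < 1) (A β : ℝ) (hA : 0 ≤ A)
    (hβ : 2 - 2 / (((d : ℝ) + 1) ^ (3 * n + 1) + 1) < β) :
    ∃ B C : ℝ, ∀ T : ℝ, 1 ≤ T → ((ExcN n d a b A B T).ncard : ℝ) ≤ C * T ^ (2 * ((n : ℝ) - 1) + β) := by
  classical
  have hM0 : (0 : ℝ) < ((d : ℝ) + 1) ^ (3 * n + 1) := by positivity
  have hβ' : 2 * (((d + 1) ^ (3 * n + 1) : ℕ) : ℝ) / ((((d + 1) ^ (3 * n + 1) : ℕ) : ℝ) + 1) < β := by
    refine lt_of_le_of_lt (le_of_eq ?_) hβ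
    push_cast
    field_simp
    ring
  have hβ0 : 0 < β := lt_of_le_of_lt (by positivity) hβ'
  obtain ⟨B, C, T0, hC, hT0, h⟩ := multi bd tlow AR.taylor det2 arith aux2 tpi d a b ha hab hb
    (fun l t ht => g1_an l t (ha.trans_le ht.1) (lt_of_le_of_lt ht.2 hb)) (g1_indep d a b ha hab hb) n A β hA hβ'
  set C0 : ℝ := ((Fintype.piFinset fun _ : Fin n => RT a b T0).card : ℝ) with hC0
  refine ⟨B, C + C0, ?_⟩
  intro T hT
  have hn1 : (1 : ℝ) ≤ n := by exact_mod_cast hn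
  have hTβ : 1 ≤ T ^ (2 * ((n : ℝ) - 1) + β) := Real.one_le_rpow hT (by nlinarith)
  have hC00 : 0 ≤ C0 := by positivity
  rcases lt_or_ge T T0 with hlt | hge
  · have h1 : ExcN n d a b A B T ⊆ (Fintype.piFinset fun _ : Fin n => RT a b T0 : Finset (Fin n → ℚ)) := by
      intro t ht
      rw [Finset.mem_coe, Fintype.mem_piFinset]
      exact fun j => mem_RT.2 ⟨(ht.1 j).1, (ht.1 j).2.trans hlt.le⟩
    have h2 := Set.ncard_le_ncard h1 (Finset.finite_toSet _)
    rw [Set.ncard_coe_finset] at h2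
    have h3 : ((ExcN n d a b A B T).ncard : ℝ) ≤ C0 := by rw [hC0]; exact_mod_cast h2
    nlinarith
  · have := h T hge
    nlinarith

/-- measure for the powers of π -/
theorem pi_scale (d : ℕ) (κ : ℝ) : ∃ B T0 : ℝ, 1 ≤ T0 ∧ ∀ T : ℝ, T0 ≤ T →
    ScaleMeas (fun e : Fin (d + 1) => Real.pi ^ (e : ℕ)) κ B T := by
  classical
  obtain ⟨κ2, c, hκ, hc, hP⟩ := tpi d
  refine ⟨κ2 * max κ 0 + 1, 1 + 1 / c, by linarith [show 0 < 1 / c by positivity], ?_⟩
  intro T hT C0 hC0 hCA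
  have hc' : 0 < 1 / c := by positivity
  have hT1 : 1 < T := by linarith
  have hTp : 0 < T := by linarith
  have hTc : 1 < c * T := by
    have : 1 / c < T := by linarith
    rwa [div_lt_iff₀ hc, mul_comm] at this
  set P : ℤ[X] := ∑ e : Fin (d + 1), C (C0 e) * X ^ (e : ℕ) with hPdef
  have hcoef : ∀ e0 : Fin (d + 1), P.coeff (e0 : ℕ) = C0 e0 := by
    intro e0
    rw [hPdef, finsetSum_coeff, Finset.sum_eq_single e0]
    · simp
    · intro e _ he
      rw [coeff_C_mul, coeff_X_pow, if_neg, mul_zero]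
      intro hcon
      exact he (Fin.ext hcon.symm)
    · simp
  have hPne : P ≠ 0 := by
    intro h0
    apply hC0
    funext e0
    rw [← hcoef e0, h0]
    simp
  have hdeg : P.natDegree ≤ d := by
    refine natDegree_sum_le_of_forall_le _ _ (fun e _ => ?_)
    refine (natDegree_C_mul_X_pow_le _ _).trans ?_
    have := e.isLt
    omega
  have hTκ : T ^ κ ≤ T ^ max κ 0 := Real.rpow_le_rpow_of_exponent_le hT1.le (le_max_left _ _)
  have hcb : ∀ i, |(P.coeff i : ℝ)| ≤ T ^ max κ 0 := by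
    intro i
    rcases Nat.lt_or_ge i (d + 1) with hi | hi
    · have := hcoef ⟨i, hi⟩
      simp only at this
      rw [this]
      exact (hCA _).trans hTκ
    · rw [coeff_eq_zero_of_natDegree_lt (by omega)]
      simp only [Int.cast_zero, abs_zero]
      positivity
  have h1 := hP (T ^ max κ 0) P (Real.one_le_rpow hT1.le (le_max_right _ _)) hPne hdeg hcb
  have h2 : aeval Real.pi P = ∑ e : Fin (d + 1), (C0 e : ℝ) * Real.pi ^ (e : ℕ) := by
    rw [hPdef, map_sum]
    refine Finset.sum_congr rfl fun e _ => ?_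
    simp
  rw [h2, ← Real.rpow_mul hTp.le] at h1
  refine le_trans ?_ h1
  have h4 : T ^ (-(κ2 * max κ 0 + 1)) = T⁻¹ * T ^ (max κ 0 * -κ2) := by
    rw [← Real.rpow_neg_one T, ← Real.rpow_add hTp]
    congr 1
    ring
  rw [h4]
  refine mul_le_mul_of_nonneg_right ?_ (by positivity)
  rw [inv_le_iff_one_le_mul₀' hTp, mul_comm]
  exact hTc.le

/-- approximate relations in one-parameter families of products of `n + 1` curves -/
theorem nest_final (n d : ℕ) (α γ : Fin (n + 1) → ℝ) (hα : StrictAnti α) (hγ : StrictMono γ) (a b : ℝ)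
    (ha : α 0 < a) (hab : a < b) (hb : b < γ 0) (A β : ℝ) (hA : 0 ≤ A)
    (hβ : 2 - 2 / (((d : ℝ) + 1) ^ (3 * (n + 1) + 1) + 1) < β) :
    ∃ B C : ℝ, ∀ T : ℝ, 1 ≤ T →
      (ExcC (fun e : Fin (n + 1) → Fin 3 → Fin (d + 1) => mon α γ e) a b A B T
        (fun e : Fin (d + 1) => Real.pi ^ (e : ℕ))).Finite ∧
      ((ExcC (fun e : Fin (n + 1) → Fin 3 → Fin (d + 1) => mon α γ e) a b A B T
        (fun e : Fin (d + 1) => Real.pi ^ (e : ℕ))).ncard : ℝ) ≤ C * T ^ β := by
  classical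
  have hlt : α 0 < γ 0 := ha.trans (hab.trans hb)
  have hM0 : (0 : ℝ) < ((d : ℝ) + 1) ^ (3 * (n + 1) + 1) := by positivity
  have hβ' : 2 * (((d + 1) ^ (3 * (n + 1) + 1) : ℕ) : ℝ) / ((((d + 1) ^ (3 * (n + 1) + 1) : ℕ) : ℝ) + 1) < β := by
    refine lt_of_le_of_lt (le_of_eq ?_) hβ
    push_cast
    field_simp
    ring
  have hβ0 : 0 < β := lt_of_le_of_lt (by positivity) hβ'
  have hcard : Fintype.card (Fin (n + 1) → Fin 3 → Fin (d + 1)) * Fintype.card (Fin (d + 1)) =
      (d + 1) ^ (3 * (n + 1) + 1) := by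
    simp only [Fintype.card_pi, Fintype.card_fin, Finset.prod_const, Finset.card_univ]
    rw [← pow_mul, ← pow_succ]
  obtain ⟨κ, C, hC, hU⟩ := uniform bd tlow AR.taylor det2 arith aux2 (h := Fin (d + 1))
    (fun e : Fin (n + 1) → Fin 3 → Fin (d + 1) => mon α γ e) a b hab
    (fun e t ht => mon_an α γ t (fun j => ⟨lt_of_le_of_lt (hα.antitone (Fin.zero_le j)) (ha.trans_le ht.1),
      lt_of_lt_of_le (lt_of_le_of_lt ht.2 hb) (hγ.monotone (Fin.zero_le j))⟩) e)
    (tnest n d α γ hα hγ hlt a b ha hab hb) A β hA _ hcard hβ'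
  obtain ⟨B1, T1, hT1, hs⟩ := pi_scale d κ
  obtain ⟨B, T2, hT2, hfin⟩ := hU B1
  set T0 := max T1 T2 with hT0
  set C0 : ℝ := ((RT a b T0).card : ℝ) with hC0
  have hC00 : 0 ≤ C0 := by positivity
  refine ⟨B, C + C0, ?_⟩
  intro T hT
  have hTβ : 1 ≤ T ^ β := Real.one_le_rpow hT hβ0.le
  rcases lt_or_ge T T0 with hlt' | hge
  · have h1 : ExcC (fun e : Fin (n + 1) → Fin 3 → Fin (d + 1) => mon α γ e) a b A B T
        (fun e : Fin (d + 1) => Real.pi ^ (e : ℕ)) ⊆ (RT a b T0 : Finset ℚ) := by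
      intro t ht
      rw [Finset.mem_coe]
      exact mem_RT.2 ⟨ht.1, ht.2.1.trans hlt'.le⟩
    have h2 := Set.ncard_le_ncard h1 (Finset.finite_toSet _)
    rw [Set.ncard_coe_finset] at h2
    refine ⟨(Finset.finite_toSet _).subset h1, ?_⟩
    have h3 : ((ExcC (fun e : Fin (n + 1) → Fin 3 → Fin (d + 1) => mon α γ e) a b A B T
        (fun e : Fin (d + 1) => Real.pi ^ (e : ℕ))).ncard : ℝ) ≤ C0 := by rw [hC0]; exact_mod_cast h2
    nlinarith
  · obtain ⟨h1, h2⟩ := hfin T ((le_max_right _ _).trans hge) _ (hs T ((le_max_left _ _).trans hge))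
    exact ⟨h1, by nlinarith⟩

end Pool.Agent.TH818.AP
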