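import Pool.Agent.TH818.AP.Stage

/-!
# Approximate relations at rational points: elimination and counting
-/

set_option autoImplicit false

open Set Polynomial Filter Topology

namespace Pool.Agent.TH818.AP

open Pool.Agent.TH818.AR

theorem coeff_mul_le (p q : ℤ[X]) (k : ℕ) (a b : ℝ) (hp : p.natDegree ≤ k)
    (hpa : ∀ i, |(p.coeff i : ℝ)| ≤ a) (hqb : ∀ i, |(q.coeff i : ℝ)| ≤ b) (s : ℕ) :
    |((p * q).coeff s : ℝ)| ≤ (k + 1) * (a * b) := by
  have ha : 0 ≤ a := (abs_nonneg _).trans (hpa 0)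
  have hb : 0 ≤ b := (abs_nonneg _).trans (hqb 0)
  rw [coeff_mul]
  push_cast
  rw [Finset.Nat.sum_antidiagonal_eq_sum_range_succ_mk]
  calc |∑ i ∈ Finset.range (s + 1), (p.coeff i : ℝ) * (q.coeff (s - i) : ℝ)|
      ≤ ∑ i ∈ Finset.range (s + 1), |(p.coeff i : ℝ) * (q.coeff (s - i) : ℝ)| := Finset.abs_sum_le_sum_abs _ _
    _ ≤ ∑ i ∈ Finset.range (k + 1), |(p.coeff i : ℝ) * (q.coeff (s - i) : ℝ)| := by
        rw [← Finset.sum_filter_ne_zero]
        refine Finset.sum_le_sum_of_subset_of_nonneg ?_ (fun _ _ _ => abs_nonneg _)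
        intro i hi
        rw [Finset.mem_filter] at hi
        rw [Finset.mem_range]
        by_contra hc
        apply hi.2
        rw [coeff_eq_zero_of_natDegree_lt (by omega)]
        simp
    _ ≤ ∑ i ∈ Finset.range (k + 1), a * b := by
        refine Finset.sum_le_sum fun i _ => ?_
        rw [abs_mul]
        exact mul_le_mul (hpa i) (hqb _) (abs_nonneg _) ha
    _ = (k + 1) * (a * b) := by
        rw [Finset.sum_const, Finset.card_range, nsmul_eq_mul]
        push_cast
        ring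

theorem abs_aeval_le (p : ℤ[X]) (k : ℕ) (a M : ℝ) (hp : p.natDegree ≤ k) (hpa : ∀ i, |(p.coeff i : ℝ)| ≤ a)
    (hM : 1 ≤ M) (t : ℝ) (ht : |t| ≤ M) : |aeval t p| ≤ (k + 1) * (a * M ^ k) := by
  have ha : 0 ≤ a := (abs_nonneg _).trans (hpa 0)
  rw [aeval_eq_sum_range' (Nat.lt_succ_of_le hp)]
  calc |∑ i ∈ Finset.range (k + 1), p.coeff i • t ^ i| ≤ ∑ i ∈ Finset.range (k + 1), |p.coeff i • t ^ i| :=
        Finset.abs_sum_le_sum_abs _ _
    _ ≤ ∑ i ∈ Finset.range (k + 1), a * M ^ k := by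
        refine Finset.sum_le_sum fun i hi => ?_
        rw [zsmul_eq_mul, abs_mul, abs_pow]
        have hik : i ≤ k := Nat.lt_succ_iff.1 (Finset.mem_range.1 hi)
        have h1 : |t| ^ i ≤ M ^ k := (pow_le_pow_left₀ (abs_nonneg _) ht i).trans (pow_le_pow_right₀ hM hik)
        exact mul_le_mul (hpa i) h1 (by positivity) ha
    _ = (k + 1) * (a * M ^ k) := by
        rw [Finset.sum_const, Finset.card_range, nsmul_eq_mul]
        push_cast
        ring

set_option maxHeartbeats 1000000 in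
theorem claim2 (hbd : T_bd) (hlow : T_low) (htay : T_taylor) (hdet : T_det2) (harith : T_arith)
    (haux : T_aux2)
    {m : ℕ} (v : Fin m → ℝ → ℝ) (a b : ℝ) (hab : a < b)
    (han : ∀ l, AnalyticOnNhd ℝ (v l) (Icc a b)) (hm : Meas v a b) (A β : ℝ) (hA : 0 ≤ A) (r : ℕ)
    (hβ : 2 * (r : ℝ) / (r + 1) < β) : ∀ (D : ℕ) (κ : ℝ),
    ∃ (Bd : ℕ) (B T0 : ℝ), 1 ≤ T0 ∧ ∀ T : ℝ, T0 ≤ T → ∀ P : Fin r → Fin m → ℤ[X],
      (∀ l i, (P l i).natDegree ≤ D) → (∀ l i s, |((P l i).coeff s : ℝ)| ≤ T ^ κ) → PIndZ P →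
      ∀ u u' : ℝ, a ≤ u → u' ≤ b → T ^ (-2 : ℝ) ≤ u' - u → u' - u ≤ T ^ (-β) →
      ∀ Z : Finset ℚ, (∀ q ∈ Z, (q : ℝ) ∈ Icc u u' ∧ (q.den : ℝ) ≤ T ∧
        ∃ c : Fin r → ℤ, c ≠ 0 ∧ (∀ l, |(c l : ℝ)| ≤ T ^ A) ∧ |∑ l, (c l : ℝ) * gg v P l q| ≤ T ^ (-B)) →
      Z.card ≤ Bd := by
  classical
  induction r with
  | zero =>
    intro D κ
    refine ⟨0, 0, 1, le_rfl, ?_⟩
    intro T _ P _ _ _ u u' _ _ _ _ Z hZ
    rw [Nat.le_zero, Finset.card_eq_zero, Finset.eq_empty_iff_forall_notMem]
    intro q hq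
    obtain ⟨-, -, c, hc, -⟩ := hZ q hq
    exact hc (Subsingleton.elim _ _)
  | succ r ih =>
    intro D κ
    have hβ' : 2 * (r : ℝ) / (r + 1) < β := by
      refine lt_of_le_of_lt ?_ hβ
      push_cast
      rw [div_le_div_iff₀ (by positivity) (by positivity)]
      nlinarith [Nat.cast_nonneg (α := ℝ) r]
    have hβ1 : 2 * ((1 : ℕ) : ℝ) / (((1 : ℕ) : ℝ) + 1) < β := by
      refine lt_of_le_of_lt ?_ hβ
      push_cast
      rw [div_le_div_iff₀ (by positivity) (by positivity)]
      nlinarith [Nat.cast_nonneg (α := ℝ) r]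
    obtain ⟨k, B1, κ1, T1, hT1, hst⟩ :=
      stage2 hbd hlow htay hdet harith haux (Nat.succ_pos r) v a b hab han hm A β hA hβ D κ
    obtain ⟨k0, B0, κ0, T0, hT0, hst0⟩ :=
      stage2 hbd hlow htay hdet harith haux Nat.one_pos v a b hab han hm A β hA hβ1 D κ
    obtain ⟨Bd, B2, T2, hT2, hih⟩ := ih hβ' (k + D) (κ1 + κ + 1)
    set Mab : ℝ := max (max |a| |b|) 1 with hMab
    have hMab1 : 1 ≤ Mab := le_max_right _ _
    refine ⟨k0 + Bd, max (max B1 B0) (B2 + κ1 + 1), max (max T1 T0) (max T2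
      (max (2 * (k + 1)) ((k + 1) * Mab ^ k))), ?_, ?_⟩
    · exact (le_max_left _ _).trans' ((le_max_left _ _).trans' hT1)
    intro T hT P hPD hPc hP u u' hau hub hlen2 hlen Z hZ
    have hTT1 : T1 ≤ T := ((le_max_left _ _).trans (le_max_left _ _)).trans hT
    have hTT0 : T0 ≤ T := ((le_max_right _ _).trans (le_max_left _ _)).trans hT
    have hTT2 : T2 ≤ T := ((le_max_left _ _).trans (le_max_right _ _)).trans hT
    have hTk : 2 * ((k : ℝ) + 1) ≤ T :=
      (((le_max_left _ _).trans (le_max_right _ _)).trans (le_max_right _ _)).trans hT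
    have hTM : ((k : ℝ) + 1) * Mab ^ k ≤ T :=
      (((le_max_right _ _).trans (le_max_right _ _)).trans (le_max_right _ _)).trans hT
    have hT1' : 1 ≤ T := hT1.trans hTT1
    have hTp : 0 < T := by linarith
    have hIcc : Icc u u' ⊆ Icc a b := Icc_subset_Icc hau hub
    set B := max (max B1 B0) (B2 + κ1 + 1) with hB
    have hBB1 : T ^ (-B) ≤ T ^ (-B1) := Real.rpow_le_rpow_of_exponent_le hT1' (by
      have : B1 ≤ B := (le_max_left _ _).trans (le_max_left _ _)
      linarith)
    have hBB0 : T ^ (-B) ≤ T ^ (-B0) := Real.rpow_le_rpow_of_exponent_le hT1' (by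
      have : B0 ≤ B := (le_max_right _ _).trans (le_max_left _ _)
      linarith)
    obtain ⟨p, hp0, hpk, hpc, hp⟩ := hst T hTT1 P hPD hPc hP u u' hau hub hlen2 hlen
    obtain ⟨l0, hl0⟩ : ∃ l0, p l0 ≠ 0 := by
      by_contra h
      push Not at h
      exact hp0 (funext h)
    have hTA : 1 ≤ T ^ A := Real.one_le_rpow hT1' hA
    -- the points where `g_{l0}` is small
    have hcard1 : (Z.filter fun q : ℚ => |gg v P l0 q| ≤ T ^ (-B0)).card ≤ k0 := by
      have hP1 : PIndZ (fun _ : Fin 1 => P l0) := by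
        intro s hs
        have hne := hP.ne_zero l0
        obtain ⟨i, hi⟩ : ∃ i, P l0 i ≠ 0 := by
          by_contra h
          push Not at h
          exact hne (funext h)
        have h1 := hs i
        rw [Fin.sum_univ_one, mul_eq_zero] at h1
        funext j
        rw [Subsingleton.elim j 0]
        exact h1.resolve_right hi
      obtain ⟨p0, hp00, hp0k, -, hp0r⟩ := hst0 T hTT0 (fun _ : Fin 1 => P l0) (fun _ i => hPD l0 i)
        (fun _ i s => hPc l0 i s) hP1 u u' hau hub hlen2 hlen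
      have hp000 : p0 0 ≠ 0 := by
        intro h
        apply hp00
        funext j
        rw [Subsingleton.elim j 0, h]
        rfl
      have hinj : Function.Injective (Int.castRingHom ℚ) := Int.cast_injective
      have hmapne : (p0 0).map (Int.castRingHom ℚ) ≠ 0 := (Polynomial.map_ne_zero_iff hinj).2 hp000
      have hsub : (Z.filter fun q : ℚ => |gg v P l0 q| ≤ T ^ (-B0)) ⊆
          ((p0 0).map (Int.castRingHom ℚ)).roots.toFinset := by
        intro q hq
        rw [Finset.mem_filter] at hq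
        rw [Multiset.mem_toFinset, mem_roots hmapne, IsRoot.def, eval_map]
        have h1 := hp0r q (hZ q hq.1).1 (hZ q hq.1).2.1 (fun _ => 1) (by
          intro _
          simpa using hTA) (by
          rw [Fin.sum_univ_one]
          have : gg v (fun _ : Fin 1 => P l0) 0 (q : ℝ) = gg v P l0 q := rfl
          rw [this]
          simpa using hq.2)
        rw [Fin.sum_univ_one] at h1
        simpa [aeval_def] using h1
      refine (Finset.card_le_card hsub).trans ((Multiset.toFinset_card_le _).trans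
        ((card_roots' _).trans (natDegree_map_le.trans (hp0k 0))))
    -- the others
    let P' : Fin r → Fin m → ℤ[X] := fun i j => p l0 * P (l0.succAbove i) j - p (l0.succAbove i) * P l0 j
    have hP'D : ∀ l i, (P' l i).natDegree ≤ k + D := by
      intro l i
      refine (natDegree_sub_le _ _).trans (max_le ?_ ?_)
      · exact natDegree_mul_le.trans (add_le_add (hpk _) (hPD _ _))
      · exact natDegree_mul_le.trans (add_le_add (hpk _) (hPD _ _))
    have hP'c : ∀ l i s, |((P' l i).coeff s : ℝ)| ≤ T ^ (κ1 + κ + 1) := by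
      intro l i s
      have h1 := coeff_mul_le (p l0) (P (l0.succAbove l) i) k _ _ (hpk _) (hpc _) (hPc _ _) s
      have h2 := coeff_mul_le (p (l0.succAbove l)) (P l0 i) k _ _ (hpk _) (hpc _) (hPc _ _) s
      simp only [P', coeff_sub, Int.cast_sub]
      calc _ ≤ |((p l0 * P (l0.succAbove l) i).coeff s : ℝ)| + |((p (l0.succAbove l) * P l0 i).coeff s : ℝ)| :=
            abs_sub _ _
        _ ≤ (k + 1) * (T ^ κ1 * T ^ κ) + (k + 1) * (T ^ κ1 * T ^ κ) := add_le_add h1 h2
        _ = (2 * (k + 1)) * (T ^ κ1 * T ^ κ) := by ring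
        _ ≤ T * (T ^ κ1 * T ^ κ) := by gcongr
        _ = T ^ (κ1 + κ + 1) := by
            nth_rewrite 1 [← Real.rpow_one T]
            rw [← Real.rpow_add hTp, ← Real.rpow_add hTp]
            congr 1
            ring
    have hP' : PIndZ P' := by
      intro s hs
      have h1 := hP (l0.insertNth (-∑ i, s i * p (l0.succAbove i)) (fun i => s i * p l0)) (by
        intro j
        rw [Fin.sum_univ_succAbove _ l0]
        simp only [Fin.insertNth_apply_same, Fin.insertNth_apply_succAbove]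
        rw [← hs j, neg_mul, Finset.sum_mul, ← Finset.sum_neg_distrib, ← Finset.sum_add_distrib]
        refine Finset.sum_congr rfl fun i _ => ?_
        simp only [P']
        ring)
      funext i
      have h2 := congrFun h1 (l0.succAbove i)
      simp only [Fin.insertNth_apply_succAbove, Pi.zero_apply, mul_eq_zero] at h2
      exact h2.resolve_right hl0
    have hcard2 : (Z.filter fun q : ℚ => ¬ |gg v P l0 q| ≤ T ^ (-B0)).card ≤ Bd := by
      refine hih T hTT2 P' hP'D hP'c hP' u u' hau hub hlen2 hlen _ ?_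
      intro q hq
      rw [Finset.mem_filter] at hq
      obtain ⟨hqZ, hqf⟩ := hq
      obtain ⟨hqI, hqd, c, hc0, hc, hcs⟩ := hZ q hqZ
      have hrel := hp q hqI hqd c hc (hcs.trans hBB1)
      refine ⟨hqI, hqd, fun i => c (l0.succAbove i), ?_, fun l => hc _, ?_⟩
      · intro h0
        have h0' : ∀ i, c (l0.succAbove i) = 0 := fun i => congrFun h0 i
        rw [Fin.sum_univ_succAbove _ l0] at hcs
        simp only [h0', Int.cast_zero, zero_mul, Finset.sum_const_zero, add_zero] at hcs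
        have hcl0 : c l0 ≠ 0 := by
          intro h1
          apply hc0
          funext l
          rcases eq_or_ne l l0 with rfl | hl
          · exact h1
          · obtain ⟨i, rfl⟩ := Fin.exists_succAbove_eq hl
            exact h0' i
        apply hqf
        have h1 : (1 : ℝ) ≤ |(c l0 : ℝ)| := by
          have := Int.one_le_abs hcl0
          exact_mod_cast this
        rw [abs_mul] at hcs
        nlinarith [abs_nonneg (gg v P l0 q)]
      · have hff : ∀ i, gg v P' i q = aeval (q : ℝ) (p l0) * gg v P (l0.succAbove i) q -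
            aeval (q : ℝ) (p (l0.succAbove i)) * gg v P l0 q := by
          intro i
          simp only [gg, P', map_sub, map_mul, Finset.mul_sum, ← Finset.sum_sub_distrib]
          exact Finset.sum_congr rfl fun j _ => by ring
        have hrel' : ∑ l, aeval (q : ℝ) (p l) * (c l : ℝ) = 0 := by
          have : ∀ l, aeval (q : ℝ) (p l) = ((aeval q (p l) : ℚ) : ℝ) := by
            intro l
            have := aeval_algebraMap_apply ℝ q (p l)
            simpa using this
          simp only [this]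
          exact_mod_cast hrel
        simp only [hff]
        have hrel2 := hrel'
        rw [Fin.sum_univ_succAbove _ l0] at hrel2
        have h2 : ∑ i, aeval (q : ℝ) (p (l0.succAbove i)) * (c (l0.succAbove i) : ℝ) =
            -(aeval (q : ℝ) (p l0) * (c l0 : ℝ)) := by
          linarith
        have hkey : ∑ i, (c (l0.succAbove i) : ℝ) * (aeval (q : ℝ) (p l0) * gg v P (l0.succAbove i) q -
              aeval (q : ℝ) (p (l0.succAbove i)) * gg v P l0 q)
            = aeval (q : ℝ) (p l0) * ∑ l, (c l : ℝ) * gg v P l q := by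
          calc _ = aeval (q : ℝ) (p l0) * (∑ i, (c (l0.succAbove i) : ℝ) * gg v P (l0.succAbove i) q) -
              (∑ i, aeval (q : ℝ) (p (l0.succAbove i)) * (c (l0.succAbove i) : ℝ)) * gg v P l0 q := by
                rw [Finset.mul_sum, Finset.sum_mul, ← Finset.sum_sub_distrib]
                exact Finset.sum_congr rfl fun j _ => by ring
            _ = _ := by rw [h2, Fin.sum_univ_succAbove _ l0]; ring
        rw [hkey, abs_mul]
        have h3 := abs_aeval_le (p l0) k _ Mab (hpk _) (hpc _) hMab1 (q : ℝ) (num_le (hIcc hqI) hqd).2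
        have hB2 : T ^ (-B) ≤ T ^ (-(B2 + κ1 + 1)) := Real.rpow_le_rpow_of_exponent_le hT1' (by
          have : B2 + κ1 + 1 ≤ B := le_max_right _ _
          linarith)
        calc |aeval (q : ℝ) (p l0)| * |∑ l, (c l : ℝ) * gg v P l q|
            ≤ ((k + 1) * (T ^ κ1 * Mab ^ k)) * T ^ (-(B2 + κ1 + 1)) :=
              mul_le_mul h3 (hcs.trans hB2) (abs_nonneg _) (by positivity)
          _ = ((k + 1) * Mab ^ k) * (T ^ κ1 * T ^ (-(B2 + κ1 + 1))) := by ring
          _ ≤ T * (T ^ κ1 * T ^ (-(B2 + κ1 + 1))) := by gcongr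
          _ = T ^ (-B2) := by
              nth_rewrite 1 [← Real.rpow_one T]
              rw [← Real.rpow_add hTp, ← Real.rpow_add hTp]
              congr 1
              ring
    rw [← Finset.card_filter_add_card_filter_not (s := Z) (p := fun q : ℚ => |gg v P l0 q| ≤ T ^ (-B0))]
    exact add_le_add hcard1 hcard2

/-- the exceptional set -/
def Exc {m : ℕ} (v : Fin m → ℝ → ℝ) (a b A B T : ℝ) : Set ℚ :=
  {q : ℚ | (q : ℝ) ∈ Icc a b ∧ (q.den : ℝ) ≤ T ∧
    ∃ c : Fin m → ℤ, c ≠ 0 ∧ (∀ l, |(c l : ℝ)| ≤ T ^ A) ∧ |∑ l, (c l : ℝ) * v l q| ≤ T ^ (-B)}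

theorem gap {q q' : ℚ} {T : ℝ} (hlt : q < q') (h1 : (q.den : ℝ) ≤ T) (h2 : (q'.den : ℝ) ≤ T) :
    T ^ (-2 : ℝ) ≤ (q' : ℝ) - q := by
  have hd : (0 : ℝ) < q.den := by exact_mod_cast q.den_pos
  have hd' : (0 : ℝ) < q'.den := by exact_mod_cast q'.den_pos
  have hT : 0 < T := hd.trans_le h1
  have hn : (q : ℝ) * q.den = q.num := by exact_mod_cast Rat.mul_den_eq_num q
  have hn' : (q' : ℝ) * q'.den = q'.num := by exact_mod_cast Rat.mul_den_eq_num q'
  have h3 : (0 : ℝ) < ((q' : ℝ) - q) * (q.den * q'.den) := by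
    have : (q : ℝ) < q' := by exact_mod_cast hlt
    have := sub_pos.2 this
    positivity
  have h4 : ((q' : ℝ) - q) * (q.den * q'.den) = ((q'.num * q.den - q.num * q'.den : ℤ) : ℝ) := by
    push_cast
    rw [← hn, ← hn']
    ring
  have h5 : (1 : ℝ) ≤ ((q' : ℝ) - q) * (q.den * q'.den) := by
    rw [h4] at h3 ⊢
    have : 0 < q'.num * (q.den : ℤ) - q.num * (q'.den : ℤ) := by exact_mod_cast h3
    exact_mod_cast this
  have h6 : (q.den : ℝ) * q'.den ≤ T ^ 2 := by rw [sq]; exact mul_le_mul h1 h2 hd'.le hT.le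
  have h7 : 0 ≤ (q' : ℝ) - q := by
    have : (q : ℝ) < q' := by exact_mod_cast hlt
    linarith
  have h8 : (1 : ℝ) ≤ ((q' : ℝ) - q) * T ^ 2 := h5.trans (by gcongr)
  rw [Real.rpow_neg hT.le, ← one_div, div_le_iff₀ (by positivity)]
  exact_mod_cast h8

theorem theoremA (hbd : T_bd) (hlow : T_low) (htay : T_taylor) (hdet : T_det2) (harith : T_arith)
    (haux : T_aux2)
    {m : ℕ} (v : Fin m → ℝ → ℝ) (a b : ℝ) (hab : a < b)
    (han : ∀ l, AnalyticOnNhd ℝ (v l) (Icc a b)) (hm : Meas v a b) (A β : ℝ) (hA : 0 ≤ A)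
    (hβ : 2 * (m : ℝ) / (m + 1) < β) :
    ∃ B C : ℝ, 0 < C ∧ ∀ T : ℝ, 1 ≤ T → (Exc v a b A B T).Finite ∧ ((Exc v a b A B T).ncard : ℝ) ≤ C * T ^ β := by
  classical
  have hβ0 : 0 < β := lt_of_le_of_lt (by positivity) hβ
  obtain ⟨Bd, B, T0, hT0, hcl⟩ := claim2 hbd hlow htay hdet harith haux v a b hab han hm A β hA m hβ 0 0
  -- the identity matrix
  let P : Fin m → Fin m → ℤ[X] := fun l i => if i = l then 1 else 0
  have hPD : ∀ l i, (P l i).natDegree ≤ 0 := by
    intro l i
    simp only [P]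
    split_ifs <;> simp
  have hPc : ∀ T : ℝ, ∀ l i s, |((P l i).coeff s : ℝ)| ≤ T ^ (0 : ℝ) := by
    intro T l i s
    rw [Real.rpow_zero]
    simp only [P]
    split_ifs
    · rw [coeff_one]
      split_ifs <;> simp
    · simp
  have hP : PIndZ P := by
    intro s hs
    funext l
    have := hs l
    simpa [P] using this
  have hff : ∀ l t, gg v P l t = v l t := by
    intro l t
    simp only [gg, P]
    rw [Finset.sum_eq_single l]
    · simp
    · intro i _ hi
      simp [hi]
    · simp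
  have hfin : ∀ T, (Exc v a b A B T).Finite := fun T => (finite_rat a b T).subset (fun q hq => ⟨hq.1, hq.2.1⟩)
  set B1 : ℝ := max (Bd : ℝ) 1 with hB1
  set C0 : ℝ := ((finite_rat a b T0).toFinset.card : ℝ) with hC0
  refine ⟨B, B1 * (b - a + 1) + C0, by positivity [sub_pos.2 hab], ?_⟩
  intro T hT
  refine ⟨hfin T, ?_⟩
  have hTp : 0 < T := by linarith
  have hTβ : 1 ≤ T ^ β := Real.one_le_rpow hT hβ0.le
  have hbapos : 0 < b - a := by linarith
  rcases lt_or_ge T T0 with hlt | hge
  · have h1 : (Exc v a b A B T).ncard ≤ (finite_rat a b T0).toFinset.card := by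
      rw [← Set.ncard_eq_toFinset_card _ (finite_rat a b T0)]
      exact Set.ncard_le_ncard (fun q hq => ⟨hq.1, hq.2.1.trans hlt.le⟩) (finite_rat a b T0)
    have h2 : ((Exc v a b A B T).ncard : ℝ) ≤ C0 := by rw [hC0]; exact_mod_cast h1
    have h3 : 0 ≤ B1 * (b - a + 1) := by positivity
    have h4 : 0 ≤ C0 := by positivity
    nlinarith
  · rw [Set.ncard_eq_toFinset_card _ (hfin T)]
    set Z := (hfin T).toFinset with hZ
    have hZmem : ∀ q ∈ Z, q ∈ Exc v a b A B T := fun q hq => (hfin T).mem_toFinset.1 hq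
    let g : ℚ → ℕ := fun q => ⌊((q : ℝ) - a) * T ^ β⌋₊
    have hmaps : ∀ q ∈ Z, g q ∈ Finset.range (⌊(b - a) * T ^ β⌋₊ + 1) := by
      intro q hq
      rw [Finset.mem_range, Nat.lt_succ_iff]
      apply Nat.floor_le_floor
      have := (hZmem q hq).1.2
      gcongr
    have hfib : ∀ j ∈ Finset.range (⌊(b - a) * T ^ β⌋₊ + 1), (Z.filter fun q => g q = j).card ≤ max Bd 1 := by
      intro j _
      rcases Nat.lt_or_ge 1 (Z.filter fun q => g q = j).card with h1 | h1
      swap
      · exact h1.trans (le_max_right _ _)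
      refine le_trans ?_ (le_max_left _ _)
      set F := Z.filter fun q => g q = j with hF
      have hne : F.Nonempty := Finset.card_pos.1 (by omega)
      have hmin := F.min'_mem hne
      have hmax := F.max'_mem hne
      have hlt : F.min' hne < F.max' hne := Finset.min'_lt_max'_of_card F h1
      have hFZ : ∀ q ∈ F, q ∈ Exc v a b A B T := fun q hq => hZmem q (Finset.mem_filter.1 hq).1
      have hFg : ∀ q ∈ F, g q = j := fun q hq => (Finset.mem_filter.1 hq).2
      refine hcl T hge P hPD (hPc T) hP (F.min' hne) (F.max' hne) (hFZ _ hmin).1.1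
        (hFZ _ hmax).1.2 (gap hlt (hFZ _ hmin).2.1 (hFZ _ hmax).2.1) ?_ F ?_
      · have e1 := hFg _ hmin
        have e2 := hFg _ hmax
        have f1 : (j : ℝ) ≤ ((F.min' hne : ℚ) - a) * T ^ β := by
          rw [← e1]
          exact Nat.floor_le (mul_nonneg (sub_nonneg.2 (hFZ _ hmin).1.1) (by positivity))
        have f2 : ((F.max' hne : ℚ) - a) * T ^ β < (j : ℝ) + 1 := by
          rw [← e2]
          exact Nat.lt_floor_add_one _
        have f3 : (((F.max' hne : ℚ) : ℝ) - ((F.min' hne : ℚ) : ℝ)) * T ^ β ≤ 1 := by nlinarith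
        rw [Real.rpow_neg hTp.le, ← one_div, le_div_iff₀ (by positivity)]
        exact f3
      · intro q hq
        obtain ⟨h2, h3, c, hc0, hc, hcs⟩ := hFZ q hq
        refine ⟨⟨by exact_mod_cast F.min'_le q hq, by exact_mod_cast F.le_max' q hq⟩, h3, c, hc0, hc, ?_⟩
        simpa only [hff] using hcs
    have hcard := Finset.card_le_mul_card_image_of_maps_to hmaps (max Bd 1) hfib
    rw [Finset.card_range] at hcard
    have h5 : (Z.card : ℝ) ≤ B1 * ((⌊(b - a) * T ^ β⌋₊ : ℝ) + 1) := by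
      have : (Z.card : ℝ) ≤ ((max Bd 1 * (⌊(b - a) * T ^ β⌋₊ + 1) : ℕ) : ℝ) := by exact_mod_cast hcard
      push_cast at this
      exact this
    have h6 : (⌊(b - a) * T ^ β⌋₊ : ℝ) ≤ (b - a) * T ^ β := Nat.floor_le (by positivity)
    have hB1p : 0 < B1 := lt_of_lt_of_le one_pos (le_max_right _ _)
    have h7 : B1 * ((⌊(b - a) * T ^ β⌋₊ : ℝ) + 1) ≤ B1 * ((b - a + 1) * T ^ β) := by
      refine mul_le_mul_of_nonneg_left ?_ hB1p.le
      nlinarith
    have h8 : 0 ≤ C0 * T ^ β := by positivity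
    calc (Z.card : ℝ) ≤ B1 * ((b - a + 1) * T ^ β) := h5.trans h7
      _ ≤ (B1 * (b - a + 1) + C0) * T ^ β := by nlinarith

end Pool.Agent.TH818.AP
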