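import Pool.Agent.TH818.AR.Defs

/-!
# Approximate relations at rational points, and a measure of transcendence of π: statements
-/

set_option autoImplicit false

open Set Polynomial Filter Topology

namespace Pool.Agent.TH818.AP

open Pool.Agent.TH818.AR

/-! ## Determinants -/

/-- like `T_det` (file `Det.lean` of `AR`), but the relations hold only approximately -/
def T_det2 : Prop := ∀ (r k : ℕ) (l0 : Fin r) (t0 η H B : ℝ) (t : Fin (k + 1) × Fin r → ℝ)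
  (c F : Fin (k + 1) × Fin r → Fin r → ℝ) (τ : Fin r → ℕ → ℝ),
  0 ≤ η → η ≤ 1 → 0 ≤ H → 0 ≤ B → (∀ x, |t x - t0| ≤ η) → (∀ x l, |c x l| ≤ H) →
  (∀ x, |∑ l, c x l * F x l| ≤ H * B * η ^ (k + 1)) →
  (∀ x l i, i ≤ k → |F x l - ∑ j ∈ Finset.range (i + 1), τ l j * (t x - t0) ^ j| ≤ B * η ^ (i + 1)) →
  |(Matrix.of fun x y : Fin (k + 1) × Fin r => t x ^ (y.1 : ℕ) * c x y.2).det| * |τ l0 0| ^ (k + 1) ≤
    (((k + 1) * r).factorial : ℝ) * H ^ ((k + 1) * r) * ((r + 1) * B) ^ (k + 1) * η ^ ex r k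

/-- integral version of `T_aux`, with a bound for the coefficients (use Siegel's lemma
`Int.Matrix.exists_ne_zero_int_vec_norm_le` for a maximal independent set of rows
`num^i * den^(k-i) * c l`, whose entries are at most `M ^ k * H`) -/
def T_aux2 : Prop := ∀ (r k : ℕ) (M H : ℝ) (S : Set (ℚ × (Fin r → ℤ))),
  0 < r → 1 ≤ M → 1 ≤ H → (∀ s ∈ S, |(s.1.num : ℝ)| ≤ M ∧ (s.1.den : ℝ) ≤ M ∧ ∀ l, |(s.2 l : ℝ)| ≤ H) →
  (∀ e : Fin (k + 1) × Fin r → ℚ × (Fin r → ℤ), (∀ x, e x ∈ S) →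
    (Matrix.of fun x y : Fin (k + 1) × Fin r => (e x).1 ^ (y.1 : ℕ) * ((e x).2 y.2 : ℚ)).det = 0) →
  ∃ p : Fin r → ℤ[X], p ≠ 0 ∧ (∀ l, (p l).natDegree ≤ k) ∧
    (∀ l i, |((p l).coeff i : ℝ)| ≤ (((k + 1) * r : ℕ) * M ^ k * H) ^ ((k + 1) * r)) ∧
    ∀ s ∈ S, ∑ l, aeval s.1 (p l) * (s.2 l : ℚ) = 0

/-! ## A measure of transcendence of π (Mahler's method: type I Hermite–Padé approximants of
`1, e^z, …, e^{mz}` with polynomials of bounded degree `n`, `m → ∞`) -/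

/-- the multiplicities: `n` at `k ≠ j`, `n + 1` at `k = j` -/
def mu {m : ℕ} (n : ℕ) (j k : Fin (m + 1)) : ℕ := n + if k = j then 1 else 0

/-- partial fractions of `D / ∏ (X - k)^(mu k)` with numerators `s! * a k s`, `s < mu k`:
`∑_{k,s} s! a_{k,s} (X - k)^(mu k - 1 - s) ∏_{l ≠ k} (X - l)^(mu l) = D` -/
def PF {m : ℕ} (n : ℕ) (j : Fin (m + 1)) (D : ℕ) (a : Fin (m + 1) → ℕ → ℤ) : Prop :=
  ∑ k : Fin (m + 1), ∑ s ∈ Finset.range (mu n j k),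
    C (((s.factorial : ℤ) * a k s)) * (X - C ((k : ℕ) : ℤ)) ^ (mu n j k - 1 - s) *
      ∏ l ∈ Finset.univ.erase k, (X - C ((l : ℕ) : ℤ)) ^ (mu n j l) = (C (D : ℤ) : ℤ[X])

/-- existence of the partial fractions, with bounds. `D = n! * (m!)^n * L^(n+1)`, `L = lcm(1..m)`
(`L ≤ exp (c m)` by `Chebyshev.psi_le_const_mul_self`); `a k s = D / s!` times the coefficient of
`Y^(mu k - 1 - s)` in `∏_{l ≠ k} (k - l + Y)^(- mu l)` -/
def T_pf : Prop := ∃ C0 : ℝ, 1 ≤ C0 ∧ ∀ m n : ℕ, 1 ≤ m → 1 ≤ n → ∃ D : ℕ, 0 < D ∧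
  (D : ℝ) ≤ (n.factorial : ℝ) * (m.factorial : ℝ) ^ n * C0 ^ (m * n) ∧
  ∀ j : Fin (m + 1), ∃ a : Fin (m + 1) → ℕ → ℤ, PF n j D a ∧ (∀ k s, mu n j k ≤ s → a k s = 0) ∧
    ∀ k s, |(a k s : ℝ)| ≤ (n.factorial : ℝ) * C0 ^ (m * n)

/-- the approximant `∑_k A_k(z) e^(kz)`, `A_k(z) = ∑_{s ≤ n} a k s z^s` -/
noncomputable def RR {m : ℕ} (n : ℕ) (a : Fin (m + 1) → ℕ → ℤ) (z : ℂ) : ℂ :=
  ∑ k : Fin (m + 1), (∑ s ∈ Finset.range (n + 1), (a k s : ℂ) * z ^ s) * Complex.exp (((k : ℕ) : ℂ) * z)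

/-- size of the approximant: the `t`-th derivative at `0` is `∑_{k,s} s! a_{k,s} (t choose s) k^(t-s)`, which is the
coefficient of `X^t` in `D X^((m+1)n) / ∏ (1 - k X)^(mu k)`: it is `0` for `t < (m+1)n` and at most
`D * ((m+1)n + i choose i) * m^i` for `t = (m+1)n + i` -/
def T_pfb : Prop := ∀ (m n : ℕ) (j : Fin (m + 1)) (D : ℕ) (a : Fin (m + 1) → ℕ → ℤ), 1 ≤ n →
  PF n j D a → (∀ k s, mu n j k ≤ s → a k s = 0) → ∀ z : ℂ,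
  ‖RR n a z‖ ≤ D * ‖z‖ ^ ((m + 1) * n) / (((m + 1) * n).factorial : ℝ) * Real.exp (m * ‖z‖)

/-- the approximants are independent. The determinant is a polynomial of degree `(m+1)n` in `z` with leading
coefficient `∏ a_j j n ≠ 0` and, replacing the row `k = 0` by `RR n (a j) z = O(z^((m+1)n))` (from `T_pfb`), it
is divisible by `z^((m+1)n)` -/
def T_pfd : Prop := ∀ (m n : ℕ) (D : ℕ) (a : Fin (m + 1) → Fin (m + 1) → ℕ → ℤ), 1 ≤ n → 0 < D →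
  (∀ j, PF n j D (a j)) → (∀ j k s, mu n j k ≤ s → a j k s = 0) → ∀ z : ℂ, z ≠ 0 →
  (Matrix.of fun j k : Fin (m + 1) => ∑ s ∈ Finset.range (n + 1), (a j k s : ℂ) * z ^ s).det ≠ 0

/-- the approximating polynomials at `iπ` (from the previous statements): `B j = ∑_k (-1)^k A_{j,k}`,
for `z ≠ 0` not all of them vanish at `z` -/
def T_appr : Prop := ∃ C0 : ℝ, 1 ≤ C0 ∧ ∀ m n : ℕ, 1 ≤ m → 1 ≤ n →
  ∃ B : Fin (m + 1) → ℤ[X], (∀ j, (B j).natDegree ≤ n) ∧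
    (∀ j i, |((B j).coeff i : ℝ)| ≤ (n.factorial : ℝ) * C0 ^ (m * n)) ∧
    (∀ j, ‖aeval ((Real.pi : ℂ) * Complex.I) (B j)‖ ≤ (n.factorial : ℝ) * (C0 / n) ^ (m * n)) ∧
    ∀ z : ℂ, z ≠ 0 → ∃ j, aeval z (B j) ≠ 0

/-- measure of transcendence of `iπ`, irreducible polynomials. Take a root `ξ` of `P` closest to `iπ`,
`|ξ - iπ| ≤ |P(iπ)|^(1/d)`, and `j` with `B j (ξ) ≠ 0`; then `a^n ∏ B_j(ξ_i)` (`a` the leading coefficient, `ξ_i` the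
roots of `P`) is a nonzero integer, while `|a|^n ∏ max(1,|ξ_i|)^n ≤ ((d+1)H)^n`. Choose `n` large in terms of `d`
and `C0`, then `m` of the order of `log H` -/
def T_irr : Prop := ∀ d : ℕ, ∃ κ c : ℝ, 0 < κ ∧ 0 < c ∧ ∀ (H : ℝ) (P : ℤ[X]), 1 ≤ H → Irreducible P →
  P.natDegree ≤ d → (∀ i, |(P.coeff i : ℝ)| ≤ H) →
  c * H ^ (-κ) ≤ ‖aeval ((Real.pi : ℂ) * Complex.I) P‖

/-- measure of transcendence of π, all polynomials (from `T_irr`: apply it to the irreducible factors of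
`P(ix)P(-ix) ∈ ℤ[x]`, whose coefficients are bounded through the Mahler measure) -/
def T_pi : Prop := ∀ d : ℕ, ∃ κ c : ℝ, 0 < κ ∧ 0 < c ∧ ∀ (H : ℝ) (P : ℤ[X]), 1 ≤ H → P ≠ 0 →
  P.natDegree ≤ d → (∀ i, |(P.coeff i : ℝ)| ≤ H) → c * H ^ (-κ) ≤ |aeval Real.pi P|

end Pool.Agent.TH818.AP
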