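import Pool.Agent.TH818.AP.Defs

/-!
# Algebraic independence of complete elliptic integrals in several moduli: statements
-/

set_option autoImplicit false

open Set Polynomial Filter Topology

namespace Pool.Agent.TH818.AP

open Pool.Agent.TH818.AR

/-- `K(t)`, `E(t)`, `K(1-t)` are algebraically independent over the ring of the functions analytic near `[0,1]` -/
def T_ind3r : Prop := ∀ (ε : ℝ), 0 < ε → ∀ (m n : ℕ) (p : ℕ → ℕ → ℕ → ℝ → ℝ),
  (∀ j d i, AnalyticOnNhd ℝ (p j d i) (Ioo (-ε) (1 + ε))) →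
  (∀ t : ℝ, 0 < t → t < 1 → ∑ j ∈ Finset.range (m + 1), ∑ d ∈ Finset.range (n + 1), ∑ i ∈ Finset.range (d + 1),
    p j d i t * KK t ^ i * EE t ^ (d - i) * KK (1 - t) ^ j = 0) →
  ∀ j ≤ m, ∀ d ≤ n, ∀ i ≤ d, ∀ t ∈ Ioo (-ε) (1 + ε), p j d i t = 0

/-- `K(s)`, `E(s)`, `K(1-s)` for `s = (t - α)/(γ - α)` -/
noncomputable def KC (α γ : ℝ) (i : Fin 3) (t : ℝ) : ℝ :=
  if i = 0 then KK ((t - α) / (γ - α)) else if i = 1 then EE ((t - α) / (γ - α)) else KK ((γ - t) / (γ - α))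

/-- monomials in the functions `KC (α j) (γ j) i`, exponents at most `d` -/
noncomputable def mon {n d : ℕ} (α γ : Fin n → ℝ) (e : Fin n → Fin 3 → Fin (d + 1)) (t : ℝ) : ℝ :=
  ∏ j, ∏ i, KC (α j) (γ j) i t ^ (e j i : ℕ)

/-- independence for nested intervals `(α j, γ j)` -/
def T_nest : Prop := ∀ (n d : ℕ) (α γ : Fin (n + 1) → ℝ), StrictAnti α → StrictMono γ → α 0 < γ 0 →
  ∀ a b : ℝ, α 0 < a → a < b → b < γ 0 → ∀ p : (Fin (n + 1) → Fin 3 → Fin (d + 1)) → ℝ[X],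
  (∀ t ∈ Icc a b, ∑ e, (p e).eval t * mon α γ e t = 0) → p = 0

end Pool.Agent.TH818.AP
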