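import Pool.Agent.TH818.AP.Api

/-!
# Beta values: statement
-/

set_option autoImplicit false

open Set Polynomial Filter Topology

namespace Pool.Agent.TH818.AP

/-- `B(t, ρ) = Γ(t) Γ(ρ) / Γ(t + ρ)` -/
noncomputable def Bt (ρ t : ℝ) : ℝ := Real.Gamma t * Real.Gamma ρ / Real.Gamma (t + ρ)

/-- `t`, `B(t, ρ_1)`, …, `B(t, ρ_s)` are algebraically independent over `ℝ` if `ρ_i` and `ρ_i - ρ_j` are not integers -/
def T_beta : Prop := ∀ (s d : ℕ) (ρ : Fin s → ℝ) (a b : ℝ), (∀ i, 0 < ρ i) → (∀ i, ∀ z : ℤ, ρ i ≠ z) →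
  (∀ i j, i ≠ j → ∀ z : ℤ, ρ i - ρ j ≠ z) → 0 < a → a < b →
  RIndep (fun (e : Fin s → Fin (d + 1)) (t : ℝ) => ∏ i, Bt (ρ i) t ^ (e i : ℕ)) a b

/-- analyticity -/
def T_betaAn : Prop := ∀ (ρ t : ℝ), 0 < ρ → 0 < t → AnalyticAt ℝ (Bt ρ) t

/-- Euler's integral -/
def T_betaInt : Prop := ∀ (ρ t : ℝ), 0 < ρ → 0 < t →
  ∫ x in (0 : ℝ)..1, x ^ (t - 1) * (1 - x) ^ (ρ - 1) = Bt ρ t

end Pool.Agent.TH818.AP
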