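import Pool.Agent.TH818.AP.Api

/-!
# Polylogarithms: statements
-/

set_option autoImplicit false

open Set Polynomial Filter Topology

namespace Pool.Agent.TH818.AP

open Pool.Agent.TH818.AR

/-- polylogarithm `Li_k(t) = ∑_{n ≥ 1} t^n / n^k` -/
noncomputable def Li (k : ℕ) (t : ℝ) : ℝ := ∑' n : ℕ, t ^ (n + 1) / ((n : ℝ) + 1) ^ k

def T_liAn : Prop := ∀ k : ℕ, AnalyticOnNhd ℝ (Li k) (Ioo (-1) 1)

/-- the singularity at `1`. `h_k = Li_k + (log t)^(k-1)/(k-1)! log(1-t)` has `h_1 = 0`,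
`h_k' = h_{k-1}/t - (log t)^(k-1)/((k-1)! (1-t))`, and `(log t)^(k-1)/(1-t)` is analytic at `1` for `k ≥ 2` -/
def T_liLoc : Prop := ∀ k : ℕ, 1 ≤ k → ∃ H : ℝ → ℝ, AnalyticAt ℝ H 1 ∧ ∀ᶠ t in 𝓝[<] (1 : ℝ),
  Li k t = H t - (Real.log t) ^ (k - 1) / ((k - 1).factorial : ℝ) * Real.log (1 - t)

/-- `log t`, `Li_1(t)`, `Li_2(t)`, … -/
noncomputable def pl (k : ℕ) (t : ℝ) : ℝ := if k = 0 then Real.log t else Li k t

/-- monomials in `log t`, `Li_1(t)`, …, `Li_w(t)` -/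
noncomputable def gLi {w d : ℕ} (e : Fin (w + 1) → Fin (d + 1)) (t : ℝ) : ℝ :=
  ∏ k : Fin (w + 1), pl (k : ℕ) t ^ (e k : ℕ)

/-- `t`, `log t`, `Li_1(t)`, …, `Li_w(t)` are algebraically independent over `ℝ` -/
def T_liInd : Prop := ∀ (w d : ℕ) (a b : ℝ), 0 < a → a < b → b < 1 →
  RIndep (fun e : Fin (w + 1) → Fin (d + 1) => gLi e) a b

end Pool.Agent.TH818.AP
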