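import Pool.Agent.TH818.AP.Hyp

/-!
# Solutions of `G' = (∑ X_i / (z - s_i)) G`: independence over analytic functions
-/

set_option autoImplicit false
set_option maxHeartbeats 400000

open Set Polynomial Filter Topology

namespace Pool.Agent.TH818.AP.Hyp

open Pool.Agent.TH818.AR

variable {m : ℕ} (s : Fin m → ℝ)

theorem val_eq {F G : ℝ → ℝ} {x : ℝ} (hF : ContinuousAt F x) (hG : ContinuousAt G x) (h : ∀ᶠ t in 𝓝[≠] x, F t = G t) :
    F x = G x := by
  have h1 : Tendsto F (𝓝[≠] x) (𝓝 (F x)) := hF.tendsto.mono_left nhdsWithin_le_nhds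
  have h2 : Tendsto G (𝓝[≠] x) (𝓝 (G x)) := hG.tendsto.mono_left nhdsWithin_le_nhds
  exact tendsto_nhds_unique (h1.congr' h) h2

theorem deriv_pow_mul {P P1 : ℝ → ℝ} {x : ℝ} {p : ℕ} (hP1 : AnalyticAt ℝ P1 x)
    (h : ∀ᶠ t in 𝓝 x, P t = (t - x) ^ p • P1 t) :
    ∀ᶠ t in 𝓝 x, (t - x) * deriv P t = (t - x) ^ p * (p * P1 t + (t - x) * deriv P1 t) := by
  filter_upwards [h.eventually_nhds, hP1.eventually_analyticAt] with t ht ht1
  have h1 : deriv P t = deriv (fun t => (t - x) ^ p * P1 t) t := by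
    refine Filter.EventuallyEq.deriv_eq ?_
    filter_upwards [ht] with y hy
    rw [hy, smul_eq_mul]
  have h2 : HasDerivAt (fun t : ℝ => (t - x) ^ p) (p * (t - x) ^ (p - 1) * 1) t :=
    ((hasDerivAt_id t).sub_const x).pow p
  have h3 := h2.mul ht1.differentiableAt.hasDerivAt
  have h4 : deriv (fun t => (t - x) ^ p * P1 t) t = p * (t - x) ^ (p - 1) * 1 * P1 t + (t - x) ^ p * deriv P1 t :=
    h3.deriv
  rw [h1, h4]
  cases p with
  | zero =>
    simp
  | succ p =>
    simp only [Nat.add_sub_cancel, pow_succ]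
    push_cast
    ring

theorem no_log_an (hs : Function.Injective s) (P R : ℝ → ℝ) (x : Fin m) (hPa : AnalyticAt ℝ P (s x))
    (hRa : AnalyticAt ℝ R (s x)) (hR : ¬ ∀ᶠ t in 𝓝 (s x), R t = 0) (c : Fin m → ℝ)
    (h : ∀ᶠ t in 𝓝 (s x), (Q s).eval t * (R t * deriv P t - deriv R t * P t) =
      -(R t ^ 2 * (∑ y, C (c y) * Qx s y).eval t)) : c x = 0 := by
  classical
  by_contra hc
  set x0 := s x with hx0
  have hS : (∑ y, C (c y) * Qx s y).eval x0 ≠ 0 := by
    rw [hx0, eval_sum_Qx]
    exact mul_ne_zero hc (Qx_self s hs x)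
  have hScont : ContinuousAt (fun t => (∑ y, C (c y) * Qx s y).eval t) x0 := (Polynomial.continuous _).continuousAt
  have hQcont : ContinuousAt (fun t => (Qx s x).eval t) x0 := (Polynomial.continuous _).continuousAt
  obtain ⟨r, R1, hR1a, hR1, hR1e⟩ := hRa.exists_eventuallyEq_pow_smul_nonzero_iff.2 hR
  have hQe : ∀ t, (Q s).eval t = (t - x0) * (Qx s x).eval t := by
    intro t
    rw [Q_eq s x, eval_mul, eval_sub, eval_X, eval_C]
  have hne : ∀ᶠ t in 𝓝[≠] x0, t - x0 ≠ 0 := by
    filter_upwards [self_mem_nhdsWithin] with t ht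
    exact sub_ne_zero.2 ht
  have hR1cont := hR1a.continuousAt
  by_cases hP : ∀ᶠ t in 𝓝 x0, P t = 0
  · have h1 : ∀ᶠ t in 𝓝[≠] x0, R1 t ^ 2 * (∑ y, C (c y) * Qx s y).eval t = 0 := by
      have hP2 := hP.eventually_nhds
      filter_upwards [nhdsWithin_le_nhds h, nhdsWithin_le_nhds hP2, nhdsWithin_le_nhds hR1e, hne] with t ht hPt hRt hn
      have h2 : deriv P t = 0 := by
        have : P =ᶠ[𝓝 t] fun _ => (0 : ℝ) := hPt
        rw [this.deriv_eq]
        simp
      rw [h2, hPt.self_of_nhds, hRt, smul_eq_mul] at ht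
      have h3 : (t - x0) ^ r * (t - x0) ^ r ≠ 0 := mul_ne_zero (pow_ne_zero _ hn) (pow_ne_zero _ hn)
      have h4 : ((t - x0) ^ r * (t - x0) ^ r) * (R1 t ^ 2 * (∑ y, C (c y) * Qx s y).eval t) = 0 := by
        linear_combination ht
      exact (mul_eq_zero.1 h4).resolve_left h3
    have h2 := val_eq ((hR1cont.pow 2).mul hScont) (continuousAt_const (y := (0 : ℝ))) h1
    exact (mul_ne_zero (pow_ne_zero 2 hR1) hS) h2
  obtain ⟨p, P1, hP1a, hP1, hP1e⟩ := hPa.exists_eventuallyEq_pow_smul_nonzero_iff.2 hP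
  have hP1cont := hP1a.continuousAt
  have hdP := deriv_pow_mul hP1a hP1e
  have hdR := deriv_pow_mul hR1a hR1e
  have hW : ContinuousAt (fun t => (Qx s x).eval t * (((p : ℝ) - r) * P1 t * R1 t +
      (t - x0) * (R1 t * deriv P1 t - deriv R1 t * P1 t))) x0 := by
    have h1 : ContinuousAt (fun t : ℝ => t - x0) x0 := continuousAt_id.sub continuousAt_const
    have h2 := hP1a.deriv.continuousAt
    have h3 := hR1a.deriv.continuousAt
    exact hQcont.mul (((continuousAt_const.mul hP1cont).mul hR1cont).add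
      (h1.mul ((hR1cont.mul h2).sub (h3.mul hP1cont))))
  have hV : ContinuousAt (fun t => -(R1 t ^ 2 * (∑ y, C (c y) * Qx s y).eval t)) x0 :=
    ((hR1cont.pow 2).mul hScont).neg
  have hpw : ∀ k : ℕ, ContinuousAt (fun t : ℝ => (t - x0) ^ (k + 1)) x0 := fun k =>
    (continuousAt_id.sub continuousAt_const).pow _
  have key : ∀ᶠ t in 𝓝[≠] x0, (t - x0) ^ (r + p) * ((Qx s x).eval t * (((p : ℝ) - r) * P1 t * R1 t +
      (t - x0) * (R1 t * deriv P1 t - deriv R1 t * P1 t))) =
      (t - x0) ^ (r + r) * (-(R1 t ^ 2 * (∑ y, C (c y) * Qx s y).eval t)) := by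
    filter_upwards [nhdsWithin_le_nhds h, nhdsWithin_le_nhds hdP, nhdsWithin_le_nhds hdR, nhdsWithin_le_nhds hP1e,
      nhdsWithin_le_nhds hR1e] with t ht h1 h2 h3 h4
    rw [smul_eq_mul] at h3 h4
    rw [hQe] at ht
    have e1 : (t - x0) * (Qx s x).eval t * (R t * deriv P t - deriv R t * P t) =
        (Qx s x).eval t * (R t * ((t - x0) * deriv P t) - ((t - x0) * deriv R t) * P t) := by ring
    rw [e1, h1, h2, h3, h4] at ht
    rw [pow_add, pow_add]
    linear_combination ht
  rcases lt_trichotomy p r with hlt | heq | hgt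
  · obtain ⟨k, hk⟩ := Nat.exists_eq_add_of_lt hlt
    have h1 : ∀ᶠ t in 𝓝[≠] x0, (Qx s x).eval t * (((p : ℝ) - r) * P1 t * R1 t +
        (t - x0) * (R1 t * deriv P1 t - deriv R1 t * P1 t)) =
        (t - x0) ^ (k + 1) * (-(R1 t ^ 2 * (∑ y, C (c y) * Qx s y).eval t)) := by
      filter_upwards [key, hne] with t ht hn
      refine mul_left_cancel₀ (pow_ne_zero (r + p) hn) (ht.trans ?_)
      rw [← mul_assoc, ← pow_add]
      congr 2
      omega
    have h2 : (Qx s x).eval x0 * (((p : ℝ) - r) * P1 x0 * R1 x0 +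
        (x0 - x0) * (R1 x0 * deriv P1 x0 - deriv R1 x0 * P1 x0)) =
        (x0 - x0) ^ (k + 1) * (-(R1 x0 ^ 2 * (∑ y, C (c y) * Qx s y).eval x0)) := val_eq hW ((hpw k).mul hV) h1
    rw [sub_self, zero_pow (Nat.succ_ne_zero k), zero_mul, zero_mul, add_zero] at h2
    have h3 : ((p : ℝ) - r) ≠ 0 := by
      rw [sub_ne_zero]
      exact_mod_cast hlt.ne
    exact (mul_ne_zero (Qx_self s hs x) (mul_ne_zero (mul_ne_zero h3 hP1) hR1)) h2
  · have h1 : ∀ᶠ t in 𝓝[≠] x0, (Qx s x).eval t * (((p : ℝ) - r) * P1 t * R1 t +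
        (t - x0) * (R1 t * deriv P1 t - deriv R1 t * P1 t)) =
        -(R1 t ^ 2 * (∑ y, C (c y) * Qx s y).eval t) := by
      filter_upwards [key, hne] with t ht hn
      refine mul_left_cancel₀ (pow_ne_zero (r + p) hn) (ht.trans ?_)
      rw [heq]
    have h2 := val_eq hW hV h1
    rw [heq] at h2
    simp only [sub_self, zero_mul, add_zero, mul_zero] at h2
    exact (mul_ne_zero (pow_ne_zero 2 hR1) hS) (neg_eq_zero.1 h2.symm)
  · obtain ⟨k, hk⟩ := Nat.exists_eq_add_of_lt hgt
    have h1 : ∀ᶠ t in 𝓝[≠] x0, (t - x0) ^ (k + 1) * ((Qx s x).eval t * (((p : ℝ) - r) * P1 t * R1 t +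
        (t - x0) * (R1 t * deriv P1 t - deriv R1 t * P1 t))) =
        -(R1 t ^ 2 * (∑ y, C (c y) * Qx s y).eval t) := by
      filter_upwards [key, hne] with t ht hn
      refine mul_left_cancel₀ (pow_ne_zero (r + r) hn) (Eq.trans ?_ ht)
      rw [← mul_assoc, ← pow_add]
      congr 2
      omega
    have h2 : (x0 - x0) ^ (k + 1) * ((Qx s x).eval x0 * (((p : ℝ) - r) * P1 x0 * R1 x0 +
        (x0 - x0) * (R1 x0 * deriv P1 x0 - deriv R1 x0 * P1 x0))) =
        -(R1 x0 ^ 2 * (∑ y, C (c y) * Qx s y).eval x0) := val_eq ((hpw k).mul hW) hV h1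
    rw [sub_self, zero_pow (Nat.succ_ne_zero k), zero_mul] at h2
    exact (mul_ne_zero (pow_ne_zero 2 hR1) hS) (neg_eq_zero.1 h2.symm)

/-- identity theorem -/
theorem ident {J : Set ℝ} (hJ : IsPreconnected J) {f : ℝ → ℝ} (hf : AnalyticOnNhd ℝ f J) {x : ℝ} (hx : x ∈ J)
    (h : ∀ᶠ t in 𝓝 x, f t = 0) : ∀ t ∈ J, f t = 0 := fun t ht =>
  hf.eqOn_zero_of_preconnected_of_eventuallyEq_zero hJ hx h ht

/-- proportional functions -/
theorem prop_an {J : Set ℝ} (hJ : IsPreconnected J) {u v : ℝ} (huvJ : Ioo u v ⊆ J) {P R : ℝ → ℝ}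
    (hP : AnalyticOnNhd ℝ P J) (hR : AnalyticOnNhd ℝ R J) {t1 : ℝ} (ht1 : t1 ∈ Ioo u v) (hR1 : R t1 ≠ 0)
    (h : ∀ t ∈ Ioo u v, deriv P t * R t = P t * deriv R t) : ∃ c : ℝ, ∀ t ∈ J, P t = c * R t := by
  have hcont : ContinuousAt R t1 := (hR t1 (huvJ ht1)).continuousAt
  have hev : ∀ᶠ t in 𝓝 t1, R t ≠ 0 ∧ t ∈ Ioo u v :=
    (hcont.eventually_ne hR1).and (Ioo_mem_nhds ht1.1 ht1.2)
  obtain ⟨ε, hε, hball⟩ := Metric.eventually_nhds_iff_ball.1 hev
  have hd : ∀ t ∈ Metric.ball t1 ε, HasDerivAt (fun t => P t / R t) 0 t := by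
    intro t ht
    obtain ⟨hRt, htuv⟩ := hball t ht
    have h1 := ((hP t (huvJ htuv)).differentiableAt.hasDerivAt).div ((hR t (huvJ htuv)).differentiableAt.hasDerivAt) hRt
    refine h1.congr_deriv ?_
    rw [h t htuv, sub_self, zero_div]
  have h3 : ∀ t ∈ Metric.ball t1 ε, P t / R t = P t1 / R t1 := by
    intro t ht
    refine (convex_ball t1 ε).is_const_of_fderivWithin_eq_zero (𝕜 := ℝ)
      (fun y hy => (hd y hy).differentiableAt.differentiableWithinAt) ?_ ht (Metric.mem_ball_self hε)
    intro y hy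
    rw [fderivWithin_of_isOpen Metric.isOpen_ball hy]
    have := (hd y hy).hasFDerivAt.fderiv
    rw [this]
    ext
    simp
  refine ⟨P t1 / R t1, fun t ht => ?_⟩
  have han : AnalyticOnNhd ℝ (fun t => P t - P t1 / R t1 * R t) J := fun y hy =>
    (hP y hy).sub (analyticAt_const.mul (hR y hy))
  have := ident hJ han (huvJ ht1) (by
    filter_upwards [Metric.ball_mem_nhds t1 hε] with y hy
    have h4 := h3 y hy
    have hRy := (hball y hy).1
    rw [← h4]
    field_simp
    ring) t ht
  linarith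

/-! ## Relations with analytic coefficients -/

/-- sums over words, reordered by the tail -/
theorem sum_tail {S : Finset (List (Fin m))} (hS : ∀ x v, x :: v ∈ S → v ∈ S) (F : List (Fin m) → ℝ)
    (hF : ∀ w ∉ S, F w = 0) (hF0 : F [] = 0) : ∑ w ∈ S, F w = ∑ v ∈ S, ∑ x, F (x :: v) := by
  classical
  rw [← Finset.sum_product']
  have hinj : Set.InjOn (fun y : List (Fin m) × Fin m => y.2 :: y.1) (S ×ˢ (Finset.univ : Finset (Fin m)) : Finset _) := by
    rintro ⟨v, x⟩ _ ⟨v', x'⟩ _ h
    simp only [List.cons.injEq] at h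
    rw [h.1, h.2]
  rw [← Finset.sum_image (f := F) hinj]
  set I := (S ×ˢ (Finset.univ : Finset (Fin m))).image fun y : List (Fin m) × Fin m => y.2 :: y.1 with hI
  have h1 : ∑ w ∈ S, F w = ∑ w ∈ S ∪ I, F w := by
    refine Finset.sum_subset Finset.subset_union_left fun w _ hw => hF w hw
  have h2 : ∑ w ∈ I, F w = ∑ w ∈ S ∪ I, F w := by
    refine Finset.sum_subset Finset.subset_union_right fun w hw hwI => ?_
    rcases Finset.mem_union.1 hw with hw | hw
    · cases w with
      | nil => exact hF0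
      | cons x v =>
        exfalso
        apply hwI
        rw [hI, Finset.mem_image]
        exact ⟨(v, x), Finset.mem_product.2 ⟨hS x v hw, Finset.mem_univ x⟩, rfl⟩
    · exact absurd hw hwI
  rw [h1, h2]

/-- the derived relation -/
noncomputable def Df (f : List (Fin m) → ℝ → ℝ) (w : List (Fin m)) (t : ℝ) : ℝ :=
  (Q s).eval t * deriv (f w) t + ∑ x, (Qx s x).eval t * f (x :: w) t

theorem Df_an {J : Set ℝ} {f : List (Fin m) → ℝ → ℝ} (hf : ∀ w, AnalyticOnNhd ℝ (f w) J) (w : List (Fin m)) :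
    AnalyticOnNhd ℝ (Df s f w) J := by
  intro t ht
  have hp : ∀ p : ℝ[X], AnalyticAt ℝ (fun t => p.eval t) t := fun p =>
    (AnalyticOnNhd.eval_polynomial (𝕜 := ℝ) p) t (Set.mem_univ _)
  exact ((hp _).mul (hf w t ht).deriv).add (Finset.analyticAt_fun_sum _ fun x _ => (hp _).mul (hf (x :: w) t ht))

theorem E_deriv {u v : ℝ} {J : Set ℝ} (huvJ : Ioo u v ⊆ J) {g : List (Fin m) → ℝ → ℝ} (h : IsSol s u v g)
    (hs : ∀ x, s x ∉ Ioo u v) {S : Finset (List (Fin m))} (hS : ∀ x v, x :: v ∈ S → v ∈ S)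
    {f : List (Fin m) → ℝ → ℝ} (hf : ∀ w, AnalyticOnNhd ℝ (f w) J) (hf0 : ∀ w ∉ S, f w = fun _ => 0) :
    ∀ t ∈ Ioo u v, HasDerivAt (fun t => ∑ w ∈ S, f w t * g w t) ((∑ w ∈ S, Df s f w t * g w t) / (Q s).eval t) t := by
  intro t ht
  have hQ : ∀ x, t - s x ≠ 0 := by
    intro x
    rw [sub_ne_zero]
    rintro rfl
    exact hs x ht
  have hQ0 : (Q s).eval t ≠ 0 := by
    unfold Q
    rw [eval_prod, Finset.prod_ne_zero_iff]
    intro x _
    rw [eval_sub, eval_X, eval_C]
    exact hQ x
  -- the derivative of `g w`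
  let g' : List (Fin m) → ℝ := fun w => match w with
    | [] => 0
    | x :: w => g w t / (t - s x)
  have hg : ∀ w, HasDerivAt (g w) (g' w) t := by
    intro w
    match w with
    | [] =>
      refine (hasDerivAt_const t (1 : ℝ)).congr_of_eventuallyEq ?_
      filter_upwards [Ioo_mem_nhds ht.1 ht.2] with t ht
      exact h.1 t ht
    | x :: w => exact h.2 x w t ht
  have h1 : HasDerivAt (fun t => ∑ w ∈ S, f w t * g w t) (∑ w ∈ S, (deriv (f w) t * g w t + f w t * g' w)) t :=
    HasDerivAt.fun_sum fun w _ => ((hf w t (huvJ ht)).differentiableAt.hasDerivAt).mul (hg w)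
  refine h1.congr_deriv ?_
  rw [eq_div_iff hQ0, Finset.sum_add_distrib, sum_tail hS (fun w => f w t * g' w) (fun w hw => by
    rw [hf0 w hw, zero_mul]) (by simp [g']), ← Finset.sum_add_distrib, Finset.sum_mul]
  refine Finset.sum_congr rfl fun w _ => ?_
  unfold Df
  rw [add_mul, add_mul, Finset.sum_mul, Finset.sum_mul]
  congr 1
  · ring
  · refine Finset.sum_congr rfl fun x _ => ?_
    have hQe : (Q s).eval t = (t - s x) * (Qx s x).eval t := by
      rw [Q_eq s x, eval_mul, eval_sub, eval_X, eval_C]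
    have h3 := hQ x
    simp only [g']
    rw [hQe]
    field_simp

/-- no relation with analytic coefficients -/
theorem no_rel_an (hinj : Function.Injective s) {u v : ℝ} (huv : u < v) {J : Set ℝ} (hJ : IsPreconnected J)
    (hJo : IsOpen J) (huvJ : Ioo u v ⊆ J) (hsJ : ∀ x, s x ∈ J) {g : List (Fin m) → ℝ → ℝ} (h : IsSol s u v g)
    (hs : ∀ x, s x ∉ Ioo u v) {S : Finset (List (Fin m))} (hS : ∀ x v, x :: v ∈ S → v ∈ S) (L : ℕ) :
    ∀ (N : ℕ) (f : List (Fin m) → ℝ → ℝ), (∀ w, AnalyticOnNhd ℝ (f w) J) → (∀ w ∉ S, f w = fun _ => 0) →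
    (∀ w, L < w.length → ∀ t ∈ J, f w t = 0) → (∀ T : Finset (List (Fin m)), T ⊆ S →
      (∀ w ∈ T, w.length = L ∧ ¬ ∀ t ∈ J, f w t = 0) → T.card ≤ N) →
    (∀ t ∈ Ioo u v, ∑ w ∈ S, f w t * g w t = 0) → ∀ w, ∀ t ∈ J, f w t = 0 := by
  classical
  have hm : (u + v) / 2 ∈ Ioo u v := ⟨by linarith, by linarith⟩
  have hdz : ∀ f : ℝ → ℝ, (∀ t ∈ J, f t = 0) → ∀ t ∈ J, deriv f t = 0 := by
    intro f hf t ht
    have : f =ᶠ[𝓝 t] fun _ => (0 : ℝ) := by
      filter_upwards [hJo.mem_nhds ht] with y hy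
      exact hf y hy
    rw [this.deriv_eq]
    simp
  induction L with
  | zero =>
    intro N f hf hf0 hL _ hR w
    by_cases hw : w = []
    · subst hw
      by_cases hS0 : [] ∈ S
      swap
      · intro t _
        rw [hf0 _ hS0]
      refine ident hJ (hf []) (huvJ hm) ?_
      filter_upwards [Ioo_mem_nhds hm.1 hm.2] with t ht
      have h1 := hR t ht
      rw [Finset.sum_eq_single []] at h1
      · rwa [h.1 t ht, mul_one] at h1
      · intro w _ hw
        rw [hL w (List.length_pos_iff.2 hw) t (huvJ ht), zero_mul]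
      · intro h
        exact absurd hS0 h
    · exact hL w (List.length_pos_iff.2 hw)
  | succ L ihL =>
    intro N
    induction N with
    | zero =>
      intro f hf hf0 hL hN hR
      refine ihL S.card f hf hf0 ?_ (fun T hT _ => Finset.card_le_card hT) hR
      intro w hw
      by_cases hlt : L + 1 < w.length
      · exact hL w hlt
      have hwL : w.length = L + 1 := by omega
      by_cases hwS : w ∈ S
      · by_contra hcon
        have := hN {w} (Finset.singleton_subset_iff.2 hwS) (by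
          intro y hy
          rw [Finset.mem_singleton] at hy
          subst hy
          exact ⟨hwL, hcon⟩)
        simp at this
      · intro t _
        rw [hf0 _ hwS]
    | succ N ihN =>
      intro f hf hf0 hL hN hR
      by_cases hne : ∃ w0 ∈ S, w0.length = L + 1 ∧ ¬ ∀ t ∈ J, f w0 t = 0
      swap
      · refine ihN f hf hf0 hL ?_ hR
        intro T hTS hT
        have : T = ∅ := by
          rw [Finset.eq_empty_iff_forall_notMem]
          intro w hw
          exact hne ⟨w, hTS hw, hT w hw⟩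
        rw [this, Finset.card_empty]
        omega
      exfalso
      obtain ⟨w0, hw0S, hw0L, hw0⟩ := hne
      obtain ⟨x0, v0, rfl⟩ : ∃ x0 v0, w0 = x0 :: v0 := by
        cases w0 with
        | nil => simp at hw0L
        | cons x v => exact ⟨x, v, rfl⟩
      set P0 : ℝ → ℝ := f (x0 :: v0) with hP0
      have hDtop : ∀ w : List (Fin m), L + 1 ≤ w.length → ∀ t ∈ J, Df s f w t = (Q s).eval t * deriv (f w) t := by
        intro w hw t ht
        unfold Df
        rw [Finset.sum_eq_zero, add_zero]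
        intro x _
        rw [hL (x :: w) (by rw [List.length_cons]; omega) t ht, mul_zero]
      have hDan := Df_an s hf
      have hz : ∀ w, ∀ t ∈ J, P0 t * Df s f w t - Df s f (x0 :: v0) t * f w t = 0 := by
        refine ihN (fun w t => P0 t * Df s f w t - Df s f (x0 :: v0) t * f w t) ?_ ?_ ?_ ?_ ?_
        · intro w t ht
          exact ((hf _ t ht).mul (hDan w t ht)).sub ((hDan _ t ht).mul (hf w t ht))
        · intro w hw
          funext t
          have h1 : Df s f w t = 0 := by
            unfold Df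
            rw [hf0 w hw, Finset.sum_eq_zero]
            · simp
            · intro x _
              rw [hf0 (x :: w) (fun hx => hw (hS x w hx)), mul_zero]
          rw [h1, hf0 w hw]
          simp
        · intro w hw t ht
          rw [hDtop w (by omega) t ht, hL w hw t ht, hdz _ (hL w hw) t ht]
          simp
        · intro T hTS hT
          have h0 : (x0 :: v0) ∉ T := by
            intro hin
            apply (hT _ hin).2
            intro t _
            ring
          have h1 := hN (insert (x0 :: v0) T) (Finset.insert_subset hw0S hTS) (by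
            intro w hw
            rcases Finset.mem_insert.1 hw with rfl | hw
            · exact ⟨hw0L, hw0⟩
            · refine ⟨(hT w hw).1, fun hcon => (hT w hw).2 ?_⟩
              intro t ht
              rw [hDtop w (by rw [(hT w hw).1]) t ht, hcon t ht, hdz _ hcon t ht]
              simp)
          rw [Finset.card_insert_of_notMem h0] at h1
          omega
        · intro t ht
          have hd := E_deriv s huvJ h hs hS hf hf0 t ht
          have hd0 : HasDerivAt (fun t => ∑ w ∈ S, f w t * g w t) 0 t := by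
            refine (hasDerivAt_const t (0 : ℝ)).congr_of_eventuallyEq ?_
            filter_upwards [Ioo_mem_nhds ht.1 ht.2] with t ht
            exact hR t ht
          have h1 := hd.unique hd0
          have hQ0 : (Q s).eval t ≠ 0 := by
            unfold Q
            rw [eval_prod, Finset.prod_ne_zero_iff]
            intro x _
            rw [eval_sub, eval_X, eval_C, sub_ne_zero]
            rintro rfl
            exact hs x ht
          have h2 : ∑ w ∈ S, Df s f w t * g w t = 0 := by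
            rcases div_eq_zero_iff.1 h1 with h2 | h2
            · exact h2
            · exact absurd h2 hQ0
          have h3 : ∑ w ∈ S, (P0 t * Df s f w t - Df s f (x0 :: v0) t * f w t) * g w t =
              P0 t * ∑ w ∈ S, Df s f w t * g w t - Df s f (x0 :: v0) t * ∑ w ∈ S, f w t * g w t := by
            rw [Finset.mul_sum, Finset.mul_sum, ← Finset.sum_sub_distrib]
            exact Finset.sum_congr rfl fun w _ => by ring
          rw [h3, h2, hR t ht]
          ring
      -- a point where `P0` does not vanish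
      obtain ⟨t1, ht1, hP01⟩ : ∃ t1 ∈ Ioo u v, P0 t1 ≠ 0 := by
        by_contra hcon
        push Not at hcon
        refine hw0 (ident hJ (hf _) (huvJ hm) ?_)
        filter_upwards [Ioo_mem_nhds hm.1 hm.2] with t ht
        exact hcon t ht
      have hprop : ∀ x, ∃ c : ℝ, ∀ t ∈ J, f (x :: v0) t = c * P0 t := by
        intro x
        refine prop_an hJ huvJ (hf _) (hf _) ht1 hP01 ?_
        intro t ht
        have h1 := hz (x :: v0) t (huvJ ht)
        rw [hDtop (x :: v0) (by rw [List.length_cons] at hw0L ⊢; omega) t (huvJ ht),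
          hDtop (x0 :: v0) (by omega) t (huvJ ht)] at h1
        have hQ0 : (Q s).eval t ≠ 0 := by
          unfold Q
          rw [eval_prod, Finset.prod_ne_zero_iff]
          intro x _
          rw [eval_sub, eval_X, eval_C, sub_ne_zero]
          rintro rfl
          exact hs x ht
        refine mul_left_cancel₀ hQ0 ?_
        linear_combination h1
      choose c hc using hprop
      have h3 := no_log_an s hinj (f v0) P0 x0 (hf _ _ (hsJ x0)) (hf _ _ (hsJ x0)) (fun hcon => hP01
        (ident hJ (hf _) (hsJ x0) hcon t1 (huvJ ht1))) c (by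
        filter_upwards [hJo.mem_nhds (hsJ x0)] with t ht
        have h1 := hz v0 t ht
        rw [hDtop (x0 :: v0) (by omega) t ht] at h1
        have h2 : Df s f v0 t = (Q s).eval t * deriv (f v0) t + P0 t * (∑ y, C (c y) * Qx s y).eval t := by
          unfold Df
          rw [eval_finsetSum, Finset.mul_sum]
          congr 1
          refine Finset.sum_congr rfl fun x _ => ?_
          rw [hc x t ht, eval_mul, eval_C]
          ring
        rw [h2] at h1
        linear_combination h1)
      have h4 := hc x0 t1 (huvJ ht1)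
      rw [h3, zero_mul] at h4
      exact hP01 h4

/-- the words of length at most `k` -/
noncomputable def WS (m k : ℕ) : Finset (List (Fin m)) :=
  (Finset.univ : Finset (Word m k)).map ⟨Word.list, Word.list_inj⟩

theorem mem_WS {m k : ℕ} (w : List (Fin m)) : w ∈ WS m k ↔ w.length ≤ k := by
  unfold WS
  rw [Finset.mem_map]
  constructor
  · rintro ⟨y, -, rfl⟩
    simp only [Function.Embedding.coeFn_mk]
    unfold Word.list
    rw [List.length_ofFn]
    have := y.1.2
    omega
  · intro hw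
    refine ⟨⟨⟨w.length, by omega⟩, fun i => w.get i⟩, Finset.mem_univ _, ?_⟩
    simp only [Function.Embedding.coeFn_mk]
    unfold Word.list
    exact List.ofFn_get w

theorem hyp_indep2 {ι : Type} [Fintype ι] (hinj : Function.Injective s) {u v a b : ℝ} (hu : u < a) (hab : a < b)
    (hv : b < v) {J : Set ℝ} (hJ : IsPreconnected J) (hJo : IsOpen J) (huvJ : Ioo u v ⊆ J) (hsJ : ∀ x, s x ∈ J)
    {g : List (Fin m) → ℝ → ℝ} (h : IsSol s u v g) (hs : ∀ x, s x ∉ Ioo u v) (k : ℕ) (M N : ι → ℝ → ℝ) (q0 : ℝ[X])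
    (hN : ∀ i, AnalyticOnNhd ℝ (N i) J) (hMN : ∀ i, ∀ t ∈ Icc a b, q0.eval t * M i t = N i t) (hI : RIndep N a b) :
    RIndep (fun (y : ι × Word m k) t => M y.1 t * g y.2.list t) a b := by
  classical
  intro p hp
  have habJ : Icc a b ⊆ J := fun t ht => huvJ ⟨hu.trans_le ht.1, ht.2.trans_lt hv⟩
  set f : List (Fin m) → ℝ → ℝ := fun w t =>
    ∑ y : ι × Word m k, if y.2.list = w then (p y).eval t * N y.1 t else 0 with hf
  have hfw : ∀ (w : Word m k) (t : ℝ), f w.list t = ∑ i, (p (i, w)).eval t * N i t := by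
    intro w t
    simp only [hf]
    rw [Fintype.sum_prod_type]
    refine Finset.sum_congr rfl fun i _ => ?_
    rw [Finset.sum_eq_single w]
    · simp
    · intro w' _ hw
      rw [if_neg fun h => hw (Word.list_inj h)]
    · intro h
      exact absurd (Finset.mem_univ w) h
  have hz := no_rel_an s hinj hab hJ hJo (fun t ht => habJ ⟨ht.1.le, ht.2.le⟩) hsJ (h.mono hu.le hv.le)
    (fun x hx => hs x ⟨hu.trans hx.1, hx.2.trans hv⟩) (S := WS m k) (by
      intro x v hxv
      rw [mem_WS] at hxv ⊢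
      rw [List.length_cons] at hxv
      omega) k (WS m k).card f ?_ ?_ ?_ (fun T hT _ => Finset.card_le_card hT) ?_
  · funext ⟨i, w⟩
    have h1 := hI (fun i => p (i, w)) (fun t ht => by
      rw [← hfw w t]
      exact hz w.list t (habJ ht))
    exact congrFun h1 i
  · intro w t ht
    refine Finset.analyticAt_fun_sum _ fun y _ => ?_
    by_cases hy : y.2.list = w
    · simp only [hy, if_true]
      exact ((AnalyticOnNhd.eval_polynomial (𝕜 := ℝ) (p y)) t (Set.mem_univ _)).mul (hN y.1 t ht)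
    · simp only [hy, if_false]
      exact analyticAt_const
  · intro w hw
    funext t
    simp only [hf]
    refine Finset.sum_eq_zero fun y _ => ?_
    rw [if_neg]
    rintro rfl
    apply hw
    rw [mem_WS]
    unfold Word.list
    rw [List.length_ofFn]
    have := y.2.1.2
    omega
  · intro w hw t _
    simp only [hf]
    refine Finset.sum_eq_zero fun y _ => ?_
    rw [if_neg]
    rintro rfl
    unfold Word.list at hw
    rw [List.length_ofFn] at hw
    have := y.2.1.2
    omega
  · intro t ht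
    have ht' : t ∈ Icc a b := ⟨ht.1.le, ht.2.le⟩
    have h1 : ∑ w ∈ WS m k, f w t * g w t = ∑ w : Word m k, f w.list t * g w.list t := by
      unfold WS
      rw [Finset.sum_map]
      rfl
    rw [h1]
    have h2 := congrArg (fun y => q0.eval t * y) (hp t ht')
    simp only [mul_zero] at h2
    rw [← h2, Fintype.sum_prod_type, Finset.sum_comm, Finset.mul_sum]
    refine Finset.sum_congr rfl fun w _ => ?_
    rw [hfw, Finset.sum_mul, Finset.mul_sum]
    refine Finset.sum_congr rfl fun i _ => ?_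
    rw [← hMN i t ht']
    ring

end Pool.Agent.TH818.AP.Hyp
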