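import Pool.Agent.TH818.AP.SubZ

/-!
# Linear forms in the values `f_i(q_j)` at rational points
-/

set_option autoImplicit false

open Set Polynomial Filter Topology

namespace Pool.Agent.TH818.AP

open Pool.Agent.TH818.AR

variable {h : Type} [Fintype h] {s : ℕ}

/-- the functions `1`, `f_i` -/
noncomputable def gO (f : Fin s → ℝ → ℝ) (o : Option (Fin s)) (t : ℝ) : ℝ := o.elim 1 fun i => f i t

/-- the numbers `ξ_e`, `f_i(q_j)` -/
noncomputable def xiO {n : ℕ} (f : Fin s → ℝ → ℝ) (ξ : h → ℝ) (q : Fin n → ℚ) : h ⊕ (Fin n × Fin s) → ℝ :=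
  Sum.elim ξ fun y => f y.2 (q y.1)

/-- exceptional tuples, all forms -/
def ExcA {n : ℕ} (f : Fin s → ℝ → ℝ) (ξ : h → ℝ) (a b A B T : ℝ) : Set (Fin n → ℚ) :=
  {q | (∀ j, (q j : ℝ) ∈ Icc a b ∧ ((q j).den : ℝ) ≤ T) ∧
    ∃ c : h ⊕ (Fin n × Fin s) → ℤ, c ≠ 0 ∧ (∀ e, |(c e : ℝ)| ≤ T ^ A) ∧ |∑ e, (c e : ℝ) * xiO f ξ q e| ≤ T ^ (-B)}

/-- exceptional tuples, some forms -/
def ExcP {n : ℕ} {O : Type} [Fintype O] (f : Fin s → ℝ → ℝ) (ξ : h → ℝ)
    (σ0 : O → Option (Fin s) × (h ⊕ (Fin n × Fin s))) (a b A B T : ℝ) : Set (Fin (n + 1) → ℚ) :=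
  {q | (∀ j, (q j : ℝ) ∈ Icc a b ∧ ((q j).den : ℝ) ≤ T) ∧
    ∃ c : O → ℤ, c ≠ 0 ∧ (∀ e, |(c e : ℝ)| ≤ T ^ A) ∧
      |∑ o, (c o : ℝ) * (xiO f ξ (fun j => q j.succ) (σ0 o).2 * gO f (σ0 o).1 (q 0))| ≤ T ^ (-B)}

theorem boxR {n : ℕ} {a b T : ℝ} {S : Set (Fin n → ℚ)}
    (hS : ∀ q ∈ S, ∀ j, (q j : ℝ) ∈ Icc a b ∧ ((q j).den : ℝ) ≤ T) :
    S ⊆ (Fintype.piFinset fun _ : Fin n => RT a b T : Finset (Fin n → ℚ)) := by
  intro t ht
  rw [Finset.mem_coe, Fintype.mem_piFinset]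
  exact fun j => mem_RT.2 (hS t ht j)

theorem ExcA_fin {n : ℕ} (f : Fin s → ℝ → ℝ) (ξ : h → ℝ) (a b A B T : ℝ) :
    (ExcA (n := n) f ξ a b A B T).Finite :=
  (Finset.finite_toSet _).subset (boxR fun _ hx => hx.1)

omit [Fintype h] in
theorem ExcP_fin {n : ℕ} {O : Type} [Fintype O] (f : Fin s → ℝ → ℝ) (ξ : h → ℝ)
    (σ0 : O → Option (Fin s) × (h ⊕ (Fin n × Fin s))) (a b A B T : ℝ) : (ExcP f ξ σ0 a b A B T).Finite :=
  (Finset.finite_toSet _).subset (boxR fun _ hx => hx.1)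

set_option maxHeartbeats 1000000 in
theorem stepR (n : ℕ) {O : Type} [Fintype O] (f : Fin s → ℝ → ℝ) (ξ : h → ℝ)
    (σ0 : O → Option (Fin s) × (h ⊕ (Fin n × Fin s))) (hσ : Function.Injective σ0) (a b : ℝ) (hab : a < b)
    (han : ∀ i, AnalyticOnNhd ℝ (f i) (Icc a b)) (hf : RIndep (gO f) a b)
    (A β : ℝ) (hA : 0 ≤ A) (hβ : 2 * (Fintype.card O : ℝ) / (Fintype.card O + 1) < β)
    (ih : ∀ A : ℝ, 0 ≤ A → ∃ B C : ℝ, ∃ T0 : ℝ, 0 < C ∧ 1 ≤ T0 ∧ ∀ T : ℝ, T0 ≤ T →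
      ((ExcA (n := n) f ξ a b A B T).ncard : ℝ) ≤ C * T ^ (2 * ((n : ℝ) - 1) + β)) :
    ∃ B C : ℝ, ∃ T0 : ℝ, 0 < C ∧ 1 ≤ T0 ∧ ∀ T : ℝ, T0 ≤ T →
      ((ExcP f ξ σ0 a b A B T).ncard : ℝ) ≤ C * T ^ (2 * (((n + 1 : ℕ) : ℝ) - 1) + β) := by
  classical
  obtain ⟨K, hK0, hK⟩ := card_RT_gen a b
  let eO : Fin (Fintype.card O) ≃ O := (Fintype.equivFin O).symm
  let σ : Fin (Fintype.card O) ↪ Option (Fin s) × (h ⊕ (Fin n × Fin s)) := eO.toEmbedding.trans ⟨σ0, hσ⟩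
  obtain ⟨κ, C1, hC1, hU⟩ := uniformS σ (gO f) a b hab (fun o => by
    match o with
    | none => exact fun t _ => analyticAt_const
    | some i => exact han i) hf A β hA hβ
  obtain ⟨B', C', T1, hC', hT1, hih⟩ := ih (max κ 0) (le_max_right _ _)
  obtain ⟨B, T2, hT2, hU'⟩ := hU B'
  refine ⟨B, K * C' + C1 * K ^ n, max T1 T2, by positivity, le_max_of_le_left hT1, ?_⟩
  intro T hT
  have hTT1 : T1 ≤ T := (le_max_left _ _).trans hT
  have hTT2 : T2 ≤ T := (le_max_right _ _).trans hT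
  have hTge : 1 ≤ T := hT1.trans hTT1
  have hTp : 0 < T := by linarith
  -- the key inclusion
  have hkey : ∀ q ∈ ExcP f ξ σ0 a b A B T, (fun j : Fin n => q j.succ) ∉ ExcA (n := n) f ξ a b (max κ 0) B' T →
      ScaleMeas (xiO f ξ fun j : Fin n => q j.succ) κ B' T ∧
      q 0 ∈ ExcS σ (gO f) a b A B T (xiO f ξ fun j : Fin n => q j.succ) := by
    rintro q ⟨hq, c, hc0, hc, hcs⟩ hnot
    constructor
    · intro c' hc'0 hc'
      by_contra hcon
      rw [not_le] at hcon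
      apply hnot
      refine ⟨fun j => hq j.succ, c', hc'0, fun e => (hc' e).trans ?_, hcon.le⟩
      exact Real.rpow_le_rpow_of_exponent_le hTge (le_max_left _ _)
    · refine ⟨(hq 0).1, (hq 0).2, fun i => c (eO i), ?_, fun i => hc _, ?_⟩
      · intro hcon
        apply hc0
        funext o
        have := congrFun hcon (eO.symm o)
        simpa using this
      · refine le_trans (le_of_eq ?_) hcs
        congr 1
        rw [← Equiv.sum_comp eO]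
        rfl
  set S := (ExcP_fin f ξ σ0 a b A B T).toFinset with hS
  set S0 := (ExcA_fin (n := n) f ξ a b (max κ 0) B' T).toFinset with hS0
  have hSmem : ∀ t, t ∈ S ↔ t ∈ ExcP f ξ σ0 a b A B T := fun t => (ExcP_fin _ _ _ _ _ _ _ _).mem_toFinset
  have hS0mem : ∀ t, t ∈ S0 ↔ t ∈ ExcA (n := n) f ξ a b (max κ 0) B' T := fun t =>
    (ExcA_fin _ _ _ _ _ _ _).mem_toFinset
  rw [Set.ncard_eq_toFinset_card _ (ExcP_fin f ξ σ0 a b A B T)]
  have hsplit := Finset.card_filter_add_card_filter_not (s := S)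
    (p := fun t : Fin (n + 1) → ℚ => (fun j : Fin n => t j.succ) ∈ S0)
  -- first part
  have hp1 : ((S.filter fun t : Fin (n + 1) → ℚ => (fun j : Fin n => t j.succ) ∈ S0).card : ℝ) ≤
      (K * C') * T ^ (2 * (((n + 1 : ℕ) : ℝ) - 1) + β) := by
    have hle : (S.filter fun t : Fin (n + 1) → ℚ => (fun j : Fin n => t j.succ) ∈ S0).card ≤
        (RT a b T ×ˢ S0).card := by
      refine Finset.card_le_card_of_injOn (fun t => (t 0, fun j : Fin n => t j.succ)) ?_ ?_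
      · intro t ht
        rw [Finset.mem_coe, Finset.mem_filter] at ht
        rw [Finset.mem_coe, Finset.mem_product]
        exact ⟨mem_RT.2 (((hSmem t).1 ht.1).1 0), ht.2⟩
      · intro t _ t' _ heq
        simp only [Prod.mk.injEq] at heq
        funext j
        refine Fin.cases heq.1 (fun i => congrFun heq.2 i) j
    rw [Finset.card_product] at hle
    have h0 : (S0.card : ℝ) ≤ C' * T ^ (2 * ((n : ℝ) - 1) + β) := by
      have := hih T hTT1
      rwa [Set.ncard_eq_toFinset_card _ (ExcA_fin _ _ _ _ _ _ _)] at this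
    calc ((S.filter fun t : Fin (n + 1) → ℚ => (fun j : Fin n => t j.succ) ∈ S0).card : ℝ)
        ≤ ((RT a b T).card : ℝ) * (S0.card : ℝ) := by exact_mod_cast hle
      _ ≤ (K * T ^ (2 : ℝ)) * (C' * T ^ (2 * ((n : ℝ) - 1) + β)) :=
          mul_le_mul (hK T hTge) h0 (by positivity) (by positivity)
      _ = (K * C') * (T ^ (2 : ℝ) * T ^ (2 * ((n : ℝ) - 1) + β)) := by ring
      _ = (K * C') * T ^ (2 * (((n + 1 : ℕ) : ℝ) - 1) + β) := by
          rw [← Real.rpow_add hTp]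
          congr 2
          push_cast
          ring
  -- second part
  have hp2 : ((S.filter fun t : Fin (n + 1) → ℚ => ¬ (fun j : Fin n => t j.succ) ∈ S0).card : ℝ) ≤
      (C1 * K ^ n) * T ^ (2 * (((n + 1 : ℕ) : ℝ) - 1) + β) := by
    set F := S.filter fun t : Fin (n + 1) → ℚ => ¬ (fun j : Fin n => t j.succ) ∈ S0 with hF
    have hmaps : ∀ t ∈ F, (fun t : Fin (n + 1) → ℚ => fun j : Fin n => t j.succ) t ∈
        Fintype.piFinset fun _ : Fin n => RT a b T := by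
      intro t ht
      rw [Fintype.mem_piFinset]
      exact fun j => mem_RT.2 (((hSmem t).1 (Finset.mem_filter.1 ht).1).1 j.succ)
    have hfib : ∀ t' ∈ Fintype.piFinset fun _ : Fin n => RT a b T,
        (F.filter fun t => (fun j : Fin n => t j.succ) = t').card ≤ ⌊C1 * T ^ β⌋₊ := by
      intro t' _
      rcases (F.filter fun t => (fun j : Fin n => t j.succ) = t').eq_empty_or_nonempty with hemp | ⟨t1, ht1⟩
      · rw [hemp]; simp
      rw [Finset.mem_filter] at ht1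
      have hmemF : ∀ t ∈ F, t ∈ ExcP f ξ σ0 a b A B T ∧
          (fun j : Fin n => t j.succ) ∉ ExcA (n := n) f ξ a b (max κ 0) B' T := by
        intro t ht
        rw [hF, Finset.mem_filter] at ht
        exact ⟨(hSmem t).1 ht.1, fun hcon => ht.2 ((hS0mem _).2 hcon)⟩
      have hsm := (hkey t1 (hmemF t1 ht1.1).1 (hmemF t1 ht1.1).2).1
      rw [ht1.2] at hsm
      obtain ⟨hfin, hnc⟩ := hU' T hTT2 _ hsm
      rw [Set.ncard_eq_toFinset_card _ hfin] at hnc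
      refine le_trans ?_ (Nat.le_floor hnc)
      refine Finset.card_le_card_of_injOn (fun t => t 0) ?_ ?_
      · intro t ht
        rw [Finset.mem_coe, Finset.mem_filter] at ht
        rw [Finset.mem_coe, Set.Finite.mem_toFinset]
        have := (hkey t (hmemF t ht.1).1 (hmemF t ht.1).2).2
        rwa [ht.2] at this
      · intro t ht t2 ht2 heq
        rw [Finset.mem_coe, Finset.mem_filter] at ht ht2
        funext j
        refine Fin.cases heq (fun i => ?_) j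
        exact congrFun (ht.2.trans ht2.2.symm) i
    have hcardF := Finset.card_le_mul_card_image_of_maps_to hmaps _ hfib
    rw [Fintype.card_piFinset, Finset.prod_const, Finset.card_univ, Fintype.card_fin] at hcardF
    have h1 : (F.card : ℝ) ≤ (⌊C1 * T ^ β⌋₊ : ℝ) * ((RT a b T).card : ℝ) ^ n := by
      exact_mod_cast hcardF
    have h2 : (⌊C1 * T ^ β⌋₊ : ℝ) ≤ C1 * T ^ β := Nat.floor_le (by positivity)
    calc (F.card : ℝ) ≤ (⌊C1 * T ^ β⌋₊ : ℝ) * ((RT a b T).card : ℝ) ^ n := h1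
      _ ≤ (C1 * T ^ β) * (K * T ^ (2 : ℝ)) ^ n :=
          mul_le_mul h2 (pow_le_pow_left₀ (by positivity) (hK T hTge) n) (by positivity) (by positivity)
      _ = (C1 * K ^ n) * (T ^ β * (T ^ (2 : ℝ)) ^ n) := by rw [mul_pow]; ring
      _ = (C1 * K ^ n) * T ^ (2 * (((n + 1 : ℕ) : ℝ) - 1) + β) := by
          rw [← Real.rpow_natCast (T ^ (2 : ℝ)) n, ← Real.rpow_mul hTp.le, ← Real.rpow_add hTp]
          congr 2
          push_cast
          ring
  have hsum : (S.card : ℝ) = ((S.filter fun t : Fin (n + 1) → ℚ => (fun j : Fin n => t j.succ) ∈ S0).card : ℝ) +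
      ((S.filter fun t : Fin (n + 1) → ℚ => ¬ (fun j : Fin n => t j.succ) ∈ S0).card : ℝ) := by
    exact_mod_cast hsplit.symm
  rw [hsum, add_mul]
  exact add_le_add hp1 hp2

/-- all forms -/
def σA (n s : ℕ) (e0 : h) (o : h ⊕ (Fin (n + 1) × Fin s)) : Option (Fin s) × (h ⊕ (Fin n × Fin s)) :=
  match o with
  | Sum.inl e => (none, Sum.inl e)
  | Sum.inr (j, i) => Fin.cases (some i, Sum.inl e0) (fun j' => (none, Sum.inr (j', i))) j

omit [Fintype h] in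
theorem σA_inj (n s : ℕ) (e0 : h) : Function.Injective (σA n s e0) := by
  intro o o' hh
  match o, o' with
  | Sum.inl e, Sum.inl e' => simpa [σA] using hh
  | Sum.inl e, Sum.inr (j, i) =>
    revert hh
    refine Fin.cases ?_ (fun i => ?_) j <;> simp [σA]
  | Sum.inr (j, i), Sum.inl e =>
    revert hh
    refine Fin.cases ?_ (fun i => ?_) j <;> simp [σA]
  | Sum.inr (j, i), Sum.inr (j', i') =>
    revert hh
    refine Fin.cases ?_ (fun k => ?_) j <;> refine Fin.cases ?_ (fun k' => ?_) j' <;> simp [σA]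

theorem ExcA_sub_P (n : ℕ) (f : Fin s → ℝ → ℝ) (ξ : h → ℝ) (e0 : h) (he0 : ξ e0 = 1) (a b A B T : ℝ) :
    ExcA (n := n + 1) f ξ a b A B T ⊆ ExcP f ξ (σA n s e0) a b A B T := by
  rintro q ⟨hq, c, hc0, hc, hcs⟩
  refine ⟨hq, c, hc0, hc, le_trans (le_of_eq ?_) hcs⟩
  congr 1
  refine Finset.sum_congr rfl fun o _ => ?_
  match o with
  | Sum.inl e => simp [σA, xiO, gO]
  | Sum.inr (j, i) =>
    refine Fin.cases ?_ (fun k => ?_) j <;> simp [σA, xiO, gO, he0]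

/-- Linear forms in `ξ_e`, `f_i(q_j)`, with `M = card h + n s` -/
theorem multiA (f : Fin s → ℝ → ℝ) (ξ : h → ℝ) (hξ : GoodConst ξ) (e0 : h) (he0 : ξ e0 = 1) (a b : ℝ) (hab : a < b)
    (han : ∀ i, AnalyticOnNhd ℝ (f i) (Icc a b)) (hf : RIndep (gO f) a b) (n : ℕ) :
    ∀ (A β : ℝ), 0 ≤ A → 2 * ((Fintype.card h : ℝ) + n * s) / ((Fintype.card h : ℝ) + n * s + 1) < β →
    ∃ B C : ℝ, ∃ T0 : ℝ, 0 < C ∧ 1 ≤ T0 ∧ ∀ T : ℝ, T0 ≤ T →
      ((ExcA (n := n) f ξ a b A B T).ncard : ℝ) ≤ C * T ^ (2 * ((n : ℝ) - 1) + β) := by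
  induction n with
  | zero =>
    intro A β hA hβ
    obtain ⟨B, T1, hs⟩ := hξ A
    refine ⟨B + 1, 1, max T1 2, one_pos, le_max_of_le_right (by norm_num), ?_⟩
    intro T hT
    have hT2 : 2 ≤ T := (le_max_right _ _).trans hT
    have hTp : 0 < T := by linarith
    have hemp : ExcA (n := 0) f ξ a b A (B + 1) T = ∅ := by
      rw [Set.eq_empty_iff_forall_notMem]
      rintro t ⟨-, c, hc0, hc, hcs⟩
      have h1 := hs T ((le_max_left _ _).trans hT) (fun e => c (Sum.inl e)) (by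
        intro hcon
        apply hc0
        funext e
        match e with
        | Sum.inl e => exact congrFun hcon e
        | Sum.inr (j, i) => exact j.elim0) (fun e => hc _)
      have h2 : ∑ e, (c e : ℝ) * xiO f ξ t e = ∑ e, (c (Sum.inl e) : ℝ) * ξ e := by
        rw [Fintype.sum_sum_type]
        simp [xiO]
      rw [h2] at hcs
      have h3 := h1.trans hcs
      have h4 : T ^ (-(B + 1)) < T ^ (-B) := Real.rpow_lt_rpow_of_exponent_lt (by linarith) (by linarith)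
      linarith
    rw [hemp, Set.ncard_empty, Nat.cast_zero]
    positivity
  | succ n ih =>
    intro A β hA hβ
    have hβ' : 2 * ((Fintype.card h : ℝ) + n * s) / ((Fintype.card h : ℝ) + n * s + 1) < β := by
      refine lt_of_le_of_lt ?_ hβ
      push_cast
      rw [div_le_div_iff₀ (by positivity) (by positivity)]
      have h1 : (0 : ℝ) ≤ s := by positivity
      have h2 : (0 : ℝ) ≤ (Fintype.card h : ℝ) + n * s := by positivity
      nlinarith
    obtain ⟨B, C, T0, hC, hT0, hh⟩ := stepR n f ξ (σA n s e0) (σA_inj n s e0) a b hab han hf A β hA (by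
      rw [Fintype.card_sum, Fintype.card_prod, Fintype.card_fin, Fintype.card_fin]
      refine lt_of_le_of_lt (le_of_eq ?_) hβ
      push_cast
      ring) (fun A hA => ih A β hA hβ')
    refine ⟨B, C, T0, hC, hT0, fun T hT => le_trans ?_ (hh T hT)⟩
    exact_mod_cast Set.ncard_le_ncard (ExcA_sub_P n f ξ e0 he0 a b A B T) (ExcP_fin _ _ _ _ _ _ _ _)

/-- homogeneous forms -/
def σH (n s : ℕ) (o : Fin (n + 1) × Fin s) : Option (Fin s) × (Unit ⊕ (Fin n × Fin s)) :=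
  Fin.cases (some o.2, Sum.inl ()) (fun j' => (none, Sum.inr (j', o.2))) o.1

theorem σH_inj (n s : ℕ) : Function.Injective (σH n s) := by
  rintro ⟨j, i⟩ ⟨j', i'⟩ hh
  revert hh
  refine Fin.cases ?_ (fun k => ?_) j <;> refine Fin.cases ?_ (fun k' => ?_) j' <;> simp [σH]

/-- Homogeneous linear forms in the `n s` numbers `f_i(q_j)` (`n ≥ 1`), with `M = n s` -/
theorem homR (f : Fin s → ℝ → ℝ) (a b : ℝ) (hab : a < b)
    (han : ∀ i, AnalyticOnNhd ℝ (f i) (Icc a b)) (hf : RIndep (gO f) a b) (hs : 1 ≤ s) (n : ℕ) (hn : 1 ≤ n)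
    (A β : ℝ) (hA : 0 ≤ A) (hβ : 2 * ((n : ℝ) * s) / ((n : ℝ) * s + 1) < β) :
    ∃ B C : ℝ, ∀ T : ℝ, 1 ≤ T →
      {q : Fin n → ℚ | (∀ j, a ≤ q j ∧ q j ≤ b ∧ ((q j).den : ℝ) ≤ T) ∧
        ∃ c : Fin n → Fin s → ℤ, c ≠ 0 ∧ (∀ j i, |(c j i : ℝ)| ≤ T ^ A) ∧
          |∑ j, ∑ i, (c j i : ℝ) * f i (q j)| ≤ T ^ (-B)}.Finite ∧
      (({q : Fin n → ℚ | (∀ j, a ≤ q j ∧ q j ≤ b ∧ ((q j).den : ℝ) ≤ T) ∧
        ∃ c : Fin n → Fin s → ℤ, c ≠ 0 ∧ (∀ j i, |(c j i : ℝ)| ≤ T ^ A) ∧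
          |∑ j, ∑ i, (c j i : ℝ) * f i (q j)| ≤ T ^ (-B)}.ncard : ℕ) : ℝ) ≤
        C * T ^ (2 * ((n : ℝ) - 1) + β) := by
  classical
  obtain ⟨n, rfl⟩ : ∃ k, n = k + 1 := ⟨n - 1, by omega⟩
  have hs1 : (1 : ℝ) ≤ s := by exact_mod_cast hs
  have hβ0 : 0 < β := lt_of_le_of_lt (by positivity) hβ
  obtain ⟨B, C, T0, hC, hT0, hh⟩ := stepR n f (fun _ : Unit => (1 : ℝ)) (σH n s) (σH_inj n s) a b hab han hf A β hA (by
      rw [Fintype.card_prod, Fintype.card_fin, Fintype.card_fin]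
      refine lt_of_le_of_lt (le_of_eq ?_) hβ
      push_cast
      ring) (fun A hA => multiA f _ goodConst_one () rfl a b hab han hf n A β hA (by
        refine lt_of_le_of_lt ?_ hβ
        rw [Fintype.card_unit]
        push_cast
        rw [div_le_div_iff₀ (by positivity) (by positivity)]
        have h2 : (0 : ℝ) ≤ n * s := by positivity
        nlinarith))
  set C0 : ℝ := ((Fintype.piFinset fun _ : Fin (n + 1) => RT a b T0).card : ℝ) with hC0
  refine ⟨B, C + C0, fun T hT => ?_⟩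
  have hbox : {q : Fin (n + 1) → ℚ | (∀ j, a ≤ q j ∧ q j ≤ b ∧ ((q j).den : ℝ) ≤ T) ∧
        ∃ c : Fin (n + 1) → Fin s → ℤ, c ≠ 0 ∧ (∀ j i, |(c j i : ℝ)| ≤ T ^ A) ∧
          |∑ j, ∑ i, (c j i : ℝ) * f i (q j)| ≤ T ^ (-B)} ⊆
      (Fintype.piFinset fun _ : Fin (n + 1) => RT a b T : Finset (Fin (n + 1) → ℚ)) :=
    boxR fun q hq j => ⟨⟨(hq.1 j).1, (hq.1 j).2.1⟩, (hq.1 j).2.2⟩
  refine ⟨(Finset.finite_toSet _).subset hbox, ?_⟩
  have hone : 1 ≤ T ^ (2 * (((n + 1 : ℕ) : ℝ) - 1) + β) := by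
    refine Real.one_le_rpow hT ?_
    push_cast
    have : (0 : ℝ) ≤ n := by positivity
    linarith
  have hC00 : 0 ≤ C0 := by positivity
  rcases lt_or_ge T T0 with hlt | hge
  · have h1 := Set.ncard_le_ncard (hbox.trans (by
      intro q hq
      rw [Finset.mem_coe, Fintype.mem_piFinset] at hq ⊢
      exact fun j => mem_RT.2 ⟨(mem_RT.1 (hq j)).1, (mem_RT.1 (hq j)).2.trans hlt.le⟩ :
      ((Fintype.piFinset fun _ : Fin (n + 1) => RT a b T : Finset (Fin (n + 1) → ℚ)) : Set (Fin (n + 1) → ℚ)) ⊆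
        (Fintype.piFinset fun _ : Fin (n + 1) => RT a b T0 : Finset (Fin (n + 1) → ℚ)))) (Finset.finite_toSet _)
    rw [Set.ncard_coe_finset] at h1
    have h2 : ((({q : Fin (n + 1) → ℚ | (∀ j, a ≤ q j ∧ q j ≤ b ∧ ((q j).den : ℝ) ≤ T) ∧
        ∃ c : Fin (n + 1) → Fin s → ℤ, c ≠ 0 ∧ (∀ j i, |(c j i : ℝ)| ≤ T ^ A) ∧
          |∑ j, ∑ i, (c j i : ℝ) * f i (q j)| ≤ T ^ (-B)}.ncard : ℕ) : ℝ)) ≤ C0 := by
      rw [hC0]
      exact_mod_cast h1
    nlinarith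
  · have h1 := hh T hge
    have hsub : {q : Fin (n + 1) → ℚ | (∀ j, a ≤ q j ∧ q j ≤ b ∧ ((q j).den : ℝ) ≤ T) ∧
        ∃ c : Fin (n + 1) → Fin s → ℤ, c ≠ 0 ∧ (∀ j i, |(c j i : ℝ)| ≤ T ^ A) ∧
          |∑ j, ∑ i, (c j i : ℝ) * f i (q j)| ≤ T ^ (-B)} ⊆
        ExcP f (fun _ : Unit => (1 : ℝ)) (σH n s) a b A B T := by
      rintro q ⟨hq, c, hc0, hc, hcs⟩
      refine ⟨fun j => ⟨⟨(hq j).1, (hq j).2.1⟩, (hq j).2.2⟩, fun o => c o.1 o.2, ?_, fun o => hc _ _, ?_⟩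
      · intro hcon
        apply hc0
        funext j i
        exact congrFun hcon (j, i)
      · refine le_trans (le_of_eq ?_) hcs
        congr 1
        rw [Fintype.sum_prod_type]
        refine Finset.sum_congr rfl fun j _ => Finset.sum_congr rfl fun i _ => ?_
        refine Fin.cases ?_ (fun k => ?_) j <;> simp [σH, xiO, gO]
    have h3 := Set.ncard_le_ncard hsub (ExcP_fin _ _ _ _ _ _ _ _)
    have h4 : ((({q : Fin (n + 1) → ℚ | (∀ j, a ≤ q j ∧ q j ≤ b ∧ ((q j).den : ℝ) ≤ T) ∧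
        ∃ c : Fin (n + 1) → Fin s → ℤ, c ≠ 0 ∧ (∀ j i, |(c j i : ℝ)| ≤ T ^ A) ∧
          |∑ j, ∑ i, (c j i : ℝ) * f i (q j)| ≤ T ^ (-B)}.ncard : ℕ) : ℝ)) ≤
        C * T ^ (2 * (((n + 1 : ℕ) : ℝ) - 1) + β) := by
      refine le_trans ?_ h1
      exact_mod_cast h3
    nlinarith

end Pool.Agent.TH818.AP
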