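import Pool.Agent.TH818.AP.LogZ
import Pool.Agent.TH818.AP.SubZ

/-!
# Linear forms in logarithms of integers
-/

set_option autoImplicit false

open Set Polynomial Filter Topology

namespace Pool.Agent.TH818.AP

open Pool.Agent.TH818.AR

/-- the numbers `1`, `log x_j` -/
noncomputable def xiW {n : ℕ} (x : Fin n → ℕ) (e : Option (Fin n)) : ℝ :=
  e.elim 1 fun j => Real.log (x j)

/-- the exceptional set for the forms `∑ c_o ξ_(e_o) (log x_0)^(l_o)` -/
def ExcO {n : ℕ} {O : Type} [Fintype O] (σ0 : O → Fin 2 × Option (Fin n)) (N : ℕ) (A B : ℝ) :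
    Set (Fin (n + 1) → ℕ) :=
  {x | (∀ j, N ≤ x j ∧ x j ≤ 2 * N) ∧
    ∃ c : O → ℤ, c ≠ 0 ∧ (∀ o, |(c o : ℝ)| ≤ (N : ℝ) ^ A) ∧
      |∑ o, (c o : ℝ) * (xiW (fun j => x j.succ) (σ0 o).2 * Real.log (x 0) ^ ((σ0 o).1 : ℕ))| ≤ (N : ℝ) ^ (-B)}

/-- the exceptional set -/
def ExcW (n N : ℕ) (A B : ℝ) : Set (Fin n → ℕ) :=
  {x | (∀ j, N ≤ x j ∧ x j ≤ 2 * N) ∧
    ∃ c : Option (Fin n) → ℤ, c ≠ 0 ∧ (∀ e, |(c e : ℝ)| ≤ (N : ℝ) ^ A) ∧ |∑ e, (c e : ℝ) * xiW x e| ≤ (N : ℝ) ^ (-B)}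

theorem box_fin {n N : ℕ} {S : Set (Fin n → ℕ)} (h : ∀ x ∈ S, ∀ j, N ≤ x j ∧ x j ≤ 2 * N) :
    S ⊆ (Fintype.piFinset fun _ : Fin n => Finset.Icc N (2 * N) : Finset (Fin n → ℕ)) := by
  intro t ht
  rw [Finset.mem_coe, Fintype.mem_piFinset]
  exact fun j => Finset.mem_Icc.2 (h t ht j)

theorem ExcW_fin (n N : ℕ) (A B : ℝ) : (ExcW n N A B).Finite :=
  (Finset.finite_toSet _).subset (box_fin fun _ hx => hx.1)

theorem ExcO_fin {n : ℕ} {O : Type} [Fintype O] (σ0 : O → Fin 2 × Option (Fin n)) (N : ℕ) (A B : ℝ) :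
    (ExcO σ0 N A B).Finite :=
  (Finset.finite_toSet _).subset (box_fin fun _ hx => hx.1)

set_option maxHeartbeats 1000000 in
theorem stepW (n : ℕ) {O : Type} [Fintype O] (σ0 : O → Fin 2 × Option (Fin n)) (hσ : Function.Injective σ0)
    (A β : ℝ) (hA : 0 ≤ A) (hβ : (Fintype.card O : ℝ) / (Fintype.card O + 1) < β)
    (ih : ∀ A : ℝ, 0 ≤ A → ∃ B C : ℝ, ∃ T0 : ℝ, 0 < C ∧ 1 ≤ T0 ∧ ∀ N : ℕ, T0 ≤ (N : ℝ) →
      ((ExcW n N A B).ncard : ℝ) ≤ C * (N : ℝ) ^ ((n : ℝ) - 1 + β)) :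
    ∃ B C : ℝ, ∃ T0 : ℝ, 0 < C ∧ 1 ≤ T0 ∧ ∀ N : ℕ, T0 ≤ (N : ℝ) →
      ((ExcO σ0 N A B).ncard : ℝ) ≤ C * (N : ℝ) ^ (((n + 1 : ℕ) : ℝ) - 1 + β) := by
  classical
  let eO : Fin (Fintype.card O) ≃ O := (Fintype.equivFin O).symm
  let σ : Fin (Fintype.card O) ↪ Fin 2 × Option (Fin n) := eO.toEmbedding.trans ⟨σ0, hσ⟩
  obtain ⟨κ, C1, hC1, hU⟩ := uniformSZ σ
    (fun (l : Fin (1 + 1)) (t : ℝ) => Real.log t ^ (l : ℕ)) 1 2 (by norm_num)
    (fun l t ht => (analyticAt_log (by linarith [ht.1])).pow _) (log_indep 1 1 2 one_pos (by norm_num))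
    (fun l : Fin (1 + 1) => (l : ℕ)) A β hA hβ
  obtain ⟨B', C', T1, hC', hT1, hih⟩ := ih (max κ 0) (le_max_right _ _)
  obtain ⟨B, T2, hT2, hU'⟩ := hU B'
  refine ⟨B, 2 * C' + C1 * 2 ^ n, max T1 T2, by positivity, le_max_of_le_left hT1, ?_⟩
  intro N hT
  have hTT1 : T1 ≤ (N : ℝ) := (le_max_left _ _).trans hT
  have hTT2 : T2 ≤ (N : ℝ) := (le_max_right _ _).trans hT
  have hTge : (1 : ℝ) ≤ N := hT1.trans hTT1
  have hTp : (0 : ℝ) < N := by linarith
  have hN1 : 1 ≤ N := by exact_mod_cast hTge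
  -- the key inclusion
  have hkey : ∀ x ∈ ExcO σ0 N A B, (fun j : Fin n => x j.succ) ∉ ExcW n N (max κ 0) B' →
      ScaleMeas (xiW fun j : Fin n => x j.succ) κ B' N ∧
      ((x 0 : ℚ) / N) ∈ ExcSZ σ (fun (l : Fin (1 + 1)) (t : ℝ) => Real.log t ^ (l : ℕ)) 1 2 A B N N
        (tauL 1 (Real.log N)) (xiW fun j : Fin n => x j.succ) := by
    rintro x ⟨hx, c, hc0, hc, hcs⟩ hnot
    constructor
    · intro c' hc'0 hc'
      by_contra hcon
      rw [not_le] at hcon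
      apply hnot
      refine ⟨fun j => hx j.succ, c', hc'0, fun e => (hc' e).trans ?_, hcon.le⟩
      exact Real.rpow_le_rpow_of_exponent_le hTge (le_max_left _ _)
    · have hx0 : (N : ℝ) ≤ x 0 := by exact_mod_cast (hx 0).1
      have hx0' : (x 0 : ℝ) ≤ 2 * N := by exact_mod_cast (hx 0).2
      refine ⟨⟨?_, ?_⟩, ⟨x 0, by push_cast; rfl⟩, fun i => c (eO i), ?_, fun i => hc _, ?_⟩
      · push_cast
        rw [le_div_iff₀ hTp]
        linarith
      · push_cast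
        rw [div_le_iff₀ hTp]
        linarith
      · intro hcon
        apply hc0
        funext o
        have := congrFun hcon (eO.symm o)
        simpa using this
      · refine le_trans (le_of_eq ?_) hcs
        congr 1
        rw [← Equiv.sum_comp eO]
        refine Finset.sum_congr rfl fun i _ => ?_
        have hlog : Real.log N + Real.log (((x 0 : ℚ) / N : ℚ) : ℝ) = Real.log (x 0) := by
          push_cast
          rw [Real.log_div (by linarith) hTp.ne']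
          ring
        rw [sum_tauL, hlog]
        rfl
  set S := (ExcO_fin σ0 N A B).toFinset with hS
  set S0 := (ExcW_fin n N (max κ 0) B').toFinset with hS0
  have hSmem : ∀ t, t ∈ S ↔ t ∈ ExcO σ0 N A B := fun t => (ExcO_fin _ _ _ _).mem_toFinset
  have hS0mem : ∀ t, t ∈ S0 ↔ t ∈ ExcW n N (max κ 0) B' := fun t => (ExcW_fin _ _ _ _).mem_toFinset
  have hcardI : ((Finset.Icc N (2 * N)).card : ℝ) ≤ 2 * N := by
    rw [Nat.card_Icc]
    have : 2 * N + 1 - N ≤ 2 * N := by omega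
    exact_mod_cast this
  rw [Set.ncard_eq_toFinset_card _ (ExcO_fin σ0 N A B)]
  have hsplit := Finset.card_filter_add_card_filter_not (s := S)
    (p := fun t : Fin (n + 1) → ℕ => (fun j : Fin n => t j.succ) ∈ S0)
  -- first part
  have hp1 : ((S.filter fun t : Fin (n + 1) → ℕ => (fun j : Fin n => t j.succ) ∈ S0).card : ℝ) ≤
      (2 * C') * (N : ℝ) ^ (((n + 1 : ℕ) : ℝ) - 1 + β) := by
    have hle : (S.filter fun t : Fin (n + 1) → ℕ => (fun j : Fin n => t j.succ) ∈ S0).card ≤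
        (Finset.Icc N (2 * N) ×ˢ S0).card := by
      refine Finset.card_le_card_of_injOn (fun t => (t 0, fun j : Fin n => t j.succ)) ?_ ?_
      · intro t ht
        rw [Finset.mem_coe, Finset.mem_filter] at ht
        rw [Finset.mem_coe, Finset.mem_product]
        exact ⟨Finset.mem_Icc.2 (((hSmem t).1 ht.1).1 0), ht.2⟩
      · intro t _ t' _ heq
        simp only [Prod.mk.injEq] at heq
        funext j
        refine Fin.cases heq.1 (fun i => congrFun heq.2 i) j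
    rw [Finset.card_product] at hle
    have h0 : (S0.card : ℝ) ≤ C' * (N : ℝ) ^ ((n : ℝ) - 1 + β) := by
      have := hih N hTT1
      rwa [Set.ncard_eq_toFinset_card _ (ExcW_fin _ _ _ _)] at this
    calc ((S.filter fun t : Fin (n + 1) → ℕ => (fun j : Fin n => t j.succ) ∈ S0).card : ℝ)
        ≤ ((Finset.Icc N (2 * N)).card : ℝ) * (S0.card : ℝ) := by exact_mod_cast hle
      _ ≤ (2 * N) * (C' * (N : ℝ) ^ ((n : ℝ) - 1 + β)) :=
          mul_le_mul hcardI h0 (by positivity) (by positivity)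
      _ = (2 * C') * ((N : ℝ) ^ (1 : ℝ) * (N : ℝ) ^ ((n : ℝ) - 1 + β)) := by rw [Real.rpow_one]; ring
      _ = (2 * C') * (N : ℝ) ^ (((n + 1 : ℕ) : ℝ) - 1 + β) := by
          rw [← Real.rpow_add hTp]
          congr 2
          push_cast
          ring
  -- second part
  have hp2 : ((S.filter fun t : Fin (n + 1) → ℕ => ¬ (fun j : Fin n => t j.succ) ∈ S0).card : ℝ) ≤
      (C1 * 2 ^ n) * (N : ℝ) ^ (((n + 1 : ℕ) : ℝ) - 1 + β) := by
    set F := S.filter fun t : Fin (n + 1) → ℕ => ¬ (fun j : Fin n => t j.succ) ∈ S0 with hF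
    have hmaps : ∀ t ∈ F, (fun t : Fin (n + 1) → ℕ => fun j : Fin n => t j.succ) t ∈
        Fintype.piFinset fun _ : Fin n => Finset.Icc N (2 * N) := by
      intro t ht
      rw [Fintype.mem_piFinset]
      exact fun j => Finset.mem_Icc.2 (((hSmem t).1 (Finset.mem_filter.1 ht).1).1 j.succ)
    have hfib : ∀ t' ∈ Fintype.piFinset fun _ : Fin n => Finset.Icc N (2 * N),
        (F.filter fun t => (fun j : Fin n => t j.succ) = t').card ≤ ⌊C1 * (N : ℝ) ^ β⌋₊ := by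
      intro t' _
      rcases (F.filter fun t => (fun j : Fin n => t j.succ) = t').eq_empty_or_nonempty with hemp | ⟨t1, ht1⟩
      · rw [hemp]; simp
      rw [Finset.mem_filter] at ht1
      have hmemF : ∀ t ∈ F, t ∈ ExcO σ0 N A B ∧
          (fun j : Fin n => t j.succ) ∉ ExcW n N (max κ 0) B' := by
        intro t ht
        rw [hF, Finset.mem_filter] at ht
        exact ⟨(hSmem t).1 ht.1, fun hcon => ht.2 ((hS0mem _).2 hcon)⟩
      have hsm := (hkey t1 (hmemF t1 ht1.1).1 (hmemF t1 ht1.1).2).1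
      rw [ht1.2] at hsm
      obtain ⟨hfin, hnc⟩ := hU' N N rfl hTT2 _ (tri_tauL 1 (Real.log N)) _ hsm
      rw [Set.ncard_eq_toFinset_card _ hfin] at hnc
      refine le_trans ?_ (Nat.le_floor hnc)
      refine Finset.card_le_card_of_injOn (fun t => (t 0 : ℚ) / N) ?_ ?_
      · intro t ht
        rw [Finset.mem_coe, Finset.mem_filter] at ht
        rw [Finset.mem_coe, Set.Finite.mem_toFinset]
        have := (hkey t (hmemF t ht.1).1 (hmemF t ht.1).2).2
        rwa [ht.2] at this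
      · intro t ht t2 ht2 heq
        rw [Finset.mem_coe, Finset.mem_filter] at ht ht2
        have hNq : (N : ℚ) ≠ 0 := by exact_mod_cast (by omega : N ≠ 0)
        have h00 : t 0 = t2 0 := by
          have : (t 0 : ℚ) / N = (t2 0 : ℚ) / N := heq
          rw [div_left_inj' hNq] at this
          exact_mod_cast this
        funext j
        refine Fin.cases h00 (fun i => ?_) j
        exact congrFun (ht.2.trans ht2.2.symm) i
    have hcardF := Finset.card_le_mul_card_image_of_maps_to hmaps _ hfib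
    rw [Fintype.card_piFinset, Finset.prod_const, Finset.card_univ, Fintype.card_fin] at hcardF
    have h1 : (F.card : ℝ) ≤ (⌊C1 * (N : ℝ) ^ β⌋₊ : ℝ) * ((Finset.Icc N (2 * N)).card : ℝ) ^ n := by
      exact_mod_cast hcardF
    have h2 : (⌊C1 * (N : ℝ) ^ β⌋₊ : ℝ) ≤ C1 * (N : ℝ) ^ β := Nat.floor_le (by positivity)
    calc (F.card : ℝ) ≤ (⌊C1 * (N : ℝ) ^ β⌋₊ : ℝ) * ((Finset.Icc N (2 * N)).card : ℝ) ^ n := h1
      _ ≤ (C1 * (N : ℝ) ^ β) * (2 * N) ^ n :=
          mul_le_mul h2 (pow_le_pow_left₀ (by positivity) hcardI n) (by positivity) (by positivity)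
      _ = (C1 * 2 ^ n) * ((N : ℝ) ^ β * (N : ℝ) ^ (n : ℝ)) := by rw [mul_pow, Real.rpow_natCast]; ring
      _ = (C1 * 2 ^ n) * (N : ℝ) ^ (((n + 1 : ℕ) : ℝ) - 1 + β) := by
          rw [← Real.rpow_add hTp]
          congr 2
          push_cast
          ring
  have hsum : (S.card : ℝ) = ((S.filter fun t : Fin (n + 1) → ℕ => (fun j : Fin n => t j.succ) ∈ S0).card : ℝ) +
      ((S.filter fun t : Fin (n + 1) → ℕ => ¬ (fun j : Fin n => t j.succ) ∈ S0).card : ℝ) := by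
    exact_mod_cast hsplit.symm
  rw [hsum, add_mul]
  exact add_le_add hp1 hp2

/-- all forms `c + ∑ c_j log x_j` -/
def σall (n : ℕ) (o : Option (Fin (n + 1))) : Fin 2 × Option (Fin n) :=
  o.elim (0, none) fun j => Fin.cases (1, none) (fun i => (0, some i)) j

theorem σall_inj (n : ℕ) : Function.Injective (σall n) := by
  intro o o' h
  match o, o' with
  | none, none => rfl
  | none, some j =>
    revert h
    refine Fin.cases ?_ (fun i => ?_) j <;> simp [σall]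
  | some j, none =>
    revert h
    refine Fin.cases ?_ (fun i => ?_) j <;> simp [σall]
  | some j, some j' =>
    revert h
    refine Fin.cases ?_ (fun i => ?_) j <;> refine Fin.cases ?_ (fun i' => ?_) j' <;> simp [σall]

/-- the forms `∑ c_j log x_j` -/
theorem ExcW_sub_O (n N : ℕ) (A B : ℝ) : ExcW (n + 1) N A B ⊆ ExcO (σall n) N A B := by
  rintro x ⟨hx, c, hc0, hc, hcs⟩
  refine ⟨hx, c, hc0, hc, le_trans (le_of_eq ?_) hcs⟩
  congr 1
  refine Finset.sum_congr rfl fun o _ => ?_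
  match o with
  | none => simp [σall, xiW]
  | some j =>
    refine Fin.cases ?_ (fun i => ?_) j <;> simp [σall, xiW]

theorem multiW (n : ℕ) :
    ∀ (A β : ℝ), 0 ≤ A → ((n : ℝ) + 1) / ((n : ℝ) + 2) < β →
    ∃ B C : ℝ, ∃ T0 : ℝ, 0 < C ∧ 1 ≤ T0 ∧ ∀ N : ℕ, T0 ≤ (N : ℝ) →
      ((ExcW n N A B).ncard : ℝ) ≤ C * (N : ℝ) ^ ((n : ℝ) - 1 + β) := by
  induction n with
  | zero =>
    intro A β hA hβ
    refine ⟨1, 1, 2, one_pos, by norm_num, ?_⟩
    intro N hT
    have hTp : (0 : ℝ) < N := by linarith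
    have hemp : ExcW 0 N A 1 = ∅ := by
      rw [Set.eq_empty_iff_forall_notMem]
      rintro t ⟨-, c, hc0, hc, hcs⟩
      have h1 : c none ≠ 0 := by
        intro h
        apply hc0
        funext e
        match e with
        | none => exact h
        | some j => exact j.elim0
      rw [Fintype.sum_option] at hcs
      simp only [xiW, Option.elim_none, mul_one, Finset.univ_eq_empty, Finset.sum_empty, add_zero] at hcs
      have h2 : (1 : ℝ) ≤ |(c none : ℝ)| := by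
        have := Int.one_le_abs h1
        exact_mod_cast this
      have h3 : (N : ℝ) ^ (-1 : ℝ) < 1 := by
        rw [Real.rpow_neg_one]
        exact inv_lt_one_of_one_lt₀ (by linarith)
      linarith
    rw [hemp, Set.ncard_empty, Nat.cast_zero]
    positivity
  | succ n ih =>
    intro A β hA hβ
    have hβ' : ((n : ℝ) + 1) / ((n : ℝ) + 2) < β := by
      refine lt_of_le_of_lt ?_ hβ
      push_cast
      rw [div_le_div_iff₀ (by positivity) (by positivity)]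
      nlinarith
    obtain ⟨B, C, T0, hC, hT0, h⟩ := stepW n (σall n) (σall_inj n) A β hA (by
      rw [Fintype.card_option, Fintype.card_fin]
      refine lt_of_le_of_lt (le_of_eq ?_) hβ
      push_cast
      ring) (fun A hA => ih A β hA hβ')
    refine ⟨B, C, T0, hC, hT0, fun N hN => le_trans ?_ (h N hN)⟩
    exact_mod_cast Set.ncard_le_ncard (ExcW_sub_O n N A B) (ExcO_fin _ _ _ _)

/-- homogeneous forms -/
def σhom (n : ℕ) (j : Fin (n + 1)) : Fin 2 × Option (Fin n) :=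
  Fin.cases (1, none) (fun i => (0, some i)) j

theorem σhom_inj (n : ℕ) : Function.Injective (σhom n) := by
  intro j j' h
  revert h
  refine Fin.cases ?_ (fun i => ?_) j <;> refine Fin.cases ?_ (fun i' => ?_) j' <;> simp [σhom]

/-- For all but `C N^(n - 1 + β)` of the `n`-tuples `x` of integers in `[N, 2N]` (`n ≥ 1`, `β > n / (n + 1)`) the linear
forms `∑ c_j log x_j` with integer coefficients at most `N^A`, not all zero, are at least `N^(-B)`. -/
theorem homW (n : ℕ) (A β : ℝ) (hA : 0 ≤ A) (hβ : ((n : ℝ) + 1) / ((n : ℝ) + 2) < β) :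
    ∃ B C : ℝ, ∃ T0 : ℝ, 0 < C ∧ 1 ≤ T0 ∧ ∀ N : ℕ, T0 ≤ (N : ℝ) →
      (({x : Fin (n + 1) → ℕ | (∀ j, N ≤ x j ∧ x j ≤ 2 * N) ∧
        ∃ c : Fin (n + 1) → ℤ, c ≠ 0 ∧ (∀ e, |(c e : ℝ)| ≤ (N : ℝ) ^ A) ∧
          |∑ j, (c j : ℝ) * Real.log (x j)| ≤ (N : ℝ) ^ (-B)}.ncard : ℕ) : ℝ) ≤
        C * (N : ℝ) ^ (((n + 1 : ℕ) : ℝ) - 1 + β) := by
  obtain ⟨B, C, T0, hC, hT0, h⟩ := stepW n (σhom n) (σhom_inj n) A β hA (by
      rw [Fintype.card_fin]
      refine lt_of_le_of_lt (le_of_eq ?_) hβ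
      push_cast
      ring) (fun A hA => multiW n A β hA hβ)
  refine ⟨B, C, T0, hC, hT0, fun N hN => le_trans ?_ (h N hN)⟩
  have hsub : {x : Fin (n + 1) → ℕ | (∀ j, N ≤ x j ∧ x j ≤ 2 * N) ∧
        ∃ c : Fin (n + 1) → ℤ, c ≠ 0 ∧ (∀ e, |(c e : ℝ)| ≤ (N : ℝ) ^ A) ∧
          |∑ j, (c j : ℝ) * Real.log (x j)| ≤ (N : ℝ) ^ (-B)} ⊆ ExcO (σhom n) N A B := by
    rintro x ⟨hx, c, hc0, hc, hcs⟩
    refine ⟨hx, c, hc0, hc, le_trans (le_of_eq ?_) hcs⟩
    congr 1
    refine Finset.sum_congr rfl fun j _ => ?_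
    refine Fin.cases ?_ (fun i => ?_) j <;> simp [σhom, xiW]
  exact_mod_cast Set.ncard_le_ncard hsub (ExcO_fin _ _ _ _)

end Pool.Agent.TH818.AP
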