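import Pool.Agent.TH818.AP.Unif
import Pool.Agent.TH818.AP.Defs2

/-!
# Approximate relations between the periods of products of elliptic curves
-/

set_option autoImplicit false

open Set Polynomial Filter Topology

namespace Pool.Agent.TH818.AP

open Pool.Agent.TH818.AR

/-- exponents -/
abbrev Idx (n d : ℕ) := (Fin n → Fin 3 → Fin (d + 1)) × Fin (d + 1)

/-- monomials in the functions of one modulus -/
noncomputable def g1 {d : ℕ} (l : Fin 3 → Fin (d + 1)) (t : ℝ) : ℝ := ∏ i, KC 0 1 i t ^ (l i : ℕ)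

/-- monomials in the periods -/
noncomputable def xi {n d : ℕ} (t : Fin n → ℚ) (e : Idx n d) : ℝ :=
  (∏ j, g1 (e.1 j) (t j : ℝ)) * Real.pi ^ (e.2 : ℕ)

/-- the exceptional set -/
def ExcN (n d : ℕ) (a b A B T : ℝ) : Set (Fin n → ℚ) :=
  {t | (∀ j, (t j : ℝ) ∈ Icc a b ∧ ((t j).den : ℝ) ≤ T) ∧
    ∃ c : Idx n d → ℤ, c ≠ 0 ∧ (∀ e, |(c e : ℝ)| ≤ T ^ A) ∧ |∑ e, (c e : ℝ) * xi t e| ≤ T ^ (-B)}

/-- the rationals of bounded height -/
noncomputable def RT (a b T : ℝ) : Finset ℚ := (finite_rat a b T).toFinset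

theorem mem_RT {a b T : ℝ} {q : ℚ} : q ∈ RT a b T ↔ (q : ℝ) ∈ Icc a b ∧ (q.den : ℝ) ≤ T := by
  simp [RT]

theorem card_RT {a b T : ℝ} (ha : 0 < a) (hb : b < 1) (hT : 1 ≤ T) : ((RT a b T).card : ℝ) ≤ 4 * T ^ (2 : ℝ) := by
  classical
  set N := ⌊T⌋₊ with hN
  have hNT : (N : ℝ) ≤ T := Nat.floor_le (by linarith)
  have hmap : ∀ q ∈ RT a b T, (fun q : ℚ => (q.num.toNat, q.den)) q ∈
      Finset.range (N + 1) ×ˢ Finset.range (N + 1) := by
    intro q hq
    obtain ⟨hq1, hq2⟩ := mem_RT.1 hq
    have hd : q.den ≤ N := Nat.le_floor hq2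
    have hq0 : (0 : ℝ) < q := ha.trans_le hq1.1
    have hqlt : (q : ℝ) < 1 := lt_of_le_of_lt hq1.2 hb
    have hn0 : 0 < q.num := Rat.num_pos.2 (by exact_mod_cast hq0)
    have hnd : q.num < q.den := by
      have : q < 1 := by exact_mod_cast hqlt
      exact Rat.num_lt_denom_iff.2 this
    simp only [Finset.mem_product, Finset.mem_range]
    constructor
    · omega
    · omega
  have hinj : Set.InjOn (fun q : ℚ => (q.num.toNat, q.den)) (RT a b T) := by
    intro q hq q' hq' heq
    obtain ⟨hq1, -⟩ := mem_RT.1 hq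
    obtain ⟨hq1', -⟩ := mem_RT.1 hq'
    have hq0 : (0 : ℝ) < q := ha.trans_le hq1.1
    have hq0' : (0 : ℝ) < q' := ha.trans_le hq1'.1
    have hn0 : 0 < q.num := Rat.num_pos.2 (by exact_mod_cast hq0)
    have hn0' : 0 < q'.num := Rat.num_pos.2 (by exact_mod_cast hq0')
    simp only [Prod.mk.injEq] at heq
    apply Rat.ext
    · omega
    · exact heq.2
  have h1 := Finset.card_le_card_of_injOn _ hmap hinj
  rw [Finset.card_product, Finset.card_range] at h1
  have h2 : ((RT a b T).card : ℝ) ≤ ((N + 1) * (N + 1) : ℕ) := by exact_mod_cast h1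
  push_cast at h2
  have h3 : T ^ (2 : ℝ) = T * T := by
    rw [show (2 : ℝ) = ((2 : ℕ) : ℝ) by norm_num, Real.rpow_natCast]
    ring
  rw [h3]
  nlinarith

theorem ExcN_sub (n d : ℕ) (a b A B T : ℝ) :
    ExcN n d a b A B T ⊆ (Fintype.piFinset fun _ : Fin n => RT a b T : Finset (Fin n → ℚ)) := by
  intro t ht
  rw [Finset.mem_coe, Fintype.mem_piFinset]
  exact fun j => mem_RT.2 (ht.1 j)

theorem ExcN_fin (n d : ℕ) (a b A B T : ℝ) : (ExcN n d a b A B T).Finite :=
  (Finset.finite_toSet _).subset (ExcN_sub n d a b A B T)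

/-- splitting off the first modulus -/
def eqI (n d : ℕ) : Idx (n + 1) d ≃ (Fin 3 → Fin (d + 1)) × Idx n d where
  toFun e := (e.1 0, (fun j => e.1 j.succ, e.2))
  invFun x := (Fin.cons x.1 x.2.1, x.2.2)
  left_inv e := by
    refine Prod.ext ?_ rfl
    funext j
    refine Fin.cases ?_ (fun i => ?_) j <;> simp
  right_inv x := by
    refine Prod.ext ?_ (Prod.ext ?_ rfl)
    · simp
    · funext j
      simp

theorem xi_succ {n d : ℕ} (t : Fin (n + 1) → ℚ) (e : Idx (n + 1) d) :
    xi t e = xi (fun j => t j.succ) (eqI n d e).2 * g1 (eqI n d e).1 (t 0 : ℝ) := by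
  simp only [xi, eqI, Equiv.coe_fn_mk, Fin.prod_univ_succ]
  ring

theorem multi (hbd : T_bd) (hlow : T_low) (htay : T_taylor) (hdet : T_det2) (harith : T_arith)
    (haux : T_aux2) (hpi : T_pi) (d : ℕ) (a b : ℝ) (ha : 0 < a) (hab : a < b) (hb : b < 1)
    (han : ∀ l : Fin 3 → Fin (d + 1), AnalyticOnNhd ℝ (g1 l) (Icc a b))
    (hg : RIndep (fun l : Fin 3 → Fin (d + 1) => g1 l) a b) (n : ℕ) :
    ∀ (A β : ℝ), 0 ≤ A → 2 * (((d + 1) ^ (3 * n + 1) : ℕ) : ℝ) / ((((d + 1) ^ (3 * n + 1) : ℕ) : ℝ) + 1) < β →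
    ∃ B C T0 : ℝ, 0 < C ∧ 1 ≤ T0 ∧ ∀ T : ℝ, T0 ≤ T →
      ((ExcN n d a b A B T).ncard : ℝ) ≤ C * T ^ (2 * ((n : ℝ) - 1) + β) := by
  classical
  induction n with
  | zero =>
    intro A β hA hβ
    obtain ⟨κ, c, hκ, hc, hP⟩ := hpi d
    refine ⟨κ * A + 1, 1, 1 + 1 / c, one_pos, by linarith [show 0 < 1 / c by positivity], ?_⟩
    intro T hT
    have hc' : 0 < 1 / c := by positivity
    have hT1 : 1 < T := by linarith
    have hTp : 0 < T := by linarith
    have hTc : 1 < c * T := by
      have : 1 / c < T := by linarith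
      rwa [div_lt_iff₀ hc, mul_comm] at this
    have hemp : ExcN 0 d a b A (κ * A + 1) T = ∅ := by
      rw [Set.eq_empty_iff_forall_notMem]
      rintro t ⟨-, C0, hC0, hCA, hCs⟩
      set P : ℤ[X] := ∑ e : Idx 0 d, C (C0 e) * X ^ (e.2 : ℕ) with hPdef
      have hcoef : ∀ e0 : Idx 0 d, P.coeff (e0.2 : ℕ) = C0 e0 := by
        intro e0
        rw [hPdef, finsetSum_coeff, Finset.sum_eq_single e0]
        · simp
        · intro e _ he
          rw [coeff_C_mul, coeff_X_pow, if_neg, mul_zero]
          intro hcon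
          apply he
          refine Prod.ext (Subsingleton.elim _ _) (Fin.ext hcon.symm)
        · simp
      have hPne : P ≠ 0 := by
        intro h0
        apply hC0
        funext e0
        rw [← hcoef e0, h0]
        simp
      have hdeg : P.natDegree ≤ d := by
        refine natDegree_sum_le_of_forall_le _ _ (fun e _ => ?_)
        refine (natDegree_C_mul_X_pow_le _ _).trans ?_
        have := e.2.isLt
        omega
      have hcb : ∀ i, |(P.coeff i : ℝ)| ≤ T ^ A := by
        intro i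
        rcases Nat.lt_or_ge i (d + 1) with hi | hi
        · have := hcoef (Fin.elim0, ⟨i, hi⟩)
          simp only at this
          rw [this]
          exact hCA _
        · rw [coeff_eq_zero_of_natDegree_lt (by omega)]
          simp only [Int.cast_zero, abs_zero]
          positivity
      have h1 := hP (T ^ A) P (Real.one_le_rpow hT1.le hA) hPne hdeg hcb
      have h2 : aeval Real.pi P = ∑ e : Idx 0 d, (C0 e : ℝ) * xi t e := by
        rw [hPdef, map_sum]
        refine Finset.sum_congr rfl fun e _ => ?_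
        simp [xi]
      rw [h2] at h1
      have h3 := h1.trans hCs
      rw [← Real.rpow_mul hTp.le] at h3
      have h4 : T ^ (-(κ * A + 1)) = T ^ (A * -κ) * T⁻¹ := by
        rw [← Real.rpow_neg_one T, ← Real.rpow_add hTp]
        congr 1
        ring
      rw [h4] at h3
      have h5 : 0 < T ^ (A * -κ) := by positivity
      have h6 : c ≤ T⁻¹ := by
        by_contra hcon
        rw [not_le] at hcon
        nlinarith
      have h7 : c * T ≤ 1 := by
        calc c * T ≤ T⁻¹ * T := by gcongr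
          _ = 1 := inv_mul_cancel₀ hTp.ne'
      linarith
    rw [hemp, Set.ncard_empty, Nat.cast_zero]
    positivity
  | succ n ih =>
    intro A β hA hβ
    have hMle : (((d + 1) ^ (3 * n + 1) : ℕ) : ℝ) ≤ (((d + 1) ^ (3 * (n + 1) + 1) : ℕ) : ℝ) := by
      exact_mod_cast Nat.pow_le_pow_right (Nat.succ_pos d) (by omega)
    have hβ' : 2 * (((d + 1) ^ (3 * n + 1) : ℕ) : ℝ) / ((((d + 1) ^ (3 * n + 1) : ℕ) : ℝ) + 1) < β := by
      refine lt_of_le_of_lt ?_ hβ
      rw [div_le_div_iff₀ (by positivity) (by positivity)]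
      nlinarith
    have hcard : Fintype.card (Fin 3 → Fin (d + 1)) * Fintype.card (Idx n d) = (d + 1) ^ (3 * (n + 1) + 1) := by
      simp only [Idx, Fintype.card_prod, Fintype.card_pi, Fintype.card_fin, Finset.prod_const, Finset.card_univ]
      rw [← pow_mul, ← pow_succ, ← pow_add]
      congr 1
      ring
    obtain ⟨κ, C1, hC1, hU⟩ := uniform hbd hlow htay hdet harith haux (h := Idx n d)
      (fun l : Fin 3 → Fin (d + 1) => g1 l) a b hab han hg A β hA _ hcard hβ
    obtain ⟨B', C', T1, hC', hT1, hih⟩ := ih (max κ 0) β (le_max_right _ _) hβ'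
    obtain ⟨B, T2, hT2, hU'⟩ := hU B'
    refine ⟨B, 4 * C' + C1 * 4 ^ n, max T1 T2, by positivity, le_max_of_le_left hT1, ?_⟩
    intro T hT
    have hTT1 : T1 ≤ T := (le_max_left _ _).trans hT
    have hTT2 : T2 ≤ T := (le_max_right _ _).trans hT
    have hTge : 1 ≤ T := hT1.trans hTT1
    have hTp : 0 < T := by linarith
    -- the key inclusion
    have hkey : ∀ t ∈ ExcN (n + 1) d a b A B T, (fun j : Fin n => t j.succ) ∉ ExcN n d a b (max κ 0) B' T →
        ScaleMeas (xi (d := d) fun j : Fin n => t j.succ) κ B' T ∧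
        t 0 ∈ ExcC (fun l : Fin 3 → Fin (d + 1) => g1 l) a b A B T (xi (d := d) fun j : Fin n => t j.succ) := by
      rintro t ⟨ht, c, hc0, hc, hcs⟩ hnot
      constructor
      · intro c' hc'0 hc'
        by_contra hcon
        rw [not_le] at hcon
        apply hnot
        refine ⟨fun j => ht j.succ, c', hc'0, fun e => (hc' e).trans ?_, hcon.le⟩
        exact Real.rpow_le_rpow_of_exponent_le hTge (le_max_left _ _)
      · refine ⟨(ht 0).1, (ht 0).2, fun l => c ((eqI n d).symm l), ?_, fun l => hc _, ?_⟩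
        · intro hcon
          apply hc0
          funext e
          have := congrFun hcon (eqI n d e)
          simpa using this
        · rw [← Equiv.sum_comp (eqI n d)]
          refine le_trans (le_of_eq ?_) hcs
          congr 1
          refine Finset.sum_congr rfl fun e _ => ?_
          rw [xi_succ]
          simp only [Equiv.symm_apply_apply]
    set S := (ExcN_fin (n + 1) d a b A B T).toFinset with hS
    set S0 := (ExcN_fin n d a b (max κ 0) B' T).toFinset with hS0
    have hSmem : ∀ t, t ∈ S ↔ t ∈ ExcN (n + 1) d a b A B T := fun t => (ExcN_fin _ _ _ _ _ _ _).mem_toFinset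
    have hS0mem : ∀ t, t ∈ S0 ↔ t ∈ ExcN n d a b (max κ 0) B' T := fun t => (ExcN_fin _ _ _ _ _ _ _).mem_toFinset
    rw [Set.ncard_eq_toFinset_card _ (ExcN_fin (n + 1) d a b A B T)]
    have hsplit := Finset.card_filter_add_card_filter_not (s := S)
      (p := fun t : Fin (n + 1) → ℚ => (fun j : Fin n => t j.succ) ∈ S0)
    -- first part
    have hp1 : ((S.filter fun t : Fin (n + 1) → ℚ => (fun j : Fin n => t j.succ) ∈ S0).card : ℝ) ≤
        (4 * C') * T ^ (2 * (((n + 1 : ℕ) : ℝ) - 1) + β) := by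
      have hle : (S.filter fun t : Fin (n + 1) → ℚ => (fun j : Fin n => t j.succ) ∈ S0).card ≤
          (RT a b T ×ˢ S0).card := by
        refine Finset.card_le_card_of_injOn (fun t => (t 0, fun j : Fin n => t j.succ)) ?_ ?_
        · intro t ht
          rw [Finset.mem_coe, Finset.mem_filter] at ht
          rw [Finset.mem_coe, Finset.mem_product]
          exact ⟨mem_RT.2 (((hSmem t).1 ht.1).1 0), ht.2⟩
        · intro t _ t' _ heq
          simp only [Prod.mk.injEq] at heq
          funext j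
          refine Fin.cases heq.1 (fun i => congrFun heq.2 i) j
      rw [Finset.card_product] at hle
      have h0 : (S0.card : ℝ) ≤ C' * T ^ (2 * ((n : ℝ) - 1) + β) := by
        have := hih T hTT1
        rwa [Set.ncard_eq_toFinset_card _ (ExcN_fin n d a b (max κ 0) B' T)] at this
      calc ((S.filter fun t : Fin (n + 1) → ℚ => (fun j : Fin n => t j.succ) ∈ S0).card : ℝ)
          ≤ ((RT a b T).card : ℝ) * (S0.card : ℝ) := by exact_mod_cast hle
        _ ≤ (4 * T ^ (2 : ℝ)) * (C' * T ^ (2 * ((n : ℝ) - 1) + β)) :=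
            mul_le_mul (card_RT ha hb hTge) h0 (by positivity) (by positivity)
        _ = (4 * C') * (T ^ (2 : ℝ) * T ^ (2 * ((n : ℝ) - 1) + β)) := by ring
        _ = (4 * C') * T ^ (2 * (((n + 1 : ℕ) : ℝ) - 1) + β) := by
            rw [← Real.rpow_add hTp]
            congr 2
            push_cast
            ring
    -- second part
    have hp2 : ((S.filter fun t : Fin (n + 1) → ℚ => ¬ (fun j : Fin n => t j.succ) ∈ S0).card : ℝ) ≤
        (C1 * 4 ^ n) * T ^ (2 * (((n + 1 : ℕ) : ℝ) - 1) + β) := by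
      set F := S.filter fun t : Fin (n + 1) → ℚ => ¬ (fun j : Fin n => t j.succ) ∈ S0 with hF
      have hmaps : ∀ t ∈ F, (fun t : Fin (n + 1) → ℚ => fun j : Fin n => t j.succ) t ∈
          Fintype.piFinset fun _ : Fin n => RT a b T := by
        intro t ht
        rw [Fintype.mem_piFinset]
        exact fun j => mem_RT.2 (((hSmem t).1 (Finset.mem_filter.1 ht).1).1 j.succ)
      have hfib : ∀ t' ∈ Fintype.piFinset fun _ : Fin n => RT a b T,
          (F.filter fun t => (fun j : Fin n => t j.succ) = t').card ≤ ⌊C1 * T ^ β⌋₊ := by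
        intro t' _
        rcases (F.filter fun t => (fun j : Fin n => t j.succ) = t').eq_empty_or_nonempty with hemp | ⟨t1, ht1⟩
        · rw [hemp]; simp
        rw [Finset.mem_filter] at ht1
        have hmemF : ∀ t ∈ F, t ∈ ExcN (n + 1) d a b A B T ∧
            (fun j : Fin n => t j.succ) ∉ ExcN n d a b (max κ 0) B' T := by
          intro t ht
          rw [hF, Finset.mem_filter] at ht
          exact ⟨(hSmem t).1 ht.1, fun hcon => ht.2 ((hS0mem _).2 hcon)⟩
        have hsm := (hkey t1 (hmemF t1 ht1.1).1 (hmemF t1 ht1.1).2).1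
        rw [ht1.2] at hsm
        obtain ⟨hfin, hnc⟩ := hU' T hTT2 _ hsm
        rw [Set.ncard_eq_toFinset_card _ hfin] at hnc
        refine le_trans ?_ (Nat.le_floor hnc)
        refine Finset.card_le_card_of_injOn (fun t => t 0) ?_ ?_
        · intro t ht
          rw [Finset.mem_coe, Finset.mem_filter] at ht
          rw [Finset.mem_coe, Set.Finite.mem_toFinset]
          have := (hkey t (hmemF t ht.1).1 (hmemF t ht.1).2).2
          rwa [ht.2] at this
        · intro t ht t2 ht2 heq
          rw [Finset.mem_coe, Finset.mem_filter] at ht ht2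
          funext j
          refine Fin.cases heq (fun i => ?_) j
          exact congrFun (ht.2.trans ht2.2.symm) i
      have hcardF := Finset.card_le_mul_card_image_of_maps_to hmaps _ hfib
      rw [Fintype.card_piFinset, Finset.prod_const, Finset.card_univ, Fintype.card_fin] at hcardF
      have h1 : (F.card : ℝ) ≤ (⌊C1 * T ^ β⌋₊ : ℝ) * ((RT a b T).card : ℝ) ^ n := by exact_mod_cast hcardF
      have h2 : (⌊C1 * T ^ β⌋₊ : ℝ) ≤ C1 * T ^ β := Nat.floor_le (by positivity)
      calc (F.card : ℝ) ≤ (⌊C1 * T ^ β⌋₊ : ℝ) * ((RT a b T).card : ℝ) ^ n := h1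
        _ ≤ (C1 * T ^ β) * (4 * T ^ (2 : ℝ)) ^ n :=
            mul_le_mul h2 (pow_le_pow_left₀ (by positivity) (card_RT ha hb hTge) n) (by positivity) (by positivity)
        _ = (C1 * 4 ^ n) * (T ^ β * (T ^ (2 : ℝ)) ^ n) := by rw [mul_pow]; ring
        _ = (C1 * 4 ^ n) * T ^ (2 * (((n + 1 : ℕ) : ℝ) - 1) + β) := by
            rw [← Real.rpow_natCast (T ^ (2 : ℝ)) n, ← Real.rpow_mul hTp.le, ← Real.rpow_add hTp]
            congr 2
            push_cast
            ring
    have hsum : (S.card : ℝ) = ((S.filter fun t : Fin (n + 1) → ℚ => (fun j : Fin n => t j.succ) ∈ S0).card : ℝ) +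
        ((S.filter fun t : Fin (n + 1) → ℚ => ¬ (fun j : Fin n => t j.succ) ∈ S0).card : ℝ) := by
      exact_mod_cast hsplit.symm
    rw [hsum, add_mul]
    exact add_le_add hp1 hp2

end Pool.Agent.TH818.AP
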