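import Pool.Agent.TH818.AP.All

/-!
# From linear forms in monomials to polynomials
-/

set_option autoImplicit false

namespace Pool.Agent.TH818.AP

/-- the exponent vector -/
noncomputable def sOf {n d : ℕ} (e : Idx n d) : Option (Fin n × Fin 3) →₀ ℕ :=
  Finsupp.equivFunOnFinite.symm fun x => match x with
    | none => (e.2 : ℕ)
    | some y => (e.1 y.1 y.2 : ℕ)

theorem sOf_inj {n d : ℕ} : Function.Injective (sOf (n := n) (d := d)) := by
  intro e e' h
  refine Prod.ext ?_ ?_
  · funext j i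
    have := DFunLike.congr_fun h (some (j, i))
    exact Fin.ext (by simpa [sOf] using this)
  · have := DFunLike.congr_fun h none
    exact Fin.ext (by simpa [sOf] using this)

theorem aeval_eq {n d : ℕ} (f : Option (Fin n × Fin 3) → ℝ) (P : MvPolynomial (Option (Fin n × Fin 3)) ℤ)
    (hP : ∀ x, P.degreeOf x ≤ d) : MvPolynomial.aeval f P =
      ∑ e : Idx n d, ((P.coeff (sOf e) : ℤ) : ℝ) * ((∏ j, ∏ i, f (some (j, i)) ^ (e.1 j i : ℕ)) * f none ^ (e.2 : ℕ)) := by
  classical
  have h1 : ∀ e : Idx n d, (∏ j, ∏ i, f (some (j, i)) ^ (e.1 j i : ℕ)) * f none ^ (e.2 : ℕ) =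
      ∏ x, f x ^ (sOf e x) := by
    intro e
    rw [Fintype.prod_option, Fintype.prod_prod_type, mul_comm]
    simp [sOf]
  simp only [h1]
  rw [MvPolynomial.aeval_def, MvPolynomial.eval₂_eq']
  rw [← Finset.sum_image (f := fun s : Option (Fin n × Fin 3) →₀ ℕ => ((P.coeff s : ℤ) : ℝ) * ∏ x, f x ^ (s x))
    (fun a _ b _ hab => sOf_inj hab)]
  refine Finset.sum_subset_zero_on_sdiff ?_ ?_ ?_
  · intro s hs
    rw [Finset.mem_image]
    have hle : ∀ x, s x < d + 1 := fun x =>
      Nat.lt_succ_of_le ((MvPolynomial.monomial_le_degreeOf x hs).trans (hP x))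
    refine ⟨(fun j i => ⟨s (some (j, i)), hle _⟩, ⟨s none, hle _⟩), Finset.mem_univ _, ?_⟩
    ext x
    cases x <;> simp [sOf]
  · intro s hs
    rw [Finset.mem_sdiff, MvPolynomial.notMem_support_iff] at hs
    rw [hs.2]
    simp
  · intro s _
    simp

theorem coeff_ne {n d : ℕ} (P : MvPolynomial (Option (Fin n × Fin 3)) ℤ) (hP0 : P ≠ 0)
    (hP : ∀ x, P.degreeOf x ≤ d) : (fun e : Idx n d => P.coeff (sOf e)) ≠ 0 := by
  intro h
  apply hP0
  ext s
  rw [MvPolynomial.coeff_zero]
  by_contra hs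
  have hs' : s ∈ P.support := MvPolynomial.mem_support_iff.2 hs
  have hle : ∀ x, s x < d + 1 := fun x =>
    Nat.lt_succ_of_le ((MvPolynomial.monomial_le_degreeOf x hs').trans (hP x))
  have := congrFun h (fun j i => ⟨s (some (j, i)), hle _⟩, ⟨s none, hle _⟩)
  apply hs
  have he : sOf ((fun j i => ⟨s (some (j, i)), hle _⟩, ⟨s none, hle _⟩) : Idx n d) = s := by
    ext x
    cases x <;> simp [sOf]
  simp only [he, Pi.zero_apply] at this
  exact this

end Pool.Agent.TH818.AP
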