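import Pool.Agent.TH818.AP.Mv2

/-!
# From linear forms in monomials to polynomials: functions depending on the variable
-/

set_option autoImplicit false

namespace Pool.Agent.TH818.AP

/-- As `polys`, with functions `f_(j,i)` and intervals depending on the variable `j`. -/
theorem polysF {s d n : ℕ} (f : Fin n → Fin s → ℝ → ℝ) (a b : Fin n → ℝ) (hab : ∀ j, a j < b j)
    (han : ∀ j i, AnalyticOnNhd ℝ (f j i) (Set.Icc (a j) (b j)))
    (hg : ∀ j, RIndep (fun (e : Fin s → Fin (d + 1)) (t : ℝ) => ∏ i, f j i t ^ (e i : ℕ)) (a j) (b j))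
    (hn : 1 ≤ n) (A β : ℝ) (hA : 0 ≤ A) (hβ : 2 - 2 / (((d : ℝ) + 1) ^ (s * n + 1) + 1) < β) :
    ∃ B C : ℝ, ∀ T : ℝ, 1 ≤ T →
      {t : Fin n → ℚ | (∀ j, a j ≤ t j ∧ t j ≤ b j ∧ ((t j).den : ℝ) ≤ T) ∧
        ∃ P : MvPolynomial (Option (Fin n × Fin s)) ℤ, P ≠ 0 ∧ (∀ x, P.degreeOf x ≤ d) ∧
          (∀ u, |((P.coeff u : ℤ) : ℝ)| ≤ T ^ A) ∧
          |MvPolynomial.aeval (fun x : Option (Fin n × Fin s) =>
            x.elim Real.pi fun y => f y.1 y.2 (t y.1)) P| ≤ T ^ (-B)}.Finite ∧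
      (({t : Fin n → ℚ | (∀ j, a j ≤ t j ∧ t j ≤ b j ∧ ((t j).den : ℝ) ≤ T) ∧
        ∃ P : MvPolynomial (Option (Fin n × Fin s)) ℤ, P ≠ 0 ∧ (∀ x, P.degreeOf x ≤ d) ∧
          (∀ u, |((P.coeff u : ℤ) : ℝ)| ≤ T ^ A) ∧
          |MvPolynomial.aeval (fun x : Option (Fin n × Fin s) =>
            x.elim Real.pi fun y => f y.1 y.2 (t y.1)) P| ≤ T ^ (-B)}.ncard : ℕ) : ℝ) ≤
        C * T ^ (2 * ((n : ℝ) - 1) + β) := by
  classical
  have hι : 0 < Fintype.card (Fin s → Fin (d + 1)) := Fintype.card_pos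
  have hcard : (Fintype.card (Fin s → Fin (d + 1))) ^ n * Fintype.card (Fin (d + 1)) = (d + 1) ^ (s * n + 1) := by
    simp only [Fintype.card_pi, Fintype.card_fin, Finset.prod_const, Finset.card_univ]
    rw [← pow_mul, ← pow_succ]
  have hβ' : 2 * (((Fintype.card (Fin s → Fin (d + 1))) ^ n * Fintype.card (Fin (d + 1)) : ℕ) : ℝ) /
      ((((Fintype.card (Fin s → Fin (d + 1))) ^ n * Fintype.card (Fin (d + 1)) : ℕ) : ℝ) + 1) < β := by
    rw [hcard]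
    refine lt_of_le_of_lt (le_of_eq ?_) hβ
    have hM0 : (0 : ℝ) < ((d : ℝ) + 1) ^ (s * n + 1) := by positivity
    push_cast
    field_simp
    ring
  obtain ⟨B, C, h⟩ := multi_gen hι _ (goodConst_pi d) n hn
    (fun j => fun (e : Fin s → Fin (d + 1)) (t : ℝ) => ∏ i, f j i t ^ (e i : ℕ)) a b
    hab (fun j e t ht => Finset.analyticAt_fun_prod _ fun i _ => (han j i t ht).pow _) hg
    A β hA hβ'
  refine ⟨B, C, fun T hT => ?_⟩
  obtain ⟨hfin, hle⟩ := h T hT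
  have hsub : {t : Fin n → ℚ | (∀ j, a j ≤ t j ∧ t j ≤ b j ∧ ((t j).den : ℝ) ≤ T) ∧
        ∃ P : MvPolynomial (Option (Fin n × Fin s)) ℤ, P ≠ 0 ∧ (∀ x, P.degreeOf x ≤ d) ∧
          (∀ u, |((P.coeff u : ℤ) : ℝ)| ≤ T ^ A) ∧
          |MvPolynomial.aeval (fun x : Option (Fin n × Fin s) =>
            x.elim Real.pi fun y => f y.1 y.2 (t y.1)) P| ≤ T ^ (-B)} ⊆
      ExcM (fun j => fun (e : Fin s → Fin (d + 1)) (t : ℝ) => ∏ i, f j i t ^ (e i : ℕ))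
        (fun e : Fin (d + 1) => Real.pi ^ (e : ℕ)) a b A B T := by
    rintro t ⟨ht, P, hP0, hPd, hPc, hPs⟩
    refine ⟨fun j => ⟨⟨(ht j).1, (ht j).2.1⟩, (ht j).2.2⟩, fun e => P.coeff (sOf2 e),
      coeff_ne2 P hP0 hPd, fun e => hPc _, ?_⟩
    rw [aeval_eq2 _ P hPd] at hPs
    refine le_trans (le_of_eq ?_) hPs
    congr 1
  refine ⟨hfin.subset hsub, le_trans ?_ hle⟩
  exact_mod_cast Set.ncard_le_ncard hsub hfin

/-! ## One function for every variable -/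

/-- exponents -/
abbrev IdxJ (n d : ℕ) := (Fin n → Fin (d + 1)) × Fin (d + 1)

/-- the exponent vector -/
noncomputable def sOfJ {n d : ℕ} (e : IdxJ n d) : Option (Fin n) →₀ ℕ :=
  Finsupp.equivFunOnFinite.symm fun x => match x with
    | none => (e.2 : ℕ)
    | some y => (e.1 y : ℕ)

theorem sOfJ_inj {n d : ℕ} : Function.Injective (sOfJ (n := n) (d := d)) := by
  intro e e' h
  refine Prod.ext ?_ ?_
  · funext j
    have := DFunLike.congr_fun h (some j)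
    exact Fin.ext (by simpa [sOfJ] using this)
  · have := DFunLike.congr_fun h none
    exact Fin.ext (by simpa [sOfJ] using this)

theorem aeval_eqJ {n d : ℕ} (f : Option (Fin n) → ℝ) (P : MvPolynomial (Option (Fin n)) ℤ)
    (hP : ∀ x, P.degreeOf x ≤ d) : MvPolynomial.aeval f P =
      ∑ e : IdxJ n d, ((P.coeff (sOfJ e) : ℤ) : ℝ) * ((∏ j, f (some j) ^ (e.1 j : ℕ)) * f none ^ (e.2 : ℕ)) := by
  classical
  have h1 : ∀ e : IdxJ n d, (∏ j, f (some j) ^ (e.1 j : ℕ)) * f none ^ (e.2 : ℕ) =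
      ∏ x, f x ^ (sOfJ e x) := by
    intro e
    rw [Fintype.prod_option, mul_comm]
    simp [sOfJ]
  simp only [h1]
  rw [MvPolynomial.aeval_def, MvPolynomial.eval₂_eq']
  rw [← Finset.sum_image (f := fun s : Option (Fin n) →₀ ℕ => ((P.coeff s : ℤ) : ℝ) * ∏ x, f x ^ (s x))
    (fun a _ b _ hab => sOfJ_inj hab)]
  refine Finset.sum_subset_zero_on_sdiff ?_ ?_ ?_
  · intro s hs
    rw [Finset.mem_image]
    have hle : ∀ x, s x < d + 1 := fun x =>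
      Nat.lt_succ_of_le ((MvPolynomial.monomial_le_degreeOf x hs).trans (hP x))
    refine ⟨(fun j => ⟨s (some j), hle _⟩, ⟨s none, hle _⟩), Finset.mem_univ _, ?_⟩
    ext x
    cases x <;> simp [sOfJ]
  · intro s hs
    rw [Finset.mem_sdiff, MvPolynomial.notMem_support_iff] at hs
    rw [hs.2]
    simp
  · intro s _
    simp

theorem coeff_neJ {n d : ℕ} (P : MvPolynomial (Option (Fin n)) ℤ) (hP0 : P ≠ 0)
    (hP : ∀ x, P.degreeOf x ≤ d) : (fun e : IdxJ n d => P.coeff (sOfJ e)) ≠ 0 := by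
  intro h
  apply hP0
  ext s
  rw [MvPolynomial.coeff_zero]
  by_contra hs
  have hs' : s ∈ P.support := MvPolynomial.mem_support_iff.2 hs
  have hle : ∀ x, s x < d + 1 := fun x =>
    Nat.lt_succ_of_le ((MvPolynomial.monomial_le_degreeOf x hs').trans (hP x))
  have := congrFun h (fun j => ⟨s (some j), hle _⟩, ⟨s none, hle _⟩)
  apply hs
  have he : sOfJ ((fun j => ⟨s (some j), hle _⟩, ⟨s none, hle _⟩) : IdxJ n d) = s := by
    ext x
    cases x <;> simp [sOfJ]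
  simp only [he, Pi.zero_apply] at this
  exact this

/-- One function `f_j` for every variable. -/
theorem polysJ {d n : ℕ} (f : Fin n → ℝ → ℝ) (a b : Fin n → ℝ) (hab : ∀ j, a j < b j)
    (han : ∀ j, AnalyticOnNhd ℝ (f j) (Set.Icc (a j) (b j)))
    (hg : ∀ j, RIndep (fun (l : Fin (d + 1)) (t : ℝ) => f j t ^ (l : ℕ)) (a j) (b j))
    (hn : 1 ≤ n) (A β : ℝ) (hA : 0 ≤ A) (hβ : 2 - 2 / (((d : ℝ) + 1) ^ (n + 1) + 1) < β) :
    ∃ B C : ℝ, ∀ T : ℝ, 1 ≤ T →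
      {t : Fin n → ℚ | (∀ j, a j ≤ t j ∧ t j ≤ b j ∧ ((t j).den : ℝ) ≤ T) ∧
        ∃ P : MvPolynomial (Option (Fin n)) ℤ, P ≠ 0 ∧ (∀ x, P.degreeOf x ≤ d) ∧
          (∀ u, |((P.coeff u : ℤ) : ℝ)| ≤ T ^ A) ∧
          |MvPolynomial.aeval (fun x : Option (Fin n) => x.elim Real.pi fun y => f y (t y)) P| ≤ T ^ (-B)}.Finite ∧
      (({t : Fin n → ℚ | (∀ j, a j ≤ t j ∧ t j ≤ b j ∧ ((t j).den : ℝ) ≤ T) ∧
        ∃ P : MvPolynomial (Option (Fin n)) ℤ, P ≠ 0 ∧ (∀ x, P.degreeOf x ≤ d) ∧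
          (∀ u, |((P.coeff u : ℤ) : ℝ)| ≤ T ^ A) ∧
          |MvPolynomial.aeval (fun x : Option (Fin n) => x.elim Real.pi fun y => f y (t y)) P| ≤
            T ^ (-B)}.ncard : ℕ) : ℝ) ≤
        C * T ^ (2 * ((n : ℝ) - 1) + β) := by
  classical
  have hι : 0 < Fintype.card (Fin (d + 1)) := Fintype.card_pos
  have hcard : (Fintype.card (Fin (d + 1))) ^ n * Fintype.card (Fin (d + 1)) = (d + 1) ^ (n + 1) := by
    simp only [Fintype.card_fin]
    rw [← pow_succ]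
  have hβ' : 2 * (((Fintype.card (Fin (d + 1))) ^ n * Fintype.card (Fin (d + 1)) : ℕ) : ℝ) /
      ((((Fintype.card (Fin (d + 1))) ^ n * Fintype.card (Fin (d + 1)) : ℕ) : ℝ) + 1) < β := by
    rw [hcard]
    refine lt_of_le_of_lt (le_of_eq ?_) hβ
    have hM0 : (0 : ℝ) < ((d : ℝ) + 1) ^ (n + 1) := by positivity
    push_cast
    field_simp
    ring
  obtain ⟨B, C, h⟩ := multi_gen hι _ (goodConst_pi d) n hn
    (fun j => fun (l : Fin (d + 1)) (t : ℝ) => f j t ^ (l : ℕ)) a b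
    hab (fun j l t ht => (han j t ht).pow _) hg A β hA hβ'
  refine ⟨B, C, fun T hT => ?_⟩
  obtain ⟨hfin, hle⟩ := h T hT
  have hsub : {t : Fin n → ℚ | (∀ j, a j ≤ t j ∧ t j ≤ b j ∧ ((t j).den : ℝ) ≤ T) ∧
        ∃ P : MvPolynomial (Option (Fin n)) ℤ, P ≠ 0 ∧ (∀ x, P.degreeOf x ≤ d) ∧
          (∀ u, |((P.coeff u : ℤ) : ℝ)| ≤ T ^ A) ∧
          |MvPolynomial.aeval (fun x : Option (Fin n) => x.elim Real.pi fun y => f y (t y)) P| ≤ T ^ (-B)} ⊆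
      ExcM (fun j => fun (l : Fin (d + 1)) (t : ℝ) => f j t ^ (l : ℕ))
        (fun e : Fin (d + 1) => Real.pi ^ (e : ℕ)) a b A B T := by
    rintro t ⟨ht, P, hP0, hPd, hPc, hPs⟩
    refine ⟨fun j => ⟨⟨(ht j).1, (ht j).2.1⟩, (ht j).2.2⟩, fun e => P.coeff (sOfJ e),
      coeff_neJ P hP0 hPd, fun e => hPc _, ?_⟩
    rw [aeval_eqJ _ P hPd] at hPs
    refine le_trans (le_of_eq ?_) hPs
    congr 1
  refine ⟨hfin.subset hsub, le_trans ?_ hle⟩
  exact_mod_cast Set.ncard_le_ncard hsub hfin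

end Pool.Agent.TH818.AP
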