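import Pool.Agent.TH818.AP.Defs

/-!
# Partial fractions with integral coefficients and bounds (`T_pf`)
-/

set_option autoImplicit false

open Polynomial

namespace Pool.Agent.TH818.AP.PfAux

/-- scaled coefficients are integers, with a bound -/
def Good (L : ℕ) (φ : PowerSeries ℚ) (B : ℤ) (F : ℕ) : Prop :=
  ∀ e : ℕ, ∃ z : ℤ, (L : ℚ) ^ e * (B : ℚ) * PowerSeries.coeff e φ = (z : ℚ) ∧
    |z| ≤ (F : ℤ) * (2 * (L : ℤ)) ^ e

lemma good_one (L : ℕ) : Good L 1 1 1 := by
  intro e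
  rcases e with _ | e
  · exact ⟨1, by simp⟩
  · refine ⟨0, by simp [PowerSeries.coeff_one], by simp⟩

lemma good_step (L : ℕ) (hL : 0 < L) (φ ψ : PowerSeries ℚ) (B b : ℤ) (F : ℕ) (hb : b ≠ 0)
    (hbL : b ∣ (L : ℤ)) (h : Good L φ B F)
    (hψ : ψ * (PowerSeries.C (b : ℚ) + PowerSeries.X) = φ) : Good L ψ (b * B) (2 * F) := by
  obtain ⟨c, hc⟩ := hbL
  have hcL : |c| ≤ (L : ℤ) := by
    have h1 : (1 : ℤ) ≤ |b| := Int.one_le_abs hb
    have h2 : |b| * |c| = (L : ℤ) := by rw [← abs_mul, ← hc]; simp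
    nlinarith [abs_nonneg c]
  have hcq : (L : ℚ) = (b : ℚ) * (c : ℚ) := by exact_mod_cast hc
  intro e
  induction e with
  | zero =>
    obtain ⟨z, hz, hz'⟩ := h 0
    refine ⟨z, ?_, ?_⟩
    · rw [← hz, ← hψ, mul_add, map_add, PowerSeries.coeff_mul_C]
      simp
      ring
    · simp only [pow_zero, mul_one] at hz' ⊢
      push_cast
      have : (0 : ℤ) ≤ F := by positivity
      linarith
  | succ e ih =>
    obtain ⟨z, hz, hz'⟩ := h (e + 1)
    obtain ⟨w, hw, hw'⟩ := ih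
    refine ⟨z - c * w, ?_, ?_⟩
    · have h1 : PowerSeries.coeff (e + 1) φ =
          PowerSeries.coeff (e + 1) ψ * (b : ℚ) + PowerSeries.coeff e ψ := by
        rw [← hψ, mul_add, map_add, PowerSeries.coeff_mul_C, PowerSeries.coeff_succ_mul_X]
      rw [h1] at hz
      push_cast at hw ⊢
      rw [← hz, ← hw]
      rw [pow_succ]
      linear_combination (-(L : ℚ) ^ e * B * PowerSeries.coeff e ψ) * hcq
    · have h2 : |z - c * w| ≤ |z| + |c| * |w| := by
        rw [← abs_mul]; exact abs_sub _ _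
      have h3 : |c| * |w| ≤ (L : ℤ) * (((2 * F : ℕ) : ℤ) * (2 * (L : ℤ)) ^ e) :=
        mul_le_mul hcL hw' (abs_nonneg _) (by positivity)
      calc |z - c * w| ≤ |z| + |c| * |w| := h2
        _ ≤ (F : ℤ) * (2 * (L : ℤ)) ^ (e + 1) + (L : ℤ) * (((2 * F : ℕ) : ℤ) * (2 * (L : ℤ)) ^ e) :=
            add_le_add hz' h3
        _ = ((2 * F : ℕ) : ℤ) * (2 * (L : ℤ)) ^ (e + 1) := by push_cast; ring

lemma good_pow (L : ℕ) (hL : 0 < L) (φ : PowerSeries ℚ) (B b : ℤ) (F : ℕ) (hb : b ≠ 0)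
    (hbL : b ∣ (L : ℤ)) (h : Good L φ⁻¹ B F) (k : ℕ) :
    Good L ((PowerSeries.C (b : ℚ) + PowerSeries.X) ^ k * φ)⁻¹ (b ^ k * B) (2 ^ k * F) := by
  have hbq : (b : ℚ) ≠ 0 := by exact_mod_cast hb
  have hq : PowerSeries.constantCoeff (PowerSeries.C (b : ℚ) + PowerSeries.X) ≠ 0 := by
    simpa using hbq
  induction k with
  | zero => simpa using h
  | succ k ih =>
    have := good_step L hL _ ((PowerSeries.C (b : ℚ) + PowerSeries.X) ^ (k + 1) * φ)⁻¹ _ b _ hb hbL ih
      (by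
        rw [show (PowerSeries.C (b : ℚ) + PowerSeries.X) ^ (k + 1) * φ =
          ((PowerSeries.C (b : ℚ) + PowerSeries.X) ^ k * φ) * (PowerSeries.C (b : ℚ) + PowerSeries.X) by ring]
        rw [PowerSeries.mul_inv_rev, mul_comm, ← mul_assoc, PowerSeries.mul_inv_cancel _ hq, one_mul])
    rw [show b ^ (k + 1) * B = b * (b ^ k * B) by ring,
      show 2 ^ (k + 1) * F = 2 * (2 ^ k * F) by ring]
    exact this

lemma good_prod (L : ℕ) (hL : 0 < L) {ι : Type*} [DecidableEq ι] (s : Finset ι) (b : ι → ℤ) (μ : ι → ℕ)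
    (hb : ∀ l ∈ s, b l ≠ 0) (hbL : ∀ l ∈ s, b l ∣ (L : ℤ)) :
    Good L (∏ l ∈ s, (PowerSeries.C (b l : ℚ) + PowerSeries.X) ^ μ l)⁻¹ (∏ l ∈ s, (b l) ^ μ l)
      (2 ^ (∑ l ∈ s, μ l)) := by
  induction s using Finset.induction_on with
  | empty =>
    simp only [Finset.prod_empty, Finset.sum_empty, pow_zero]
    have : ((1 : PowerSeries ℚ))⁻¹ = 1 := by
      simp
    rw [this]
    exact good_one L
  | insert a s ha ih =>
    rw [Finset.prod_insert ha, Finset.prod_insert ha, Finset.sum_insert ha, pow_add]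
    exact good_pow L hL _ _ _ _ (hb a (Finset.mem_insert_self _ _)) (hbL a (Finset.mem_insert_self _ _))
      (ih (fun l hl => hb l (Finset.mem_insert_of_mem hl)) (fun l hl => hbL l (Finset.mem_insert_of_mem hl))) _

lemma prod_range_dist (m k : ℕ) (hk : k ≤ m) :
    ∏ i ∈ Finset.range (m + 1), (if i = k then (1 : ℤ) else (k : ℤ) - (i : ℤ)) =
      (-1) ^ (m - k) * ((k.factorial : ℤ) * ((m - k).factorial : ℤ)) := by
  obtain ⟨r, rfl⟩ : ∃ r, m = k + r := ⟨m - k, by omega⟩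
  rw [show k + r + 1 = k + 1 + r by ring, Nat.add_sub_cancel_left, Finset.prod_range_add,
    Finset.prod_range_succ]
  simp only [if_true, mul_one]
  have h3 : ∏ x ∈ Finset.range k, (if x = k then (1 : ℤ) else (k : ℤ) - (x : ℤ)) =
      (k.factorial : ℤ) := by
    rw [← Finset.prod_range_add_one_eq_factorial, Nat.cast_prod, ← Finset.prod_range_reflect]
    refine Finset.prod_congr rfl fun x hx => ?_
    have hx' := Finset.mem_range.1 hx
    rw [if_neg (by omega)]
    omega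
  have h4 : ∏ x ∈ Finset.range r, (if k + 1 + x = k then (1 : ℤ) else
      (k : ℤ) - ((k + 1 + x : ℕ) : ℤ)) = (-1) ^ r * (r.factorial : ℤ) := by
    have h5 : ((-1 : ℤ)) ^ r = ∏ _x ∈ Finset.range r, (-1 : ℤ) := by simp
    rw [← Finset.prod_range_add_one_eq_factorial, Nat.cast_prod, h5, ← Finset.prod_mul_distrib]
    refine Finset.prod_congr rfl fun x hx => ?_
    rw [if_neg (by omega)]
    push_cast
    ring
  rw [h3, h4]
  ring

lemma prod_dist (m : ℕ) (k : Fin (m + 1)) :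
    ∏ l ∈ Finset.univ.erase k, (((k : ℕ) : ℤ) - ((l : ℕ) : ℤ)) =
      (-1) ^ (m - k) * (((k : ℕ).factorial : ℤ) * ((m - k).factorial : ℤ)) := by
  have h1 : ∏ l ∈ Finset.univ.erase k, (((k : ℕ) : ℤ) - ((l : ℕ) : ℤ)) =
      ∏ l : Fin (m + 1), (fun i : ℕ => if i = (k : ℕ) then (1 : ℤ) else ((k : ℕ) : ℤ) - (i : ℤ)) (l : ℕ) := by
    rw [← Finset.mul_prod_erase Finset.univ _ (Finset.mem_univ k)]
    simp only [if_true, one_mul]
    refine Finset.prod_congr rfl fun l hl => ?_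
    rw [if_neg]
    intro h
    exact (Finset.mem_erase.1 hl).1 (Fin.ext h)
  rw [h1, Fin.prod_univ_eq_prod_range
    (fun i : ℕ => if i = (k : ℕ) then (1 : ℤ) else ((k : ℕ) : ℤ) - (i : ℤ)) (m + 1)]
  exact prod_range_dist m k (Nat.lt_succ_iff.1 k.2)

lemma trunc_dvd (φ : PowerSeries ℚ) (G : ℚ[X]) (h : φ * (G : PowerSeries ℚ) = 1) (μ : ℕ) :
    (X : ℚ[X]) ^ μ ∣ (∑ e ∈ Finset.range μ, C (PowerSeries.coeff e φ) * X ^ e) * G - 1 := by
  rw [Polynomial.X_pow_dvd_iff]
  intro d hd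
  have h1 : ∀ i, i < μ → (∑ e ∈ Finset.range μ, C (PowerSeries.coeff e φ) * X ^ e : ℚ[X]).coeff i =
      PowerSeries.coeff i φ := by
    intro i hi
    rw [Polynomial.finsetSum_coeff]
    simp only [Polynomial.coeff_C_mul, Polynomial.coeff_X_pow]
    rw [Finset.sum_eq_single i]
    · simp
    · intro b _ hb
      rw [if_neg (Ne.symm hb), mul_zero]
    · intro hi'
      exact absurd (Finset.mem_range.2 hi) hi'
  rw [Polynomial.coeff_sub, Polynomial.coeff_mul]
  have h2 : PowerSeries.coeff d (φ * (G : PowerSeries ℚ)) = PowerSeries.coeff d 1 := by rw [h]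
  rw [PowerSeries.coeff_mul] at h2
  have h3 : ∑ x ∈ Finset.HasAntidiagonal.antidiagonal d, (∑ e ∈ Finset.range μ, C (PowerSeries.coeff e φ) * X ^ e : ℚ[X]).coeff x.1 *
      G.coeff x.2 = ∑ p ∈ Finset.HasAntidiagonal.antidiagonal d, PowerSeries.coeff p.1 φ * PowerSeries.coeff p.2 (G : PowerSeries ℚ) := by
    refine Finset.sum_congr rfl fun x hx => ?_
    have := Finset.HasAntidiagonal.mem_antidiagonal.1 hx
    rw [h1 x.1 (by omega), Polynomial.coeff_coe]
  rw [h3, h2, PowerSeries.coeff_one, Polynomial.coeff_one]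
  simp

/-- the partial fraction identity over `ℚ` from the inverse power series -/
lemma pf_of (m n : ℕ) (j : Fin (m + 1)) (D : ℕ) (a : Fin (m + 1) → ℕ → ℤ)
    (φ : Fin (m + 1) → PowerSeries ℚ)
    (hφ : ∀ k, φ k * ∏ l ∈ Finset.univ.erase k,
      (PowerSeries.C ((((k : ℕ) : ℤ) - ((l : ℕ) : ℤ) : ℤ) : ℚ) + PowerSeries.X) ^ (mu n j l) = 1)
    (ha : ∀ k s, s < mu n j k → ((s.factorial : ℤ) * a k s : ℚ) =
      (D : ℚ) * PowerSeries.coeff (mu n j k - 1 - s) (φ k)) : PF n j D a := by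
  unfold PF
  apply Polynomial.map_injective (Int.castRingHom ℚ) Int.cast_injective
  rw [Polynomial.map_sum]
  simp only [Polynomial.map_sum, Polynomial.map_mul, Polynomial.map_pow, Polynomial.map_prod,
    Polynomial.map_sub, Polynomial.map_X, Polynomial.map_C, Int.coe_castRingHom, Int.cast_mul, Int.cast_natCast]
  rw [← sub_eq_zero]
  set Q : ℚ[X] := ∏ k : Fin (m + 1), (X - C ((k : ℕ) : ℚ)) ^ (mu n j k) with hQ
  have hQdeg : Q.natDegree = ∑ k : Fin (m + 1), mu n j k := by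
    rw [hQ, Polynomial.natDegree_prod _ _ (fun i _ => pow_ne_zero _ (Polynomial.X_sub_C_ne_zero _))]
    refine Finset.sum_congr rfl fun k _ => ?_
    rw [Polynomial.natDegree_pow, Polynomial.natDegree_X_sub_C, mul_one]
  have hmuj : 0 < mu n j j := by simp [mu]
  have hpos : 0 < ∑ k : Fin (m + 1), mu n j k :=
    lt_of_lt_of_le hmuj (Finset.single_le_sum (fun _ _ => Nat.zero_le _) (Finset.mem_univ j))
  refine Polynomial.eq_zero_of_dvd_of_natDegree_lt (p := Q) ?_ ?_
  · -- divisibility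
    refine Finset.prod_dvd_of_coprime ?_ ?_
    · intro x _ y _ hxy
      refine IsCoprime.pow ?_
      refine Polynomial.isCoprime_X_sub_C_of_isUnit_sub ?_
      rw [isUnit_iff_ne_zero, sub_ne_zero]
      intro h
      exact hxy (Fin.ext (by exact_mod_cast h))
    · intro k _
      rw [← Finset.add_sum_erase Finset.univ _ (Finset.mem_univ k), add_sub_right_comm]
      refine dvd_add ?_ ?_
      · -- main term
        have h1 := trunc_dvd (φ k) (∏ l ∈ Finset.univ.erase k,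
          (X + C ((((k : ℕ) : ℤ) - ((l : ℕ) : ℤ) : ℤ) : ℚ)) ^ (mu n j l)) (by
            rw [← hφ k]
            congr 1
            rw [← Polynomial.coeToPowerSeries.ringHom_apply, map_prod]
            refine Finset.prod_congr rfl fun l _ => ?_
            rw [map_pow, map_add, Polynomial.coeToPowerSeries.ringHom_apply,
              Polynomial.coeToPowerSeries.ringHom_apply, Polynomial.coe_X, Polynomial.coe_C, add_comm]) (mu n j k)
        obtain ⟨R, hR⟩ := h1
        have h2 := congrArg (fun p : ℚ[X] => C (D : ℚ) * p.comp (X - C ((k : ℕ) : ℚ))) hR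
        simp only [Polynomial.sub_comp, Polynomial.mul_comp, Polynomial.one_comp, Polynomial.prod_comp,
          Polynomial.pow_comp, Polynomial.X_comp] at h2
        have h3 : ∏ l ∈ Finset.univ.erase k, (X + C ((((k : ℕ) : ℤ) - ((l : ℕ) : ℤ) : ℤ) : ℚ)).comp
            (X - C ((k : ℕ) : ℚ)) ^ (mu n j l) = ∏ l ∈ Finset.univ.erase k, (X - C ((l : ℕ) : ℚ)) ^ (mu n j l) := by
          refine Finset.prod_congr rfl fun l _ => ?_
          congr 1
          rw [Polynomial.add_comp, Polynomial.X_comp, Polynomial.C_comp]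
          push_cast
          rw [Polynomial.C_sub]
          ring
        rw [h3] at h2
        have h4 : C (D : ℚ) * (∑ e ∈ Finset.range (mu n j k), C (PowerSeries.coeff e (φ k)) * X ^ e).comp
            (X - C ((k : ℕ) : ℚ)) = ∑ s ∈ Finset.range (mu n j k), C ((s.factorial : ℚ) * (a k s : ℚ)) *
              (X - C ((k : ℕ) : ℚ)) ^ (mu n j k - 1 - s) := by
          rw [Polynomial.sum_comp, Finset.mul_sum, ← Finset.sum_range_reflect]
          refine Finset.sum_congr rfl fun s hs => ?_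
          have hs' := Finset.mem_range.1 hs
          have := ha k s hs'
          push_cast at this
          rw [this, Polynomial.mul_comp, Polynomial.C_comp, Polynomial.X_pow_comp, Polynomial.C_mul]
          ring
        have h5 : (∑ s ∈ Finset.range (mu n j k), C ((s.factorial : ℚ) * (a k s : ℚ)) *
              (X - C ((k : ℕ) : ℚ)) ^ (mu n j k - 1 - s) *
              ∏ l ∈ Finset.univ.erase k, (X - C ((l : ℕ) : ℚ)) ^ (mu n j l)) - C (D : ℚ) =
            (X - C ((k : ℕ) : ℚ)) ^ (mu n j k) * (C (D : ℚ) * R.comp (X - C ((k : ℕ) : ℚ))) := by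
          rw [← Finset.sum_mul, ← h4]
          linear_combination h2
        rw [h5]
        exact Dvd.intro _ rfl
      · refine Finset.dvd_sum fun k' hk' => Finset.dvd_sum fun s _ => ?_
        refine Dvd.dvd.mul_left ?_ _
        exact Finset.dvd_prod_of_mem (fun l : Fin (m + 1) => (X - C ((l : ℕ) : ℚ)) ^ (mu n j l))
          (Finset.mem_erase.2 ⟨(Finset.ne_of_mem_erase hk').symm, Finset.mem_univ k⟩)
  · rw [hQdeg]
    refine lt_of_le_of_lt (Polynomial.natDegree_sub_le_of_le (m := (∑ k : Fin (m + 1), mu n j k) - 1)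
      (n := (∑ k : Fin (m + 1), mu n j k) - 1) ?_ ?_) (by rw [max_self]; omega)
    · refine Polynomial.natDegree_sum_le_of_forall_le _ _ fun k _ => ?_
      refine Polynomial.natDegree_sum_le_of_forall_le _ _ fun s hs => ?_
      have hs' := Finset.mem_range.1 hs
      have hprod : (∏ l ∈ Finset.univ.erase k, (X - C ((l : ℕ) : ℚ)) ^ (mu n j l)).natDegree =
          ∑ l ∈ Finset.univ.erase k, mu n j l := by
        rw [Polynomial.natDegree_prod _ _ (fun i _ => pow_ne_zero _ (Polynomial.X_sub_C_ne_zero _))]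
        refine Finset.sum_congr rfl fun l _ => ?_
        rw [Polynomial.natDegree_pow, Polynomial.natDegree_X_sub_C, mul_one]
      have hsum : mu n j k + ∑ l ∈ Finset.univ.erase k, mu n j l = ∑ l : Fin (m + 1), mu n j l :=
        Finset.add_sum_erase Finset.univ _ (Finset.mem_univ k)
      refine le_trans Polynomial.natDegree_mul_le ?_
      rw [hprod]
      have h6 : (C ((s.factorial : ℚ) * (a k s : ℚ)) *
              (X - C ((k : ℕ) : ℚ)) ^ (mu n j k - 1 - s)).natDegree ≤ mu n j k - 1 - s := by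
        refine le_trans (Polynomial.natDegree_C_mul_le _ _) ?_
        rw [Polynomial.natDegree_pow, Polynomial.natDegree_X_sub_C, mul_one]
      omega
    · rw [Polynomial.natDegree_C]
      exact Nat.zero_le _

/-- the integer `(m!)^n L / ∏_{l ≠ k} (k - l)^(mu l)` -/
lemma exists_c (m n : ℕ) (j k : Fin (m + 1)) :
    ∃ c : ℤ, c * ∏ l ∈ Finset.univ.erase k, (((k : ℕ) : ℤ) - ((l : ℕ) : ℤ)) ^ (mu n j l) =
      (m.factorial : ℤ) ^ n * (Nat.lcmUpto m : ℤ) ∧ |c| ≤ 2 ^ (m * n) * (Nat.lcmUpto m : ℤ) := by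
  have hk : (k : ℕ) ≤ m := Nat.lt_succ_iff.1 k.2
  have hB : ∏ l ∈ Finset.univ.erase k, (((k : ℕ) : ℤ) - ((l : ℕ) : ℤ)) ^ (mu n j l) =
      ((-1) ^ (m - k) * (((k : ℕ).factorial : ℤ) * ((m - k).factorial : ℤ))) ^ n *
        (if j = k then 1 else (((k : ℕ) : ℤ) - ((j : ℕ) : ℤ))) := by
    rw [← prod_dist, ← Finset.prod_pow]
    have : ∀ l ∈ Finset.univ.erase k, (((k : ℕ) : ℤ) - ((l : ℕ) : ℤ)) ^ (mu n j l) =
      (((k : ℕ) : ℤ) - ((l : ℕ) : ℤ)) ^ n * (if l = j then (((k : ℕ) : ℤ) - ((l : ℕ) : ℤ)) else 1) := by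
      intro l _
      unfold mu
      rw [pow_add]
      split_ifs <;> simp
    rw [Finset.prod_congr rfl this, Finset.prod_mul_distrib]
    congr 1
    rw [Finset.prod_ite_eq' (Finset.univ.erase k) j]
    by_cases hjk : j = k
    · simp [hjk]
    · simp [hjk]
  have hd : ∃ q : ℤ, q * (if j = k then 1 else (((k : ℕ) : ℤ) - ((j : ℕ) : ℤ))) = (Nat.lcmUpto m : ℤ) ∧
      |q| ≤ (Nat.lcmUpto m : ℤ) := by
    by_cases hjk : j = k
    · exact ⟨(Nat.lcmUpto m : ℤ), by simp [hjk], by simp⟩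
    · rw [if_neg hjk]
      have hne : (((k : ℕ) : ℤ) - ((j : ℕ) : ℤ)) ≠ 0 := by
        intro h
        apply hjk
        apply Fin.ext
        omega
      have hdv : (((k : ℕ) : ℤ) - ((j : ℕ) : ℤ)) ∣ (Nat.lcmUpto m : ℤ) := by
        rw [← Int.natAbs_dvd]
        refine Int.natCast_dvd_natCast.2 ?_
        have hj : (j : ℕ) ≤ m := Nat.lt_succ_iff.1 j.2
        refine Finset.dvd_lcm (f := id) (b := (((k : ℕ) : ℤ) - ((j : ℕ) : ℤ)).natAbs) ?_
        rw [Finset.mem_Icc]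
        omega
      obtain ⟨q, hq⟩ := hdv
      refine ⟨q, by rw [hq]; ring, ?_⟩
      have h1 : (1 : ℤ) ≤ |(((k : ℕ) : ℤ) - ((j : ℕ) : ℤ))| := Int.one_le_abs hne
      have h2 : |(((k : ℕ) : ℤ) - ((j : ℕ) : ℤ))| * |q| = (Nat.lcmUpto m : ℤ) := by
        rw [← abs_mul, ← hq]; simp
      nlinarith [abs_nonneg q]
  obtain ⟨q, hq, hq'⟩ := hd
  refine ⟨((-1) ^ (m - k) * (m.choose k : ℤ)) ^ n * q, ?_, ?_⟩
  · rw [hB]
    have h1 : (m.choose k : ℤ) * ((k : ℕ).factorial : ℤ) * ((m - k).factorial : ℤ) = (m.factorial : ℤ) := by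
      exact_mod_cast Nat.choose_mul_factorial_mul_factorial hk
    have h2 : ((-1 : ℤ) ^ (m - (k : ℕ))) * (-1) ^ (m - (k : ℕ)) = 1 := by
      rw [← mul_pow]; simp
    calc ((-1) ^ (m - (k : ℕ)) * (m.choose k : ℤ)) ^ n * q *
        (((-1) ^ (m - (k : ℕ)) * (((k : ℕ).factorial : ℤ) * ((m - k).factorial : ℤ))) ^ n *
        (if j = k then 1 else (((k : ℕ) : ℤ) - ((j : ℕ) : ℤ))))
        = ((((-1 : ℤ) ^ (m - (k : ℕ))) * (-1) ^ (m - (k : ℕ))) *
          ((m.choose k : ℤ) * ((k : ℕ).factorial : ℤ) * ((m - k).factorial : ℤ))) ^ n *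
          (q * (if j = k then 1 else (((k : ℕ) : ℤ) - ((j : ℕ) : ℤ)))) := by
            simp only [mul_pow]; ring
      _ = _ := by rw [h1, h2, hq, one_mul]
  · rw [abs_mul, abs_pow, abs_mul, abs_pow]
    simp only [abs_neg, abs_one, one_pow, one_mul]
    have h1 : |(m.choose k : ℤ)| ≤ 2 ^ m := by
      rw [abs_of_nonneg (by positivity)]
      exact_mod_cast Nat.choose_le_two_pow m k
    calc |(m.choose k : ℤ)| ^ n * |q| ≤ (2 ^ m) ^ n * (Nat.lcmUpto m : ℤ) :=
          mul_le_mul (pow_le_pow_left₀ (abs_nonneg _) h1 n) hq' (abs_nonneg _) (by positivity)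
      _ = _ := by rw [← pow_mul]

lemma lcm_le (m : ℕ) : (Nat.lcmUpto m : ℝ) ≤ Real.exp (Real.log 4 + 4) ^ m := by
  have h1 := Chebyshev.psi_le_const_mul_self (x := (m : ℝ)) (by positivity)
  rw [Chebyshev.psi_eq_log_lcmUpto] at h1
  have h2 : (0 : ℝ) < (Nat.lcmUpto m : ℝ) := by exact_mod_cast Nat.lcmUpto_pos m
  rw [← Real.exp_nat_mul, ← Real.exp_log h2]
  apply Real.exp_le_exp.2
  linarith

end Pool.Agent.TH818.AP.PfAux

namespace Pool.Agent.TH818.AP

open PfAux

theorem pf : T_pf := by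
  set Cc : ℝ := Real.exp (Real.log 4 + 4) with hCc
  have hCc1 : 1 ≤ Cc := by
    rw [hCc]
    apply Real.one_le_exp
    have : 0 ≤ Real.log 4 := Real.log_nonneg (by norm_num)
    linarith
  have h16 : 1 ≤ 16 * Cc ^ 2 := by nlinarith [one_le_pow₀ (n := 2) hCc1]
  refine ⟨16 * Cc ^ 2, h16, ?_⟩
  intro m n hm hn
  have hLpos : 0 < Nat.lcmUpto m := Nat.lcmUpto_pos m
  have hmn : n ≤ m * n := Nat.le_mul_of_pos_left n hm
  have hmm : m ≤ m * n := Nat.le_mul_of_pos_right m hn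
  have h1mn : 1 ≤ m * n := Nat.mul_pos hm hn
  -- the bound for `L ^ (n + 1)`
  have hLn : (Nat.lcmUpto m : ℝ) ^ (n + 1) ≤ Cc ^ (2 * (m * n)) := by
    calc (Nat.lcmUpto m : ℝ) ^ (n + 1) ≤ (Cc ^ m) ^ (n + 1) :=
          pow_le_pow_left₀ (by positivity) (lcm_le m) _
      _ = Cc ^ (m * (n + 1)) := by rw [← pow_mul]
      _ ≤ Cc ^ (2 * (m * n)) := pow_le_pow_right₀ hCc1 (by nlinarith)
  refine ⟨n.factorial * m.factorial ^ n * Nat.lcmUpto m ^ (n + 1), by positivity, ?_, ?_⟩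
  · push_cast
    refine mul_le_mul_of_nonneg_left ?_ (by positivity)
    refine le_trans hLn ?_
    rw [mul_pow, ← pow_mul]
    have : (1 : ℝ) ≤ 16 ^ (m * n) := one_le_pow₀ (by norm_num)
    nlinarith [show (0 : ℝ) < Cc ^ (2 * (m * n)) by positivity]
  intro j
  -- the inverse power series
  have hne : ∀ k : Fin (m + 1), ∀ l ∈ Finset.univ.erase k, (((k : ℕ) : ℤ) - ((l : ℕ) : ℤ)) ≠ 0 := by
    intro k l hl h
    apply (Finset.mem_erase.1 hl).1
    apply Fin.ext
    omega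
  have hdv : ∀ k : Fin (m + 1), ∀ l ∈ Finset.univ.erase k,
      (((k : ℕ) : ℤ) - ((l : ℕ) : ℤ)) ∣ (Nat.lcmUpto m : ℤ) := by
    intro k l hl
    have := hne k l hl
    rw [← Int.natAbs_dvd]
    refine Int.natCast_dvd_natCast.2 ?_
    have hk' : (k : ℕ) ≤ m := Nat.lt_succ_iff.1 k.2
    have hl' : (l : ℕ) ≤ m := Nat.lt_succ_iff.1 l.2
    refine Finset.dvd_lcm (f := id) (b := (((k : ℕ) : ℤ) - ((l : ℕ) : ℤ)).natAbs) ?_
    rw [Finset.mem_Icc]
    omega
  set φ : Fin (m + 1) → PowerSeries ℚ := fun k => (∏ l ∈ Finset.univ.erase k,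
    (PowerSeries.C ((((k : ℕ) : ℤ) - ((l : ℕ) : ℤ) : ℤ) : ℚ) + PowerSeries.X) ^ (mu n j l))⁻¹ with hφ
  have hgood := fun k : Fin (m + 1) => good_prod (Nat.lcmUpto m) hLpos (Finset.univ.erase k)
    (fun l : Fin (m + 1) => (((k : ℕ) : ℤ) - ((l : ℕ) : ℤ))) (mu n j) (hne k) (hdv k)
  choose z hz hz' using hgood
  choose c hc hc' using fun k => exists_c m n j k
  have hfac : ∀ s : ℕ, ∃ q : ℕ, s ≤ n → s.factorial * q = n.factorial := by
    intro s
    by_cases hs : s ≤ n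
    · obtain ⟨q, hq⟩ := Nat.factorial_dvd_factorial hs
      exact ⟨q, fun _ => hq.symm⟩
    · exact ⟨0, fun h => absurd h hs⟩
  choose q hq using hfac
  have hmu : ∀ k, mu n j k ≤ n + 1 := by
    intro k; unfold mu; split_ifs <;> omega
  refine ⟨fun k s => if s < mu n j k then (q s : ℤ) * c k * (Nat.lcmUpto m : ℤ) ^ (n - (mu n j k - 1 - s)) *
    z k (mu n j k - 1 - s) else 0, ?_, ?_, ?_⟩
  · refine pf_of m n j _ _ φ ?_ ?_
    · intro k
      rw [hφ]
      refine PowerSeries.inv_mul_cancel _ ?_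
      rw [map_prod, Finset.prod_ne_zero_iff]
      intro l hl
      rw [map_pow]
      refine pow_ne_zero _ ?_
      rw [map_add, PowerSeries.constantCoeff_C, PowerSeries.constantCoeff_X, add_zero]
      exact_mod_cast hne k l hl
    · intro k s hs
      have hsn : s ≤ n := by have := hmu k; omega
      have he : mu n j k - 1 - s ≤ n := by have := hmu k; omega
      rw [if_pos hs]
      set e := mu n j k - 1 - s with hedef
      have h1 : (Nat.lcmUpto m : ℚ) ^ e * ((∏ l ∈ Finset.univ.erase k,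
          (((k : ℕ) : ℤ) - ((l : ℕ) : ℤ)) ^ (mu n j l) : ℤ) : ℚ) * PowerSeries.coeff e (φ k) = (z k e : ℚ) :=
        hz k e
      have h2 : (c k : ℚ) * ((∏ l ∈ Finset.univ.erase k,
          (((k : ℕ) : ℤ) - ((l : ℕ) : ℤ)) ^ (mu n j l) : ℤ) : ℚ) =
          (m.factorial : ℚ) ^ n * (Nat.lcmUpto m : ℚ) := by exact_mod_cast hc k
      have h3 : (s.factorial : ℚ) * (q s : ℚ) = (n.factorial : ℚ) := by exact_mod_cast hq s hsn
      have h4 : (Nat.lcmUpto m : ℚ) ^ n = (Nat.lcmUpto m : ℚ) ^ (n - e) * (Nat.lcmUpto m : ℚ) ^ e := by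
        rw [← pow_add]; congr 1; omega
      generalize (∏ l ∈ Finset.univ.erase k,
          (((k : ℕ) : ℤ) - ((l : ℕ) : ℤ)) ^ (mu n j l) : ℤ) = Bk at h1 h2
      generalize PowerSeries.coeff e (φ k) = y at h1 ⊢
      push_cast
      rw [← h1, ← h3, pow_succ, h4]
      linear_combination ((s.factorial : ℚ) * (q s : ℚ) * (Nat.lcmUpto m : ℚ) ^ (n - e) *
        (Nat.lcmUpto m : ℚ) ^ e * y) * h2
  · intro k s hs
    exact if_neg (by omega)
  · intro k s
    dsimp only
    split_ifs with hs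
    · have hsn : s ≤ n := by have := hmu k; omega
      have he : mu n j k - 1 - s ≤ n := by have := hmu k; omega
      set e := mu n j k - 1 - s with hedef
      have hs1 : ∑ l ∈ Finset.univ.erase k, mu n j l ≤ m * n + 1 := by
        have h1 : ∑ l ∈ Finset.univ.erase k, mu n j l ≤
            ∑ l ∈ Finset.univ.erase k, n + ∑ l ∈ Finset.univ.erase k, (if l = j then 1 else 0) := by
          rw [← Finset.sum_add_distrib]
          exact le_rfl
        have h2 : ∑ l ∈ Finset.univ.erase k, n = m * n := by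
          rw [Finset.sum_const, Finset.card_erase_of_mem (Finset.mem_univ k)]
          simp
        have h3 : ∑ l ∈ Finset.univ.erase k, (if l = j then 1 else 0) ≤ 1 := by
          rw [Finset.sum_ite_eq' (Finset.univ.erase k) j]
          split_ifs <;> omega
        omega
      have hqn : (q s : ℝ) ≤ (n.factorial : ℝ) := by
        have := hq s hsn
        have h1 : 0 < s.factorial := Nat.factorial_pos s
        exact_mod_cast (by nlinarith : q s ≤ n.factorial)
      have hcR : |(c k : ℝ)| ≤ 2 ^ (m * n) * (Nat.lcmUpto m : ℝ) := by exact_mod_cast hc' k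
      have hzR : |(z k e : ℝ)| ≤ 2 ^ (m * n + 1) * (2 * (Nat.lcmUpto m : ℝ)) ^ n * ((Nat.lcmUpto m : ℝ) ^ (n - e))⁻¹ := by
        have h1 : |(z k e : ℝ)| ≤ (2 : ℝ) ^ (∑ l ∈ Finset.univ.erase k, mu n j l) *
            (2 * (Nat.lcmUpto m : ℝ)) ^ e := by exact_mod_cast hz' k e
        refine le_trans h1 ?_
        have hL1 : (1 : ℝ) ≤ (Nat.lcmUpto m : ℝ) := by exact_mod_cast hLpos
        have h2 : (2 * (Nat.lcmUpto m : ℝ)) ^ n = (2 * (Nat.lcmUpto m : ℝ)) ^ e *
            (2 ^ (n - e) * (Nat.lcmUpto m : ℝ) ^ (n - e)) := by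
          rw [← mul_pow, ← pow_add]; congr 1; omega
        rw [h2, mul_assoc, mul_assoc, mul_assoc, mul_inv_cancel₀ (by positivity), mul_one]
        refine mul_le_mul (pow_le_pow_right₀ (by norm_num) hs1) ?_ (by positivity) (by positivity)
        have h3 : (1 : ℝ) ≤ 2 ^ (n - e) := one_le_pow₀ (by norm_num)
        nlinarith [show (0 : ℝ) < (2 * (Nat.lcmUpto m : ℝ)) ^ e by positivity]
      push_cast
      rw [abs_mul, abs_mul, abs_mul, abs_of_nonneg (show (0 : ℝ) ≤ (q s : ℝ) by positivity),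
        abs_of_nonneg (show (0 : ℝ) ≤ (Nat.lcmUpto m : ℝ) ^ (n - e) by positivity)]
      have hLne : (Nat.lcmUpto m : ℝ) ^ (n - e) ≠ 0 := by positivity
      calc (q s : ℝ) * |(c k : ℝ)| * (Nat.lcmUpto m : ℝ) ^ (n - e) * |(z k e : ℝ)|
          ≤ (n.factorial : ℝ) * (2 ^ (m * n) * (Nat.lcmUpto m : ℝ)) * (Nat.lcmUpto m : ℝ) ^ (n - e) *
            (2 ^ (m * n + 1) * (2 * (Nat.lcmUpto m : ℝ)) ^ n * ((Nat.lcmUpto m : ℝ) ^ (n - e))⁻¹) := by
            gcongr
        _ = (n.factorial : ℝ) * (2 ^ (m * n) * 2 ^ (m * n + 1) * 2 ^ n * (Nat.lcmUpto m : ℝ) ^ (n + 1)) := by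
            field_simp
            ring
        _ ≤ (n.factorial : ℝ) * (2 ^ (m * n) * 2 ^ (m * n + m * n) * 2 ^ (m * n) * Cc ^ (2 * (m * n))) := by
            gcongr <;> norm_num
        _ = (n.factorial : ℝ) * (16 * Cc ^ 2) ^ (m * n) := by
            rw [mul_pow, ← pow_mul, show (16 : ℝ) = 2 ^ 4 by norm_num, ← pow_mul]
            rw [← pow_add, ← pow_add]
            congr 3
            ring
    · simp only [Int.cast_zero, abs_zero]
      positivity

end Pool.Agent.TH818.AP
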