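import Pool.Agent.TH818.AR.Count
import Pool.Agent.TH818.AP.Defs

/-!
# Approximate relations at rational points: one stage of the elimination
-/

set_option autoImplicit false

open Set Polynomial Filter Topology

namespace Pool.Agent.TH818.AP

open Pool.Agent.TH818.AR

/-- `g_l(t) = ∑ i, P l i (t) * v i t` -/
noncomputable def gg {m r : ℕ} (v : Fin m → ℝ → ℝ) (P : Fin r → Fin m → ℤ[X]) (l : Fin r) (t : ℝ) : ℝ :=
  ∑ i, aeval t (P l i) * v i t

/-- combinations with integral polynomial coefficients of size `T^κ` are at least `T^(-κ')` somewhere -/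
def Meas {m : ℕ} (v : Fin m → ℝ → ℝ) (a b : ℝ) : Prop :=
  ∀ (D : ℕ) (κ : ℝ), ∃ κ' T0 : ℝ, ∀ T : ℝ, T0 ≤ T → ∀ p : Fin m → ℤ[X], p ≠ 0 →
    (∀ l, (p l).natDegree ≤ D) → (∀ l i, |((p l).coeff i : ℝ)| ≤ T ^ κ) →
    ∃ t ∈ Icc a b, T ^ (-κ') ≤ |∑ l, aeval t (p l) * v l t|

/-- the rows are linearly independent over `ℤ[X]` -/
def PIndZ {m r : ℕ} (P : Fin r → Fin m → ℤ[X]) : Prop :=
  ∀ s : Fin r → ℤ[X], (∀ i, ∑ l, s l * P l i = 0) → s = 0

theorem PIndZ.ne_zero {m r : ℕ} {P : Fin r → Fin m → ℤ[X]} (hP : PIndZ P) (l : Fin r) : P l ≠ 0 := by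
  classical
  intro h
  have := hP (Pi.single l 1) (fun i => by
    rw [Finset.sum_eq_single l]
    · simp [h]
    · intro j _ hj
      simp [Pi.single_eq_of_ne hj]
    · simp)
  have h2 := congrFun this l
  simp at h2

theorem aeval_map_int (p : ℤ[X]) (t : ℝ) : aeval t (p.map (Int.castRingHom ℚ)) = aeval t p := by
  rw [aeval_def, aeval_def, eval₂_map]
  congr 1

theorem basisZ {m : ℕ} (v : Fin m → ℝ → ℝ) (a b : ℝ) (hab : a < b)
    (han : ∀ l, AnalyticOnNhd ℝ (v l) (Icc a b)) (D : ℕ) :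
    ∃ (n : ℕ) (w : Fin n → ℝ → ℝ), Good a b w ∧ ∀ p : Fin m → ℤ[X], (∀ i, (p i).natDegree ≤ D) →
      ∃ x : Fin n → ℝ, ∀ t ∈ Icc a b, ∑ i, (aeval t (p i)) * v i t = comb w x t := by
  obtain ⟨n, w, hw, hb⟩ := basis v a b hab han D
  refine ⟨n, w, hw, fun p hp => ?_⟩
  obtain ⟨x, hx⟩ := hb (fun i => (p i).map (Int.castRingHom ℚ)) (fun i => natDegree_map_le.trans (hp i))
  refine ⟨x, fun t ht => ?_⟩
  rw [← hx t ht]
  exact Finset.sum_congr rfl fun i _ => by rw [aeval_map_int]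

theorem num_le {a b T : ℝ} {q : ℚ} (hq : (q : ℝ) ∈ Icc a b) (hd : (q.den : ℝ) ≤ T) :
    |(q.num : ℝ)| ≤ max (max |a| |b|) 1 * T ∧ |(q : ℝ)| ≤ max (max |a| |b|) 1 := by
  have hd0 : (0 : ℝ) < q.den := by exact_mod_cast q.den_pos
  have hT : 0 < T := hd0.trans_le hd
  have hq' : |(q : ℝ)| ≤ max (max |a| |b|) 1 := by
    refine le_trans ?_ (le_max_left _ _)
    obtain ⟨h1, h2⟩ := hq
    rw [abs_le]
    constructor
    · have : -|a| ≤ a := neg_abs_le a
      have := le_max_left |a| |b|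
      linarith
    · have : b ≤ |b| := le_abs_self b
      have := le_max_right |a| |b|
      linarith
  refine ⟨?_, hq'⟩
  have hnum : (q.num : ℝ) = q * q.den := by
    have := Rat.mul_den_eq_num q
    exact_mod_cast this.symm
  rw [hnum, abs_mul, abs_of_pos hd0]
  exact mul_le_mul hq' hd hd0.le (by positivity)

set_option maxHeartbeats 1000000 in
theorem stage2 (hbd : T_bd) (hlow : T_low) (htay : T_taylor) (hdet : T_det2) (harith : T_arith)
    (haux : T_aux2)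
    {m r : ℕ} (hr : 0 < r) (v : Fin m → ℝ → ℝ) (a b : ℝ) (hab : a < b)
    (han : ∀ l, AnalyticOnNhd ℝ (v l) (Icc a b)) (hm : Meas v a b) (A β : ℝ) (hA : 0 ≤ A)
    (hβ : 2 * (r : ℝ) / (r + 1) < β) (D : ℕ) (κ : ℝ) :
    ∃ (k : ℕ) (B κ' T0 : ℝ), 1 ≤ T0 ∧ ∀ T : ℝ, T0 ≤ T → ∀ P : Fin r → Fin m → ℤ[X],
      (∀ l i, (P l i).natDegree ≤ D) → (∀ l i s, |((P l i).coeff s : ℝ)| ≤ T ^ κ) → PIndZ P →
      ∀ u u' : ℝ, a ≤ u → u' ≤ b → T ^ (-2 : ℝ) ≤ u' - u → u' - u ≤ T ^ (-β) →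
      ∃ p : Fin r → ℤ[X], p ≠ 0 ∧ (∀ l, (p l).natDegree ≤ k) ∧ (∀ l s, |((p l).coeff s : ℝ)| ≤ T ^ κ') ∧
        ∀ q : ℚ, (q : ℝ) ∈ Icc u u' → (q.den : ℝ) ≤ T →
        ∀ c : Fin r → ℤ, (∀ l, |(c l : ℝ)| ≤ T ^ A) → |∑ l, (c l : ℝ) * gg v P l q| ≤ T ^ (-B) →
        ∑ l, aeval q (p l) * (c l : ℚ) = 0 := by
  obtain ⟨n, w, hw, hb⟩ := basisZ v a b hab han D
  obtain ⟨N, c0, hc0, hlow'⟩ := hlow a b n w hw
  obtain ⟨k, hkN, hex, hexp⟩ := exponent r hr A β hβ N
  obtain ⟨B, hB, htay'⟩ := htay a b n w hw k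
  obtain ⟨B0, hB0, hbd'⟩ := hbd a b n w hw 0
  obtain ⟨κ1, T1, hmeas⟩ := hm D κ
  have hr0 : (0 : ℝ) < r := by exact_mod_cast hr
  have hβ0 : 0 < β := lt_of_le_of_lt (by positivity) hβ
  -- the constants
  set C1 : ℝ := (((k + 1) * r).factorial : ℝ) * ((r + 1) * B) ^ (k + 1) / c0 ^ (k + 1) with hC1
  have hC1p : 0 < C1 := by positivity
  set Mab : ℝ := max (max |a| |b|) 1 with hMab
  have hMab1 : 1 ≤ Mab := le_max_right _ _
  refine ⟨k, κ1 + 2 * (k + 1) + 1, (k + 1 + A) * (((k + 1) * r : ℕ) : ℝ),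
    max (max (C1 + 1) (B0 / B)) (max T1 ((((k + 1) * r : ℕ) : ℝ) * Mab ^ k)), ?_, ?_⟩
  · exact (le_max_left _ _).trans' ((le_max_left _ _).trans' (by linarith))
  intro T hT P hPD hPc hP u u' hau hub hlen2 hlen
  have hTC : C1 + 1 ≤ T := ((le_max_left _ _).trans (le_max_left _ _)).trans hT
  have hTB : B0 / B ≤ T := ((le_max_right _ _).trans (le_max_left _ _)).trans hT
  have hTT : T1 ≤ T := ((le_max_left _ _).trans (le_max_right _ _)).trans hT
  have hTM : (((k + 1) * r : ℕ) : ℝ) * Mab ^ k ≤ T := ((le_max_right _ _).trans (le_max_right _ _)).trans hT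
  have hT1 : 1 ≤ T := by linarith
  have hT0 : 0 < T := by linarith
  have huu : u < u' := by
    have : 0 < T ^ (-2 : ℝ) := by positivity
    linarith
  choose x hx using fun l => hb (P l) (hPD l)
  have hxl : ∀ l, T ^ (-κ1) ≤ B0 * ‖x l‖ := by
    intro l
    obtain ⟨t, ht, hle⟩ := hmeas T hTT (P l) (hP.ne_zero l) (hPD l) (hPc l)
    rw [hx l t ht] at hle
    have := hbd' (x l) t ht 0 le_rfl
    rw [iteratedDeriv_zero] at this
    exact hle.trans this
  have : Nonempty (Fin r) := ⟨⟨0, hr⟩⟩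
  obtain ⟨l0, hl0⟩ := Finite.exists_max (fun l => ‖x l‖)
  set X := ‖x l0‖ with hX
  have hXp : 0 < X := by
    by_contra hneg
    have h0 : X = 0 := le_antisymm (not_lt.1 hneg) (norm_nonneg _)
    have h1 := hxl l0
    rw [← hX, h0, mul_zero] at h1
    have : 0 < T ^ (-κ1) := by positivity
    linarith
  obtain ⟨t0, ht0, hlow0⟩ := hlow' (x l0) u u' hau huu hub
  have hIcc : Icc u u' ⊆ Icc a b := Icc_subset_Icc hau hub
  set η := u' - u with hη
  have hηp : 0 < η := by linarith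
  have hη1 : η ≤ 1 := hlen.trans (Real.rpow_le_one_of_one_le_of_nonpos hT1 (by linarith))
  have hTA : 1 ≤ T ^ A := Real.one_le_rpow hT1 hA
  let S : Set (ℚ × (Fin r → ℤ)) := {s | (s.1 : ℝ) ∈ Icc u u' ∧ (s.1.den : ℝ) ≤ T ∧
    (∀ l, |(s.2 l : ℝ)| ≤ T ^ A) ∧ |∑ l, (s.2 l : ℝ) * gg v P l s.1| ≤ T ^ (-(κ1 + 2 * (k + 1) + 1))}
  obtain ⟨p, hp0, hpk, hpc, hp⟩ := haux r k (Mab * T) (T ^ A) S hr
    (by nlinarith) hTA
    (by
      intro s hs
      refine ⟨(num_le (hIcc hs.1) hs.2.1).1, ?_, hs.2.2.1⟩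
      exact hs.2.1.trans (by nlinarith)) (by
    intro e he
    by_contra hne
    -- cast to ℝ
    have hcast : (Matrix.of fun x y : Fin (k + 1) × Fin r => (((e x).1 : ℝ)) ^ (y.1 : ℕ) * ((e x).2 y.2 : ℝ)).det
        = (((Matrix.of fun x y : Fin (k + 1) × Fin r => (e x).1 ^ (y.1 : ℕ) * ((e x).2 y.2 : ℚ)).det : ℚ) : ℝ) := by
      have := RingHom.map_det (Rat.castHom ℝ) (Matrix.of fun x y : Fin (k + 1) × Fin r =>
        (e x).1 ^ (y.1 : ℕ) * ((e x).2 y.2 : ℚ))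
      rw [show (((Matrix.of fun x y : Fin (k + 1) × Fin r => (e x).1 ^ (y.1 : ℕ) * ((e x).2 y.2 : ℚ)).det : ℚ) : ℝ)
        = (Rat.castHom ℝ) ((Matrix.of fun x y : Fin (k + 1) × Fin r =>
          (e x).1 ^ (y.1 : ℕ) * ((e x).2 y.2 : ℚ)).det) from rfl, this]
      congr 1
      ext i j
      simp
    have hne' : (Matrix.of fun x y : Fin (k + 1) × Fin r => (((e x).1 : ℝ)) ^ (y.1 : ℕ) * ((e x).2 y.2 : ℝ)).det
        ≠ 0 := by
      rw [hcast]
      exact_mod_cast hne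
    have hlower := harith r k (fun x => (e x).1) (fun x => (e x).2) T hT1 (fun x => (he x).2.1) hne'
    have hupper := hdet r k l0 t0 η (T ^ A) B (fun x => ((e x).1 : ℝ)) (fun x l => ((e x).2 l : ℝ))
      (fun y l => comb w (x l) ((e y).1 : ℝ) / X)
      (fun l j => iteratedDeriv j (comb w (x l)) t0 / (j.factorial : ℝ) / X) hηp.le hη1 (by positivity) hB.le
      (by
        intro y
        have h1 := (he y).1
        rw [abs_le]
        constructor <;> linarith [h1.1, h1.2, ht0.1, ht0.2])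
      (fun y l => (he y).2.2.1 l)
      (by
        intro y
        have h1 := (he y).2.2.2
        have h2 : ∀ l, comb w (x l) ((e y).1 : ℝ) = gg v P l ((e y).1 : ℝ) := fun l =>
          (hx l _ (hIcc (he y).1)).symm
        simp only [h2]
        have : ∑ l, ((e y).2 l : ℝ) * (gg v P l ((e y).1 : ℝ) / X) =
          (∑ l, ((e y).2 l : ℝ) * gg v P l ((e y).1 : ℝ)) / X := by
          rw [Finset.sum_div]
          exact Finset.sum_congr rfl fun l _ => by ring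
        rw [this, abs_div, abs_of_pos hXp, div_le_iff₀ hXp]
        refine h1.trans ?_
        -- `T^(-B') ≤ T^A B η^(k+1) X`
        have e1 : T ^ (-2 * ((k : ℝ) + 1)) ≤ η ^ (k + 1) := by
          calc T ^ (-2 * ((k : ℝ) + 1)) = (T ^ (-2 : ℝ)) ^ (k + 1) := by
                rw [← Real.rpow_natCast (T ^ (-2 : ℝ)), ← Real.rpow_mul hT0.le]
                push_cast
                rfl
            _ ≤ η ^ (k + 1) := pow_le_pow_left₀ (by positivity) hlen2 _
        have e2 : B0 ≤ B * T := by rwa [div_le_iff₀ hB, mul_comm] at hTB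
        have e3 : T ^ (-κ1) ≤ B0 * X := hxl l0
        have e4 : T ^ (-(κ1 + 2 * ((k : ℝ) + 1) + 1)) = T ^ (-κ1) * T ^ (-2 * ((k : ℝ) + 1)) * T ^ (-1 : ℝ) := by
          rw [← Real.rpow_add hT0, ← Real.rpow_add hT0]
          congr 1
          ring
        rw [e4, Real.rpow_neg_one]
        calc T ^ (-κ1) * T ^ (-2 * ((k : ℝ) + 1)) * T⁻¹ ≤ (B0 * X) * η ^ (k + 1) * T⁻¹ := by gcongr
          _ ≤ (B * T * X) * η ^ (k + 1) * T⁻¹ := by gcongr
          _ = 1 * B * η ^ (k + 1) * X := by field_simp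
          _ ≤ T ^ A * B * η ^ (k + 1) * X := by gcongr)
      (by
        intro y l i hi
        have h1 := htay' (x l) t0 ((e y).1 : ℝ) (hIcc ht0) (hIcc (he y).1) i hi
        have h2 : comb w (x l) ((e y).1 : ℝ) / X - ∑ j ∈ Finset.range (i + 1),
            iteratedDeriv j (comb w (x l)) t0 / (j.factorial : ℝ) / X * (((e y).1 : ℝ) - t0) ^ j =
            (comb w (x l) ((e y).1 : ℝ) - ∑ j ∈ Finset.range (i + 1),
              iteratedDeriv j (comb w (x l)) t0 / (j.factorial : ℝ) * (((e y).1 : ℝ) - t0) ^ j) / X := by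
          rw [sub_div, Finset.sum_div]
          congr 1
          exact Finset.sum_congr rfl fun j _ => by ring
        rw [h2, abs_div, abs_of_pos hXp, div_le_iff₀ hXp]
        refine h1.trans ?_
        have h3 : |((e y).1 : ℝ) - t0| ≤ η := by
          have h1 := (he y).1
          rw [abs_le]
          constructor <;> linarith [h1.1, h1.2, ht0.1, ht0.2]
        have h4 : |((e y).1 : ℝ) - t0| ^ (i + 1) ≤ η ^ (i + 1) := pow_le_pow_left₀ (abs_nonneg _) h3 _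
        calc B * ‖x l‖ * |((e y).1 : ℝ) - t0| ^ (i + 1) ≤ B * X * η ^ (i + 1) := by
              have := hl0 l
              gcongr
          _ = B * η ^ (i + 1) * X := by ring)
    set Δ := |(Matrix.of fun x y : Fin (k + 1) × Fin r =>
      (((e x).1 : ℝ)) ^ (y.1 : ℕ) * ((e x).2 y.2 : ℝ)).det| with hΔ
    have hΔ0 : 0 ≤ Δ := abs_nonneg _
    -- the lower bound for τ
    have hτ : c0 * η ^ N ≤ |iteratedDeriv 0 (comb w (x l0)) t0 / ((Nat.factorial 0 : ℕ) : ℝ) / X| := by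
      simp only [iteratedDeriv_zero, Nat.factorial_zero, Nat.cast_one, div_one]
      rw [abs_div, abs_of_pos hXp, le_div_iff₀ hXp]
      exact hlow0
    have hτ' : (c0 * η ^ N) ^ (k + 1) ≤
        |iteratedDeriv 0 (comb w (x l0)) t0 / ((Nat.factorial 0 : ℕ) : ℝ) / X| ^ (k + 1) :=
      pow_le_pow_left₀ (by positivity) hτ _
    have h5 : Δ * (c0 * η ^ N) ^ (k + 1) ≤ (((k + 1) * r).factorial : ℝ) * (T ^ A) ^ ((k + 1) * r) *
        ((r + 1) * B) ^ (k + 1) * η ^ ex r k := (mul_le_mul_of_nonneg_left hτ' hΔ0).trans hupper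
    have h6 : Δ ≤ C1 * (T ^ A) ^ ((k + 1) * r) * η ^ (ex r k - N * (k + 1)) := by
      have h7 : η ^ ex r k = η ^ (ex r k - N * (k + 1)) * η ^ (N * (k + 1)) := by
        rw [← pow_add]; congr 1; omega
      rw [h7, mul_pow, ← pow_mul] at h5
      have h8 : 0 < c0 ^ (k + 1) * η ^ (N * (k + 1)) := by positivity
      refine le_of_mul_le_mul_right (h5.trans (le_of_eq ?_)) h8
      rw [hC1]
      field_simp
    have h9 : η ^ (ex r k - N * (k + 1)) ≤ (T ^ (-β)) ^ (ex r k - N * (k + 1)) :=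
      pow_le_pow_left₀ hηp.le hlen _
    have h10 : 1 ≤ C1 * T ^ (-1 : ℝ) := by
      calc (1 : ℝ) ≤ Δ * T ^ (k * ((k + 1) * r)) := hlower
        _ ≤ (C1 * (T ^ A) ^ ((k + 1) * r) * (T ^ (-β)) ^ (ex r k - N * (k + 1))) * T ^ (k * ((k + 1) * r)) := by
            refine mul_le_mul_of_nonneg_right (h6.trans ?_) (by positivity)
            exact mul_le_mul_of_nonneg_left h9 (by positivity)
        _ = C1 * T ^ (A * (((k + 1) * r : ℕ) : ℝ) + ((k * ((k + 1) * r) : ℕ) : ℝ) -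
              β * ((ex r k - N * (k + 1) : ℕ) : ℝ)) := by
            rw [← Real.rpow_natCast (T ^ A), ← Real.rpow_mul hT0.le, ← Real.rpow_natCast (T ^ (-β)),
              ← Real.rpow_mul hT0.le, ← Real.rpow_natCast T, mul_assoc, mul_assoc, ← Real.rpow_add hT0,
              ← Real.rpow_add hT0]
            congr 2
            ring
        _ ≤ C1 * T ^ (-1 : ℝ) := by
            refine mul_le_mul_of_nonneg_left ?_ hC1p.le
            exact Real.rpow_le_rpow_of_exponent_le hT1 hexp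
    rw [Real.rpow_neg_one, ← div_eq_mul_inv, le_div_iff₀ hT0] at h10
    linarith)
  refine ⟨p, hp0, hpk, ?_, fun q hq hqd c hc hcs => hp (q, c) ⟨hq, hqd, hc, hcs⟩⟩
  intro l s
  refine (hpc l s).trans ?_
  have hμ0 : (0 : ℝ) ≤ (((k + 1) * r : ℕ) : ℝ) := by positivity
  calc ((((k + 1) * r : ℕ) : ℝ) * (Mab * T) ^ k * T ^ A) ^ ((k + 1) * r)
      = ((((k + 1) * r : ℕ) : ℝ) * Mab ^ k * T ^ k * T ^ A) ^ ((k + 1) * r) := by rw [mul_pow]; ring
    _ ≤ (T * T ^ k * T ^ A) ^ ((k + 1) * r) := by gcongr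
    _ = T ^ ((k + 1 + A) * (((k + 1) * r : ℕ) : ℝ)) := by
        rw [← Real.rpow_natCast T k, ← Real.rpow_one_add' hT0.le (by positivity), ← Real.rpow_add hT0,
          ← Real.rpow_natCast (T ^ (1 + (k : ℝ) + A)), ← Real.rpow_mul hT0.le]
        congr 2
        ring

end Pool.Agent.TH818.AP
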