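import Pool.Agent.TH818.AP.Uni

/-!
# Approximate relations at integral points of long intervals (points `z / N`, `z` an integer)
-/

set_option autoImplicit false

open Set Polynomial Filter Topology

namespace Pool.Agent.TH818.AP

open Pool.Agent.TH818.AR

/-- multiples of `1 / N` -/
def Dn (N : ℕ) (q : ℚ) : Prop := ∃ z : ℤ, q = z / N

theorem den_le_of_Dn {N : ℕ} (hN : 1 ≤ N) {q : ℚ} (hq : Dn N q) : (q.den : ℝ) ≤ N := by
  obtain ⟨z, rfl⟩ := hq
  have h1 : (((z : ℚ) / (N : ℚ)).den : ℤ) ∣ (N : ℤ) := by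
    have := Rat.den_dvd z N
    rwa [Rat.divInt_eq_div, Int.cast_natCast] at this
  have h2 : ((z : ℚ) / (N : ℚ)).den ≤ N := Nat.le_of_dvd (by omega) (by exact_mod_cast h1)
  exact_mod_cast h2

/-- lower bound for the determinant, common denominator -/
def T_arithZ : Prop := ∀ (r k N : ℕ) (z : Fin (k + 1) × Fin r → ℤ) (c : Fin (k + 1) × Fin r → Fin r → ℤ),
  1 ≤ N →
  (Matrix.of fun x y : Fin (k + 1) × Fin r => ((z x : ℝ) / N) ^ (y.1 : ℕ) * (c x y.2 : ℝ)).det ≠ 0 →
  1 ≤ |(Matrix.of fun x y : Fin (k + 1) × Fin r => ((z x : ℝ) / N) ^ (y.1 : ℕ) * (c x y.2 : ℝ)).det| *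
    (N : ℝ) ^ (r * (k * (k + 1) / 2))

theorem arithZ : T_arithZ := by
  intro r k N z c hN hne
  have hN0 : (N : ℝ) ≠ 0 := by positivity
  have h1 : (Matrix.of fun x y : Fin (k + 1) × Fin r => ((z x : ℝ) / N) ^ (y.1 : ℕ) * (c x y.2 : ℝ)) =
      Matrix.of fun x y => ((N : ℝ) ^ (y.1 : ℕ))⁻¹ *
        ((Matrix.of fun x y : Fin (k + 1) × Fin r => z x ^ (y.1 : ℕ) * c x y.2).map (Int.cast : ℤ → ℝ)) x y := by
    ext x y
    simp only [Matrix.of_apply, Matrix.map_apply]
    push_cast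
    rw [div_pow]
    field_simp
  have h2 : ∏ y : Fin (k + 1) × Fin r, ((N : ℝ) ^ (y.1 : ℕ))⁻¹ = ((N : ℝ) ^ (r * (k * (k + 1) / 2)))⁻¹ := by
    rw [Finset.prod_inv_distrib, Finset.prod_pow_eq_pow_sum, Fintype.sum_prod_type]
    simp only [Finset.sum_const, Finset.card_univ, Fintype.card_fin, smul_eq_mul]
    rw [← Finset.mul_sum, Fin.sum_univ_eq_sum_range (fun i => i), Finset.sum_range_id]
    congr 4
    rw [Nat.add_sub_cancel, mul_comm]
  have h3 : ((Matrix.of fun x y : Fin (k + 1) × Fin r => z x ^ (y.1 : ℕ) * c x y.2).map (Int.cast : ℤ → ℝ)).det =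
      (((Matrix.of fun x y : Fin (k + 1) × Fin r => z x ^ (y.1 : ℕ) * c x y.2).det : ℤ) : ℝ) := by
    exact (Int.cast_det _).symm
  rw [h1, Matrix.det_mul_row, h2, h3] at hne ⊢
  have h4 : (Matrix.of fun x y : Fin (k + 1) × Fin r => z x ^ (y.1 : ℕ) * c x y.2).det ≠ 0 := by
    intro h0
    apply hne
    rw [h0]
    simp
  have h5 : (1 : ℝ) ≤ |(((Matrix.of fun x y : Fin (k + 1) × Fin r => z x ^ (y.1 : ℕ) * c x y.2).det : ℤ) : ℝ)| := by
    have := Int.one_le_abs h4
    exact_mod_cast this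
  rw [abs_mul, abs_of_pos (by positivity : (0 : ℝ) < ((N : ℝ) ^ (r * (k * (k + 1) / 2)))⁻¹)]
  calc (1 : ℝ) ≤ _ := h5
    _ = _ := by field_simp

/-- the arithmetic of the exponents -/
theorem exponentZ (r : ℕ) (hr : 0 < r) (A β : ℝ) (hβ : (r : ℝ) / (r + 1) < β) (N : ℕ) :
    ∃ k : ℕ, N ≤ k ∧ N * (k + 1) ≤ ex r k ∧
      A * (((k + 1) * r : ℕ) : ℝ) + ((r * (k * (k + 1) / 2) : ℕ) : ℝ) - β * ((ex r k - N * (k + 1) : ℕ) : ℝ) ≤ -1 := by
  have hr0 : (0 : ℝ) < r := by exact_mod_cast hr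
  have hβ0 : 0 < β := lt_of_le_of_lt (by positivity) hβ
  have hγ : 0 < β * (r + 1) / 2 - r / 2 := by
    rw [div_lt_iff₀ (by positivity)] at hβ
    linarith
  obtain ⟨k1, hk1⟩ := exists_nat_ge ((r * A - β + β * N + 1) / (β * (r + 1) / 2 - r / 2))
  refine ⟨max k1 N, le_max_right _ _, ?_, ?_⟩
  · unfold ex
    have : N ≤ max k1 N + 1 := by have := le_max_right k1 N; omega
    nlinarith [Nat.zero_le ((r - 1) * (max k1 N * (max k1 N + 1) / 2))]
  · set k := max k1 N with hk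
    have hkN : N ≤ k := le_max_right _ _
    have hkk : (k1 : ℝ) ≤ k := by exact_mod_cast le_max_left _ _
    have h1 : (r * A - β + β * N + 1) ≤ k * (β * (r + 1) / 2 - r / 2) := by
      have := (div_le_iff₀ hγ).1 (hk1.trans hkk)
      linarith
    have hexle : N * (k + 1) ≤ ex r k := by
      unfold ex
      nlinarith [Nat.zero_le ((r - 1) * (k * (k + 1) / 2))]
    have hev : 2 ∣ k * (k + 1) := (Nat.even_mul_succ_self k).two_dvd
    have hex : ((ex r k - N * (k + 1) : ℕ) : ℝ) = (k + 1) * ((r - 1) * k / 2 + (k + 1) - N) := by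
      rw [Nat.cast_sub hexle]
      unfold ex
      push_cast [Nat.cast_sub hr, Nat.cast_div hev (by norm_num : ((2 : ℕ) : ℝ) ≠ 0)]
      ring
    rw [hex]
    push_cast [Nat.cast_div hev (by norm_num : ((2 : ℕ) : ℝ) ≠ 0)]
    have h2 : A * ((k + 1) * r) + r * (k * (k + 1) / 2) - β * ((k + 1) * ((r - 1) * k / 2 + (k + 1) - N)) =
        (k + 1) * ((r * A - β + β * N) - k * (β * (r + 1) / 2 - r / 2)) := by ring
    rw [h2]
    have hk0 : (0 : ℝ) ≤ k := by positivity
    nlinarith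

/-- the exceptional set -/
def ExcZ {m : ℕ} (v : Fin m → ℝ → ℝ) (a b A B : ℝ) (N : ℕ) (T : ℝ) : Set ℚ :=
  {q : ℚ | (q : ℝ) ∈ Icc a b ∧ Dn N q ∧
    ∃ c : Fin m → ℤ, c ≠ 0 ∧ (∀ l, |(c l : ℝ)| ≤ T ^ A) ∧ |∑ l, (c l : ℝ) * v l q| ≤ T ^ (-B)}

set_option maxHeartbeats 1000000 in
theorem stageZ (hbd : T_bd) (hlow : T_low) (htay : T_taylor) (hdet : T_det2) (harith : T_arithZ)
    (haux : T_aux2)
    {m r : ℕ} (hr : 0 < r) (a b : ℝ) (V : Set (Fin m → ℝ → ℝ)) (hV : Fam a b V) (A β : ℝ) (hA : 0 ≤ A)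
    (hβ : (r : ℝ) / (r + 1) < β) (D : ℕ) :
    ∃ (k : ℕ) (κ' : ℝ), ∀ κ κ1 : ℝ, ∃ (B T0 : ℝ), 1 ≤ T0 ∧ ∀ (N0 : ℕ) (T : ℝ), T = N0 → T0 ≤ T → ∀ v ∈ V,
      MeasT v a b D κ κ1 T → ∀ P : Fin r → Fin m → ℤ[X],
      (∀ l i, (P l i).natDegree ≤ D) → (∀ l i s, |((P l i).coeff s : ℝ)| ≤ T ^ κ) → PIndZ P →
      ∀ u u' : ℝ, a ≤ u → u' ≤ b → T ^ (-2 : ℝ) ≤ u' - u → u' - u ≤ T ^ (-β) →
      ∃ p : Fin r → ℤ[X], p ≠ 0 ∧ (∀ l, (p l).natDegree ≤ k) ∧ (∀ l s, |((p l).coeff s : ℝ)| ≤ T ^ κ') ∧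
        ∀ q : ℚ, (q : ℝ) ∈ Icc u u' → Dn N0 q →
        ∀ c : Fin r → ℤ, (∀ l, |(c l : ℝ)| ≤ T ^ A) → |∑ l, (c l : ℝ) * gg v P l q| ≤ T ^ (-B) →
        ∑ l, aeval q (p l) * (c l : ℚ) = 0 := by
  obtain ⟨n, w, hw, hb0⟩ := hV D
  obtain ⟨N, c0, hc0, hlow'⟩ := hlow a b n w hw
  obtain ⟨k, hkN, hex, hexp⟩ := exponentZ r hr A β hβ N
  obtain ⟨B, hB, htay'⟩ := htay a b n w hw k
  obtain ⟨B0, hB0, hbd'⟩ := hbd a b n w hw 0
  have hr0 : (0 : ℝ) < r := by exact_mod_cast hr
  have hβ0 : 0 < β := lt_of_le_of_lt (by positivity) hβ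
  -- the constants
  set C1 : ℝ := (((k + 1) * r).factorial : ℝ) * ((r + 1) * B) ^ (k + 1) / c0 ^ (k + 1) with hC1
  have hC1p : 0 < C1 := by positivity
  set Mab : ℝ := max (max |a| |b|) 1 with hMab
  have hMab1 : 1 ≤ Mab := le_max_right _ _
  refine ⟨k, (k + 1 + A) * (((k + 1) * r : ℕ) : ℝ), fun κ κ1 => ⟨κ1 + 2 * (k + 1) + 1,
    max (max (C1 + 1) (B0 / B)) ((((k + 1) * r : ℕ) : ℝ) * Mab ^ k), ?_, ?_⟩⟩
  · exact (le_max_left _ _).trans' ((le_max_left _ _).trans' (by linarith))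
  intro N0 T hN0 hT v hvV hmeas P hPD hPc hP u u' hau hub hlen2 hlen
  have hb := hb0 v hvV
  have hTC : C1 + 1 ≤ T := ((le_max_left _ _).trans (le_max_left _ _)).trans hT
  have hTB : B0 / B ≤ T := ((le_max_right _ _).trans (le_max_left _ _)).trans hT
  have hTM : (((k + 1) * r : ℕ) : ℝ) * Mab ^ k ≤ T := (le_max_right _ _).trans hT
  have hT1 : 1 ≤ T := by linarith
  have hT0 : 0 < T := by linarith
  have huu : u < u' := by
    have : 0 < T ^ (-2 : ℝ) := by positivity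
    linarith
  choose x hx using fun l => hb (P l) (hPD l)
  have hxl : ∀ l, T ^ (-κ1) ≤ B0 * ‖x l‖ := by
    intro l
    obtain ⟨t, ht, hle⟩ := hmeas (P l) (hP.ne_zero l) (hPD l) (hPc l)
    rw [hx l t ht] at hle
    have := hbd' (x l) t ht 0 le_rfl
    rw [iteratedDeriv_zero] at this
    exact hle.trans this
  have : Nonempty (Fin r) := ⟨⟨0, hr⟩⟩
  obtain ⟨l0, hl0⟩ := Finite.exists_max (fun l => ‖x l‖)
  set X := ‖x l0‖ with hX
  have hXp : 0 < X := by
    by_contra hneg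
    have h0 : X = 0 := le_antisymm (not_lt.1 hneg) (norm_nonneg _)
    have h1 := hxl l0
    rw [← hX, h0, mul_zero] at h1
    have : 0 < T ^ (-κ1) := by positivity
    linarith
  obtain ⟨t0, ht0, hlow0⟩ := hlow' (x l0) u u' hau huu hub
  have hIcc : Icc u u' ⊆ Icc a b := Icc_subset_Icc hau hub
  set η := u' - u with hη
  have hηp : 0 < η := by linarith
  have hη1 : η ≤ 1 := hlen.trans (Real.rpow_le_one_of_one_le_of_nonpos hT1 (by linarith))
  have hTA : 1 ≤ T ^ A := Real.one_le_rpow hT1 hA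
  have hN01 : 1 ≤ N0 := by
    have : (1 : ℝ) ≤ (N0 : ℝ) := by rw [← hN0]; exact hT1
    exact_mod_cast this
  have hDn : ∀ q, Dn N0 q → (q.den : ℝ) ≤ T := fun q hq => by rw [hN0]; exact den_le_of_Dn hN01 hq
  let S : Set (ℚ × (Fin r → ℤ)) := {s | (s.1 : ℝ) ∈ Icc u u' ∧ Dn N0 s.1 ∧
    (∀ l, |(s.2 l : ℝ)| ≤ T ^ A) ∧ |∑ l, (s.2 l : ℝ) * gg v P l s.1| ≤ T ^ (-(κ1 + 2 * (k + 1) + 1))}
  obtain ⟨p, hp0, hpk, hpc, hp⟩ := haux r k (Mab * T) (T ^ A) S hr
    (by nlinarith) hTA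
    (by
      intro s hs
      have hden := hDn _ hs.2.1
      refine ⟨(num_le (hIcc hs.1) hden).1, ?_, hs.2.2.1⟩
      exact hden.trans (by nlinarith)) (by
    intro e he
    by_contra hne
    -- cast to ℝ
    have hcast : (Matrix.of fun x y : Fin (k + 1) × Fin r => (((e x).1 : ℝ)) ^ (y.1 : ℕ) * ((e x).2 y.2 : ℝ)).det
        = (((Matrix.of fun x y : Fin (k + 1) × Fin r => (e x).1 ^ (y.1 : ℕ) * ((e x).2 y.2 : ℚ)).det : ℚ) : ℝ) := by
      have := RingHom.map_det (Rat.castHom ℝ) (Matrix.of fun x y : Fin (k + 1) × Fin r =>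
        (e x).1 ^ (y.1 : ℕ) * ((e x).2 y.2 : ℚ))
      rw [show (((Matrix.of fun x y : Fin (k + 1) × Fin r => (e x).1 ^ (y.1 : ℕ) * ((e x).2 y.2 : ℚ)).det : ℚ) : ℝ)
        = (Rat.castHom ℝ) ((Matrix.of fun x y : Fin (k + 1) × Fin r =>
          (e x).1 ^ (y.1 : ℕ) * ((e x).2 y.2 : ℚ)).det) from rfl, this]
      congr 1
      ext i j
      simp
    have hne' : (Matrix.of fun x y : Fin (k + 1) × Fin r => (((e x).1 : ℝ)) ^ (y.1 : ℕ) * ((e x).2 y.2 : ℝ)).det
        ≠ 0 := by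
      rw [hcast]
      exact_mod_cast hne
    choose z hz using fun x => (he x).2.1
    have hze : (Matrix.of fun x y : Fin (k + 1) × Fin r => ((z x : ℝ) / N0) ^ (y.1 : ℕ) * ((e x).2 y.2 : ℝ)) =
        (Matrix.of fun x y : Fin (k + 1) × Fin r => (((e x).1 : ℝ)) ^ (y.1 : ℕ) * ((e x).2 y.2 : ℝ)) := by
      ext x y
      simp only [Matrix.of_apply, hz x]
      push_cast
      rfl
    have hlower := harith r k N0 z (fun x => (e x).2) hN01 (by rw [hze]; exact hne')
    rw [hze, ← hN0] at hlower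
    have hupper := hdet r k l0 t0 η (T ^ A) B (fun x => ((e x).1 : ℝ)) (fun x l => ((e x).2 l : ℝ))
      (fun y l => comb w (x l) ((e y).1 : ℝ) / X)
      (fun l j => iteratedDeriv j (comb w (x l)) t0 / (j.factorial : ℝ) / X) hηp.le hη1 (by positivity) hB.le
      (by
        intro y
        have h1 := (he y).1
        rw [abs_le]
        constructor <;> linarith [h1.1, h1.2, ht0.1, ht0.2])
      (fun y l => (he y).2.2.1 l)
      (by
        intro y
        have h1 := (he y).2.2.2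
        have h2 : ∀ l, comb w (x l) ((e y).1 : ℝ) = gg v P l ((e y).1 : ℝ) := fun l =>
          (hx l _ (hIcc (he y).1)).symm
        simp only [h2]
        have : ∑ l, ((e y).2 l : ℝ) * (gg v P l ((e y).1 : ℝ) / X) =
          (∑ l, ((e y).2 l : ℝ) * gg v P l ((e y).1 : ℝ)) / X := by
          rw [Finset.sum_div]
          exact Finset.sum_congr rfl fun l _ => by ring
        rw [this, abs_div, abs_of_pos hXp, div_le_iff₀ hXp]
        refine h1.trans ?_
        -- `T^(-B') ≤ T^A B η^(k+1) X`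
        have e1 : T ^ (-2 * ((k : ℝ) + 1)) ≤ η ^ (k + 1) := by
          calc T ^ (-2 * ((k : ℝ) + 1)) = (T ^ (-2 : ℝ)) ^ (k + 1) := by
                rw [← Real.rpow_natCast (T ^ (-2 : ℝ)), ← Real.rpow_mul hT0.le]
                push_cast
                rfl
            _ ≤ η ^ (k + 1) := pow_le_pow_left₀ (by positivity) hlen2 _
        have e2 : B0 ≤ B * T := by rwa [div_le_iff₀ hB, mul_comm] at hTB
        have e3 : T ^ (-κ1) ≤ B0 * X := hxl l0
        have e4 : T ^ (-(κ1 + 2 * ((k : ℝ) + 1) + 1)) = T ^ (-κ1) * T ^ (-2 * ((k : ℝ) + 1)) * T ^ (-1 : ℝ) := by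
          rw [← Real.rpow_add hT0, ← Real.rpow_add hT0]
          congr 1
          ring
        rw [e4, Real.rpow_neg_one]
        calc T ^ (-κ1) * T ^ (-2 * ((k : ℝ) + 1)) * T⁻¹ ≤ (B0 * X) * η ^ (k + 1) * T⁻¹ := by gcongr
          _ ≤ (B * T * X) * η ^ (k + 1) * T⁻¹ := by gcongr
          _ = 1 * B * η ^ (k + 1) * X := by field_simp
          _ ≤ T ^ A * B * η ^ (k + 1) * X := by gcongr)
      (by
        intro y l i hi
        have h1 := htay' (x l) t0 ((e y).1 : ℝ) (hIcc ht0) (hIcc (he y).1) i hi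
        have h2 : comb w (x l) ((e y).1 : ℝ) / X - ∑ j ∈ Finset.range (i + 1),
            iteratedDeriv j (comb w (x l)) t0 / (j.factorial : ℝ) / X * (((e y).1 : ℝ) - t0) ^ j =
            (comb w (x l) ((e y).1 : ℝ) - ∑ j ∈ Finset.range (i + 1),
              iteratedDeriv j (comb w (x l)) t0 / (j.factorial : ℝ) * (((e y).1 : ℝ) - t0) ^ j) / X := by
          rw [sub_div, Finset.sum_div]
          congr 1
          exact Finset.sum_congr rfl fun j _ => by ring
        rw [h2, abs_div, abs_of_pos hXp, div_le_iff₀ hXp]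
        refine h1.trans ?_
        have h3 : |((e y).1 : ℝ) - t0| ≤ η := by
          have h1 := (he y).1
          rw [abs_le]
          constructor <;> linarith [h1.1, h1.2, ht0.1, ht0.2]
        have h4 : |((e y).1 : ℝ) - t0| ^ (i + 1) ≤ η ^ (i + 1) := pow_le_pow_left₀ (abs_nonneg _) h3 _
        calc B * ‖x l‖ * |((e y).1 : ℝ) - t0| ^ (i + 1) ≤ B * X * η ^ (i + 1) := by
              have := hl0 l
              gcongr
          _ = B * η ^ (i + 1) * X := by ring)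
    set Δ := |(Matrix.of fun x y : Fin (k + 1) × Fin r =>
      (((e x).1 : ℝ)) ^ (y.1 : ℕ) * ((e x).2 y.2 : ℝ)).det| with hΔ
    have hΔ0 : 0 ≤ Δ := abs_nonneg _
    -- the lower bound for τ
    have hτ : c0 * η ^ N ≤ |iteratedDeriv 0 (comb w (x l0)) t0 / ((Nat.factorial 0 : ℕ) : ℝ) / X| := by
      simp only [iteratedDeriv_zero, Nat.factorial_zero, Nat.cast_one, div_one]
      rw [abs_div, abs_of_pos hXp, le_div_iff₀ hXp]
      exact hlow0
    have hτ' : (c0 * η ^ N) ^ (k + 1) ≤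
        |iteratedDeriv 0 (comb w (x l0)) t0 / ((Nat.factorial 0 : ℕ) : ℝ) / X| ^ (k + 1) :=
      pow_le_pow_left₀ (by positivity) hτ _
    have h5 : Δ * (c0 * η ^ N) ^ (k + 1) ≤ (((k + 1) * r).factorial : ℝ) * (T ^ A) ^ ((k + 1) * r) *
        ((r + 1) * B) ^ (k + 1) * η ^ ex r k := (mul_le_mul_of_nonneg_left hτ' hΔ0).trans hupper
    have h6 : Δ ≤ C1 * (T ^ A) ^ ((k + 1) * r) * η ^ (ex r k - N * (k + 1)) := by
      have h7 : η ^ ex r k = η ^ (ex r k - N * (k + 1)) * η ^ (N * (k + 1)) := by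
        rw [← pow_add]; congr 1; omega
      rw [h7, mul_pow, ← pow_mul] at h5
      have h8 : 0 < c0 ^ (k + 1) * η ^ (N * (k + 1)) := by positivity
      refine le_of_mul_le_mul_right (h5.trans (le_of_eq ?_)) h8
      rw [hC1]
      field_simp
    have h9 : η ^ (ex r k - N * (k + 1)) ≤ (T ^ (-β)) ^ (ex r k - N * (k + 1)) :=
      pow_le_pow_left₀ hηp.le hlen _
    have h10 : 1 ≤ C1 * T ^ (-1 : ℝ) := by
      calc (1 : ℝ) ≤ Δ * T ^ (r * (k * (k + 1) / 2)) := hlower
        _ ≤ (C1 * (T ^ A) ^ ((k + 1) * r) * (T ^ (-β)) ^ (ex r k - N * (k + 1))) * T ^ (r * (k * (k + 1) / 2)) := by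
            refine mul_le_mul_of_nonneg_right (h6.trans ?_) (by positivity)
            exact mul_le_mul_of_nonneg_left h9 (by positivity)
        _ = C1 * T ^ (A * (((k + 1) * r : ℕ) : ℝ) + ((r * (k * (k + 1) / 2) : ℕ) : ℝ) -
              β * ((ex r k - N * (k + 1) : ℕ) : ℝ)) := by
            rw [← Real.rpow_natCast (T ^ A), ← Real.rpow_mul hT0.le, ← Real.rpow_natCast (T ^ (-β)),
              ← Real.rpow_mul hT0.le, ← Real.rpow_natCast T, mul_assoc, mul_assoc, ← Real.rpow_add hT0,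
              ← Real.rpow_add hT0]
            congr 2
            ring
        _ ≤ C1 * T ^ (-1 : ℝ) := by
            refine mul_le_mul_of_nonneg_left ?_ hC1p.le
            exact Real.rpow_le_rpow_of_exponent_le hT1 hexp
    rw [Real.rpow_neg_one, ← div_eq_mul_inv, le_div_iff₀ hT0] at h10
    linarith)
  refine ⟨p, hp0, hpk, ?_, fun q hq hqd c hc hcs => hp (q, c) ⟨hq, hqd, hc, hcs⟩⟩
  intro l s
  refine (hpc l s).trans ?_
  have hμ0 : (0 : ℝ) ≤ (((k + 1) * r : ℕ) : ℝ) := by positivity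
  calc ((((k + 1) * r : ℕ) : ℝ) * (Mab * T) ^ k * T ^ A) ^ ((k + 1) * r)
      = ((((k + 1) * r : ℕ) : ℝ) * Mab ^ k * T ^ k * T ^ A) ^ ((k + 1) * r) := by rw [mul_pow]; ring
    _ ≤ (T * T ^ k * T ^ A) ^ ((k + 1) * r) := by gcongr
    _ = T ^ ((k + 1 + A) * (((k + 1) * r : ℕ) : ℝ)) := by
        rw [← Real.rpow_natCast T k, ← Real.rpow_one_add' hT0.le (by positivity), ← Real.rpow_add hT0,
          ← Real.rpow_natCast (T ^ (1 + (k : ℝ) + A)), ← Real.rpow_mul hT0.le]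
        congr 2
        ring

set_option maxHeartbeats 1000000 in
theorem claimZ (hbd : T_bd) (hlow : T_low) (htay : T_taylor) (hdet : T_det2) (harith : T_arithZ)
    (haux : T_aux2)
    {m : ℕ} (a b : ℝ) (V : Set (Fin m → ℝ → ℝ)) (hV : Fam a b V) (A β : ℝ) (hA : 0 ≤ A) (r : ℕ)
    (hβ : (r : ℝ) / (r + 1) < β) : ∀ (D : ℕ) (κ : ℝ),
    ∃ (D' : ℕ) (κ' : ℝ) (Bd : ℕ), ∀ κ1 : ℝ, ∃ (B T0 : ℝ), 1 ≤ T0 ∧ ∀ (N0 : ℕ) (T : ℝ), T = N0 → T0 ≤ T → ∀ v ∈ V,
      MeasT v a b D' κ' κ1 T → ∀ P : Fin r → Fin m → ℤ[X],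
      (∀ l i, (P l i).natDegree ≤ D) → (∀ l i s, |((P l i).coeff s : ℝ)| ≤ T ^ κ) → PIndZ P →
      ∀ u u' : ℝ, a ≤ u → u' ≤ b → T ^ (-2 : ℝ) ≤ u' - u → u' - u ≤ T ^ (-β) →
      ∀ Z : Finset ℚ, (∀ q ∈ Z, (q : ℝ) ∈ Icc u u' ∧ Dn N0 q ∧
        ∃ c : Fin r → ℤ, c ≠ 0 ∧ (∀ l, |(c l : ℝ)| ≤ T ^ A) ∧ |∑ l, (c l : ℝ) * gg v P l q| ≤ T ^ (-B)) →
      Z.card ≤ Bd := by
  classical
  induction r with
  | zero =>
    intro D κ
    refine ⟨0, 0, 0, fun _ => ⟨0, 1, le_rfl, ?_⟩⟩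
    intro N0 T _ _ v _ _ P _ _ _ u u' _ _ _ _ Z hZ
    rw [Nat.le_zero, Finset.card_eq_zero, Finset.eq_empty_iff_forall_notMem]
    intro q hq
    obtain ⟨-, -, c, hc, -⟩ := hZ q hq
    exact hc (Subsingleton.elim _ _)
  | succ r ih =>
    intro D κ
    have hβ' : (r : ℝ) / (r + 1) < β := by
      refine lt_of_le_of_lt ?_ hβ
      push_cast
      rw [div_le_div_iff₀ (by positivity) (by positivity)]
      nlinarith [Nat.cast_nonneg (α := ℝ) r]
    have hβ1 : ((1 : ℕ) : ℝ) / (((1 : ℕ) : ℝ) + 1) < β := by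
      refine lt_of_le_of_lt ?_ hβ
      push_cast
      rw [div_le_div_iff₀ (by positivity) (by positivity)]
      nlinarith [Nat.cast_nonneg (α := ℝ) r]
    obtain ⟨k, κ1, hsta⟩ :=
      stageZ hbd hlow htay hdet harith haux (Nat.succ_pos r) a b V hV A β hA hβ D
    obtain ⟨k0, κ0, hstb⟩ :=
      stageZ hbd hlow htay hdet harith haux Nat.one_pos a b V hV A β hA hβ1 D
    obtain ⟨D2, κ2, Bd, hihh⟩ := ih hβ' (k + D) (κ1 + κ + 1)
    refine ⟨max D D2, max κ κ2, k0 + Bd, fun κ3 => ?_⟩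
    obtain ⟨B1, T1, hT1, hstc⟩ := hsta κ κ3
    obtain ⟨B0, T0, hT0, hstd⟩ := hstb κ κ3
    obtain ⟨B2, T2, hT2, hih'⟩ := hihh κ3
    set Mab : ℝ := max (max |a| |b|) 1 with hMab
    have hMab1 : 1 ≤ Mab := le_max_right _ _
    refine ⟨max (max B1 B0) (B2 + κ1 + 1), max (max T1 T0) (max T2
      (max (2 * (k + 1)) ((k + 1) * Mab ^ k))), ?_, ?_⟩
    · exact (le_max_left _ _).trans' ((le_max_left _ _).trans' hT1)
    intro N0 T hN0 hT v hvV hmeas P hPD hPc hP u u' hau hub hlen2 hlen Z hZ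
    have hTT1 : T1 ≤ T := ((le_max_left _ _).trans (le_max_left _ _)).trans hT
    have hTT0 : T0 ≤ T := ((le_max_right _ _).trans (le_max_left _ _)).trans hT
    have hTT2 : T2 ≤ T := ((le_max_left _ _).trans (le_max_right _ _)).trans hT
    have hN01 : 1 ≤ N0 := by
      have : (1 : ℝ) ≤ (N0 : ℝ) := by rw [← hN0]; exact hT1.trans hTT1
      exact_mod_cast this
    have hDn : ∀ q, Dn N0 q → (q.den : ℝ) ≤ T := fun q hq => by rw [hN0]; exact den_le_of_Dn hN01 hq
    have hTk : 2 * ((k : ℝ) + 1) ≤ T :=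
      (((le_max_left _ _).trans (le_max_right _ _)).trans (le_max_right _ _)).trans hT
    have hTM : ((k : ℝ) + 1) * Mab ^ k ≤ T :=
      (((le_max_right _ _).trans (le_max_right _ _)).trans (le_max_right _ _)).trans hT
    have hT1' : 1 ≤ T := hT1.trans hTT1
    have hTp : 0 < T := by linarith
    have hst := hstc N0 T hN0 hTT1 v hvV (hmeas.mono (le_max_left _ _) (le_max_left _ _) hT1')
    have hst0 := hstd N0 T hN0 hTT0 v hvV (hmeas.mono (le_max_left _ _) (le_max_left _ _) hT1')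
    have hih := hih' N0 T hN0 hTT2 v hvV (hmeas.mono (le_max_right _ _) (le_max_right _ _) hT1')
    have hIcc : Icc u u' ⊆ Icc a b := Icc_subset_Icc hau hub
    set B := max (max B1 B0) (B2 + κ1 + 1) with hB
    have hBB1 : T ^ (-B) ≤ T ^ (-B1) := Real.rpow_le_rpow_of_exponent_le hT1' (by
      have : B1 ≤ B := (le_max_left _ _).trans (le_max_left _ _)
      linarith)
    have hBB0 : T ^ (-B) ≤ T ^ (-B0) := Real.rpow_le_rpow_of_exponent_le hT1' (by
      have : B0 ≤ B := (le_max_right _ _).trans (le_max_left _ _)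
      linarith)
    obtain ⟨p, hp0, hpk, hpc, hp⟩ := hst P hPD hPc hP u u' hau hub hlen2 hlen
    obtain ⟨l0, hl0⟩ : ∃ l0, p l0 ≠ 0 := by
      by_contra h
      push Not at h
      exact hp0 (funext h)
    have hTA : 1 ≤ T ^ A := Real.one_le_rpow hT1' hA
    -- the points where `g_{l0}` is small
    have hcard1 : (Z.filter fun q : ℚ => |gg v P l0 q| ≤ T ^ (-B0)).card ≤ k0 := by
      have hP1 : PIndZ (fun _ : Fin 1 => P l0) := by
        intro s hs
        have hne := hP.ne_zero l0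
        obtain ⟨i, hi⟩ : ∃ i, P l0 i ≠ 0 := by
          by_contra h
          push Not at h
          exact hne (funext h)
        have h1 := hs i
        rw [Fin.sum_univ_one, mul_eq_zero] at h1
        funext j
        rw [Subsingleton.elim j 0]
        exact h1.resolve_right hi
      obtain ⟨p0, hp00, hp0k, -, hp0r⟩ := hst0 (fun _ : Fin 1 => P l0) (fun _ i => hPD l0 i)
        (fun _ i s => hPc l0 i s) hP1 u u' hau hub hlen2 hlen
      have hp000 : p0 0 ≠ 0 := by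
        intro h
        apply hp00
        funext j
        rw [Subsingleton.elim j 0, h]
        rfl
      have hinj : Function.Injective (Int.castRingHom ℚ) := Int.cast_injective
      have hmapne : (p0 0).map (Int.castRingHom ℚ) ≠ 0 := (Polynomial.map_ne_zero_iff hinj).2 hp000
      have hsub : (Z.filter fun q : ℚ => |gg v P l0 q| ≤ T ^ (-B0)) ⊆
          ((p0 0).map (Int.castRingHom ℚ)).roots.toFinset := by
        intro q hq
        rw [Finset.mem_filter] at hq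
        rw [Multiset.mem_toFinset, mem_roots hmapne, IsRoot.def, eval_map]
        have h1 := hp0r q (hZ q hq.1).1 (hZ q hq.1).2.1 (fun _ => 1) (by
          intro _
          simpa using hTA) (by
          rw [Fin.sum_univ_one]
          have : gg v (fun _ : Fin 1 => P l0) 0 (q : ℝ) = gg v P l0 q := rfl
          rw [this]
          simpa using hq.2)
        rw [Fin.sum_univ_one] at h1
        simpa [aeval_def] using h1
      refine (Finset.card_le_card hsub).trans ((Multiset.toFinset_card_le _).trans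
        ((card_roots' _).trans (natDegree_map_le.trans (hp0k 0))))
    -- the others
    let P' : Fin r → Fin m → ℤ[X] := fun i j => p l0 * P (l0.succAbove i) j - p (l0.succAbove i) * P l0 j
    have hP'D : ∀ l i, (P' l i).natDegree ≤ k + D := by
      intro l i
      refine (natDegree_sub_le _ _).trans (max_le ?_ ?_)
      · exact natDegree_mul_le.trans (add_le_add (hpk _) (hPD _ _))
      · exact natDegree_mul_le.trans (add_le_add (hpk _) (hPD _ _))
    have hP'c : ∀ l i s, |((P' l i).coeff s : ℝ)| ≤ T ^ (κ1 + κ + 1) := by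
      intro l i s
      have h1 := coeff_mul_le (p l0) (P (l0.succAbove l) i) k _ _ (hpk _) (hpc _) (hPc _ _) s
      have h2 := coeff_mul_le (p (l0.succAbove l)) (P l0 i) k _ _ (hpk _) (hpc _) (hPc _ _) s
      simp only [P', coeff_sub, Int.cast_sub]
      calc _ ≤ |((p l0 * P (l0.succAbove l) i).coeff s : ℝ)| + |((p (l0.succAbove l) * P l0 i).coeff s : ℝ)| :=
            abs_sub _ _
        _ ≤ (k + 1) * (T ^ κ1 * T ^ κ) + (k + 1) * (T ^ κ1 * T ^ κ) := add_le_add h1 h2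
        _ = (2 * (k + 1)) * (T ^ κ1 * T ^ κ) := by ring
        _ ≤ T * (T ^ κ1 * T ^ κ) := by gcongr
        _ = T ^ (κ1 + κ + 1) := by
            nth_rewrite 1 [← Real.rpow_one T]
            rw [← Real.rpow_add hTp, ← Real.rpow_add hTp]
            congr 1
            ring
    have hP' : PIndZ P' := by
      intro s hs
      have h1 := hP (l0.insertNth (-∑ i, s i * p (l0.succAbove i)) (fun i => s i * p l0)) (by
        intro j
        rw [Fin.sum_univ_succAbove _ l0]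
        simp only [Fin.insertNth_apply_same, Fin.insertNth_apply_succAbove]
        rw [← hs j, neg_mul, Finset.sum_mul, ← Finset.sum_neg_distrib, ← Finset.sum_add_distrib]
        refine Finset.sum_congr rfl fun i _ => ?_
        simp only [P']
        ring)
      funext i
      have h2 := congrFun h1 (l0.succAbove i)
      simp only [Fin.insertNth_apply_succAbove, Pi.zero_apply, mul_eq_zero] at h2
      exact h2.resolve_right hl0
    have hcard2 : (Z.filter fun q : ℚ => ¬ |gg v P l0 q| ≤ T ^ (-B0)).card ≤ Bd := by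
      refine hih P' hP'D hP'c hP' u u' hau hub hlen2 hlen _ ?_
      intro q hq
      rw [Finset.mem_filter] at hq
      obtain ⟨hqZ, hqf⟩ := hq
      obtain ⟨hqI, hqd, c, hc0, hc, hcs⟩ := hZ q hqZ
      have hrel := hp q hqI hqd c hc (hcs.trans hBB1)
      refine ⟨hqI, hqd, fun i => c (l0.succAbove i), ?_, fun l => hc _, ?_⟩
      · intro h0
        have h0' : ∀ i, c (l0.succAbove i) = 0 := fun i => congrFun h0 i
        rw [Fin.sum_univ_succAbove _ l0] at hcs
        simp only [h0', Int.cast_zero, zero_mul, Finset.sum_const_zero, add_zero] at hcs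
        have hcl0 : c l0 ≠ 0 := by
          intro h1
          apply hc0
          funext l
          rcases eq_or_ne l l0 with rfl | hl
          · exact h1
          · obtain ⟨i, rfl⟩ := Fin.exists_succAbove_eq hl
            exact h0' i
        apply hqf
        have h1 : (1 : ℝ) ≤ |(c l0 : ℝ)| := by
          have := Int.one_le_abs hcl0
          exact_mod_cast this
        rw [abs_mul] at hcs
        nlinarith [abs_nonneg (gg v P l0 q)]
      · have hff : ∀ i, gg v P' i q = aeval (q : ℝ) (p l0) * gg v P (l0.succAbove i) q -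
            aeval (q : ℝ) (p (l0.succAbove i)) * gg v P l0 q := by
          intro i
          simp only [gg, P', map_sub, map_mul, Finset.mul_sum, ← Finset.sum_sub_distrib]
          exact Finset.sum_congr rfl fun j _ => by ring
        have hrel' : ∑ l, aeval (q : ℝ) (p l) * (c l : ℝ) = 0 := by
          have : ∀ l, aeval (q : ℝ) (p l) = ((aeval q (p l) : ℚ) : ℝ) := by
            intro l
            have := aeval_algebraMap_apply ℝ q (p l)
            simpa using this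
          simp only [this]
          exact_mod_cast hrel
        simp only [hff]
        have hrel2 := hrel'
        rw [Fin.sum_univ_succAbove _ l0] at hrel2
        have h2 : ∑ i, aeval (q : ℝ) (p (l0.succAbove i)) * (c (l0.succAbove i) : ℝ) =
            -(aeval (q : ℝ) (p l0) * (c l0 : ℝ)) := by
          linarith
        have hkey : ∑ i, (c (l0.succAbove i) : ℝ) * (aeval (q : ℝ) (p l0) * gg v P (l0.succAbove i) q -
              aeval (q : ℝ) (p (l0.succAbove i)) * gg v P l0 q)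
            = aeval (q : ℝ) (p l0) * ∑ l, (c l : ℝ) * gg v P l q := by
          calc _ = aeval (q : ℝ) (p l0) * (∑ i, (c (l0.succAbove i) : ℝ) * gg v P (l0.succAbove i) q) -
              (∑ i, aeval (q : ℝ) (p (l0.succAbove i)) * (c (l0.succAbove i) : ℝ)) * gg v P l0 q := by
                rw [Finset.mul_sum, Finset.sum_mul, ← Finset.sum_sub_distrib]
                exact Finset.sum_congr rfl fun j _ => by ring
            _ = _ := by rw [h2, Fin.sum_univ_succAbove _ l0]; ring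
        rw [hkey, abs_mul]
        have h3 := abs_aeval_le (p l0) k _ Mab (hpk _) (hpc _) hMab1 (q : ℝ) (num_le (hIcc hqI) (hDn _ hqd)).2
        have hB2 : T ^ (-B) ≤ T ^ (-(B2 + κ1 + 1)) := Real.rpow_le_rpow_of_exponent_le hT1' (by
          have : B2 + κ1 + 1 ≤ B := le_max_right _ _
          linarith)
        calc |aeval (q : ℝ) (p l0)| * |∑ l, (c l : ℝ) * gg v P l q|
            ≤ ((k + 1) * (T ^ κ1 * Mab ^ k)) * T ^ (-(B2 + κ1 + 1)) :=
              mul_le_mul h3 (hcs.trans hB2) (abs_nonneg _) (by positivity)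
          _ = ((k + 1) * Mab ^ k) * (T ^ κ1 * T ^ (-(B2 + κ1 + 1))) := by ring
          _ ≤ T * (T ^ κ1 * T ^ (-(B2 + κ1 + 1))) := by gcongr
          _ = T ^ (-B2) := by
              nth_rewrite 1 [← Real.rpow_one T]
              rw [← Real.rpow_add hTp, ← Real.rpow_add hTp]
              congr 1
              ring
    rw [← Finset.card_filter_add_card_filter_not (s := Z) (p := fun q : ℚ => |gg v P l0 q| ≤ T ^ (-B0))]
    exact add_le_add hcard1 hcard2

theorem theoremZ (hbd : T_bd) (hlow : T_low) (htay : T_taylor) (hdet : T_det2) (harith : T_arithZ)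
    (haux : T_aux2)
    {m : ℕ} (a b : ℝ) (hab : a < b) (V : Set (Fin m → ℝ → ℝ)) (hV : Fam a b V) (A β : ℝ) (hA : 0 ≤ A)
    (hβ : (m : ℝ) / (m + 1) < β) :
    ∃ (D' : ℕ) (κ' C : ℝ), 0 < C ∧ ∀ κ1 : ℝ, ∃ B T0 : ℝ, 1 ≤ T0 ∧ ∀ (N0 : ℕ) (T : ℝ), T = N0 →
      T0 ≤ T → ∀ v ∈ V, MeasT v a b D' κ' κ1 T →
      (ExcZ v a b A B N0 T).Finite ∧ ((ExcZ v a b A B N0 T).ncard : ℝ) ≤ C * T ^ β := by
  classical
  have hβ0 : 0 < β := lt_of_le_of_lt (by positivity) hβ
  obtain ⟨D', κ', Bd, hcl'⟩ := claimZ hbd hlow htay hdet harith haux a b V hV A β hA m hβ 0 0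
  -- the identity matrix
  let P : Fin m → Fin m → ℤ[X] := fun l i => if i = l then 1 else 0
  have hPD : ∀ l i, (P l i).natDegree ≤ 0 := by
    intro l i
    simp only [P]
    split_ifs <;> simp
  have hPc : ∀ T : ℝ, ∀ l i s, |((P l i).coeff s : ℝ)| ≤ T ^ (0 : ℝ) := by
    intro T l i s
    rw [Real.rpow_zero]
    simp only [P]
    split_ifs
    · rw [coeff_one]
      split_ifs <;> simp
    · simp
  have hP : PIndZ P := by
    intro s hs
    funext l
    have := hs l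
    simpa [P] using this
  have hff : ∀ (v : Fin m → ℝ → ℝ) l t, gg v P l t = v l t := by
    intro v l t
    simp only [gg, P]
    rw [Finset.sum_eq_single l]
    · simp
    · intro i _ hi
      simp [hi]
    · simp
  have hfin : ∀ (v : Fin m → ℝ → ℝ) (B : ℝ) (N0 : ℕ) (T : ℝ), 1 ≤ T → T = N0 → (ExcZ v a b A B N0 T).Finite := by
    intro v B N0 T hT1 hTN
    have hN01 : 1 ≤ N0 := by
      have : (1 : ℝ) ≤ (N0 : ℝ) := by rw [← hTN]; exact hT1
      exact_mod_cast this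
    exact (finite_rat a b T).subset (fun q hq => ⟨hq.1, by rw [hTN]; exact den_le_of_Dn hN01 hq.2.1⟩)
  set B1 : ℝ := max (Bd : ℝ) 1 with hB1
  refine ⟨D', κ', B1 * (b - a + 1), by positivity [sub_pos.2 hab], fun κ1 => ?_⟩
  obtain ⟨B, T0, hT0, hcl0⟩ := hcl' κ1
  refine ⟨B, T0, hT0, ?_⟩
  intro N0 T hTN hT' v hvV hmeas
  have hcl := hcl0 N0 T hTN hT' v hvV hmeas
  have hT : 1 ≤ T := hT0.trans hT'
  have hN01 : 1 ≤ N0 := by
    have : (1 : ℝ) ≤ (N0 : ℝ) := by rw [← hTN]; exact hT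
    exact_mod_cast this
  have hDn : ∀ q, Dn N0 q → (q.den : ℝ) ≤ T := fun q hq => by rw [hTN]; exact den_le_of_Dn hN01 hq
  have hfin0 := hfin v B N0 T hT hTN
  refine ⟨hfin0, ?_⟩
  have hTp : 0 < T := by linarith
  have hTβ : 1 ≤ T ^ β := Real.one_le_rpow hT hβ0.le
  have hbapos : 0 < b - a := by linarith
  rw [Set.ncard_eq_toFinset_card _ hfin0]
  set Z := hfin0.toFinset with hZ
  have hZmem : ∀ q ∈ Z, q ∈ ExcZ v a b A B N0 T := fun q hq => hfin0.mem_toFinset.1 hq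
  let g : ℚ → ℕ := fun q => ⌊((q : ℝ) - a) * T ^ β⌋₊
  have hmaps : ∀ q ∈ Z, g q ∈ Finset.range (⌊(b - a) * T ^ β⌋₊ + 1) := by
    intro q hq
    rw [Finset.mem_range, Nat.lt_succ_iff]
    apply Nat.floor_le_floor
    have := (hZmem q hq).1.2
    gcongr
  have hfib : ∀ j ∈ Finset.range (⌊(b - a) * T ^ β⌋₊ + 1), (Z.filter fun q => g q = j).card ≤ max Bd 1 := by
    intro j _
    rcases Nat.lt_or_ge 1 (Z.filter fun q => g q = j).card with h1 | h1
    swap
    · exact h1.trans (le_max_right _ _)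
    refine le_trans ?_ (le_max_left _ _)
    set F := Z.filter fun q => g q = j with hF
    have hne : F.Nonempty := Finset.card_pos.1 (by omega)
    have hmin := F.min'_mem hne
    have hmax := F.max'_mem hne
    have hlt : F.min' hne < F.max' hne := Finset.min'_lt_max'_of_card F h1
    have hFZ : ∀ q ∈ F, q ∈ ExcZ v a b A B N0 T := fun q hq => hZmem q (Finset.mem_filter.1 hq).1
    have hFg : ∀ q ∈ F, g q = j := fun q hq => (Finset.mem_filter.1 hq).2
    refine hcl P hPD (hPc T) hP (F.min' hne) (F.max' hne) (hFZ _ hmin).1.1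
      (hFZ _ hmax).1.2 (gap hlt (hDn _ (hFZ _ hmin).2.1) (hDn _ (hFZ _ hmax).2.1)) ?_ F ?_
    · have e1 := hFg _ hmin
      have e2 := hFg _ hmax
      have f1 : (j : ℝ) ≤ ((F.min' hne : ℚ) - a) * T ^ β := by
        rw [← e1]
        exact Nat.floor_le (mul_nonneg (sub_nonneg.2 (hFZ _ hmin).1.1) (by positivity))
      have f2 : ((F.max' hne : ℚ) - a) * T ^ β < (j : ℝ) + 1 := by
        rw [← e2]
        exact Nat.lt_floor_add_one _
      have f3 : (((F.max' hne : ℚ) : ℝ) - ((F.min' hne : ℚ) : ℝ)) * T ^ β ≤ 1 := by nlinarith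
      rw [Real.rpow_neg hTp.le, ← one_div, le_div_iff₀ (by positivity)]
      exact f3
    · intro q hq
      obtain ⟨h2, h3, c, hc0, hc, hcs⟩ := hFZ q hq
      refine ⟨⟨by exact_mod_cast F.min'_le q hq, by exact_mod_cast F.le_max' q hq⟩, h3, c, hc0, hc, ?_⟩
      simpa only [hff] using hcs
  have hcard := Finset.card_le_mul_card_image_of_maps_to hmaps (max Bd 1) hfib
  rw [Finset.card_range] at hcard
  have h5 : (Z.card : ℝ) ≤ B1 * ((⌊(b - a) * T ^ β⌋₊ : ℝ) + 1) := by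
    have : (Z.card : ℝ) ≤ ((max Bd 1 * (⌊(b - a) * T ^ β⌋₊ + 1) : ℕ) : ℝ) := by exact_mod_cast hcard
    push_cast at this
    exact this
  have h6 : (⌊(b - a) * T ^ β⌋₊ : ℝ) ≤ (b - a) * T ^ β := Nat.floor_le (by positivity)
  have hB1p : 0 < B1 := lt_of_lt_of_le one_pos (le_max_right _ _)
  have h7 : B1 * ((⌊(b - a) * T ^ β⌋₊ : ℝ) + 1) ≤ B1 * ((b - a + 1) * T ^ β) := by
    refine mul_le_mul_of_nonneg_left ?_ hB1p.le
    nlinarith
  calc (Z.card : ℝ) ≤ B1 * ((b - a + 1) * T ^ β) := h5.trans h7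
    _ = (B1 * (b - a + 1)) * T ^ β := by ring

end Pool.Agent.TH818.AP
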