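import Pool.Agent.TH818.AP.Uni

/-!
# Approximate relations at rational points with varying constants
-/

set_option autoImplicit false

open Set Polynomial Filter Topology

namespace Pool.Agent.TH818.AP

open Pool.Agent.TH818.AR

variable {ι h : Type} [Fintype ι] [Fintype h]

/-- no relation with real polynomial coefficients on `[a,b]` -/
def RIndep (g : ι → ℝ → ℝ) (a b : ℝ) : Prop :=
  ∀ p : ι → ℝ[X], (∀ t ∈ Icc a b, ∑ l, (p l).eval t * g l t = 0) → p = 0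

/-- the functions `ξ_e g_l` -/
def vx {m : ℕ} (g : ι → ℝ → ℝ) (eqv : Fin m ≃ ι × h) (ξ : h → ℝ) (i : Fin m) (t : ℝ) : ℝ :=
  ξ (eqv i).2 * g (eqv i).1 t

/-- the functions `t^j g_l`, `j ≤ D` -/
def wD {n : ℕ} (g : ι → ℝ → ℝ) (D : ℕ) (f : Fin n ≃ Fin (D + 1) × ι) (k : Fin n) (t : ℝ) : ℝ :=
  t ^ ((f k).1 : ℕ) * g (f k).2 t

theorem good_wD {n : ℕ} (g : ι → ℝ → ℝ) (a b : ℝ) (hab : a < b) (han : ∀ l, AnalyticOnNhd ℝ (g l) (Icc a b))
    (hg : RIndep g a b) (D : ℕ) (f : Fin n ≃ Fin (D + 1) × ι) : Good a b (wD g D f) := by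
  classical
  refine ⟨hab, ?_, ?_⟩
  · intro i t ht
    have h1 : AnalyticAt ℝ (fun t : ℝ => t ^ ((f i).1 : ℕ)) t := analyticAt_id.pow _
    exact h1.mul (han _ t ht)
  · intro x hx
    have h1 := hg (fun l => ∑ j : Fin (D + 1), C (x (f.symm (j, l))) * X ^ (j : ℕ)) (by
      intro t ht
      have h2 := hx t ht
      simp only [comb, wD] at h2
      rw [← Equiv.sum_comp f.symm, Fintype.sum_prod_type_right] at h2
      rw [← h2]
      refine Finset.sum_congr rfl fun l _ => ?_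
      rw [eval_finsetSum, Finset.sum_mul]
      refine Finset.sum_congr rfl fun j _ => ?_
      simp
      ring)
    funext k
    obtain ⟨⟨j, l⟩, rfl⟩ := f.symm.surjective k
    have h3 := congrFun h1 l
    have h4 := congrArg (fun q : ℝ[X] => q.coeff j) h3
    simp only [finsetSum_coeff, coeff_C_mul, coeff_X_pow, Pi.zero_apply, coeff_zero] at h4
    rw [Finset.sum_eq_single j] at h4
    · simpa using h4
    · intro i _ hi
      rw [if_neg (fun hh => hi (Fin.ext hh.symm)), mul_zero]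
    · simp

theorem sum_vx {m n : ℕ} (g : ι → ℝ → ℝ) (eqv : Fin m ≃ ι × h) (ξ : h → ℝ) (D : ℕ)
    (f : Fin n ≃ Fin (D + 1) × ι) (p : Fin m → ℤ[X]) (hp : ∀ i, (p i).natDegree ≤ D) (t : ℝ) :
    ∑ i, (aeval t (p i)) * vx g eqv ξ i t =
      comb (wD g D f) (fun k => ∑ e, ((p (eqv.symm ((f k).2, e))).coeff (f k).1 : ℝ) * ξ e) t := by
  classical
  simp only [comb, wD]
  rw [← Equiv.sum_comp f.symm, ← Equiv.sum_comp eqv.symm, Fintype.sum_prod_type, Fintype.sum_prod_type_right]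
  refine Finset.sum_congr rfl fun l _ => ?_
  simp only [Equiv.apply_symm_apply]
  have h1 : ∀ e : h, aeval t (p (eqv.symm (l, e))) * vx g eqv ξ (eqv.symm (l, e)) t =
      ∑ j : Fin (D + 1), ((p (eqv.symm (l, e))).coeff j : ℝ) * ξ e * (t ^ (j : ℕ) * g l t) := by
    intro e
    rw [aeval_eq_sum_range' (Nat.lt_succ_of_le (hp _)), ← Fin.sum_univ_eq_sum_range
      (fun j => (p (eqv.symm (l, e))).coeff j • t ^ j), Finset.sum_mul]
    refine Finset.sum_congr rfl fun j _ => ?_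
    simp only [vx, Equiv.apply_symm_apply, zsmul_eq_mul]
    ring
  simp only [h1]
  rw [Finset.sum_comm]
  refine Finset.sum_congr rfl fun j _ => ?_
  rw [Finset.sum_mul]

theorem fam_vx {m : ℕ} (g : ι → ℝ → ℝ) (a b : ℝ) (hab : a < b) (han : ∀ l, AnalyticOnNhd ℝ (g l) (Icc a b))
    (hg : RIndep g a b) (eqv : Fin m ≃ ι × h) : Fam a b (Set.range fun ξ : h → ℝ => vx g eqv ξ) := by
  classical
  intro D
  refine ⟨_, wD g D (Fintype.equivFin (Fin (D + 1) × ι)).symm, good_wD g a b hab han hg D _, ?_⟩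
  rintro v ⟨ξ, rfl⟩ p hp
  exact ⟨_, fun t _ => sum_vx g eqv ξ D _ p hp t⟩

/-- measure for the constants at the scale `T` -/
def ScaleMeas (ξ : h → ℝ) (κ B T : ℝ) : Prop :=
  ∀ c : h → ℤ, c ≠ 0 → (∀ e, |(c e : ℝ)| ≤ T ^ κ) → T ^ (-B) ≤ |∑ e, (c e : ℝ) * ξ e|

theorem meas_vx (hlow : T_low) {m : ℕ} (g : ι → ℝ → ℝ) (a b : ℝ) (hab : a < b)
    (han : ∀ l, AnalyticOnNhd ℝ (g l) (Icc a b))
    (hg : RIndep g a b) (eqv : Fin m ≃ ι × h) (D : ℕ) :
    ∃ T0 : ℝ, 1 ≤ T0 ∧ ∀ κ B T : ℝ, T0 ≤ T → ∀ ξ : h → ℝ, ScaleMeas ξ κ B T →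
      MeasT (vx g eqv ξ) a b D κ (B + 1) T := by
  classical
  obtain ⟨N, c, hc, hlow'⟩ := hlow a b _ (wD g D (Fintype.equivFin (Fin (D + 1) × ι)).symm)
    (good_wD g a b hab han hg D _)
  have hba : 0 < b - a := by linarith
  refine ⟨max 1 (1 / (c * (b - a) ^ N)), le_max_left _ _, ?_⟩
  intro κ B T hT ξ hξ p hp hpD hpc
  have hT1 : 1 ≤ T := (le_max_left _ _).trans hT
  have hTp : 0 < T := by linarith
  have hTc : 1 ≤ T * (c * (b - a) ^ N) := by
    have := (le_max_right _ _).trans hT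
    rwa [div_le_iff₀ (by positivity)] at this
  set f := (Fintype.equivFin (Fin (D + 1) × ι)).symm with hf
  set x : _ → ℝ := (fun k => ∑ e, ((p (eqv.symm ((f k).2, e))).coeff (f k).1 : ℝ) * ξ e) with hx
  obtain ⟨t0, ht0, hlow0⟩ := hlow' x a b le_rfl hab le_rfl
  refine ⟨t0, ht0, ?_⟩
  rw [sum_vx g eqv ξ D f p hpD t0]
  refine le_trans ?_ hlow0
  -- the coefficient
  obtain ⟨i, hi⟩ : ∃ i, p i ≠ 0 := by
    by_contra hcon
    push Not at hcon
    exact hp (funext hcon)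
  obtain ⟨j, hj⟩ : ∃ j, (p i).coeff j ≠ 0 := by
    by_contra hcon
    push Not at hcon
    exact hi (Polynomial.ext (by simpa using hcon))
  have hjD : j < D + 1 := by
    by_contra hcon
    exact hj (coeff_eq_zero_of_natDegree_lt (lt_of_le_of_lt (hpD i) (by omega)))
  have h1 := hξ (fun e => (p (eqv.symm ((eqv i).1, e))).coeff j) (by
    intro hcon
    have := congrFun hcon (eqv i).2
    simp only [Prod.mk.eta, Equiv.symm_apply_apply, Pi.zero_apply] at this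
    exact hj this) (fun e => hpc _ _)
  have h2 : x (f.symm (⟨j, hjD⟩, (eqv i).1)) =
      ∑ e, (((p (eqv.symm ((eqv i).1, e))).coeff j : ℤ) : ℝ) * ξ e := by
    simp only [hx, Equiv.apply_symm_apply]
  have h3 : T ^ (-B) ≤ ‖x‖ := by
    refine h1.trans ?_
    rw [← h2, ← Real.norm_eq_abs]
    exact norm_le_pi_norm x _
  calc T ^ (-(B + 1)) = T⁻¹ * T ^ (-B) := by
        rw [← Real.rpow_neg_one T, ← Real.rpow_add hTp]
        congr 1
        ring
    _ ≤ (c * (b - a) ^ N) * ‖x‖ := by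
        refine mul_le_mul ?_ h3 (by positivity) (by positivity)
        rw [inv_le_iff_one_le_mul₀' hTp]
        exact hTc

/-- the exceptional set for given constants -/
def ExcC (g : ι → ℝ → ℝ) (a b A B T : ℝ) (ξ : h → ℝ) : Set ℚ :=
  {q : ℚ | (q : ℝ) ∈ Icc a b ∧ (q.den : ℝ) ≤ T ∧
    ∃ c : ι × h → ℤ, c ≠ 0 ∧ (∀ l, |(c l : ℝ)| ≤ T ^ A) ∧ |∑ l, (c l : ℝ) * (ξ l.2 * g l.1 q)| ≤ T ^ (-B)}

theorem uniform (hbd : T_bd) (hlow : T_low) (htay : T_taylor) (hdet : T_det2) (harith : T_arith)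
    (haux : T_aux2) (g : ι → ℝ → ℝ) (a b : ℝ) (hab : a < b) (han : ∀ l, AnalyticOnNhd ℝ (g l) (Icc a b))
    (hg : RIndep g a b) (A β : ℝ) (hA : 0 ≤ A) (M : ℕ) (hM : Fintype.card ι * Fintype.card h = M)
    (hβ : 2 * (M : ℝ) / (M + 1) < β) :
    ∃ κ C : ℝ, 0 < C ∧ ∀ B1 : ℝ, ∃ B T0 : ℝ, 1 ≤ T0 ∧ ∀ T : ℝ, T0 ≤ T → ∀ ξ : h → ℝ, ScaleMeas ξ κ B1 T →
      (ExcC g a b A B T ξ).Finite ∧ ((ExcC g a b A B T ξ).ncard : ℝ) ≤ C * T ^ β := by
  classical
  have hcard : Fintype.card (ι × h) = M := by rw [Fintype.card_prod, hM]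
  let eqv : Fin M ≃ ι × h := (Fintype.equivFinOfCardEq hcard).symm
  obtain ⟨D', κ', C, hC, hU⟩ := theoremU hbd hlow htay hdet harith haux a b hab _
    (fam_vx g a b hab han hg eqv) A β hA hβ
  obtain ⟨T1, hT1, hmeas⟩ := meas_vx hlow g a b hab han hg eqv D'
  refine ⟨κ', C, hC, fun B1 => ?_⟩
  obtain ⟨B, T0, hT0, hfin⟩ := hU (B1 + 1)
  refine ⟨B, max T0 T1, le_max_of_le_left hT0, fun T hT ξ hξ => ?_⟩
  have h1 := hfin T ((le_max_left _ _).trans hT) (vx g eqv ξ) ⟨ξ, rfl⟩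
    (hmeas κ' B1 T ((le_max_right _ _).trans hT) ξ hξ)
  have h2 : ExcC g a b A B T ξ = Exc (vx g eqv ξ) a b A B T := by
    ext q
    simp only [ExcC, Exc, Set.mem_ofPred_eq]
    refine and_congr_right fun _ => and_congr_right fun _ => ?_
    constructor
    · rintro ⟨c, hc0, hc, hcs⟩
      refine ⟨fun i => c (eqv i), ?_, fun l => hc _, ?_⟩
      · intro hcon
        apply hc0
        funext l
        have := congrFun hcon (eqv.symm l)
        simpa using this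
      · rw [← Equiv.sum_comp eqv] at hcs
        exact hcs
    · rintro ⟨c, hc0, hc, hcs⟩
      refine ⟨fun l => c (eqv.symm l), ?_, fun l => hc _, ?_⟩
      · intro hcon
        apply hc0
        funext l
        have := congrFun hcon (eqv l)
        simpa using this
      · rw [← Equiv.sum_comp eqv]
        simp only [Equiv.symm_apply_apply]
        exact hcs
  rw [h2]
  exact h1

end Pool.Agent.TH818.AP
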