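import Pool.Agent.TH818.AP.UniZ
import Pool.Agent.TH818.AP.Unif

/-!
# Approximate relations at integral points with varying constants
-/

set_option autoImplicit false

open Set Polynomial Filter Topology

namespace Pool.Agent.TH818.AP

open Pool.Agent.TH818.AR

variable {ι h : Type} [Fintype ι] [Fintype h]

/-- triangular matrices (for the rank function `rk`) with diagonal entries at least `1` in absolute value -/
def Tri (rk : ι → ℕ) (τ : ι → ι → ℝ) : Prop :=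
  (∀ l, 1 ≤ |τ l l|) ∧ ∀ l l', l ≠ l' → rk l ≤ rk l' → τ l l' = 0

/-- the functions `ξ_e ∑_{l'} τ_{l,l'} g_{l'}` -/
def vt {m : ℕ} (g : ι → ℝ → ℝ) (eqv : Fin m ≃ ι × h) (τ : ι → ι → ℝ) (ξ : h → ℝ) (i : Fin m) (t : ℝ) : ℝ :=
  ξ (eqv i).2 * ∑ l', τ (eqv i).1 l' * g l' t

theorem sum_vt {m n : ℕ} (g : ι → ℝ → ℝ) (eqv : Fin m ≃ ι × h) (τ : ι → ι → ℝ) (ξ : h → ℝ) (D : ℕ)
    (f : Fin n ≃ Fin (D + 1) × ι) (p : Fin m → ℤ[X]) (hp : ∀ i, (p i).natDegree ≤ D) (t : ℝ) :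
    ∑ i, (aeval t (p i)) * vt g eqv τ ξ i t =
      comb (wD g D f) (fun k => ∑ l, ∑ e, ((p (eqv.symm (l, e))).coeff (f k).1 : ℝ) * ξ e * τ l (f k).2) t := by
  classical
  simp only [comb, wD]
  rw [← Equiv.sum_comp f.symm, ← Equiv.sum_comp eqv.symm, Fintype.sum_prod_type, Fintype.sum_prod_type_right]
  simp only [Equiv.apply_symm_apply]
  have h1 : ∀ (l : ι) (e : h), aeval t (p (eqv.symm (l, e))) * vt g eqv τ ξ (eqv.symm (l, e)) t =
      ∑ l', ∑ j : Fin (D + 1), ((p (eqv.symm (l, e))).coeff j : ℝ) * ξ e * τ l l' * (t ^ (j : ℕ) * g l' t) := by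
    intro l e
    rw [aeval_eq_sum_range' (Nat.lt_succ_of_le (hp _)), ← Fin.sum_univ_eq_sum_range
      (fun j => (p (eqv.symm (l, e))).coeff j • t ^ j)]
    simp only [vt, Equiv.apply_symm_apply, zsmul_eq_mul, Finset.mul_sum, Finset.sum_mul]
    refine Finset.sum_congr rfl fun l' _ => Finset.sum_congr rfl fun j _ => ?_
    ring
  simp only [h1, Finset.sum_mul]
  -- both sides are sums over l, e, l', j
  calc ∑ l, ∑ e, ∑ l', ∑ j : Fin (D + 1),
        ((p (eqv.symm (l, e))).coeff j : ℝ) * ξ e * τ l l' * (t ^ (j : ℕ) * g l' t)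
      = ∑ l, ∑ l', ∑ e, ∑ j : Fin (D + 1),
        ((p (eqv.symm (l, e))).coeff j : ℝ) * ξ e * τ l l' * (t ^ (j : ℕ) * g l' t) := by
        refine Finset.sum_congr rfl fun l _ => ?_
        rw [Finset.sum_comm]
    _ = ∑ l', ∑ l, ∑ e, ∑ j : Fin (D + 1),
        ((p (eqv.symm (l, e))).coeff j : ℝ) * ξ e * τ l l' * (t ^ (j : ℕ) * g l' t) := Finset.sum_comm
    _ = ∑ l', ∑ j : Fin (D + 1), ∑ l, ∑ e,
        ((p (eqv.symm (l, e))).coeff j : ℝ) * ξ e * τ l l' * (t ^ (j : ℕ) * g l' t) := by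
        refine Finset.sum_congr rfl fun l' _ => ?_
        rw [Finset.sum_comm]
        conv_rhs => rw [Finset.sum_comm]
        rw [Finset.sum_comm]
        refine Finset.sum_congr rfl fun l _ => ?_
        rw [Finset.sum_comm]

theorem fam_vt {m : ℕ} (g : ι → ℝ → ℝ) (a b : ℝ) (hab : a < b) (han : ∀ l, AnalyticOnNhd ℝ (g l) (Icc a b))
    (hg : RIndep g a b) (eqv : Fin m ≃ ι × h) :
    Fam a b (Set.range fun y : (ι → ι → ℝ) × (h → ℝ) => vt g eqv y.1 y.2) := by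
  classical
  intro D
  refine ⟨_, wD g D (Fintype.equivFin (Fin (D + 1) × ι)).symm, good_wD g a b hab han hg D _, ?_⟩
  rintro v ⟨y, rfl⟩ p hp
  exact ⟨_, fun t _ => sum_vt g eqv y.1 y.2 D _ p hp t⟩

theorem meas_vt (hlow : T_low) {m : ℕ} (g : ι → ℝ → ℝ) (a b : ℝ) (hab : a < b)
    (han : ∀ l, AnalyticOnNhd ℝ (g l) (Icc a b))
    (hg : RIndep g a b) (rk : ι → ℕ) (eqv : Fin m ≃ ι × h) (D : ℕ) :
    ∃ T0 : ℝ, 1 ≤ T0 ∧ ∀ κ B T : ℝ, T0 ≤ T → ∀ τ : ι → ι → ℝ, Tri rk τ → ∀ ξ : h → ℝ, ScaleMeas ξ κ B T →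
      MeasT (vt g eqv τ ξ) a b D κ (B + 1) T := by
  classical
  obtain ⟨N, c, hc, hlow'⟩ := hlow a b _ (wD g D (Fintype.equivFin (Fin (D + 1) × ι)).symm)
    (good_wD g a b hab han hg D _)
  have hba : 0 < b - a := by linarith
  refine ⟨max 1 (1 / (c * (b - a) ^ N)), le_max_left _ _, ?_⟩
  intro κ B T hT τ hτ ξ hξ p hp hpD hpc
  have hT1 : 1 ≤ T := (le_max_left _ _).trans hT
  have hTp : 0 < T := by linarith
  have hTc : 1 ≤ T * (c * (b - a) ^ N) := by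
    have := (le_max_right _ _).trans hT
    rwa [div_le_iff₀ (by positivity)] at this
  set f := (Fintype.equivFin (Fin (D + 1) × ι)).symm with hf
  set x : _ → ℝ := (fun k => ∑ l, ∑ e, ((p (eqv.symm (l, e))).coeff (f k).1 : ℝ) * ξ e * τ l (f k).2) with hx
  obtain ⟨t0, ht0, hlow0⟩ := hlow' x a b le_rfl hab le_rfl
  refine ⟨t0, ht0, ?_⟩
  rw [sum_vt g eqv τ ξ D f p hpD t0]
  refine le_trans ?_ hlow0
  -- the index of largest rank
  obtain ⟨i, hi⟩ : ∃ i, p i ≠ 0 := by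
    by_contra hcon
    push Not at hcon
    exact hp (funext hcon)
  set S : Finset (Fin m) := Finset.univ.filter fun i => p i ≠ 0 with hS
  have hSne : S.Nonempty := ⟨i, by simp [hS, hi]⟩
  obtain ⟨i0, hi0S, hi0max⟩ := S.exists_max_image (fun i => rk (eqv i).1) hSne
  have hi0 : p i0 ≠ 0 := by simpa [hS] using hi0S
  obtain ⟨j, hj⟩ : ∃ j, (p i0).coeff j ≠ 0 := by
    by_contra hcon
    push Not at hcon
    exact hi0 (Polynomial.ext (by simpa using hcon))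
  have hjD : j < D + 1 := by
    by_contra hcon
    exact hj (coeff_eq_zero_of_natDegree_lt (lt_of_le_of_lt (hpD i0) (by omega)))
  set l0 := (eqv i0).1 with hl0
  have h1 := hξ (fun e => (p (eqv.symm (l0, e))).coeff j) (by
    intro hcon
    have := congrFun hcon (eqv i0).2
    simp only [hl0, Prod.mk.eta, Equiv.symm_apply_apply, Pi.zero_apply] at this
    exact hj this) (fun e => hpc _ _)
  have h2 : x (f.symm (⟨j, hjD⟩, l0)) =
      (∑ e, (((p (eqv.symm (l0, e))).coeff j : ℤ) : ℝ) * ξ e) * τ l0 l0 := by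
    simp only [hx, Equiv.apply_symm_apply]
    rw [Finset.sum_eq_single l0]
    · rw [Finset.sum_mul]
    · intro l _ hl
      rw [← Finset.sum_mul]
      rcases le_or_gt (rk l) (rk l0) with hle | hgt
      · rw [hτ.2 l l0 hl hle, mul_zero]
      · have h0 : ∀ e, p (eqv.symm (l, e)) = 0 := by
          intro e
          by_contra hne
          have := hi0max (eqv.symm (l, e)) (by simp [hS, hne])
          simp only [Equiv.apply_symm_apply] at this
          omega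
        simp [h0]
    · simp
  have h3 : T ^ (-B) ≤ ‖x‖ := by
    have h4 : |x (f.symm (⟨j, hjD⟩, l0))| ≤ ‖x‖ := by
      rw [← Real.norm_eq_abs]
      exact norm_le_pi_norm x _
    rw [h2, abs_mul] at h4
    refine le_trans ?_ h4
    have h5 := hτ.1 l0
    calc T ^ (-B) ≤ |∑ e, (((p (eqv.symm (l0, e))).coeff j : ℤ) : ℝ) * ξ e| := h1
      _ = |∑ e, (((p (eqv.symm (l0, e))).coeff j : ℤ) : ℝ) * ξ e| * 1 := (mul_one _).symm
      _ ≤ _ := by gcongr
  calc T ^ (-(B + 1)) = T⁻¹ * T ^ (-B) := by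
        rw [← Real.rpow_neg_one T, ← Real.rpow_add hTp]
        congr 1
        ring
    _ ≤ (c * (b - a) ^ N) * ‖x‖ := by
        refine mul_le_mul ?_ h3 (by positivity) (by positivity)
        rw [inv_le_iff_one_le_mul₀' hTp]
        exact hTc

/-- the exceptional set for given constants -/
def ExcCZ (g : ι → ℝ → ℝ) (a b A B : ℝ) (N : ℕ) (T : ℝ) (τ : ι → ι → ℝ) (ξ : h → ℝ) : Set ℚ :=
  {q : ℚ | (q : ℝ) ∈ Icc a b ∧ Dn N q ∧ ∃ c : ι × h → ℤ, c ≠ 0 ∧ (∀ l, |(c l : ℝ)| ≤ T ^ A) ∧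
    |∑ l, (c l : ℝ) * (ξ l.2 * ∑ l', τ l.1 l' * g l' q)| ≤ T ^ (-B)}

theorem uniformZ (hbd : T_bd) (hlow : T_low) (htay : T_taylor) (hdet : T_det2)
    (haux : T_aux2) (g : ι → ℝ → ℝ) (a b : ℝ) (hab : a < b) (han : ∀ l, AnalyticOnNhd ℝ (g l) (Icc a b))
    (hg : RIndep g a b) (rk : ι → ℕ) (A β : ℝ) (hA : 0 ≤ A) (M : ℕ)
    (hM : Fintype.card ι * Fintype.card h = M) (hβ : (M : ℝ) / (M + 1) < β) :
    ∃ κ C : ℝ, 0 < C ∧ ∀ B1 : ℝ, ∃ B T0 : ℝ, 1 ≤ T0 ∧ ∀ (N : ℕ) (T : ℝ), T = N → T0 ≤ T →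
      ∀ τ : ι → ι → ℝ, Tri rk τ → ∀ ξ : h → ℝ, ScaleMeas ξ κ B1 T →
      (ExcCZ g a b A B N T τ ξ).Finite ∧ ((ExcCZ g a b A B N T τ ξ).ncard : ℝ) ≤ C * T ^ β := by
  classical
  have hcard : Fintype.card (ι × h) = M := by rw [Fintype.card_prod, hM]
  let eqv : Fin M ≃ ι × h := (Fintype.equivFinOfCardEq hcard).symm
  obtain ⟨D', κ', C, hC, hU⟩ := theoremZ hbd hlow htay hdet arithZ haux a b hab _
    (fam_vt g a b hab han hg eqv) A β hA hβ
  obtain ⟨T1, hT1, hmeas⟩ := meas_vt hlow g a b hab han hg rk eqv D'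
  refine ⟨κ', C, hC, fun B1 => ?_⟩
  obtain ⟨B, T0, hT0, hfin⟩ := hU (B1 + 1)
  refine ⟨B, max T0 T1, le_max_of_le_left hT0, fun N T hTN hT τ hτ ξ hξ => ?_⟩
  have h1 := hfin N T hTN ((le_max_left _ _).trans hT) (vt g eqv τ ξ) ⟨(τ, ξ), rfl⟩
    (hmeas κ' B1 T ((le_max_right _ _).trans hT) τ hτ ξ hξ)
  have h2 : ExcCZ g a b A B N T τ ξ = ExcZ (vt g eqv τ ξ) a b A B N T := by
    ext q
    simp only [ExcCZ, ExcZ, Set.mem_ofPred_eq]
    refine and_congr_right fun _ => and_congr_right fun _ => ?_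
    constructor
    · rintro ⟨c, hc0, hc, hcs⟩
      refine ⟨fun i => c (eqv i), ?_, fun l => hc _, ?_⟩
      · intro hcon
        apply hc0
        funext l
        have := congrFun hcon (eqv.symm l)
        simpa using this
      · rw [← Equiv.sum_comp eqv] at hcs
        exact hcs
    · rintro ⟨c, hc0, hc, hcs⟩
      refine ⟨fun l => c (eqv.symm l), ?_, fun l => hc _, ?_⟩
      · intro hcon
        apply hc0
        funext l
        have := congrFun hcon (eqv l)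
        simpa using this
      · rw [← Equiv.sum_comp eqv]
        simp only [Equiv.symm_apply_apply]
        exact hcs
  rw [h2]
  exact h1

end Pool.Agent.TH818.AP
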