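import Pool.Agent.H667R3.W6
import Pool.Agent.TH818.AP.Api

/-!
# Independence of `u`, `℘(u)`, `ζ(u)`
-/

set_option autoImplicit false

open Set Polynomial Filter Topology
open scoped PeriodPair

namespace Pool.Agent.TH818.AP

open H667R3

/-- Legendre's relation, in the form that the quasi-periods are not proportional to the periods -/
theorem legendre_ne (L : PeriodPair) : eta L L.ω₁ * L.ω₂ - eta L L.ω₂ * L.ω₁ ≠ 0 := by
  intro h0
  have hw1 : L.ω₁ ∈ L.lattice := L.ω₁_mem_lattice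
  have hw2 : L.ω₂ ∈ L.lattice := L.ω₂_mem_lattice
  have hn1 : L.ω₁ ≠ 0 := by
    intro h
    apply L.ω₁_div_two_notMem_lattice
    rw [h, zero_div]
    exact zero_mem _
  set c := eta L L.ω₁ / L.ω₁ with hc
  have he1 : eta L L.ω₁ = c * L.ω₁ := by rw [hc]; field_simp
  have he2 : eta L L.ω₂ = c * L.ω₂ := by
    rw [hc]
    field_simp
    linear_combination -h0
  set g : ℂ → ℂ := fun z => sigma L z * Complex.exp (-(c * z ^ 2 / 2)) with hg
  have hshift : ∀ l ∈ L.lattice, l / 2 ∉ L.lattice → eta L l = c * l → ∀ z, g (z + l) = - g z := by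
    intro l hl hl2 he z
    obtain ⟨C, hC, hs⟩ := sigma_add_coe L hl
    have hC' : C = - Complex.exp (c * l ^ 2 / 2) := by
      have h1 := hs (-(l / 2))
      have h2 : -(l / 2) + l = l / 2 := by ring
      rw [h2, sigma_neg, he] at h1
      have h3 := sigma_ne_zero L hl2
      have h4 : Complex.exp (c * l ^ 2 / 2) * Complex.exp (c * l * -(l / 2)) = 1 := by
        rw [← Complex.exp_add, ← Complex.exp_zero]
        congr 1
        ring
      have h5 : 1 = - (C * Complex.exp (c * l * -(l / 2))) := by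
        have : sigma L (l / 2) * 1 = sigma L (l / 2) * (- (C * Complex.exp (c * l * -(l / 2)))) := by
          linear_combination h1
        exact mul_left_cancel₀ h3 this
      have h6 := Complex.exp_ne_zero (c * l * -(l / 2))
      apply mul_right_cancel₀ h6
      linear_combination h5 + h4
    simp only [hg]
    rw [hs z, hC', he]
    have h7 : Complex.exp (c * l ^ 2 / 2) * Complex.exp (c * l * z) * Complex.exp (-(c * (z + l) ^ 2 / 2)) =
        Complex.exp (-(c * z ^ 2 / 2)) := by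
      rw [← Complex.exp_add, ← Complex.exp_add]
      congr 1
      ring
    linear_combination (-sigma L z) * h7
  have hg1 := hshift _ hw1 L.ω₁_div_two_notMem_lattice he1
  have hg2 := hshift _ hw2 L.ω₂_div_two_notMem_lattice he2
  set h : ℂ → ℂ := fun z => g z ^ 2 with hh
  have hp1 : Function.Periodic h L.ω₁ := fun z => by simp only [hh, hg1]; ring
  have hp2 : Function.Periodic h L.ω₂ := fun z => by simp only [hh, hg2]; ring
  have hper : ∀ z, ∀ l ∈ L.lattice, h (z + l) = h z := by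
    intro z l hl
    obtain ⟨m, n, rfl⟩ := PeriodPair.mem_lattice.1 hl
    have h1 := (hp1.int_mul m) z
    have h2 := (hp2.int_mul n) (z + m * L.ω₁)
    rw [← add_assoc, h2, h1]
  have hdiff : Differentiable ℂ h := by
    have := differentiable_sigma L
    simp only [hh, hg]
    fun_prop
  have hconst := eq_of_periodic L h (fun z _ => hdiff z) (fun z _ l hl => hper z l hl) h (hdiff 0)
    (Eventually.of_forall fun _ => rfl)
  have hlim : Tendsto h (𝓝[≠] 0) (𝓝 (h 0)) := (hdiff 0).continuousAt.tendsto.mono_left nhdsWithin_le_nhds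
  have hev : ∀ᶠ z in 𝓝[≠] (0 : ℂ), h z = h (L.ω₁ / 2) := by
    have h1 : ∀ᶠ z in 𝓝[≠] (0 : ℂ), z ∉ L.lattice := by
      filter_upwards [self_mem_nhdsWithin, mem_nhdsWithin_of_mem_nhds
        (L.compl_lattice_sdiff_singleton_mem_nhds 0)] with w hw hw'
      exact fun hwl => hw' ⟨hwl, hw⟩
    filter_upwards [h1] with z hz
    exact hconst z _ hz L.ω₁_div_two_notMem_lattice
  have h00 : h 0 = h (L.ω₁ / 2) := tendsto_nhds_unique hlim ((tendsto_congr' hev).2 tendsto_const_nhds)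
  have h01 : h 0 = 0 := by simp [hh, hg, sigma_zero]
  have h02 : h (L.ω₁ / 2) ≠ 0 := by
    simp only [hh, hg]
    exact pow_ne_zero _ (mul_ne_zero (sigma_ne_zero L L.ω₁_div_two_notMem_lattice) (Complex.exp_ne_zero _))
  exact h02 (h00.symm.trans h01)

/-- a polynomial in two variables, given by its coefficients, vanishing on a translated lattice of rank two in `ℂ²` -/
theorem grid_zero (D : ℕ) (c : Fin (D + 1) → Fin (D + 1) → ℂ) (z w a₁ a₂ b₁ b₂ : ℂ) (hdet : b₁ * a₂ - b₂ * a₁ ≠ 0)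
    (h : ∀ m n : ℤ, ∑ i, ∑ j, c i j * (z + (m * a₁ + n * a₂)) ^ (i : ℕ) * (w + (m * b₁ + n * b₂)) ^ (j : ℕ) = 0) :
    ∀ X Y : ℂ, ∑ i, ∑ j, c i j * X ^ (i : ℕ) * Y ^ (j : ℕ) = 0 := by
  have key : ∀ P : ℂ[X], (∀ m : ℤ, P.eval (m : ℂ) = 0) → P = 0 := by
    intro P hP
    refine Polynomial.eq_zero_of_infinite_isRoot P ?_
    refine Set.Infinite.mono (s := Set.range fun m : ℤ => (m : ℂ)) ?_ ?_
    · rintro _ ⟨m, rfl⟩
      exact hP m
    · exact Set.infinite_range_of_injective Int.cast_injective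
  have h1 : ∀ (n : ℤ) (s : ℂ),
      ∑ i, ∑ j, c i j * (z + (s * a₁ + n * a₂)) ^ (i : ℕ) * (w + (s * b₁ + n * b₂)) ^ (j : ℕ) = 0 := by
    intro n s
    have := key (∑ i : Fin (D + 1), ∑ j : Fin (D + 1), C (c i j) * (C (z + n * a₂) + C a₁ * X) ^ (i : ℕ) *
      (C (w + n * b₂) + C b₁ * X) ^ (j : ℕ)) (by
        intro m
        have := h m n
        simp only [eval_finsetSum, eval_mul, eval_pow, eval_add, eval_C, eval_X]
        have e1 : z + n * a₂ + a₁ * m = z + (m * a₁ + n * a₂) := by ring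
        have e2 : w + n * b₂ + b₁ * m = w + (m * b₁ + n * b₂) := by ring
        rw [e1, e2]
        exact this)
    have h2 := congrArg (Polynomial.eval s) this
    simp only [eval_finsetSum, eval_mul, eval_pow, eval_add, eval_C, eval_X, eval_zero] at h2
    have e1 : z + n * a₂ + a₁ * s = z + (s * a₁ + n * a₂) := by ring
    have e2 : w + n * b₂ + b₁ * s = w + (s * b₁ + n * b₂) := by ring
    rw [e1, e2] at h2
    exact h2
  have h2 : ∀ (t s : ℂ),
      ∑ i, ∑ j, c i j * (z + (s * a₁ + t * a₂)) ^ (i : ℕ) * (w + (s * b₁ + t * b₂)) ^ (j : ℕ) = 0 := by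
    intro t s
    have := key (∑ i : Fin (D + 1), ∑ j : Fin (D + 1), C (c i j) * (C (z + s * a₁) + C a₂ * X) ^ (i : ℕ) *
      (C (w + s * b₁) + C b₂ * X) ^ (j : ℕ)) (by
        intro m
        have := h1 m s
        simp only [eval_finsetSum, eval_mul, eval_pow, eval_add, eval_C, eval_X]
        have e1 : z + s * a₁ + a₂ * m = z + (s * a₁ + m * a₂) := by ring
        have e2 : w + s * b₁ + b₂ * m = w + (s * b₁ + m * b₂) := by ring
        rw [e1, e2]
        exact this)
    have h2 := congrArg (Polynomial.eval t) this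
    simp only [eval_finsetSum, eval_mul, eval_pow, eval_add, eval_C, eval_X, eval_zero] at h2
    have e1 : z + s * a₁ + a₂ * t = z + (s * a₁ + t * a₂) := by ring
    have e2 : w + s * b₁ + b₂ * t = w + (s * b₁ + t * b₂) := by ring
    rw [e1, e2] at h2
    exact h2
  intro X Y
  have := h2 ((b₁ * (X - z) - a₁ * (Y - w)) / (b₁ * a₂ - b₂ * a₁)) ((a₂ * (Y - w) - b₂ * (X - z)) / (b₁ * a₂ - b₂ * a₁))
  have e1 : z + ((a₂ * (Y - w) - b₂ * (X - z)) / (b₁ * a₂ - b₂ * a₁) * a₁ +
      (b₁ * (X - z) - a₁ * (Y - w)) / (b₁ * a₂ - b₂ * a₁) * a₂) = X := by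
    rw [div_mul_eq_mul_div, div_mul_eq_mul_div, ← add_div,
      show (a₂ * (Y - w) - b₂ * (X - z)) * a₁ + (b₁ * (X - z) - a₁ * (Y - w)) * a₂ =
        (X - z) * (b₁ * a₂ - b₂ * a₁) by ring, mul_div_cancel_right₀ _ hdet]
    ring
  have e2 : w + ((a₂ * (Y - w) - b₂ * (X - z)) / (b₁ * a₂ - b₂ * a₁) * b₁ +
      (b₁ * (X - z) - a₁ * (Y - w)) / (b₁ * a₂ - b₂ * a₁) * b₂) = Y := by
    rw [div_mul_eq_mul_div, div_mul_eq_mul_div, ← add_div,
      show (a₂ * (Y - w) - b₂ * (X - z)) * b₁ + (b₁ * (X - z) - a₁ * (Y - w)) * b₂ =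
        (Y - w) * (b₁ * a₂ - b₂ * a₁) by ring, mul_div_cancel_right₀ _ hdet]
    ring
  rw [e1, e2] at this
  exact this

/-- if a polynomial in two variables vanishes everywhere its coefficients are zero -/
theorem coeff_zero2 (D : ℕ) (c : Fin (D + 1) → Fin (D + 1) → ℂ)
    (h : ∀ X Y : ℂ, ∑ i, ∑ j, c i j * X ^ (i : ℕ) * Y ^ (j : ℕ) = 0) : c = 0 := by
  have one : ∀ b : Fin (D + 1) → ℂ, (∀ X : ℂ, ∑ i, b i * X ^ (i : ℕ) = 0) → ∀ i, b i = 0 := by
    intro b hb i
    have hP : (∑ i : Fin (D + 1), C (b i) * Polynomial.X ^ (i : ℕ) : ℂ[X]) = 0 := by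
      apply Polynomial.funext
      intro x
      simp only [eval_finsetSum, eval_mul, eval_pow, eval_C, eval_X, eval_zero]
      exact hb x
    have h2 := congrArg (fun P : ℂ[X] => P.coeff (i : ℕ)) hP
    simp only [finsetSum_coeff, coeff_C_mul, coeff_X_pow, coeff_zero] at h2
    rw [Finset.sum_eq_single i] at h2
    · simpa using h2
    · intro j _ hji
      rw [if_neg (fun h => hji (Fin.ext h.symm)), mul_zero]
    · intro hi
      exact absurd (Finset.mem_univ _) hi
  funext i j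
  refine one (c i) (fun Y => ?_) j
  refine one (fun i => ∑ j, c i j * Y ^ (j : ℕ)) (fun X => ?_) i
  refine Eq.trans ?_ (h X Y)
  refine Finset.sum_congr rfl fun i _ => ?_
  rw [Finset.sum_mul]
  refine Finset.sum_congr rfl fun j _ => ?_
  ring

/-- the functions `u` and `ζ(u)` are algebraically independent over the field of `℘` -/
theorem uz (L : PeriodPair) (d : ℕ) (a : Fin (d + 1) → Fin (d + 1) → ℂ[X]) (u0 : ℂ) (hu0 : u0 ∉ L.lattice)
    (h : ∃ᶠ u in 𝓝[≠] u0, ∑ i, ∑ j, (a i j).eval (℘[L] u) * u ^ (i : ℕ) * zeta L u ^ (j : ℕ) = 0) : a = 0 := by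
  have han : AnalyticOnNhd ℂ (fun u => ∑ i, ∑ j, (a i j).eval (℘[L] u) * u ^ (i : ℕ) * zeta L u ^ (j : ℕ))
      (L.lattice : Set ℂ)ᶜ := by
    intro u hu
    have h1 : AnalyticAt ℂ ℘[L] u := L.analyticOnNhd_weierstrassP u hu
    have h2 : AnalyticAt ℂ (zeta L) u := ((differentiableOn_zeta L).analyticOnNhd (isOpen_compl L)) u hu
    refine Finset.analyticAt_fun_sum _ fun i _ => Finset.analyticAt_fun_sum _ fun j _ => ?_
    refine AnalyticAt.mul (AnalyticAt.mul ?_ (analyticAt_id.pow _)) (h2.pow _)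
    exact AnalyticAt.comp ((AnalyticOnNhd.eval_polynomial (𝕜 := ℂ) (a i j)) _ (Set.mem_univ _)) h1
  have hz := han.eqOn_zero_of_preconnected_of_frequently_eq_zero (isPreconnected_compl L) hu0 h
  funext i j
  apply Polynomial.funext
  intro v
  obtain ⟨u, hu, rfl⟩ := exists_wp_eq L v
  have hg := grid_zero d (fun i j => (a i j).eval (℘[L] u)) u (zeta L u) L.ω₁ L.ω₂ (eta L L.ω₁) (eta L L.ω₂)
    (legendre_ne L) (by
      intro m n
      have hm : (m : ℂ) * L.ω₁ ∈ L.lattice := intCast_mul_mem L L.ω₁_mem_lattice m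
      have hn : (n : ℂ) * L.ω₂ ∈ L.lattice := intCast_mul_mem L L.ω₂_mem_lattice n
      have hl : (m : ℂ) * L.ω₁ + n * L.ω₂ ∈ L.lattice := add_mem hm hn
      have hu' : u + (m * L.ω₁ + n * L.ω₂) ∉ L.lattice := fun h => hu ((add_mem_iff L hl).1 h)
      have h1 := hz hu'
      simp only [Pi.zero_apply] at h1
      have h2 : ℘[L] (u + (m * L.ω₁ + n * L.ω₂)) = ℘[L] u := L.weierstrassP_add_coe u ⟨_, hl⟩
      rw [zeta_add_coe L hu hl, eta_add L hm hn, eta_zsmul L L.ω₁_mem_lattice, eta_zsmul L L.ω₂_mem_lattice, h2] at h1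
      exact h1)
  have hc := coeff_zero2 d _ hg
  have := congrFun (congrFun hc i) j
  simpa using this

/-- the function `u` is transcendental over the field of `ζ(u)` -/
theorem zz (L : PeriodPair) (d : ℕ) (a : Fin (d + 1) → ℂ[X]) (u0 : ℂ) (hu0 : u0 ∉ L.lattice)
    (h : ∃ᶠ u in 𝓝[≠] u0, ∑ i, (a i).eval (zeta L u) * u ^ (i : ℕ) = 0) : a = 0 := by
  have han : AnalyticOnNhd ℂ (fun u => ∑ i, (a i).eval (zeta L u) * u ^ (i : ℕ)) (L.lattice : Set ℂ)ᶜ := by
    intro u hu
    have h2 : AnalyticAt ℂ (zeta L) u := ((differentiableOn_zeta L).analyticOnNhd (isOpen_compl L)) u hu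
    refine Finset.analyticAt_fun_sum _ fun i _ => ?_
    refine AnalyticAt.mul ?_ (analyticAt_id.pow _)
    exact AnalyticAt.comp ((AnalyticOnNhd.eval_polynomial (𝕜 := ℂ) (a i)) _ (Set.mem_univ _)) h2
  have hz := han.eqOn_zero_of_preconnected_of_frequently_eq_zero (isPreconnected_compl L) hu0 h
  obtain ⟨D, hD, hdeg⟩ : ∃ D : ℕ, d ≤ D ∧ ∀ i, (a i).natDegree ≤ D := by
    refine ⟨max d (Finset.univ.sup fun i => (a i).natDegree), le_max_left _ _, fun i => ?_⟩
    exact (Finset.le_sup (f := fun i => (a i).natDegree) (Finset.mem_univ i)).trans (le_max_right _ _)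
  set b : Fin (D + 1) → ℂ[X] := fun i => if h : (i : ℕ) < d + 1 then a ⟨i, h⟩ else 0 with hb
  have hbdeg : ∀ i, (b i).natDegree ≤ D := by
    intro i
    simp only [hb]
    split_ifs with h
    · exact hdeg _
    · simp
  have hsum : ∀ x y : ℂ, ∑ i : Fin (D + 1), ∑ j : Fin (D + 1), (b i).coeff (j : ℕ) * x ^ (i : ℕ) * y ^ (j : ℕ) =
      ∑ i : Fin (d + 1), (a i).eval y * x ^ (i : ℕ) := by
    intro x y
    have h1 : ∀ i : Fin (D + 1), ∑ j : Fin (D + 1), (b i).coeff (j : ℕ) * x ^ (i : ℕ) * y ^ (j : ℕ) =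
        (b i).eval y * x ^ (i : ℕ) := by
      intro i
      rw [eval_eq_sum_range' (Nat.lt_succ_of_le (hbdeg i)), ← Fin.sum_univ_eq_sum_range
        (fun j => (b i).coeff j * y ^ j), Finset.sum_mul]
      refine Finset.sum_congr rfl fun j _ => ?_
      ring
    simp only [h1]
    rw [Fin.sum_univ_eq_sum_range (fun i => (if h : i < d + 1 then a ⟨i, h⟩ else 0 : ℂ[X]).eval y * x ^ i) (D + 1)]
    rw [← Finset.sum_subset (Finset.range_subset_range.2 (by omega : d + 1 ≤ D + 1)) (fun i _ hi => by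
      rw [Finset.mem_range] at hi
      rw [dif_neg hi]
      simp)]
    rw [← Fin.sum_univ_eq_sum_range (fun i => (if h : i < d + 1 then a ⟨i, h⟩ else 0 : ℂ[X]).eval y * x ^ i)]
    refine Finset.sum_congr rfl fun i _ => ?_
    rw [dif_pos i.isLt]
  have hu := L.ω₁_div_two_notMem_lattice
  have hg := grid_zero D (fun i j => (b i).coeff (j : ℕ)) (L.ω₁ / 2) (zeta L (L.ω₁ / 2)) L.ω₁ L.ω₂ (eta L L.ω₁)
    (eta L L.ω₂) (legendre_ne L) (by
      intro m n
      have hm : (m : ℂ) * L.ω₁ ∈ L.lattice := intCast_mul_mem L L.ω₁_mem_lattice m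
      have hn : (n : ℂ) * L.ω₂ ∈ L.lattice := intCast_mul_mem L L.ω₂_mem_lattice n
      have hl : (m : ℂ) * L.ω₁ + n * L.ω₂ ∈ L.lattice := add_mem hm hn
      have hu' : L.ω₁ / 2 + (m * L.ω₁ + n * L.ω₂) ∉ L.lattice := fun h => hu ((add_mem_iff L hl).1 h)
      have h1 := hz hu'
      simp only [Pi.zero_apply] at h1
      rw [zeta_add_coe L hu hl, eta_add L hm hn, eta_zsmul L L.ω₁_mem_lattice, eta_zsmul L L.ω₂_mem_lattice] at h1
      rw [hsum]
      exact h1)
  have hc := coeff_zero2 D _ hg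
  funext i
  ext k
  rw [Pi.zero_apply, coeff_zero]
  by_cases hk : k < D + 1
  · have := congrFun (congrFun hc ⟨i, by omega⟩) ⟨k, hk⟩
    have h3 : b ⟨i, by omega⟩ = a i := by
      simp only [hb]
      rw [dif_pos i.isLt]
    rw [h3] at this
    exact this
  · exact coeff_eq_zero_of_natDegree_lt (lt_of_le_of_lt (hdeg i) (by omega))

end Pool.Agent.TH818.AP
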